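import Mathlib

/-! Polarization, a twisted derivation and a homology comparison lemma. -/

namespace Pool.Agent.H46.Cf

open Submodule Module

section Alg
variable {A : Type} [CommRing A] [Algebra ℝ A]

theorem span_pow (U : Submodule ℝ A) (n : ℕ) :
    span ℝ ((fun l => l ^ n) '' (U : Set A)) = U ^ n := by
  apply le_antisymm
  · rw [span_le]; rintro _ ⟨l, hl, rfl⟩; exact pow_mem_pow U hl n
  induction n with
  | zero =>
    rw [pow_zero, Submodule.one_le]
    exact subset_span ⟨0, U.zero_mem, pow_zero _⟩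
  | succ n ih =>
    rw [pow_succ, Submodule.mul_le]
    intro x hx a ha
    have hx' := ih hx
    clear hx
    induction hx' using span_induction with
    | zero => simp
    | add x y _ _ h1 h2 => rw [add_mul]; exact add_mem h1 h2
    | smul c x _ h => rw [smul_mul_assoc]; exact smul_mem _ _ h
    | mem x hx =>
      obtain ⟨b, hb, rfl⟩ := hx
      by_contra hn
      obtain ⟨φ, h1, h2⟩ := exists_dual_map_eq_bot_of_notMem hn inferInstance
      let q : Polynomial ℝ := ∑ k ∈ Finset.range (n + 2),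
        Polynomial.monomial k (φ (a ^ k * b ^ (n + 1 - k) * ((n + 1).choose k : A)))
      have hq : q = 0 := by
        apply Polynomial.funext
        intro t
        have hm : (t • a + b) ^ (n + 1) ∈ span ℝ ((fun l => l ^ (n + 1)) '' (U : Set A)) :=
          subset_span ⟨_, U.add_mem (U.smul_mem t ha) hb, rfl⟩
        have h3 : φ ((t • a + b) ^ (n + 1)) = 0 := by
          rw [← mem_bot ℝ, ← h2]; exact mem_map_of_mem hm
        rw [add_pow, map_sum] at h3
        simp only [q, Polynomial.eval_finset_sum, Polynomial.eval_monomial, Polynomial.eval_zero]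
        rw [← h3]
        refine Finset.sum_congr rfl fun k _ => ?_
        rw [smul_pow, smul_mul_assoc, smul_mul_assoc, map_smul, smul_eq_mul, mul_comm]
      have h4 := congrArg (fun q => q.coeff 1) hq
      simp only [q, Polynomial.finset_sum_coeff, Polynomial.coeff_monomial, Finset.sum_ite_eq',
        Finset.mem_range, Polynomial.coeff_zero] at h4
      rw [if_pos (by omega)] at h4
      have h5 : a ^ 1 * b ^ (n + 1 - 1) * ((n + 1).choose 1 : A) = ((n + 1 : ℕ) : ℝ) • (b ^ n * a) := by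
        rw [Nat.cast_smul_eq_nsmul]; simp; ring
      rw [h5, map_smul, smul_eq_mul] at h4
      exact h1 ((mul_eq_zero.1 h4).resolve_left (by positivity))

/-- The twisted derivation `f ↦ n f - E f`. -/
noncomputable def D (E : Derivation ℝ A A) (n : ℕ) : A →ₗ[ℝ] A :=
  (n : ℝ) • LinearMap.id - E.toLinearMap

variable (E : Derivation ℝ A A) (ev : A →ₐ[ℝ] ℝ) (U : Submodule ℝ A)

theorem D_mul (n : ℕ) (l g : A) (hl : E l = l - algebraMap ℝ A (ev l)) :
    D E (n + 1) (l * g) = ev l • g + l * D E n g := by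
  simp [D, hl, Algebra.smul_def]; ring

theorem D_pow (n : ℕ) (l : A) (hl : E l = l - algebraMap ℝ A (ev l)) :
    D E (n + 1) (l ^ (n + 1)) = ((n + 1) * ev l) • l ^ n := by
  simp [D, hl, Algebra.smul_def, Derivation.leibniz_pow]; ring

theorem D_zero (g : A) (hg : g ∈ U ^ 0) : D E 0 g = 0 := by
  rw [pow_zero, mem_one] at hg
  obtain ⟨c, rfl⟩ := hg
  simp [D]

variable (hU : ∀ l ∈ U, E l = l - algebraMap ℝ A (ev l))
include hU

theorem D_maps (n : ℕ) (f : A) (hf : f ∈ U ^ (n + 1)) : D E (n + 1) f ∈ U ^ n := by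
  rw [← span_pow] at hf
  induction hf using span_induction with
  | zero => simp
  | add x y _ _ h1 h2 => rw [map_add]; exact add_mem h1 h2
  | smul c x _ h => rw [map_smul]; exact smul_mem _ _ h
  | mem x hx =>
    obtain ⟨b, hb, rfl⟩ := hx
    rw [D_pow E ev n b (hU b hb)]
    exact smul_mem _ _ (pow_mem_pow U hb n)

theorem D_ker (h0 : ∀ l ∈ U, ev l = 0) (n : ℕ) (f : A) (hf : f ∈ U ^ n) : D E n f = 0 := by
  rcases n with _ | n
  · exact D_zero E U f hf
  rw [← span_pow] at hf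
  induction hf using span_induction with
  | zero => simp
  | add x y _ _ h1 h2 => rw [map_add, h1, h2, add_zero]
  | smul c x _ h => rw [map_smul, h, smul_zero]
  | mem x hx =>
    obtain ⟨b, hb, rfl⟩ := hx
    rw [D_pow E ev n b (hU b hb), h0 b hb]; simp

variable (l0 : A) (h0 : l0 ∈ U) (h1 : ev l0 = 1)
include h0 h1

theorem D_surj (n : ℕ) (g : A) (hg : g ∈ U ^ n) : ∃ f ∈ U ^ (n + 1), D E (n + 1) f = g := by
  rw [← span_pow] at hg
  induction hg using span_induction with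
  | zero => exact ⟨0, zero_mem _, map_zero _⟩
  | add x y _ _ h1 h2 =>
    obtain ⟨a, ha, rfl⟩ := h1
    obtain ⟨b, hb, rfl⟩ := h2
    exact ⟨a + b, add_mem ha hb, map_add _ _ _⟩
  | smul c x _ h =>
    obtain ⟨a, ha, rfl⟩ := h
    exact ⟨c • a, smul_mem _ _ ha, map_smul _ _ _⟩
  | mem x hx =>
    obtain ⟨b, hb, rfl⟩ := hx
    by_cases hc : ev b = 0
    · refine ⟨l0 * b ^ n, by rw [pow_succ']; exact mul_mem_mul h0 (pow_mem_pow U hb n), ?_⟩
      have : D E n (b ^ n) = 0 := by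
        rcases n with _ | n
        · simp [D]
        · rw [D_pow E ev n b (hU b hb), hc]; simp
      rw [D_mul E ev n _ _ (hU _ h0), h1, this]; simp
    · refine ⟨((n + 1) * ev b)⁻¹ • b ^ (n + 1), smul_mem _ _ (pow_mem_pow U hb _), ?_⟩
      rw [map_smul, D_pow E ev n b (hU b hb), smul_smul, inv_mul_cancel₀ (by positivity), one_smul]

theorem D_inj (n : ℕ) : ∀ a : ℝ, 0 < a → ∀ g ∈ U ^ n, a • g + l0 * D E n g = 0 → g = 0 := by
  induction n with
  | zero =>
    intro a ha g hg h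
    rw [D_zero E U g hg, mul_zero, add_zero] at h
    exact (smul_eq_zero.1 h).resolve_left ha.ne'
  | succ n ih =>
    intro a ha g hg h
    have h2 := congrArg (D E (n + 1)) h
    rw [map_add, map_smul, D_mul E ev n _ _ (hU _ h0), h1, map_zero, ← add_assoc, ← add_smul] at h2
    have h3 := ih _ (by positivity) _ (D_maps E ev U hU n g hg) h2
    rw [h3, mul_zero, add_zero] at h
    exact (smul_eq_zero.1 h).resolve_left ha.ne'

theorem D_exact (U0 : Submodule ℝ A) (hU0 : ∀ l, l ∈ U0 ↔ l ∈ U ∧ ev l = 0) (n : ℕ) (f : A)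
    (hf : f ∈ U ^ (n + 1)) (hD : D E (n + 1) f = 0) : f ∈ U0 ^ (n + 1) := by
  have dec : ∃ g ∈ U0 ^ (n + 1), ∃ h ∈ U ^ n, f = g + l0 * h := by
    clear hD
    rw [← span_pow] at hf
    induction hf using span_induction with
    | zero => exact ⟨0, zero_mem _, 0, zero_mem _, by simp⟩
    | add x y _ _ h1 h2 =>
      obtain ⟨a, ha, a', ha', rfl⟩ := h1
      obtain ⟨b, hb, b', hb', rfl⟩ := h2
      exact ⟨a + b, add_mem ha hb, a' + b', add_mem ha' hb', by ring⟩
    | smul c x _ h =>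
      obtain ⟨a, ha, a', ha', rfl⟩ := h
      exact ⟨c • a, smul_mem _ _ ha, c • a', smul_mem _ _ ha', by simp⟩
    | mem x hx =>
      obtain ⟨b, hb, rfl⟩ := hx
      have hm : b - ev b • l0 ∈ U := sub_mem hb (smul_mem _ _ h0)
      refine ⟨(b - ev b • l0) ^ (n + 1), pow_mem_pow _ ((hU0 _).2 ⟨hm, by simp [h1]⟩) _,
        ev b • ∑ i ∈ Finset.range (n + 1), b ^ i * (b - ev b • l0) ^ (n + 1 - 1 - i),
        smul_mem _ _ (sum_mem fun i hi => ?_), ?_⟩
      · have : n = i + (n + 1 - 1 - i) := by have := Finset.mem_range.1 hi; omega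
        have h3 := mul_mem_mul (pow_mem_pow U hb i) (pow_mem_pow U hm (n + 1 - 1 - i))
        rwa [← pow_add, ← this] at h3
      · have := geom_sum₂_mul b (b - ev b • l0) (n + 1)
        simp only [Algebra.smul_def] at this ⊢
        linear_combination -this
  obtain ⟨g, hg, h, hh, rfl⟩ := dec
  rw [map_add, D_ker E ev U0 (fun l hl => hU l ((hU0 l).1 hl).1) (fun l hl => ((hU0 l).1 hl).2) _ g hg,
    zero_add, D_mul E ev n _ _ (hU _ h0), h1] at hD
  rw [D_inj E ev U hU l0 h0 h1 n 1 one_pos h hh hD]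
  simpa using hg

end Alg

section Hom
variable {V : Type} [AddCommGroup V] [Module ℝ V]

/-- Dimension of `(C ∩ ker d) / d C'`. -/
noncomputable def hdim (d : V →ₗ[ℝ] V) (C C' : Submodule ℝ V) : ℕ :=
  finrank ℝ (↥(C ⊓ LinearMap.ker d) ⧸ (C'.map d).submoduleOf (C ⊓ LinearMap.ker d))

theorem hdim_eq (d F : V →ₗ[ℝ] V) (A A' B B' : Submodule ℝ V)
    (hF : ∀ b ∈ B, F b ∈ A) (hF' : ∀ b ∈ B', F b ∈ A') (hc : ∀ b ∈ B, F (d b) = d (F b))
    (hc' : ∀ b ∈ B', F (d b) = d (F b))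
    (hS : ∀ a ∈ A, d a = 0 → ∃ b ∈ B, d b = 0 ∧ F b = a)
    (hJ : ∀ z ∈ B, d z = 0 → F z ∈ A'.map d → z ∈ B'.map d) : hdim d A A' = hdim d B B' := by
  let G : ↥(B ⊓ LinearMap.ker d) →ₗ[ℝ] ↥(A ⊓ LinearMap.ker d) := F.restrict fun b hb =>
    ⟨hF b hb.1, by
      have := hb.2
      rw [SetLike.mem_coe, LinearMap.mem_ker] at this ⊢
      rw [← hc b hb.1, this, map_zero]⟩
  let Φ := ((A'.map d).submoduleOf (A ⊓ LinearMap.ker d)).mkQ ∘ₗ G
  have hs : Function.Surjective Φ := by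
    refine (mkQ_surjective _).comp fun a => ?_
    obtain ⟨b, hb, h1, h2⟩ := hS a.1 a.2.1 a.2.2
    exact ⟨⟨b, hb, h1⟩, Subtype.ext h2⟩
  have hk : LinearMap.ker Φ = (B'.map d).submoduleOf (B ⊓ LinearMap.ker d) := by
    ext z
    simp only [Φ, LinearMap.mem_ker, LinearMap.comp_apply, mkQ_apply, Quotient.mk_eq_zero]
    constructor
    · exact fun h => hJ z.1 z.2.1 z.2.2 h
    · rintro ⟨b, hb, h⟩
      refine ⟨F b, hF' b hb, ?_⟩
      rw [← hc' b hb, h]; rfl
  unfold hdim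
  rw [← hk]
  exact (Φ.quotKerEquivOfSurjective hs).finrank_eq.symm

theorem hdim_lt (d F : V →ₗ[ℝ] V) (A B : Submodule ℝ V) (hB : B.FG)
    (hF : ∀ b ∈ B, F b ∈ A) (hc : ∀ b ∈ B, F (d b) = d (F b))
    (hS : ∀ a ∈ A, d a = 0 → ∃ b ∈ B, d b = 0 ∧ F b = a)
    (z : V) (hz : z ∈ B) (h1 : d z = 0) (h2 : F z = 0) (h3 : z ≠ 0) :
    hdim d A ⊥ < hdim d B ⊥ := by
  have e : ∀ C : Submodule ℝ V, hdim d C ⊥ = finrank ℝ ↥(C ⊓ LinearMap.ker d) := by
    intro C
    have : ((⊥ : Submodule ℝ V).map d).submoduleOf (C ⊓ LinearMap.ker d) = ⊥ := by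
      simp [submoduleOf]
    exact (quotEquivOfEqBot _ this).finrank_eq
  rw [e, e]
  let G : ↥(B ⊓ LinearMap.ker d) →ₗ[ℝ] ↥(A ⊓ LinearMap.ker d) := F.restrict fun b hb =>
    ⟨hF b hb.1, by
      have := hb.2
      rw [SetLike.mem_coe, LinearMap.mem_ker] at this ⊢
      rw [← hc b hb.1, this, map_zero]⟩
  have : Module.Finite ℝ B := Module.Finite.iff_fg.2 hB
  have : Module.Finite ℝ ↥(B ⊓ LinearMap.ker d) := Submodule.finiteDimensional_of_le inf_le_left
  have hs : LinearMap.range G = ⊤ := by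
    rw [LinearMap.range_eq_top]
    intro a
    obtain ⟨b, hb, h1, h2⟩ := hS a.1 a.2.1 a.2.2
    exact ⟨⟨b, hb, h1⟩, Subtype.ext h2⟩
  have h4 := G.finrank_range_add_finrank_ker
  rw [hs, finrank_top] at h4
  have h5 : finrank ℝ (LinearMap.ker G) ≠ 0 := by
    rw [Ne, Submodule.finrank_eq_zero]
    intro h
    have : (⟨z, hz, h1⟩ : ↥(B ⊓ LinearMap.ker d)) ∈ LinearMap.ker G := Subtype.ext h2
    rw [h, mem_bot] at this
    exact h3 (congrArg Subtype.val this)
  omega

end Hom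

end Pool.Agent.H46.Cf
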