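import Mathlib

set_option autoImplicit false

namespace Pool.Agent.H46.DTw

open UpperHalfPlane hiding I continuous_im
open Complex Real Set Filter ZMod Asymptotics
open scoped MatrixGroups ModularForm

noncomputable def F (z : ℂ) : ℂ := CuspForm.discriminant (ofComplex z)

noncomputable def tau (n : ℕ) : ℂ := (qExpansion 1 CuspForm.discriminant).coeff n

lemma mob {a b c d : ℤ} (h : a * d - b * c = 1) {z : ℂ} (hz : 0 < z.im) :
    F ((a * z + b) / (c * z + d)) = (c * z + d) ^ 12 * F z := by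
  let γ : SL(2, ℤ) := ⟨!![a, b; c, d], by rw [Matrix.det_fin_two_of, h]⟩
  have e : ((γ • (⟨z, hz⟩ : ℍ) : ℍ) : ℂ) = (a * z + b) / (c * z + d) := by
    rw [coe_specialLinearGroup_apply]; simp [γ]
  have := SlashInvariantForm.slash_action_eqn' (Γ := 𝒮ℒ) CuspForm.discriminant
    (γ := (γ : GL (Fin 2) ℝ)) ⟨γ, rfl⟩ ⟨z, hz⟩
  rw [F, F, ← e, ofComplex_apply, ofComplex_apply_of_im_pos hz]
  refine this.trans ?_
  simp [γ]

lemma F_has {z : ℂ} (hz : 0 < z.im) :
    HasSum (fun n : ℕ => tau n * cexp (2 * π * I * n * z)) (F z) := by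
  have := ModularForm.hasSum_qExpansion CuspForm.discriminant (h := 1) one_pos
    one_mem_strictPeriods_SL ⟨z, hz⟩
  rw [F, ofComplex_apply_of_im_pos hz]
  refine this.congr_fun fun n => ?_
  rw [tau, Function.Periodic.qParam, ← Complex.exp_nat_mul]
  congr 2
  simp; ring

lemma F_big {α : Type*} {l : Filter α} {g : α → ℂ} (h : Tendsto (fun x => (g x).im) l atTop) :
    (fun x => F (g x)) =O[l] fun x => rexp (-2 * π * (g x).im) := by
  have e : ∀ᶠ x in l, (ofComplex (g x)).im = (g x).im := by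
    filter_upwards [h.eventually_gt_atTop 0] with x hx
    rw [ofComplex_apply_of_im_pos hx]; rfl
  have t : Tendsto (fun x => ofComplex (g x)) l atImInfty := by
    rw [atImInfty, tendsto_comap_iff]
    exact h.congr' (e.mono fun x hx => hx.symm)
  refine ((CuspFormClass.exp_decay_atImInfty CuspForm.discriminant (h := 1) one_pos
    one_mem_strictPeriods_SL).comp_tendsto t).congr' EventuallyEq.rfl (e.mono fun x hx => ?_)
  simp [hx]

lemma F_diff {z : ℂ} (hz : 0 < z.im) : DifferentiableAt ℂ F z :=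
  (UpperHalfPlane.mdifferentiable_iff.mp CuspForm.discriminant.holo').differentiableAt
    ((isOpen_lt continuous_const continuous_im).mem_nhds hz)

variable {q : ℕ} [NeZero q]

noncomputable def G (ψ : DirichletCharacter ℂ q) (z : ℂ) : ℂ :=
  ∑ u : ZMod q, ψ u * F ((z + u.val) / q)

lemma im_pos {z : ℂ} (hz : 0 < z.im) (u : ℕ) : 0 < ((z + u) / q).im := by
  have : (0 : ℝ) < q := by exact_mod_cast NeZero.pos q
  rw [div_natCast_im]; simpa using div_pos hz this

lemma G_fe {ψ : DirichletCharacter ℂ q} (h2 : ψ.IsQuadratic) {z : ℂ} (hz : 0 < z.im) :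
    G ψ (-z⁻¹) = ψ (-1) * z ^ 12 * G ψ z := by
  have q0 : (q : ℂ) ≠ 0 := by exact_mod_cast NeZero.ne q
  have z0 : z ≠ 0 := by rintro rfl; simp at hz
  have un : ∀ w : ℂ, G ψ w = ∑ r : (ZMod q)ˣ, ψ r * F ((w + (r : ZMod q).val) / q) := fun w =>
    (Fintype.sum_of_injective Units.val Units.val_injective _ _
      (fun r hr => by rw [ψ.map_nonunit fun ⟨u, e⟩ => hr ⟨u, e⟩, zero_mul]) fun _ => rfl).symm
  rw [un, un, Finset.mul_sum, ← Equiv.sum_comp ((Equiv.inv _).trans (Equiv.neg _))
    (fun r : (ZMod q)ˣ => ψ (-1) * z ^ 12 * _)]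
  refine Finset.sum_congr rfl fun r _ => ?_
  simp only [Equiv.trans_apply, Equiv.inv_apply, Equiv.neg_apply]
  set r' : (ZMod q)ˣ := -r⁻¹ with hr'
  have e1 : (r * r' : ZMod q) = -1 := by simp [hr']
  have e2 : ψ r = ψ (-1) * ψ r' := by
    have b : ψ r' ^ 2 = 1 := by
      rcases h2 r' with h | h | h
      · exact absurd h (r'.isUnit.map ψ).ne_zero
      · simp [h]
      · simp [h]
    rw [← e1, map_mul]
    linear_combination (-ψ r) * b
  obtain ⟨k, hk⟩ : (q : ℤ) ∣ (r : ZMod q).val * (r' : ZMod q).val + 1 :=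
    (ZMod.intCast_zmod_eq_zero_iff_dvd _ q).mp (by
      push_cast; simp only [natCast_val, cast_id', id]; linear_combination e1)
  have := mob (a := (r : ZMod q).val) (b := -k) (c := q) (d := -(r' : ZMod q).val) (by linarith)
    (im_pos (q := q) hz (r' : ZMod q).val)
  have hk' : ((r : ZMod q).val * (r' : ZMod q).val + 1 : ℂ) = q * k := by exact_mod_cast hk
  push_cast at this
  rw [show (q : ℂ) * ((z + (r' : ZMod q).val) / q) + -(r' : ZMod q).val = z by field_simp; ring]
    at this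
  rw [e2, show (-z⁻¹ + (r : ZMod q).val) / q = ((r : ZMod q).val * ((z + (r' : ZMod q).val) / q)
    + -k) / z by field_simp; linear_combination -hk', this]
  ring

noncomputable def Tp (p : ℕ) (z : ℂ) : ℂ :=
  (p : ℂ) ^ 11 * F (p * z) + (∑ b ∈ Finset.range p, F ((z + b) / p)) / p

lemma pz {p : ℕ} (hp : p.Prime) (z : ℂ) (hz : 0 < z.im) : 0 < (p * z).im := by
  simpa using mul_pos (Nat.cast_pos.mpr hp.pos) hz

lemma hT {p : ℕ} (hp : p.Prime) :
    (fun τ : ℍ => Tp p τ) ∣[(12 : ℤ)] ModularGroup.T = fun τ : ℍ => Tp p τ := by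
  have : Fact p.Prime := ⟨hp⟩
  have p0 : (p : ℂ) ≠ 0 := by exact_mod_cast hp.ne_zero
  ext τ
  have a1 := mob (a := 1) (b := p) (c := 0) (d := 1) (by simp) (pz hp _ τ.im_pos)
  have a2 := mob (a := 1) (b := 1) (c := 0) (d := 1) (by simp) (im_pos (q := p) τ.im_pos 0)
  have a3 := (Finset.sum_range_succ (fun b => F ((τ + b) / p)) p).symm.trans
    (Finset.sum_range_succ' _ _)
  rw [ModularForm.SL_slash_apply, modular_T_smul]
  simp [ModularGroup.denom_apply, ModularGroup.T, Tp, add_div, mul_add, p0, add_comm,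
    add_left_comm] at *
  rw [a2] at a3
  rw [a1, add_left_cancel a3]

lemma hS {p : ℕ} (hp : p.Prime) :
    (fun τ : ℍ => Tp p τ) ∣[(12 : ℤ)] ModularGroup.S = fun τ : ℍ => Tp p τ := by
  have : Fact p.Prime := ⟨hp⟩
  have p0 : (p : ℂ) ≠ 0 := by exact_mod_cast hp.ne_zero
  ext τ
  have z0 := τ.ne_zero
  have sp : ∀ z : ℂ, ∑ b ∈ Finset.range p, F ((z + b) / p) =
      F (z / p) + G (1 : DirichletCharacter ℂ p) z := fun z => by
    rw [G, ← Finset.add_sum_erase _ _ (Finset.mem_univ 0), MulChar.map_zero, zero_mul, zero_add,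
      ← Finset.add_sum_erase _ _ (Finset.mem_range.mpr hp.pos), Nat.cast_zero, add_zero]
    congr 1
    refine (Finset.sum_bij (fun (u : ZMod p) _ => u.val) (by simp [val_lt]) (fun _ _ _ _ h =>
      val_injective _ h) (fun b hb => ⟨b, ?_⟩) fun u hu => ?_).symm
    · simp only [Finset.mem_erase, Finset.mem_range] at hb
      simp [val_natCast_of_lt hb.2, natCast_eq_zero_iff, Nat.not_dvd_of_pos_of_lt
        (Nat.pos_of_ne_zero hb.1) hb.2]
    · rw [MulChar.one_apply (Finset.ne_of_mem_erase hu).isUnit, one_mul]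
  have a1 := mob (a := 0) (b := -1) (c := 1) (d := 0) (by simp) (pz hp _ τ.im_pos)
  have a2 := mob (a := 0) (b := -1) (c := 1) (d := 0) (by simp) (im_pos (q := p) τ.im_pos 0)
  have a3 := G_fe (ψ := (1 : DirichletCharacter ℂ p)) (MulChar.isQuadratic_iff_sq_eq_one.mpr
    (one_pow 2)) τ.im_pos
  rw [ModularForm.SL_slash_apply, modular_S_smul, Tp, Tp, sp, sp]
  rw [MulChar.one_apply isUnit_one.neg] at a3
  simp only [Int.cast_zero, zero_mul, zero_add, Int.cast_one, one_mul, add_zero, Int.cast_neg,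
    Nat.cast_zero] at a1 a2 a3
  have e1 : (p : ℂ) * (-τ : ℂ)⁻¹ = -1 / (τ / p) := by field_simp
  have e2 : (-τ : ℂ)⁻¹ / p = -1 / (p * τ) := by field_simp
  simp only [ModularGroup.denom_S, e1, e2, a1, a2]
  rw [inv_neg, a3, zpow_neg, zpow_ofNat]
  field_simp
  ring

lemma hZ {p : ℕ} (hp : p.Prime) : IsZeroAtImInfty fun τ : ℍ => Tp p τ := by
  have p1 : (0 : ℝ) < p := by exact_mod_cast hp.pos
  have k : ∀ g : ℍ → ℂ, Tendsto (fun x => (g x).im) atImInfty atTop →
      Tendsto (fun x => F (g x)) atImInfty (nhds 0) := fun g h =>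
    (F_big h).trans_tendsto (Real.tendsto_exp_atBot.comp (h.const_mul_atTop_of_neg
      (by linarith [pi_pos])))
  have t : Tendsto (fun x : ℍ => x.im) atImInfty atTop := tendsto_comap
  have := ((k (fun x => p * x) (by simpa using t.const_mul_atTop p1)).const_mul
    ((p : ℂ) ^ 11)).add ((tendsto_finsetSum (Finset.range p) fun b _ =>
      k (fun x => (x + b) / p) (by simpa using t.atTop_div_const p1)).div_const p)
  rw [Finset.sum_const_zero, mul_zero, zero_div, add_zero] at this
  exact this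

noncomputable def TpF {p : ℕ} (hp : p.Prime) : CuspForm 𝒮ℒ 12 where
  toFun τ := Tp p τ
  slash_action_eq' A hA := by
    obtain ⟨A, rfl⟩ := hA
    exact SlashInvariantForm.slash_action_generators_SL2Z (hS hp) (hT hp) A
  holo' := by
    have : Fact p.Prime := ⟨hp⟩
    rw [UpperHalfPlane.mdifferentiable_iff]
    refine DifferentiableOn.congr (f := Tp p) (fun z hz => ?_) fun z hz => by
      simp [ofComplex_apply_of_im_pos hz]
    have d1 : DifferentiableAt ℂ (fun z => F (p * z)) z :=
      (F_diff (pz hp z hz)).comp z (f := fun z : ℂ => p * z) (by fun_prop)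
    have d2 : ∀ b : ℕ, DifferentiableAt ℂ (fun z => F ((z + b) / p)) z := fun b =>
      (F_diff (im_pos (q := p) hz b)).comp z (f := fun z : ℂ => (z + b) / p) (by fun_prop)
    exact ((d1.const_mul _).add ((DifferentiableAt.fun_sum fun b _ => d2 b).div_const
      _)).differentiableWithinAt
  zero_at_cusps' hc := by
    rw [OnePoint.isZeroAt_iff_forall_SL2Z hc]
    intro γ _
    rw [SlashInvariantForm.slash_action_generators_SL2Z (hS hp) (hT hp)]
    exact hZ hp

theorem hecke {p : ℕ} (hp : p.Prime) : ∃ c : ℂ, ∀ z : ℂ, 0 < z.im → Tp p z = c * F z := by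
  obtain ⟨c, hc⟩ := CuspForm.exists_smul_discriminant_of_weight_eq_twelve (TpF hp)
  refine ⟨c, fun z hz => ?_⟩
  have := DFunLike.congr_fun hc ⟨z, hz⟩
  rw [F, ofComplex_apply_of_im_pos hz]
  exact this.symm

lemma tau_summ {σ : ℝ} (h : 7 < σ) : Summable fun n : ℕ => ‖tau n‖ / (n : ℝ) ^ σ := by
  have b := CuspFormClass.qExpansion_isBigO CuspForm.discriminant
  rw [Subgroup.strictWidthInfty_SL2Z, show ((12 : ℤ) : ℝ) / 2 = 6 by norm_num] at b
  refine summable_of_isBigO_nat (Real.summable_nat_rpow.mpr (show 6 - σ < -1 by linarith))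
    ((b.norm_left.mul (isBigO_refl (fun n : ℕ => ((n : ℝ) ^ σ)⁻¹) _)).congr_right fun n => ?_)
  rw [Real.rpow_sub' n.cast_nonneg (by linarith), div_eq_mul_inv]

theorem twist {ψ : DirichletCharacter ℂ q} (h1 : ψ.IsPrimitive) (h2 : ψ.IsQuadratic) :
    ∃ L : ℂ → ℂ, Differentiable ℂ L ∧ (∀ s : ℂ, 3 / 2 < s.re →
      HasSum (fun n : ℕ => tau n * ψ n / (n : ℂ) ^ (s + 11 / 2)) (L s)) ∧
      (ψ (-1) = -1 → L (1 / 2) = 0) := by
  have q0 : (q : ℂ) ≠ 0 := by exact_mod_cast NeZero.ne q
  have q1 : (0 : ℝ) < q := by exact_mod_cast NeZero.pos q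
  have it : ∀ t : ℝ, 0 < t → 0 < (I * t).im := fun t ht => by simpa using ht
  have li : MeasureTheory.LocallyIntegrableOn (fun t : ℝ => G ψ (I * t)) (Ioi 0) := by
    refine ContinuousOn.locallyIntegrableOn (continuousOn_finsetSum _ fun u _ t ht => ?_)
      measurableSet_Ioi
    exact (((F_diff (im_pos (q := q) (it t ht) u.val)).continuousAt.comp
      (f := fun t : ℝ => (I * t + u.val) / q) (by fun_prop)).const_mul _).continuousWithinAt
  have tp : ∀ r : ℝ, (fun t : ℝ => G ψ (I * t) - 0) =O[atTop] (· ^ r) := fun r => by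
    simp only [sub_zero, G]
    refine IsBigO.fun_sum fun u _ => IsBigO.const_mul_left ?_ _
    generalize u.val = v
    refine ((F_big (g := fun t : ℝ => (I * t + v) / q) ?_).congr_right fun t => ?_).trans
        (isLittleO_exp_neg_mul_rpow_atTop (a := 2 * π / q) (by positivity) r).isBigO
    · simpa using tendsto_id.atTop_div_const q1
    · simp; ring
  let P : WeakFEPair ℂ := ⟨fun t => G ψ (I * t), fun t => G ψ (I * t), 12, ψ (-1), 0, 0, li, li,
    by norm_num, (isUnit_one.neg.map ψ).ne_zero, fun t ht => by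
      have : (t : ℂ) ≠ 0 := by exact_mod_cast ne_of_gt ht
      rw [show I * (1 / t : ℝ) = -(I * t)⁻¹ by push_cast; field_simp; simp, G_fe h2 (it t ht),
        mul_pow, show I ^ 12 = (I ^ 4) ^ 3 by ring, I_pow_four, smul_eq_mul]
      norm_cast; simp, tp, tp⟩
  have hP : IsStrongFEPair P := ⟨rfl, rfl⟩
  have g0 : gaussSum ψ stdAddChar ≠ 0 := fun h => by
    have : dft (ψ : ZMod q → ℂ) = 0 := funext fun k => by
      simp [h1.fourierTransform_eq_inv_mul_gaussSum, h]
    simpa using congrFun (dft.map_eq_zero_iff.mp this) 1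
  refine ⟨fun s => P.Λ (s + 11 / 2) * ((π : ℂ) ^ (s + 11 / 2) * (Gamma (s + 11 / 2))⁻¹ *
    ((2 / q : ℝ) : ℂ) ^ (s + 11 / 2) / gaussSum ψ stdAddChar), ?_, fun s hs => ?_, fun h => ?_⟩
  · refine (hP.differentiable_Λ.comp (by fun_prop)).mul (.div_const (.mul (.mul ?_
      (differentiable_one_div_Gamma.comp (by fun_prop))) ?_) _) <;>
      exact Differentiable.const_cpow (by fun_prop) (Or.inl (by simp [q0]))
  · have re : (s + 11 / 2).re = s.re + 11 / 2 := by simp
    have r0 : 0 < (s + 11 / 2).re := by linarith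
    have := hasSum_mellin_pi_mul₀ (a := fun n : ℕ => gaussSum ψ stdAddChar * (tau n * ψ n))
      (p := fun n => n * (2 / q)) (F := P.f) (fun _ => by positivity) r0 (fun t ht => ?_) ?_
    · rw [← hP.Λ_eq] at this
      refine (this.mul_right _).congr_fun fun n => ?_
      have g1 := Complex.Gamma_ne_zero_of_re_pos r0
      have g2 : ((2 / q : ℝ) : ℂ) ^ (s + 11 / 2) ≠ 0 := cpow_ne_zero_iff.mpr (Or.inl (by simp [q0]))
      have g3 : (π : ℂ) ^ (s + 11 / 2) ≠ 0 := cpow_ne_zero_iff.mpr (Or.inl (by simp))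
      rw [ofReal_mul, mul_cpow_ofReal_nonneg n.cast_nonneg (by positivity), cpow_neg,
        ofReal_natCast]
      generalize s + 11 / 2 = w at *
      field_simp
    · refine (hasSum_sum fun u _ => (F_has (im_pos (q := q) (it t ht) u.val)).mul_left
        (ψ u)).congr_fun fun n => ?_
      have e : ∀ r : ZMod q, cexp (2 * π * I * n * ((I * t + r.val) / q)) =
          stdAddChar ((n : ZMod q) * r) * rexp (-π * (n * (2 / q)) * t) := fun r => by
        rw [show (n : ZMod q) * r = ((n * (r.val : ℤ) : ℤ) : ZMod q) by simp, stdAddChar_coe,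
          ofReal_exp, ← Complex.exp_add]
        push_cast; congr 1; linear_combination (2 * π * n * t / q) * I_mul_I
      have d := gaussSum_mulShift_of_isPrimitive stdAddChar h1 (n : ZMod q)
      rw [h2.inv] at d
      split_ifs with h
      · have : n = 0 := by simpa [q1.ne'] using h
        have z : tau 0 = 0 := CuspFormClass.qExpansion_coeff_zero _ one_pos one_mem_strictPeriods_SL
        simp [this, z]
      · rw [mul_comm (tau n), ← mul_assoc, mul_comm _ (ψ n), ← d, gaussSum, Finset.sum_mul,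
          Finset.sum_mul]
        exact Finset.sum_congr rfl fun r _ => by rw [e, AddChar.mulShift_apply]; ring
    · refine ((tau_summ (σ := (s + 11 / 2).re) (by linarith)).mul_left
        (‖gaussSum ψ stdAddChar‖ / (2 / q) ^ (s + 11 / 2).re)).of_nonneg_of_le
        (fun n => by positivity) fun n => ?_
      rw [Real.mul_rpow n.cast_nonneg (by positivity), norm_mul, norm_mul, div_mul_div_comm,
        mul_comm ((2 / q : ℝ) ^ _)]
      gcongr
      exact mul_le_of_le_one_right (norm_nonneg _) (ψ.norm_le_one _)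
  · have := P.functional_equation 6
    have e : P.symm.Λ 6 = P.Λ 6 := by rw [hP.symm.Λ_eq, hP.Λ_eq]; rfl
    rw [e, show (P.k : ℂ) - 6 = 6 by simp only [P]; norm_num, show P.ε = -1 from h] at this
    have z : P.Λ 6 = 0 := by simp only [smul_eq_mul] at this; linear_combination this / 2
    simp only
    rw [show (1 / 2 + 11 / 2 : ℂ) = 6 by norm_num, z, zero_mul]

end Pool.Agent.H46.DTw
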