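import Mathlib

set_option autoImplicit false

namespace Pool.Agent.H46.FlowDefs

open MeasureTheory

/-- Completion times: `C t i j` is the completion time of the `i`-th scheduled task on machine
`j` (both counted from 1, and 0 at a zero index); `t i j` is the operation time of the
`(i + 1)`-st scheduled task on machine `j + 1`. -/
noncomputable def C (t : ℕ → ℕ → ℝ) : ℕ → ℕ → ℝ
  | 0, _ => 0
  | _ + 1, 0 => 0
  | i + 1, j + 1 => max (C t i (j + 1)) (C t (i + 1) j) + t i j

/-- Makespan of the schedule `π`; `T j i` is the operation time of task `i` on machine `j`. -/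
noncomputable def makespan (m n : ℕ) (T : Fin m → Fin n → ℝ) (π : Equiv.Perm (Fin n)) : ℝ :=
  C (fun i j => if h : i < n ∧ j < m then T ⟨j, h.2⟩ (π ⟨i, h.1⟩) else 0) n m

/-- Optimal makespan: the minimum over all schedules. -/
noncomputable def optMakespan (m n : ℕ) (T : Fin m → Fin n → ℝ) : ℝ :=
  ⨅ π : Equiv.Perm (Fin n), makespan m n T π

/-- Law of the array of `m n` independent operation times with common law `μ`. -/
noncomputable def law (m n : ℕ) (μ : Measure ℝ) : Measure (Fin m → Fin n → ℝ) :=
  Measure.pi fun _ => Measure.pi fun _ => μ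

end Pool.Agent.H46.FlowDefs
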