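import Mathlib

set_option autoImplicit false

namespace Pool.Agent.H46.Steinitz

open Finset

variable {ι : Type} [DecidableEq ι] {m : ℕ}

def Good (v : ι → Fin m → ℝ) (A : Finset ι) (t : ℝ) (l : ι → ℝ) : Prop :=
  (∀ i ∈ A, 0 ≤ l i ∧ l i ≤ 1) ∧ ∑ i ∈ A, l i = t ∧ ∀ j, ∑ i ∈ A, l i * v i j = 0

lemma relation (v : ι → Fin m → ℝ) (F : Finset ι) (h : m + 1 < F.card) :
    ∃ g : ι → ℝ, (∀ i, i ∉ F → g i = 0) ∧ (∃ i ∈ F, g i ≠ 0) ∧ ∑ i ∈ F, g i = 0 ∧
      ∀ j, ∑ i ∈ F, g i * v i j = 0 := by
  let w : F → (Option (Fin m) → ℝ) := fun i o => o.elim 1 (v i)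
  have hn : ¬ LinearIndependent ℝ w := by
    intro hl
    have := hl.fintype_card_le_finrank
    simp at this
    omega
  obtain ⟨g, hg, i0, hi0⟩ := Fintype.not_linearIndependent_iff.mp hn
  refine ⟨fun i => if hi : i ∈ F then g ⟨i, hi⟩ else 0, fun i hi => by simp [hi],
    ⟨i0, i0.2, by simpa using hi0⟩, ?_, fun j => ?_⟩
  · have := congrFun hg none
    simp only [Finset.sum_apply, Pi.smul_apply, w, Option.elim, smul_eq_mul, mul_one,
      Pi.zero_apply] at this
    rw [← Finset.sum_coe_sort F]
    simpa using this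
  · have := congrFun hg (some j)
    simp only [Finset.sum_apply, Pi.smul_apply, w, Option.elim, smul_eq_mul,
      Pi.zero_apply] at this
    rw [← Finset.sum_coe_sort F]
    simpa using this

lemma few_frac (v : ι → Fin m → ℝ) (A : Finset ι) (t : ℝ) (k : ℕ) :
    ∀ l, Good v A t l → (A.filter fun i => 0 < l i ∧ l i < 1).card ≤ k →
      ∃ l', Good v A t l' ∧ (A.filter fun i => 0 < l' i ∧ l' i < 1).card ≤ m + 1 := by
  induction k with
  | zero => intro l hl hc; exact ⟨l, hl, by omega⟩
  | succ k ih =>
    intro l hl hc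
    by_cases hm : (A.filter fun i => 0 < l i ∧ l i < 1).card ≤ m + 1
    · exact ⟨l, hl, hm⟩
    set F := A.filter fun i => 0 < l i ∧ l i < 1 with hF
    obtain ⟨g, g0, ⟨i1, hi1, hg1⟩, gs, gv⟩ := relation v F (by omega)
    let r : ι → ℝ := fun i => if 0 < g i then (1 - l i) / g i else l i / (-g i)
    obtain ⟨i0, hi0, hmin⟩ := Finset.exists_min_image (F.filter fun i => g i ≠ 0) r
      ⟨i1, by simp [hi1, hg1]⟩
    rw [Finset.mem_filter] at hi0
    have hi0F := Finset.mem_filter.mp hi0.1
    have hr0 : 0 ≤ r i0 := by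
      simp only [r]
      split_ifs with h
      · exact div_nonneg (by linarith [hi0F.2.2]) h.le
      · exact div_nonneg hi0F.2.1.le (by linarith)
    have hFA : F ⊆ A := Finset.filter_subset _ _
    have ext : ∀ f : ι → ℝ, ∑ i ∈ A, g i * f i = ∑ i ∈ F, g i * f i := fun f =>
      (Finset.sum_subset hFA fun i _ hi => by simp [g0 i hi]).symm
    refine ih (fun i => l i + r i0 * g i) ⟨fun i hi => ?_, ?_, fun j => ?_⟩ ?_
    · by_cases hg : g i = 0
      · simpa [hg] using hl.1 i hi
      have hiF : i ∈ F := by
        by_contra hc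
        exact hg (g0 i hc)
      have hm := hmin i (by simp [hiF, hg])
      have hb := hl.1 i hi
      by_cases hp : 0 < g i
      · simp only [r, hp, if_true] at hm
        rw [le_div_iff₀ hp] at hm
        constructor
        · have := mul_nonneg hr0 hp.le
          linarith [hb.1]
        · simp only [r]; linarith
      · have hn : 0 < -g i := by
          have := lt_of_le_of_ne (not_lt.mp hp) hg
          linarith
        simp only [r, hp, if_false] at hm
        rw [le_div_iff₀ hn] at hm
        constructor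
        · simp only [r]; linarith
        · have := mul_nonneg hr0 hn.le
          linarith [hb.2]
    · rw [Finset.sum_add_distrib, ← Finset.mul_sum, hl.2.1]
      have := ext (fun _ => 1)
      simp only [mul_one] at this
      rw [this, gs]; simp
    · simp only [add_mul, mul_assoc]
      rw [Finset.sum_add_distrib, ← Finset.mul_sum, hl.2.2 j, ext (fun i => v i j), gv j]; simp
    · have hsub : (A.filter fun i => 0 < l i + r i0 * g i ∧ l i + r i0 * g i < 1) ⊆
          F.erase i0 := by
        intro i hi
        rw [Finset.mem_filter] at hi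
        rw [Finset.mem_erase]
        constructor
        · rintro rfl
          by_cases hp : 0 < g i
          · have : r i * g i = 1 - l i := by
              simp only [r, hp, if_true]; field_simp
            linarith [hi.2.2]
          · have : r i * g i = - l i := by
              have := hi0.2
              simp only [r, hp, if_false]; field_simp
            linarith [hi.2.1]
        · by_contra hc
          have := g0 i hc
          simp only [this, mul_zero, add_zero] at hi
          exact hc (Finset.mem_filter.mpr hi)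
      have := Finset.card_le_card hsub
      rw [Finset.card_erase_of_mem hi0.1] at this
      omega

lemma step (v : ι → Fin m → ℝ) (A : Finset ι) (hA : m < A.card) (l : ι → ℝ)
    (hl : Good v A ((A.card : ℝ) - m) l) :
    ∃ a ∈ A, ∃ l', Good v (A.erase a) (((A.erase a).card : ℝ) - m) l' := by
  have hpos : (0 : ℝ) < (A.card : ℝ) - m := by
    have : (m : ℝ) < A.card := by exact_mod_cast hA
    linarith
  have h1 : (1 : ℝ) ≤ (A.card : ℝ) - m := by
    have : (m : ℝ) + 1 ≤ A.card := by exact_mod_cast hA
    linarith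
  set t := (A.card : ℝ) - m with ht
  have hs : Good v A (t - 1) (fun i => (t - 1) / t * l i) := by
    have a0 : 0 ≤ (t - 1) / t := div_nonneg (by linarith) hpos.le
    have a1 : (t - 1) / t ≤ 1 := by rw [div_le_one hpos]; linarith
    refine ⟨fun i hi => ⟨mul_nonneg a0 (hl.1 i hi).1, ?_⟩, ?_, fun j => ?_⟩
    · exact mul_le_one₀ a1 (hl.1 i hi).1 (hl.1 i hi).2
    · rw [← Finset.mul_sum, hl.2.1]; field_simp
    · simp only [mul_assoc]
      rw [← Finset.mul_sum, hl.2.2 j]; simp
  obtain ⟨l', hg, hc⟩ := few_frac v A (t - 1) _ _ hs le_rfl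
  have hz : ∃ a ∈ A, l' a = 0 := by
    by_contra hn
    push Not at hn
    set F := A.filter fun i => 0 < l' i ∧ l' i < 1 with hF
    have e1 : ∑ i ∈ A, (1 - l' i) = m + 1 := by
      rw [Finset.sum_sub_distrib, hg.2.1]; simp [ht]; ring
    have e2 : ∑ i ∈ A, (1 - l' i) = ∑ i ∈ F, (1 - l' i) := by
      refine (Finset.sum_subset (Finset.filter_subset _ _) fun i hi hiF => ?_).symm
      have hb := hg.1 i hi
      have h0 : 0 < l' i := lt_of_le_of_ne hb.1 (hn i hi).symm
      have : ¬ l' i < 1 := fun h => hiF (Finset.mem_filter.mpr ⟨hi, h0, h⟩)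
      linarith [hb.2]
    have hne : F.Nonempty := by
      rw [Finset.nonempty_iff_ne_empty]
      intro h
      rw [e2, h] at e1
      simp at e1
      have : (0 : ℝ) ≤ m := by positivity
      linarith
    have e3 : ∑ i ∈ F, (1 - l' i) < ∑ i ∈ F, (1 : ℝ) :=
      Finset.sum_lt_sum_of_nonempty hne fun i hi => by
        linarith [(Finset.mem_filter.mp hi).2.1]
    have e4 : (F.card : ℝ) ≤ m + 1 := by exact_mod_cast hc
    rw [Finset.sum_const, nsmul_eq_mul, mul_one] at e3
    linarith
  obtain ⟨a, ha, hz⟩ := hz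
  refine ⟨a, ha, l', fun i hi => hg.1 i (Finset.mem_of_mem_erase hi), ?_, fun j => ?_⟩
  · rw [Finset.sum_erase _ hz, hg.2.1, Finset.card_erase_of_mem ha, Nat.cast_sub (by omega), ht]
    push_cast; ring
  · rw [Finset.sum_erase _ (by simp [hz]), hg.2.2 j]

lemma order (v : ι → Fin m → ℝ) (B : ℝ) (hv : ∀ i j, |v i j| ≤ B) (hB : 0 ≤ B) (d : ι) (k : ℕ) :
    ∀ A : Finset ι, A.card = k → (A.card ≤ m ∨ ∃ l, Good v A ((A.card : ℝ) - m) l) →
      ∃ f : ℕ → ι, (Finset.range k).image f = A ∧
        ∀ r ≤ k, ∀ j, |∑ i ∈ Finset.range r, v (f i) j| ≤ m * B := by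
  induction k with
  | zero =>
    intro A hA _
    refine ⟨fun _ => d, by simp [Finset.card_eq_zero.mp hA], fun r hr j => ?_⟩
    have : r = 0 := by omega
    subst this
    simp; positivity
  | succ k ih =>
    intro A hA hG
    have hfull : ∀ j, |∑ i ∈ A, v i j| ≤ m * B := by
      intro j
      rcases hG with h | ⟨l, hl⟩
      · refine (Finset.abs_sum_le_sum_abs _ _).trans ?_
        refine (Finset.sum_le_sum fun i _ => hv i j).trans ?_
        rw [Finset.sum_const, nsmul_eq_mul]
        gcongr
      · have : ∑ i ∈ A, v i j = ∑ i ∈ A, (1 - l i) * v i j := by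
          simp only [sub_mul, one_mul]
          rw [Finset.sum_sub_distrib, hl.2.2 j]; simp
        rw [this]
        refine (Finset.abs_sum_le_sum_abs _ _).trans ?_
        have h2 : ∀ i ∈ A, |(1 - l i) * v i j| ≤ (1 - l i) * B := fun i hi => by
          have := (hl.1 i hi).2
          rw [abs_mul, abs_of_nonneg (by linarith)]
          exact mul_le_mul_of_nonneg_left (hv i j) (by linarith)
        refine (Finset.sum_le_sum h2).trans ?_
        rw [← Finset.sum_mul, Finset.sum_sub_distrib, hl.2.1]
        simp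
    have hex : ∃ a ∈ A, ((A.erase a).card ≤ m ∨
        ∃ l, Good v (A.erase a) (((A.erase a).card : ℝ) - m) l) := by
      by_cases h : A.card ≤ m
      · obtain ⟨a, ha⟩ : A.Nonempty := Finset.card_pos.mp (by omega)
        exact ⟨a, ha, Or.inl (by rw [Finset.card_erase_of_mem ha]; omega)⟩
      · obtain ⟨l, hl⟩ := hG.resolve_left h
        obtain ⟨a, ha, hl'⟩ := step v A (by omega) l hl
        exact ⟨a, ha, Or.inr hl'⟩
    obtain ⟨a, ha, hG'⟩ := hex
    obtain ⟨f, hf1, hf2⟩ := ih (A.erase a) (by rw [Finset.card_erase_of_mem ha]; omega) hG'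
    have hagree : ∀ i < k, Function.update f k a i = f i := fun i hi =>
      Function.update_of_ne (by omega) _ _
    have himg : (Finset.range (k + 1)).image (Function.update f k a) = A := by
      rw [Finset.range_add_one, Finset.image_insert, Function.update_self,
        Finset.image_congr (g := f) (fun i hi => hagree i (by simpa using hi)), hf1,
        Finset.insert_erase ha]
    refine ⟨Function.update f k a, himg, fun r hr j => ?_⟩
    by_cases hrk : r ≤ k
    · rw [Finset.sum_congr rfl (fun i hi => by
        rw [hagree i (by have := Finset.mem_range.mp hi; omega)])]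
      exact hf2 r hrk j
    · have : r = k + 1 := by omega
      subst this
      have hinj : Set.InjOn (Function.update f k a) (Finset.range (k + 1) : Finset ℕ) := by
        apply Finset.card_image_iff.mp
        rw [himg, hA, Finset.card_range]
      rw [← Finset.sum_image (f := fun x => v x j) hinj, himg]
      exact hfull j

/-- Steinitz lemma in the maximum norm. -/
theorem steinitz {n : ℕ} (hn : 0 < n) (v : Fin n → Fin m → ℝ) (B : ℝ) (hv : ∀ i j, |v i j| ≤ B)
    (hB : 0 ≤ B) (hs : ∀ j, ∑ i, v i j = 0) :
    ∃ π : Equiv.Perm (Fin n), ∀ r ≤ n, ∀ j,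
      |∑ i ∈ Finset.range r, (if h : i < n then v (π ⟨i, h⟩) j else 0)| ≤ m * B := by
  obtain ⟨f, hf1, hf2⟩ := order v B hv hB ⟨0, hn⟩ n Finset.univ (by simp) (by
    by_cases h : n ≤ m
    · left; simpa using h
    · right
      have hn' : (0 : ℝ) < n := by exact_mod_cast hn
      have hmn : (m : ℝ) ≤ n := by exact_mod_cast (by omega : m ≤ n)
      refine ⟨fun _ => ((n : ℝ) - m) / n, fun i _ => ⟨div_nonneg (by linarith) hn'.le, ?_⟩, ?_,
        fun j => ?_⟩
      · rw [div_le_one hn']
        have : (0 : ℝ) ≤ m := by positivity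
        linarith
      · simp; field_simp
      · rw [← Finset.mul_sum, hs j]; simp)
  have hsurj : Function.Surjective (fun i : Fin n => f i) := by
    intro y
    have : y ∈ (Finset.range n).image f := by rw [hf1]; simp
    obtain ⟨i, hi, rfl⟩ := Finset.mem_image.mp this
    exact ⟨⟨i, Finset.mem_range.mp hi⟩, rfl⟩
  refine ⟨Equiv.ofBijective _ hsurj.bijective_of_finite, fun r hr j => ?_⟩
  rw [Finset.sum_congr rfl (g := fun i => v (f i) j) (fun i hi => by
    have : i < n := by have := Finset.mem_range.mp hi; omega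
    simp [this])]
  exact hf2 r hr j

end Pool.Agent.H46.Steinitz
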