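import Mathlib
import Pool.Agent.H46.Steinitz
import Pool.Agent.H46.FlowDefs

set_option autoImplicit false

namespace Pool.Agent.H46.Flow

open MeasureTheory ProbabilityTheory Pool.Agent.H46.FlowDefs Finset Filter

lemma C_zero_right (t : ℕ → ℕ → ℝ) (i : ℕ) : C t i 0 = 0 := by
  cases i <;> simp [C]

lemma C_zero_left (t : ℕ → ℕ → ℝ) (j : ℕ) : C t 0 j = 0 := by simp [C]

lemma C_succ (t : ℕ → ℕ → ℝ) (i j : ℕ) :
    C t (i + 1) (j + 1) = max (C t i (j + 1)) (C t (i + 1) j) + t i j := by simp [C]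

lemma C_nonneg (t : ℕ → ℕ → ℝ) (h : ∀ i j, 0 ≤ t i j) (i : ℕ) : ∀ j, 0 ≤ C t i j := by
  induction i with
  | zero => intro j; rw [C_zero_left]
  | succ i ih =>
    intro j
    cases j with
    | zero => rw [C_zero_right]
    | succ j =>
      rw [C_succ]
      exact add_nonneg (le_max_of_le_left (ih _)) (h _ _)

lemma C_meas {Ω : Type} [MeasurableSpace Ω] (t : Ω → ℕ → ℕ → ℝ)
    (h : ∀ i j, Measurable fun ω => t ω i j) (i : ℕ) :
    ∀ j, Measurable fun ω => C (t ω) i j := by
  induction i with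
  | zero => intro j; simp only [C_zero_left]; exact measurable_const
  | succ i ih =>
    intro j
    induction j with
    | zero => simp only [C_zero_right]; exact measurable_const
    | succ j ihj =>
      simp only [C_succ]
      exact ((ih _).max ihj).add (h _ _)

lemma C_bound (t : ℕ → ℕ → ℝ) (n m : ℕ) (u B E : ℝ) (s : ℕ → ℝ)
    (hB : 0 ≤ B) (hE : 0 ≤ E) (hu : 0 ≤ u) (hsu : ∀ j < m, s j ≤ u) (hsB : ∀ j < m, s j ≤ B)
    (hdev : ∀ j < m, ∀ r ≤ n, |∑ i ∈ range r, t i j - r * s j| ≤ E) :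
    ∀ j ≤ m, ∀ i ≤ n, C t i j ≤ i * u + j * (2 * E + B) := by
  intro j
  induction j with
  | zero => intro _ i _; rw [C_zero_right]; positivity
  | succ j ih =>
    intro hj
    have key : ∀ i ≤ n, C t i (j + 1) - ∑ l ∈ range i, t l j ≤
        i * (u - s j) + j * (2 * E + B) + E + B := by
      intro i
      induction i with
      | zero => intro _; rw [C_zero_left]; simp; positivity
      | succ i ihi =>
        intro hi
        rw [C_succ, Finset.sum_range_succ]
        have a1 := ihi (by omega)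
        have a2 := ih (by omega) (i + 1) hi
        have a3 := (abs_le.mp (hdev j (by omega) i (by omega))).1
        have a4 := hsu j (by omega)
        have a5 := hsB j (by omega)
        push_cast at a2 ⊢
        rcases le_total (C t i (j + 1)) (C t (i + 1) j) with h | h
        · rw [max_eq_right h]; nlinarith
        · rw [max_eq_left h]; nlinarith
    intro i hi
    have a1 := key i hi
    have a3 := (abs_le.mp (hdev j (by omega) i hi)).2
    push_cast
    nlinarith

lemma opt_le (m n : ℕ) (hn : 0 < n) (T : Fin m → Fin n → ℝ) (U B : ℝ) (hU0 : 0 ≤ U)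
    (hB0 : 0 ≤ B) (h0 : ∀ j i, 0 ≤ T j i)
    (hB : ∀ j i, T j i ≤ B) (hU : ∀ j, ∑ i, T j i ≤ U) :
    optMakespan m n T ≤ U + m * (2 * m + 1) * B := by
  have hn' : (0 : ℝ) < n := by exact_mod_cast hn
  have hs0 : ∀ j, 0 ≤ (∑ i, T j i) / n := fun j =>
    div_nonneg (Finset.sum_nonneg fun i _ => h0 j i) hn'.le
  have hsB : ∀ j, (∑ i, T j i) / n ≤ B := fun j => by
    rw [div_le_iff₀ hn']
    refine (Finset.sum_le_sum fun i _ => hB j i).trans ?_
    simp [mul_comm]
  obtain ⟨π, hπ⟩ := Steinitz.steinitz hn (fun i j => T j i - (∑ i, T j i) / n) B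
    (fun i j => abs_le.mpr ⟨by linarith [h0 j i, hsB j], by linarith [hB j i, hs0 j]⟩) hB0
    (fun j => by rw [Finset.sum_sub_distrib]; simp; field_simp; simp)
  refine (ciInf_le (Set.finite_range _).bddBelow π).trans ?_
  have := C_bound (fun i j => if h : i < n ∧ j < m then T ⟨j, h.2⟩ (π ⟨i, h.1⟩) else 0) n m
    (U / n) B (m * B) (fun j => if h : j < m then (∑ i, T ⟨j, h⟩ i) / n else 0) hB0
    (by positivity) (by positivity)
    (fun j hj => by simp only [hj, dite_true]; gcongr; exact hU _)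
    (fun j hj => by simp only [hj, dite_true]; exact hsB _)
    (fun j hj r hr => by
      have := hπ r hr ⟨j, hj⟩
      convert this using 2
      simp only [hj, dite_true, and_true]
      rw [← nsmul_eq_mul, ← Finset.card_range r, ← Finset.sum_const, Finset.card_range,
        ← Finset.sum_sub_distrib]
      refine Finset.sum_congr rfl fun i hi => ?_
      have : i < n := by have := Finset.mem_range.mp hi; omega
      simp [this]) m le_rfl n le_rfl
  unfold makespan
  refine this.trans (le_of_eq ?_)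
  field_simp

lemma opt_nonneg (m n : ℕ) (T : Fin m → Fin n → ℝ) (h0 : ∀ j i, 0 ≤ T j i) :
    0 ≤ optMakespan m n T := by
  refine le_ciInf fun π => C_nonneg _ (fun i j => ?_) _ _
  split_ifs
  · exact h0 _ _
  · exact le_rfl

lemma opt_meas (m n : ℕ) : Measurable (optMakespan m n) := by
  unfold optMakespan
  refine Measurable.iInf fun π => ?_
  unfold makespan
  refine C_meas _ (fun i j => ?_) _ _
  by_cases h : i < n ∧ j < m
  · simp only [h, and_self, dite_true]; fun_prop
  · simp only [h, dite_false]; exact measurable_const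

noncomputable def lo (b x : ℝ) : ℝ := max 0 (min x b)

noncomputable def hi (b x : ℝ) : ℝ := x - lo b x

lemma lo_meas (b : ℝ) : Measurable (lo b) := by unfold lo; fun_prop

lemma hi_meas (b : ℝ) : Measurable (hi b) := measurable_id.sub (lo_meas b)

lemma lo_mem (b : ℝ) (hb : 0 ≤ b) (x : ℝ) : lo b x ∈ Set.Icc 0 b :=
  ⟨le_max_left _ _, max_le hb (min_le_right _ _)⟩

lemma hi_abs (b : ℝ) (hb : 0 ≤ b) (x : ℝ) : |hi b x| ≤ |x| := by
  unfold hi lo
  rcases le_total x 0 with h | h
  · rw [min_eq_left (h.trans hb), max_eq_left h]; simp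
  · rcases le_total x b with h2 | h2
    · rw [min_eq_left h2, max_eq_right h]; simp
    · rw [min_eq_right h2, max_eq_right hb, abs_of_nonneg h, abs_of_nonneg (by linarith)]
      linarith

lemma hi_memLp (μ : Measure ℝ) (h2 : MemLp id 2 μ) (b : ℝ) (hb : 0 ≤ b) : MemLp (hi b) 2 μ :=
  h2.of_le (hi_meas b).aestronglyMeasurable (Eventually.of_forall fun x => by
    simpa using hi_abs b hb x)

lemma tail_small (μ : Measure ℝ) (h0 : ∀ᵐ x ∂μ, 0 ≤ x) (h2 : MemLp id 2 μ) (δ : ℝ)
    (hδ : 0 < δ) : ∃ b : ℝ, 1 ≤ b ∧ ∫ x, hi b x ^ 2 ∂μ ≤ δ := by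
  have ht : Tendsto (fun k : ℕ => ∫ x, hi k x ^ 2 ∂μ) atTop (nhds (∫ _, (0 : ℝ) ∂μ)) := by
    refine tendsto_integral_of_dominated_convergence (fun x => x ^ 2)
      (fun k => ((hi_meas k).pow_const 2).aestronglyMeasurable) h2.integrable_sq
      (fun k => Eventually.of_forall fun x => ?_) ?_
    · rw [Real.norm_eq_abs, abs_pow, ← sq_abs x]
      exact pow_le_pow_left₀ (abs_nonneg _) (hi_abs k (by positivity) x) 2
    · filter_upwards [h0] with x hx
      refine tendsto_const_nhds.congr' ?_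
      filter_upwards [eventually_ge_atTop ⌈x⌉₊] with k hk
      have : x ≤ k := (Nat.le_ceil x).trans (by exact_mod_cast hk)
      simp [hi, lo, this, hx]
  rw [integral_zero] at ht
  obtain ⟨k, hk, hk1⟩ := ((ht.eventually (ge_mem_nhds hδ)).and (eventually_ge_atTop 1)).exists
  exact ⟨k, by exact_mod_cast hk1, hk⟩

lemma sum_eval {α : Type} [MeasurableSpace α] (μ : Measure α) [IsProbabilityMeasure μ] (n : ℕ)
    (f : α → ℝ) (hf : Integrable f μ) :
    Integrable (fun y : Fin n → α => ∑ i, f (y i)) (Measure.pi fun _ => μ) ∧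
    ∫ y : Fin n → α, ∑ i, f (y i) ∂(Measure.pi fun _ => μ) = n * ∫ x, f x ∂μ := by
  have h1 : ∀ i : Fin n, Integrable (fun y : Fin n → α => f (y i)) (Measure.pi fun _ => μ) :=
    fun i => integrable_comp_eval (μ := fun _ : Fin n => μ) (i := i) hf
  have h2 : ∀ i : Fin n, ∫ y : Fin n → α, f (y i) ∂(Measure.pi fun _ => μ) = ∫ x, f x ∂μ :=
    fun i => integral_comp_eval (μ := fun _ : Fin n => μ) (i := i) hf.aestronglyMeasurable
  refine ⟨integrable_finsetSum _ fun i _ => h1 i, ?_⟩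
  rw [integral_finsetSum _ fun i _ => h1 i]
  simp [h2]

lemma col1 (μ : Measure ℝ) [IsProbabilityMeasure μ] (n : ℕ) (b l : ℝ) (hb : 0 ≤ b) :
    Integrable (fun y : Fin n → ℝ => Real.exp (l * ∑ i, (lo b (y i) - ∫ x, lo b x ∂μ)))
      (Measure.pi fun _ => μ) ∧
    ∫ y : Fin n → ℝ, Real.exp (l * ∑ i, (lo b (y i) - ∫ x, lo b x ∂μ)) ∂(Measure.pi fun _ => μ)
      ≤ Real.exp (n * (b / 2) ^ 2 * l ^ 2 / 2) := by
  have h1 := hasSubgaussianMGF_of_mem_Icc (μ := μ) (lo_meas b).aemeasurable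
    (Eventually.of_forall (lo_mem b hb))
  have hind : iIndepFun (fun (i : Fin n) (y : Fin n → ℝ) => lo b (y i) - ∫ x, lo b x ∂μ)
      (Measure.pi fun _ => μ) :=
    iIndepFun_pi (X := fun _ x => lo b x - ∫ x, lo b x ∂μ)
      fun _ => ((lo_meas b).sub_const _).aemeasurable
  have h2 := HasSubgaussianMGF.sum_of_iIndepFun hind (s := Finset.univ)
    (c := fun _ => (‖b - 0‖₊ / 2) ^ 2) (fun i _ => by
      have hp := measurePreserving_eval (fun _ : Fin n => μ) i
      rw [← hp.map_eq] at h1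
      have := HasSubgaussianMGF.of_map hp.measurable.aemeasurable h1
      rw [hp.map_eq] at this
      exact this)
  refine ⟨h2.integrable_exp_mul l, (h2.mgf_le l).trans (le_of_eq ?_)⟩
  congr 1
  simp [abs_of_nonneg hb]

lemma col2 (μ : Measure ℝ) [IsProbabilityMeasure μ] (h2 : MemLp id 2 μ) (n : ℕ) (b : ℝ)
    (hb : 0 ≤ b) :
    Integrable (fun y : Fin n → ℝ => (∑ i, hi b (y i) - n * ∫ x, hi b x ∂μ) ^ 2)
      (Measure.pi fun _ => μ) ∧
    ∫ y : Fin n → ℝ, (∑ i, hi b (y i) - n * ∫ x, hi b x ∂μ) ^ 2 ∂(Measure.pi fun _ => μ)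
      ≤ n * ∫ x, hi b x ^ 2 ∂μ := by
  have hm := hi_memLp μ h2 b hb
  have hM : MemLp (fun y : Fin n → ℝ => ∑ i, hi b (y i)) 2 (Measure.pi fun _ => μ) :=
    memLp_finsetSum _ fun i _ =>
      hm.comp_measurePreserving (measurePreserving_eval (fun _ : Fin n => μ) i)
  have hmean : ∫ y : Fin n → ℝ, ∑ i, hi b (y i) ∂(Measure.pi fun _ => μ) =
      n * ∫ x, hi b x ∂μ := (sum_eval μ n (hi b) (hm.integrable (by norm_num))).2
  refine ⟨(hM.sub (memLp_const _)).integrable_sq, ?_⟩
  have hv := variance_sum_pi (μ := fun _ : Fin n => μ) (X := fun _ => hi b) (fun _ => hm)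
  have e : (∑ i : Fin n, fun ω : Fin n → ℝ => hi b (ω i)) = fun ω => ∑ i, hi b (ω i) := by
    ext ω; simp
  rw [e, variance_eq_integral hM.aestronglyMeasurable.aemeasurable, hmean] at hv
  rw [hv]
  simp only [sum_const, card_univ, Fintype.card_fin, nsmul_eq_mul]
  gcongr
  exact variance_le_expectation_sq hm.aestronglyMeasurable

lemma col3 (μ : Measure ℝ) [IsProbabilityMeasure μ] (h2 : MemLp id 2 μ) (n : ℕ) (b : ℝ)
    (hb : 0 ≤ b) :
    Integrable (fun y : Fin n → ℝ => ∑ i, hi b (y i) ^ 2) (Measure.pi fun _ => μ) ∧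
    ∫ y : Fin n → ℝ, ∑ i, hi b (y i) ^ 2 ∂(Measure.pi fun _ => μ) = n * ∫ x, hi b x ^ 2 ∂μ := by
  exact sum_eval μ n (fun x => hi b x ^ 2) (hi_memLp μ h2 b hb).integrable_sq

lemma amgm (x e : ℝ) (he : 0 < e) : x ≤ e / 2 + x ^ 2 / (2 * e) := by
  have : e / 2 + x ^ 2 / (2 * e) - x = (x - e) ^ 2 / (2 * e) := by field_simp; ring
  have h2 : 0 ≤ (x - e) ^ 2 / (2 * e) := by positivity
  linarith

lemma general (μ : Measure ℝ) [IsProbabilityMeasure μ] (h0 : ∀ᵐ x ∂μ, 0 ≤ x)
    (h2 : MemLp id 2 μ) (m n : ℕ) (hn : 0 < n) (b b2 a l e e2 : ℝ) (hb : 0 ≤ b) (hb2 : 0 ≤ b2)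
    (ha : 0 ≤ a) (hl : 0 < l) (he : 0 < e) (he2 : 0 < e2) :
    Integrable (optMakespan m n) (law m n μ) ∧
    ∫ T, optMakespan m n T ∂(law m n μ) ≤ n * (∫ x, x ∂μ) + a + e / 2 +
      m * (2 * m + 1) * (b2 + e2 / 2) +
      m * (Real.exp (-(l * a)) / l * Real.exp (n * (b / 2) ^ 2 * l ^ 2 / 2) +
        n * (∫ x, hi b x ^ 2 ∂μ) / (2 * e) +
        m * (2 * m + 1) / (2 * e2) * (n * ∫ x, hi b2 x ^ 2 ∂μ)) := by
  obtain ⟨i1, j1⟩ := col1 μ n b l hb
  obtain ⟨i2, j2⟩ := col2 μ h2 n b hb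
  obtain ⟨i3, j3⟩ := col3 μ h2 n b2 hb2
  set K : ℝ := m * (2 * m + 1) with hK
  have hK0 : 0 ≤ K := by positivity
  set f1 := fun y : Fin n → ℝ => Real.exp (l * ∑ i, (lo b (y i) - ∫ x, lo b x ∂μ)) with hf1
  set f2 := fun y : Fin n → ℝ => (∑ i, hi b (y i) - n * ∫ x, hi b x ∂μ) ^ 2 with hf2
  set f3 := fun y : Fin n → ℝ => ∑ i, hi b2 (y i) ^ 2 with hf3
  set φ := fun y : Fin n → ℝ =>
    Real.exp (-(l * a)) / l * f1 y + f2 y / (2 * e) + K / (2 * e2) * f3 y with hφ
  have iφ : Integrable φ (Measure.pi fun _ => μ) :=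
    ((i1.const_mul _).add (i2.div_const _)).add (i3.const_mul _)
  have jφ : ∫ y, φ y ∂(Measure.pi fun _ => μ) ≤
      Real.exp (-(l * a)) / l * Real.exp (n * (b / 2) ^ 2 * l ^ 2 / 2) +
        n * (∫ x, hi b x ^ 2 ∂μ) / (2 * e) + K / (2 * e2) * (n * ∫ x, hi b2 x ^ 2 ∂μ) := by
    have i12 : Integrable (fun y => Real.exp (-(l * a)) / l * f1 y + f2 y / (2 * e))
        (Measure.pi fun _ : Fin n => μ) := (i1.const_mul _).add (i2.div_const _)
    have i1' : Integrable (fun y => Real.exp (-(l * a)) / l * f1 y)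
        (Measure.pi fun _ : Fin n => μ) := i1.const_mul _
    have i2' : Integrable (fun y => f2 y / (2 * e))
        (Measure.pi fun _ : Fin n => μ) := i2.div_const _
    have i3' : Integrable (fun y => K / (2 * e2) * f3 y)
        (Measure.pi fun _ : Fin n => μ) := i3.const_mul _
    rw [hφ, integral_add i12 i3', integral_add i1' i2', integral_const_mul, integral_const_mul,
      integral_div, j3]
    gcongr
  have hτ : 0 ≤ ∫ x, x ∂μ := integral_nonneg_of_ae h0
  have hsplit : (∫ x, lo b x ∂μ) + ∫ x, hi b x ∂μ = ∫ x, x ∂μ := by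
    rw [← integral_add (Integrable.of_mem_Icc 0 b (lo_meas b).aemeasurable
      (Eventually.of_forall (lo_mem b hb))) ((hi_memLp μ h2 b hb).integrable (by norm_num))]
    simp [hi]
  set G := fun T : Fin m → Fin n → ℝ =>
    (n * (∫ x, x ∂μ) + a + e / 2 + K * (b2 + e2 / 2)) + ∑ j, φ (T j) with hG
  have hP : IsProbabilityMeasure (law m n μ) := by unfold law; infer_instance
  obtain ⟨iS, jS⟩ := sum_eval (Measure.pi fun _ : Fin n => μ) m φ iφ
  have iG : Integrable G (law m n μ) := (integrable_const _).add iS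
  have hae : ∀ᵐ T ∂(law m n μ), ∀ j i, 0 ≤ T j i := by
    rw [ae_all_iff]; intro j
    rw [ae_all_iff]; intro i
    have p1 := measurePreserving_eval (fun _ : Fin m => Measure.pi fun _ : Fin n => μ) j
    have p2 := measurePreserving_eval (fun _ : Fin n => μ) i
    exact (p2.comp p1).quasiMeasurePreserving.ae h0
  have hle : ∀ᵐ T ∂(law m n μ), optMakespan m n T ≤ G T := by
    filter_upwards [hae] with T hT
    have n1 : ∀ y, 0 ≤ Real.exp (-(l * a)) / l * f1 y := fun y => by positivity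
    have n2 : ∀ y, 0 ≤ f2 y / (2 * e) := fun y => by positivity
    have n3 : ∀ y, 0 ≤ f3 y := fun y => Finset.sum_nonneg fun i _ => by positivity
    have := opt_le m n hn T
      (n * (∫ x, x ∂μ) + a + e / 2 +
        ∑ j, (Real.exp (-(l * a)) / l * f1 (T j) + f2 (T j) / (2 * e)))
      (b2 + e2 / 2 + (∑ j, f3 (T j)) / (2 * e2))
      (by
        have : 0 ≤ ∑ j, (Real.exp (-(l * a)) / l * f1 (T j) + f2 (T j) / (2 * e)) :=
          Finset.sum_nonneg fun j _ => add_nonneg (n1 _) (n2 _)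
        positivity)
      (by
        have : 0 ≤ ∑ j, f3 (T j) := Finset.sum_nonneg fun j _ => n3 _
        positivity) hT
      (fun j i => by
        have a1 : T j i ≤ b2 + hi b2 (T j i) := by
          have := (lo_mem b2 hb2 (T j i)).2
          unfold hi; linarith
        have a2 := amgm (hi b2 (T j i)) e2 he2
        have a3 : hi b2 (T j i) ^ 2 ≤ ∑ j, f3 (T j) :=
          (Finset.single_le_sum (f := fun i => hi b2 (T j i) ^ 2) (fun i _ => by positivity)
            (Finset.mem_univ i)).trans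
            (Finset.single_le_sum (f := fun j => f3 (T j)) (fun j _ => n3 _) (Finset.mem_univ j))
        have a4 : hi b2 (T j i) ^ 2 / (2 * e2) ≤ (∑ j, f3 (T j)) / (2 * e2) := by gcongr
        linarith)
      (fun j => by
        have a0 := Finset.single_le_sum
          (f := fun j => Real.exp (-(l * a)) / l * f1 (T j) + f2 (T j) / (2 * e))
          (fun j _ => add_nonneg (n1 _) (n2 _)) (Finset.mem_univ j)
        have a1 := amgm (∑ i, hi b (T j i) - n * ∫ x, hi b x ∂μ) e he
        set Y := ∑ i, (lo b (T j i) - ∫ x, lo b x ∂μ) with hY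
        have a2 : Y - a ≤ Real.exp (-(l * a)) / l * f1 (T j) := by
          have : f1 (T j) = Real.exp (l * Y) := rfl
          rw [this, div_mul_eq_mul_div, ← Real.exp_add, le_div_iff₀ hl]
          have := Real.add_one_le_exp (-(l * a) + l * Y)
          nlinarith
        have a3 : ∑ i, T j i = Y + n * (∫ x, lo b x ∂μ) + ∑ i, hi b (T j i) := by
          rw [hY, Finset.sum_sub_distrib]
          simp [hi, Finset.sum_sub_distrib]
        have a4 : f2 (T j) = (∑ i, hi b (T j i) - n * ∫ x, hi b x ∂μ) ^ 2 := rfl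
        rw [← hsplit, a3]
        rw [a4] at a0
        linarith)
    refine this.trans (le_of_eq ?_)
    simp only [hG, hφ, Finset.sum_add_distrib, ← Finset.mul_sum, ← hK]
    ring
  have hnn : ∀ᵐ T ∂(law m n μ), 0 ≤ optMakespan m n T := by
    filter_upwards [hae] with T hT using opt_nonneg m n T hT
  have hint : Integrable (optMakespan m n) (law m n μ) :=
    iG.mono' (opt_meas m n).aestronglyMeasurable (by
      filter_upwards [hle, hnn] with T h1 h2
      rwa [Real.norm_eq_abs, abs_of_nonneg h2])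
  refine ⟨hint, (integral_mono_ae hint iG hle).trans ?_⟩
  have iS' : Integrable (fun T : Fin m → Fin n → ℝ => ∑ j, φ (T j)) (law m n μ) := iS
  have jS' : ∫ T : Fin m → Fin n → ℝ, ∑ j, φ (T j) ∂(law m n μ) =
      m * ∫ y, φ y ∂(Measure.pi fun _ => μ) := jS
  rw [hG, integral_add (integrable_const _) iS', integral_const, jS']
  simp only [probReal_univ, smul_eq_mul, one_mul]
  gcongr

end Pool.Agent.H46.Flow
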