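import Pool.Agent.H46.FmDefs
namespace Pool.Agent.H46.Fm

open Classical in
noncomputable def Q (p α β κ : ℝ) (i j k : ℤ) : ℝ :=
  if h : 0 ≤ i ∧ 1 ≤ j ∧ 1 ≤ k then
    (if i = 0 then 1 else 0) + p * Q p α β κ (i - 2) j k + α * Q p α β κ i (j - 2) k
      + β * Q p α β κ i j (k - 2) + κ * Q p α β κ (i - 1) (j - 1) (k - 1)
  else 0
termination_by (i + j + k).toNat
decreasing_by all_goals omega

variable {p α β κ : ℝ}

lemma Q_zero {i j k : ℤ} (h : i < 0 ∨ j ≤ 0 ∨ k ≤ 0) : Q p α β κ i j k = 0 := by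
  rw [Q, dif_neg (by omega)]

lemma Q_rec (i j k : ℤ) : Q p α β κ i j k =
    (if i = 0 ∧ 1 ≤ j ∧ 1 ≤ k then 1 else 0) + p * Q p α β κ (i - 2) j k
      + α * Q p α β κ i (j - 2) k
      + β * Q p α β κ i j (k - 2) + κ * Q p α β κ (i - 1) (j - 1) (k - 1) := by
  by_cases h : 0 ≤ i ∧ 1 ≤ j ∧ 1 ≤ k
  · conv_lhs => rw [Q, dif_pos h]
    by_cases h0 : i = 0
    · rw [if_pos h0, if_pos ⟨h0, h.2⟩]
    · rw [if_neg h0, if_neg (fun hh => h0 hh.1)]
  · rw [Q_zero (i := i) (j := j) (k := k) (by omega), if_neg (by omega),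
      Q_zero (i := i - 2) (by omega), Q_zero (j := j - 2) (by omega),
      Q_zero (k := k - 2) (by omega), Q_zero (i := i - 1) (by omega)]
    ring

noncomputable def D (p α β κ : ℝ) (i x y : ℤ) : ℝ :=
  Q p α β κ i (x + 1) (y + 1) - Q p α β κ i x (y + 1) - Q p α β κ i (x + 1) y + Q p α β κ i x y

lemma D_zero {i x y : ℤ} (h : i < 0 ∨ x < 0 ∨ y < 0) : D p α β κ i x y = 0 := by
  unfold D
  rw [Q_zero (by omega), Q_zero (by omega), Q_zero (by omega), Q_zero (by omega)]; ring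

lemma D_rec (i x y : ℤ) : D p α β κ i x y =
    (if i = 0 ∧ x = 0 ∧ y = 0 then 1 else 0) + p * D p α β κ (i - 2) x y
      + α * D p α β κ i (x - 2) y
      + β * D p α β κ i x (y - 2) + κ * D p α β κ (i - 1) (x - 1) (y - 1) := by
  have h1 := Q_rec (p := p) (α := α) (β := β) (κ := κ) i (x + 1) (y + 1)
  have h2 := Q_rec (p := p) (α := α) (β := β) (κ := κ) i x (y + 1)
  have h3 := Q_rec (p := p) (α := α) (β := β) (κ := κ) i (x + 1) y
  have h4 := Q_rec (p := p) (α := α) (β := β) (κ := κ) i x y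
  have e : (if i = 0 ∧ x = 0 ∧ y = 0 then (1:ℝ) else 0) =
      (if i = 0 ∧ 1 ≤ x + 1 ∧ 1 ≤ y + 1 then 1 else 0) - (if i = 0 ∧ 1 ≤ x ∧ 1 ≤ y + 1 then 1 else 0)
      - (if i = 0 ∧ 1 ≤ x + 1 ∧ 1 ≤ y then 1 else 0) + (if i = 0 ∧ 1 ≤ x ∧ 1 ≤ y then 1 else 0) := by
    split_ifs <;> first | omega | norm_num
  unfold D
  rw [e]
  rw [show x + 1 - 2 = x - 2 + 1 by ring, show y + 1 - 2 = y - 2 + 1 by ring,
    show x + 1 - 1 = x - 1 + 1 by ring, show y + 1 - 1 = y - 1 + 1 by ring] at *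
  linear_combination h1 - h2 - h3 + h4

lemma D_nonneg (hp : 0 ≤ p) (hα : 0 ≤ α) (hβ : 0 ≤ β) (hκ : 0 ≤ κ) :
    ∀ (n : ℕ) (i x y : ℤ), i + x + y < n → 0 ≤ D p α β κ i x y := by
  intro n
  induction n with
  | zero => intro i x y h; rw [D_zero (by omega)]
  | succ n ih =>
    intro i x y h
    rw [D_rec]
    have h1 := ih (i - 2) x y (by omega)
    have h2 := ih i (x - 2) y (by omega)
    have h3 := ih i x (y - 2) (by omega)
    have h4 := ih (i - 1) (x - 1) (y - 1) (by omega)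
    have h0 : (0:ℝ) ≤ if i = 0 ∧ x = 0 ∧ y = 0 then 1 else 0 := by split_ifs <;> norm_num
    positivity

lemma D_symm {ρ : ℝ} (hρ : ρ ≠ 0) (h2 : β = α * ρ ^ 2) :
    ∀ (n : ℕ) (i x y : ℤ), i + x + y < n →
      D p α β κ i x y * ρ ^ x = D p α β κ i y x * ρ ^ y := by
  intro n
  induction n with
  | zero => intro i x y h; rw [D_zero (by omega), D_zero (by omega)]; simp
  | succ n ih =>
    intro i x y h
    have h1 := ih (i - 2) x y (by omega)
    have h2' := ih i (x - 2) y (by omega)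
    have h3 := ih i x (y - 2) (by omega)
    have h4 := ih (i - 1) (x - 1) (y - 1) (by omega)
    have e0 : (if i = 0 ∧ x = 0 ∧ y = 0 then (1:ℝ) else 0) * ρ ^ x
        = (if i = 0 ∧ y = 0 ∧ x = 0 then (1:ℝ) else 0) * ρ ^ y := by
      split_ifs with ha hb hb
      · rw [ha.2.1, ha.2.2]
      · omega
      · omega
      · simp
    have ex : ρ ^ x = ρ ^ (x - 2) * ρ ^ 2 := by
      rw [← zpow_natCast ρ 2, ← zpow_add₀ hρ]; congr 1; push_cast; ring
    have ey : ρ ^ y = ρ ^ (y - 2) * ρ ^ 2 := by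
      rw [← zpow_natCast ρ 2, ← zpow_add₀ hρ]; congr 1; push_cast; ring
    have ex1 : ρ ^ (x - 1) = ρ ^ (x - 2) * ρ := by
      rw [← zpow_add_one₀ hρ]; congr 1; ring
    have ey1 : ρ ^ (y - 1) = ρ ^ (y - 2) * ρ := by
      rw [← zpow_add_one₀ hρ]; congr 1; ring
    rw [D_rec i x y, D_rec i y x]
    rw [ex1, ey1] at h4
    rw [ex, ey] at h1 e0 ⊢
    rw [ey] at h2'
    rw [ex] at h3
    have hb : β = α * ρ ^ 2 := h2
    linear_combination e0 + p * h1 + (α * ρ ^ 2) * h2' + β * h3 + κ * ρ * h4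
      + (D p α β κ i (y - 2) x * ρ ^ (y - 2) - D p α β κ i y (x - 2) * ρ ^ (y - 2) * ρ ^ 2) * hb

end Pool.Agent.H46.Fm
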