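import Pool.Agent.H46.Fm1
namespace Pool.Agent.H46.Fm

noncomputable def q (a b c : ℝ) : ℤ → ℤ → ℤ → ℝ :=
  Q (a * b) (c * (1 - a)) ((1 - c) * (1 - b)) ((1 - a) * b * (1 - c) + (1 - b) * a * c)

variable {a b c : ℝ}

lemma q_zero {i j k : ℤ} (h : i < 0 ∨ j ≤ 0 ∨ k ≤ 0) : q a b c i j k = 0 := Q_zero h

lemma q_rec (i j k : ℤ) : q a b c i j k =
    (if i = 0 ∧ 1 ≤ j ∧ 1 ≤ k then 1 else 0) + (a * b) * q a b c (i - 2) j k
      + (c * (1 - a)) * q a b c i (j - 2) k
      + ((1 - c) * (1 - b)) * q a b c i j (k - 2)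
      + ((1 - a) * b * (1 - c) + (1 - b) * a * c) * q a b c (i - 1) (j - 1) (k - 1) := Q_rec i j k

noncomputable def F (a b c : ℝ) : Pairing → ℤ → ℤ → ℤ → ℝ
  | .FM, i, j, k => a * q a b c (i - 1) j k - a * ((1 - c) * (1 - b)) * q a b c (i - 1) j (k - 2)
      + a * b * q a b c (i - 2) j k + b * (1 - a) * (1 - c) * q a b c (i - 1) (j - 1) (k - 1)
  | .FS, i, j, k => b * q a b c (i - 1) j k - b * (c * (1 - a)) * q a b c (i - 1) (j - 2) k
      + a * b * q a b c (i - 2) j k + a * (1 - b) * c * q a b c (i - 1) (j - 1) (k - 1)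
  | .MS, i, j, k => a * c * q a b c (i - 1) (j - 1) k + b * (1 - c) * q a b c (i - 1) j (k - 1)
      + a * b * (1 - c) * q a b c (i - 2) j (k - 1) + a * b * c * q a b c (i - 2) (j - 1) k

lemma F_zero (g : Pairing) {i j k : ℤ} (h : i ≤ 0 ∨ j ≤ 0 ∨ k ≤ 0) : F a b c g i j k = 0 := by
  cases g <;> simp only [F] <;>
    rw [q_zero (by omega), q_zero (by omega), q_zero (by omega), q_zero (by omega)] <;> ring

lemma F_FM (i j k : ℤ) : F a b c .FM (i + 1) (j + 1) (k + 1) =
    a * (if i = 0 ∧ 0 ≤ j ∧ 0 ≤ k then 1 else 0) + a * F a b c .FS i (j + 1) (k + 1)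
      + (1 - a) * F a b c .MS (i + 1) j (k + 1) := by
  have h := q_rec (a := a) (b := b) (c := c) i (j + 1) (k + 1)
  have e : (if i = 0 ∧ 1 ≤ j + 1 ∧ 1 ≤ k + 1 then (1:ℝ) else 0)
      = if i = 0 ∧ 0 ≤ j ∧ 0 ≤ k then 1 else 0 := by
    split_ifs <;> first | omega | rfl
  rw [e] at h
  simp only [F]
  simp only [show ∀ t : ℤ, t + 1 - 1 = t by intro t; ring,
    show ∀ t : ℤ, t + 1 - 2 = t - 1 by intro t; ring] at h ⊢
  linear_combination a * h

lemma F_FS (i j k : ℤ) : F a b c .FS (i + 1) (j + 1) (k + 1) =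
    b * (if i = 0 ∧ 0 ≤ j ∧ 0 ≤ k then 1 else 0) + b * F a b c .FM i (j + 1) (k + 1)
      + (1 - b) * F a b c .MS (i + 1) (j + 1) k := by
  have h := q_rec (a := a) (b := b) (c := c) i (j + 1) (k + 1)
  have e : (if i = 0 ∧ 1 ≤ j + 1 ∧ 1 ≤ k + 1 then (1:ℝ) else 0)
      = if i = 0 ∧ 0 ≤ j ∧ 0 ≤ k then 1 else 0 := by
    split_ifs <;> first | omega | rfl
  rw [e] at h
  simp only [F]
  simp only [show ∀ t : ℤ, t + 1 - 1 = t by intro t; ring,
    show ∀ t : ℤ, t + 1 - 2 = t - 1 by intro t; ring] at h ⊢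
  linear_combination b * h

lemma F_MS (i j k : ℤ) : F a b c .MS (i + 1) (j + 1) (k + 1) =
    c * F a b c .FM (i + 1) j (k + 1) + (1 - c) * F a b c .FS (i + 1) (j + 1) k := by
  simp only [F]
  simp only [show ∀ t : ℤ, t + 1 - 1 = t by intro t; ring,
    show ∀ t : ℤ, t + 1 - 2 = t - 1 by intro t; ring]
  ring

lemma win_zero (g : Pairing) (j k : ℕ) : win a b c g 0 j k = 1 := by
  cases g <;> rw [win]

lemma win_j (g : Pairing) (i k : ℕ) : win a b c g (i + 1) 0 k = 0 := by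
  cases g <;> rw [win]

lemma win_k (g : Pairing) (i j : ℕ) : win a b c g (i + 1) j 0 = 0 := by
  cases j with
  | zero => exact win_j g i 0
  | succ j => cases g <;> rw [win]

lemma win_eq : ∀ (n : ℕ) (g : Pairing) (i j k : ℕ), i + j + k < n →
    win a b c g i j k = (if i = 0 then 1 else 0) + F a b c g i j k := by
  intro n
  induction n with
  | zero => intro g i j k h; omega
  | succ n ih =>
    intro g i j k h
    rcases i with _ | i
    · rw [win_zero, F_zero g (by simp)]; simp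
    rcases j with _ | j
    · rw [win_j, F_zero g (by simp)]; simp
    rcases k with _ | k
    · rw [win_k, F_zero g (by simp)]; simp
    have e : (if (i:ℤ) = 0 ∧ 0 ≤ (j:ℤ) ∧ 0 ≤ (k:ℤ) then (1:ℝ) else 0) = if i = 0 then 1 else 0 := by
      split_ifs <;> first | omega | rfl
    cases g
    · rw [win, ih _ i (j + 1) (k + 1) (by omega), ih _ (i + 1) j (k + 1) (by omega)]
      push_cast
      rw [F_FM, e]; split_ifs <;> first | omega | ring
    · rw [win, ih _ i (j + 1) (k + 1) (by omega), ih _ (i + 1) (j + 1) k (by omega)]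
      push_cast
      rw [F_FS, e]; split_ifs <;> first | omega | ring
    · rw [win, ih _ (i + 1) j (k + 1) (by omega), ih _ (i + 1) (j + 1) k (by omega)]
      push_cast
      rw [F_MS]; simp

section mono
variable (ha : 0 ≤ a) (ha1 : a ≤ 1) (hb : 0 ≤ b) (hb1 : b ≤ 1) (hc : 0 ≤ c) (hc1 : c ≤ 1)
include ha ha1 hb hb1 hc hc1

lemma win_nonneg : ∀ (n : ℕ) (g : Pairing) (i j k : ℕ), i + j + k < n → 0 ≤ win a b c g i j k := by
  intro n
  induction n with
  | zero => intro g i j k h; omega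
  | succ n ih =>
    intro g i j k h
    rcases i with _ | i
    · rw [win_zero]; norm_num
    rcases j with _ | j
    · rw [win_j]
    rcases k with _ | k
    · rw [win_k]
    have ha' := sub_nonneg.2 ha1
    have hb' := sub_nonneg.2 hb1
    have hc' := sub_nonneg.2 hc1
    cases g <;> rw [win] <;>
      exact add_nonneg (mul_nonneg ‹_› (ih _ _ _ _ (by omega))) (mul_nonneg ‹_› (ih _ _ _ _ (by omega)))

lemma win_mono : ∀ (n : ℕ) (g : Pairing) (i j k j' k' : ℕ), i + j + k < n → j ≤ j' → k ≤ k' →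
    win a b c g i j k ≤ win a b c g i j' k' := by
  intro n
  induction n with
  | zero => intro g i j k j' k' h; omega
  | succ n ih =>
    intro g i j k j' k' h hj hk
    rcases i with _ | i
    · rw [win_zero, win_zero]
    rcases j with _ | j
    · rw [win_j]; exact win_nonneg ha ha1 hb hb1 hc hc1 _ _ _ _ _ (Nat.lt_succ_self _)
    rcases k with _ | k
    · rw [win_k]; exact win_nonneg ha ha1 hb hb1 hc hc1 _ _ _ _ _ (Nat.lt_succ_self _)
    obtain ⟨j', rfl⟩ : ∃ t, j' = t + 1 := ⟨j' - 1, by omega⟩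
    obtain ⟨k', rfl⟩ : ∃ t, k' = t + 1 := ⟨k' - 1, by omega⟩
    have ha' := sub_nonneg.2 ha1
    have hb' := sub_nonneg.2 hb1
    have hc' := sub_nonneg.2 hc1
    cases g <;> rw [win, win] <;>
      exact add_le_add (mul_le_mul_of_nonneg_left (ih _ _ _ _ _ _ (by omega) (by omega) (by omega)) ‹_›)
        (mul_le_mul_of_nonneg_left (ih _ _ _ _ _ _ (by omega) (by omega) (by omega)) ‹_›)

end mono

end Pool.Agent.H46.Fm
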