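import Pool.Agent.H46.Fm2
namespace Pool.Agent.H46.Fm

variable {p α β κ : ℝ}

lemma D_cmp (hp : 0 ≤ p) (hα : 0 < α) (hαβ : α ≤ β) (hκ : 0 ≤ κ) (i x y : ℤ) :
    (x ≤ y → D p α β κ i y x ≤ D p α β κ i x y) ∧
    (x + 2 ≤ y → β * D p α β κ i y x ≤ α * D p α β κ i x y) := by
  set ρ := Real.sqrt (β / α) with hρ
  have h1 : 1 ≤ ρ := by
    rw [hρ]; exact Real.one_le_sqrt.2 ((one_le_div hα).2 hαβ)
  have hρ0 : 0 < ρ := by linarith
  have h2 : β = α * ρ ^ 2 := by
    rw [hρ, Real.sq_sqrt (div_nonneg (by linarith) hα.le)]; field_simp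
  have hs := D_symm (p := p) (κ := κ) hρ0.ne' h2 ((i + x + y).toNat + 1) i x y (by push_cast; omega)
  have hn := D_nonneg hp hα.le (hα.le.trans hαβ) hκ ((i + x + y).toNat + 1) i y x
    (by push_cast; omega)
  have hx : 0 < ρ ^ x := zpow_pos hρ0 x
  constructor
  · intro hxy
    have : ρ ^ x ≤ ρ ^ y := zpow_le_zpow_right₀ h1 hxy
    have h3 : D p α β κ i y x * ρ ^ x ≤ D p α β κ i x y * ρ ^ x := by
      rw [hs]; exact mul_le_mul_of_nonneg_left this hn
    exact le_of_mul_le_mul_right h3 hx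
  · intro hxy
    have : ρ ^ (x + 2) ≤ ρ ^ y := zpow_le_zpow_right₀ h1 hxy
    have ex : ρ ^ (x + 2) = ρ ^ x * ρ ^ 2 := by
      rw [← zpow_natCast ρ 2, ← zpow_add₀ hρ0.ne']; congr 1
    have h3 : (β * D p α β κ i y x) * ρ ^ x ≤ (α * D p α β κ i x y) * ρ ^ x := by
      have h4 := mul_le_mul_of_nonneg_left (mul_le_mul_of_nonneg_left this hn) hα.le
      rw [← hs, ex] at h4
      calc (β * D p α β κ i y x) * ρ ^ x = α * (D p α β κ i y x * (ρ ^ x * ρ ^ 2)) := by
            rw [h2]; ring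
        _ ≤ α * (D p α β κ i x y * ρ ^ x) := h4
        _ = _ := by ring
    exact le_of_mul_le_mul_right h3 hx

lemma strip (hp : 0 ≤ p) (hα : 0 < α) (hαβ : α ≤ β) (hκ : 0 ≤ κ) (i y : ℤ) (m : ℕ) :
    0 ≤ Q p α β κ i (y + 1) m - Q p α β κ i y m ∧
    ((m:ℤ) ≤ y + 1 → Q p α β κ i (y + 1) m - Q p α β κ i y m
      ≤ Q p α β κ i m (y + 1) - Q p α β κ i m y) ∧
    ((m:ℤ) + 1 ≤ y → β * (Q p α β κ i (y + 1) m - Q p α β κ i y m)
      ≤ α * (Q p α β κ i m (y + 1) - Q p α β κ i m y)) := by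
  induction m with
  | zero =>
    rw [Q_zero (by simp), Q_zero (by simp), Q_zero (by simp), Q_zero (by simp)]
    simp
  | succ m ih =>
    obtain ⟨h0, h1, h2⟩ := ih
    obtain ⟨c1, c2⟩ := D_cmp hp hα hαβ hκ i m y
    have hn := D_nonneg hp hα.le (hα.le.trans hαβ) hκ ((i + y + m).toNat + 1) i y m
      (by push_cast; omega)
    unfold D at c1 c2 hn
    push_cast
    refine ⟨by linarith, fun h => ?_, fun h => ?_⟩
    · have := h1 (by omega); have := c1 (by omega); linarith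
    · have := h2 (by omega); have := c2 (by omega); linarith

theorem FM_ge_FS {a b c : ℝ} (ha1 : a < 1) (hb : 0 < b) (hba : b ≤ a) (hc : 0 < c)
    (hc2 : c ≤ 1 / 2) (N : ℕ) (hN : 1 ≤ N) : win a b c .FS N N N ≤ win a b c .FM N N N := by
  obtain ⟨n, rfl⟩ : ∃ t, N = t + 1 := ⟨N - 1, by omega⟩
  rcases n with _ | n
  · rw [win.eq_def, win.eq_def a b c .FM]
    simp only [win_zero, win_j, win_k]; linarith
  rw [win_eq _ _ _ _ _ (Nat.lt_succ_self _), win_eq _ _ _ _ _ (Nat.lt_succ_self _)]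
  have ha : 0 < a := by linarith
  have ha' : 0 < 1 - a := by linarith
  have hb' : 0 < 1 - b := by linarith
  have hc' : 0 < 1 - c := by linarith
  set α := c * (1 - a) with hαd
  set β := (1 - c) * (1 - b) with hβd
  set κ := (1 - a) * b * (1 - c) + (1 - b) * a * c with hκd
  have hα : 0 < α := by positivity
  have hαβ : α ≤ β := by rw [hαd, hβd]; exact mul_le_mul (by linarith) (by linarith) ha'.le hc'.le
  have hκ : 0 ≤ κ := by positivity
  have hp : 0 ≤ a * b := by positivity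
  obtain ⟨s0, s1, -⟩ := strip hp hα hαβ hκ ((n:ℤ) + 1) n n
  obtain ⟨t0, -, t2⟩ := strip hp hα hαβ hκ ((n:ℤ) + 1) (n + 1) n
  have s1 := s1 (by omega)
  have t2 := t2 (by omega)
  have dn : ∀ x y : ℤ, 0 ≤ D (a * b) α β κ (n + 1) x y := fun x y =>
    D_nonneg hp hα.le (hα.le.trans hαβ) hκ (((n:ℤ) + 1 + x + y).toNat + 1) _ x y
      (by push_cast; omega)
  have d1 := dn n n
  have d2 := dn (n + 1) n
  have d3 := dn n (n + 1)
  have d4 := dn (n + 1) (n + 1)
  unfold D at d1 d2 d3 d4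
  simp only [F, q]
  push_cast
  simp only [show ∀ t : ℤ, t + 1 - 1 = t by intro t; ring,
    show ∀ t : ℤ, t + 1 + 1 - 2 = t by intro t; ring]
  rw [← hαd, ← hβd, ← hκd]
  generalize Q (a * b) α β κ = W at *
  set R0 := W (n + 1) n (n + 1) - W (n + 1) n n with hR0
  set K0 := W (n + 1) (n + 1) n - W (n + 1) n n with hK0
  set R1 := W (n + 1) n (n + 1 + 1) - W (n + 1) n (n + 1) with hR1
  set K1 := W (n + 1) (n + 1 + 1) n - W (n + 1) (n + 1) n with hK1
  have hab : 0 ≤ a - b := by linarith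
  have g1 : b * α ≤ a * β := mul_le_mul hba hαβ hα.le ha.le
  -- first strip
  have u1 : b * α * K0 ≤ a * β * R0 :=
    mul_le_mul g1 s1 s0 (mul_nonneg ha.le (hα.le.trans hαβ))
  -- second strip
  have hR1n : 0 ≤ R1 := by
    have : 0 ≤ α * R1 := le_trans (mul_nonneg (hα.le.trans hαβ) t0) t2
    exact (mul_nonneg_iff_of_pos_left hα).1 this
  have u2 : (b * (1 - a) - a * (1 - b) * c) * K1 ≤ (a - b + b * α) * R1 := by
    have v1 : b * (1 - a) - a * (1 - b) * c ≤ b * β := by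
      rw [hβd]
      have : 0 ≤ (a - b) * ((1 - b) * c) := by positivity
      have : 0 ≤ b * (a - b) := by positivity
      nlinarith
    have v2 := mul_le_mul_of_nonneg_right v1 t0
    have v3 := mul_le_mul_of_nonneg_left t2 hb.le
    have v4 := mul_nonneg hab hR1n
    nlinarith
  have w1 := mul_nonneg (sub_nonneg.2 g1) d1
  have w2 := mul_nonneg hab d2
  have w3 := mul_nonneg hab d3
  have w4 := mul_nonneg hab d4
  rw [hR0, hK0] at u1
  rw [hR1, hK1] at u2
  rw [hαd, hβd] at *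
  linarith

theorem FM_ge_MS {a b c : ℝ} (ha1 : a < 1) (hb : 0 < b) (hba : b ≤ a) (hc : 0 < c)
    (hc2 : c ≤ 1 / 2) (N : ℕ) (hN : 1 ≤ N) : win a b c .MS N N N ≤ win a b c .FM N N N := by
  have h := FM_ge_FS ha1 hb hba hc hc2 N hN
  obtain ⟨n, rfl⟩ : ∃ t, N = t + 1 := ⟨N - 1, by omega⟩
  have m := win_mono (a := a) (b := b) (c := c) (by linarith) ha1.le hb.le (by linarith) hc.le
    (by linarith)
  have m1 := m _ .FM (n + 1) n (n + 1) (n + 1) (n + 1) (Nat.lt_succ_self _) (by omega) le_rfl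
  have m2 := m _ .FS (n + 1) (n + 1) n (n + 1) (n + 1) (Nat.lt_succ_self _) le_rfl (by omega)
  have e : win a b c .MS (n + 1) (n + 1) (n + 1)
      = c * win a b c .FM (n + 1) n (n + 1) + (1 - c) * win a b c .FS (n + 1) (n + 1) n := by
    rw [win]
  have hc' : 0 ≤ 1 - c := by linarith
  have := mul_le_mul_of_nonneg_left m1 hc.le
  have := mul_le_mul_of_nonneg_left (m2.trans h) hc'
  rw [e]; linarith

end Pool.Agent.H46.Fm
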