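import Mathlib
namespace Pool.Agent.H46.Fm

/-- The pairing of the next game: `FM` = father v. mother, `FS` = father v. son,
`MS` = mother v. son. -/
inductive Pairing
  | FM
  | FS
  | MS

/-- `win a b c g i j k`: probability that the father wins the tournament when the next game is
`g` and father, mother, son still need `i`, `j`, `k` game wins (first-step recursion). -/
noncomputable def win (a b c : ℝ) : Pairing → ℕ → ℕ → ℕ → ℝ
  | _, 0, _, _ => 1
  | _, _ + 1, 0, _ => 0
  | _, _ + 1, _ + 1, 0 => 0
  | .FM, i + 1, j + 1, k + 1 =>
      a * win a b c .FS i (j + 1) (k + 1) + (1 - a) * win a b c .MS (i + 1) j (k + 1)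
  | .FS, i + 1, j + 1, k + 1 =>
      b * win a b c .FM i (j + 1) (k + 1) + (1 - b) * win a b c .MS (i + 1) (j + 1) k
  | .MS, i + 1, j + 1, k + 1 =>
      c * win a b c .FM (i + 1) j (k + 1) + (1 - c) * win a b c .FS (i + 1) (j + 1) k
termination_by _ i j k => i + j + k

/-- `P N g a b c`: probability that the father wins the first-to-`N` tournament whose first game
is `g`. -/
noncomputable def P (N : ℕ) (g : Pairing) (a b c : ℝ) : ℝ := win a b c g N N N

end Pool.Agent.H46.Fm
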