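import Mathlib

set_option autoImplicit false

namespace Pool.Agent.H46.Loc

open Filter Topology

/-- Nearest neighbours in the square lattice: Euclidean distance one. -/
def adj (x y : ℤ × ℤ) : Prop := (x.1 - y.1) ^ 2 + (x.2 - y.2) ^ 2 = 1

instance (x y : ℤ × ℤ) : Decidable (adj x y) := by unfold adj; infer_instance

/-- The matrix `F` in dimension `d = 2`. -/
noncomputable def F (β γ : ℝ) (x y : ℤ × ℤ) : ℝ :=
  if x = y then -β else if adj x y then γ / (2 * 2) else 0

/-- The quadratic form of `F` at `f`. -/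
noncomputable def energy (β γ : ℝ) (f : ℤ × ℤ → ℝ) : ℝ :=
  ∑' p : (ℤ × ℤ) × (ℤ × ℤ), f p.1 * F β γ p.1 p.2 * f p.2

/-- Endpoint-corrected local time of the `n`-step path `w 0, ..., w n`. -/
noncomputable def loc (n : ℕ) (w : ℕ → ℤ × ℤ) (x : ℤ × ℤ) : ℝ :=
  (((Finset.range (n + 1)).filter fun i => w i = x).card : ℝ) -
    (if w 0 = x then 1 / 2 else 0) - (if w n = x then 1 / 2 else 0)

/-- The set of probability vectors that are pointwise limits of normalised local times. -/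
def Adm (f : ℤ × ℤ → ℝ) : Prop :=
  (∀ x, 0 ≤ f x) ∧ HasSum f 1 ∧
    ∃ (n : ℕ → ℕ) (w : ℕ → ℕ → ℤ × ℤ), Tendsto n atTop atTop ∧
      (∀ k i, i < n k → adj (w k (i + 1)) (w k i)) ∧
      ∀ x, Tendsto (fun k => loc (n k) (w k) x / n k) atTop (𝓝 (f x))

/-- Maximisers of the quadratic form over the admissible set. -/
def IsMax (β γ : ℝ) (f : ℤ × ℤ → ℝ) : Prop :=
  Adm f ∧ ∀ g, Adm g → energy β γ g ≤ energy β γ f

end Pool.Agent.H46.Loc
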