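import Mathlib

open Set Filter Topology

namespace Pool.Agent.H46.PLR

abbrev G := ℝ ≃o ℝ

/-- affine germ along a filter -/
def Aff (u : ℝ → ℝ) (x : ℝ) (F : Filter ℝ) : Prop := ∃ a : ℝ, ∀ᶠ t in F, u t = u x + a * (t - x)

def PL (u : G) : Prop := ∀ x, Aff u x (𝓝[≥] x) ∧ Aff u x (𝓝[≤] x)

lemma tR (u : G) (x : ℝ) : Tendsto u (𝓝[≥] x) (𝓝[≥] (u x)) := by
  apply tendsto_nhdsWithin_of_tendsto_nhds_of_eventually_within
  · exact (u.continuous.tendsto x).mono_left nhdsWithin_le_nhds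
  · filter_upwards [self_mem_nhdsWithin] with t ht
    exact u.monotone ht

lemma tL (u : G) (x : ℝ) : Tendsto u (𝓝[≤] x) (𝓝[≤] (u x)) := by
  apply tendsto_nhdsWithin_of_tendsto_nhds_of_eventually_within
  · exact (u.continuous.tendsto x).mono_left nhdsWithin_le_nhds
  · filter_upwards [self_mem_nhdsWithin] with t ht
    exact u.monotone ht

lemma mul_ap (u v : G) (x : ℝ) : (u * v) x = u (v x) := rfl
lemma one_ap (x : ℝ) : (1 : G) x = x := rfl
@[simp] lemma inv_ap (u : G) (x : ℝ) : u⁻¹ (u x) = x := u.symm_apply_apply x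
@[simp] lemma ap_inv (u : G) (x : ℝ) : u (u⁻¹ x) = x := u.apply_symm_apply x

lemma aff_comp {u v : G} {x : ℝ} {F F' : Filter ℝ} (ht : Tendsto v F F') (hv : Aff v x F)
    (hu : Aff u (v x) F') : Aff (u * v : G) x F := by
  obtain ⟨a, ha⟩ := hv
  obtain ⟨b, hb⟩ := hu
  refine ⟨b * a, ?_⟩
  filter_upwards [ha, ht.eventually hb] with t h1 h2
  rw [mul_ap, mul_ap, h2, h1]; ring

lemma PL.mul {u v : G} (hu : PL u) (hv : PL v) : PL (u * v) := fun x =>
  ⟨aff_comp (tR v x) (hv x).1 (hu _).1, aff_comp (tL v x) (hv x).2 (hu _).2⟩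

lemma PL.one : PL 1 := fun x => ⟨⟨1, by simp [one_ap]⟩, ⟨1, by simp [one_ap]⟩⟩

lemma aff_inv {u : G} {x : ℝ} {F F' : Filter ℝ} (ht : Tendsto (u⁻¹ : G) F F')
    (hne : ∃ᶠ t in F', t ≠ u⁻¹ x) (hu : Aff u (u⁻¹ x) F') : Aff (u⁻¹ : G) x F := by
  obtain ⟨a, ha⟩ := hu
  have ha0 : a ≠ 0 := by
    rintro rfl
    obtain ⟨t, h1, h2⟩ := (hne.and_eventually ha).exists
    apply h1
    apply u.injective
    rw [h2]; ring
  refine ⟨a⁻¹, ?_⟩
  filter_upwards [ht.eventually ha] with t h1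
  simp only [ap_inv] at h1
  have : t - x = a * (u⁻¹ t - u⁻¹ x) := by linarith
  rw [this]; field_simp; ring

lemma freqR (y : ℝ) : ∃ᶠ t in 𝓝[≥] y, t ≠ y := by
  have h : ∃ᶠ t in 𝓝[>] y, t ≠ y :=
    (show ∀ᶠ t in 𝓝[>] y, t ≠ y from by
      filter_upwards [self_mem_nhdsWithin] with t ht using ne_of_gt ht).frequently
  exact h.filter_mono (nhdsWithin_mono _ Ioi_subset_Ici_self)

lemma freqL (y : ℝ) : ∃ᶠ t in 𝓝[≤] y, t ≠ y := by
  have h : ∃ᶠ t in 𝓝[<] y, t ≠ y :=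
    (show ∀ᶠ t in 𝓝[<] y, t ≠ y from by
      filter_upwards [self_mem_nhdsWithin] with t ht using ne_of_lt ht).frequently
  exact h.filter_mono (nhdsWithin_mono _ Iio_subset_Iic_self)

lemma PL.inv {u : G} (hu : PL u) : PL u⁻¹ := fun x =>
  ⟨aff_inv (tR u⁻¹ x) (freqR _) (hu _).1, aff_inv (tL u⁻¹ x) (freqL _) (hu _).2⟩

lemma Aff.congr {u v : ℝ → ℝ} {x : ℝ} {F : Filter ℝ} (h : Aff u x F) (h0 : v x = u x)
    (h1 : ∀ᶠ t in F, v t = u t) : Aff v x F := by
  obtain ⟨a, ha⟩ := h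
  refine ⟨a, ?_⟩
  filter_upwards [ha, h1] with t h2 h3
  rw [h3, h2, h0]

/-- build an element from a function -/
lemma mk_G (U : ℝ → ℝ) (h1 : StrictMono U) (h2 : Function.Surjective U) :
    ∃ u : G, ∀ x, u x = U x := ⟨h1.orderIsoOfSurjective U h2, fun _ => rfl⟩

lemma exists_aff (x1 x2 y1 y2 : ℝ) (hx : x1 < x2) (hy : y1 < y2) :
    ∃ u : G, PL u ∧ u x1 = y1 ∧ u x2 = y2 := by
  have hd : 0 < x2 - x1 := by linarith
  have ha : 0 < (y2 - y1) / (x2 - x1) := div_pos (by linarith) hd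
  set a := (y2 - y1) / (x2 - x1) with hadef
  obtain ⟨u, hu⟩ := mk_G (fun t => y1 + a * (t - x1))
    (fun s t hst => by simp only; nlinarith)
    (fun y => ⟨x1 + (y - y1) / a, by simp only; field_simp; ring⟩)
  refine ⟨u, fun x => ⟨⟨a, Eventually.of_forall fun t => ?_⟩, ⟨a, Eventually.of_forall fun t => ?_⟩⟩,
    ?_, ?_⟩
  · rw [hu, hu]; ring
  · rw [hu, hu]; ring
  · rw [hu]; ring
  · rw [hu, hadef]; field_simp; ring

lemma glue {u v : G} (hu : PL u) (hv : PL v) (z : ℝ) (h : u z = v z) :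
    ∃ w : G, PL w ∧ (∀ x ≤ z, w x = u x) ∧ (∀ x ≥ z, w x = v x) := by
  classical
  obtain ⟨w, hw⟩ := mk_G (fun x => if x ≤ z then u x else v x)
    (by
      intro s t hst
      simp only
      split_ifs with h1 h2 h2
      · exact u.strictMono hst
      · calc u s ≤ u z := u.monotone h1
          _ = v z := h
          _ < v t := v.strictMono (not_le.mp h2)
      · exact absurd (hst.le.trans h2) h1
      · exact v.strictMono hst)
    (by
      intro y
      by_cases hy : y ≤ u z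
      · refine ⟨u⁻¹ y, ?_⟩
        have : u⁻¹ y ≤ z := by
          rw [← u.le_iff_le]; simpa using hy
        simp [this]
      · refine ⟨v⁻¹ y, ?_⟩
        have : ¬ v⁻¹ y ≤ z := by
          rw [← v.le_iff_le, ← h]; simpa using hy
        simp [this])
  have h1 : ∀ x ≤ z, w x = u x := fun x hx => by rw [hw]; simp [hx]
  have h2 : ∀ x ≥ z, w x = v x := fun x hx => by
    rcases eq_or_lt_of_le hx with rfl | hx
    · rw [h1 _ le_rfl, h]
    · rw [hw]; simp [not_le.mpr hx]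
  refine ⟨w, fun x => ⟨?_, ?_⟩, h1, h2⟩
  · rcases lt_or_ge x z with hx | hx
    · refine (hu x).1.congr (h1 x hx.le) ?_
      filter_upwards [nhdsWithin_le_nhds (Iio_mem_nhds hx)] with t ht using h1 t (le_of_lt ht)
    · refine (hv x).1.congr (h2 x hx) ?_
      filter_upwards [self_mem_nhdsWithin] with t ht using h2 t (le_trans hx ht)
  · rcases le_or_gt x z with hx | hx
    · refine (hu x).2.congr (h1 x hx) ?_
      filter_upwards [self_mem_nhdsWithin] with t ht using h1 t (le_trans ht hx)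
    · refine (hv x).2.congr (h2 x hx.le) ?_
      filter_upwards [nhdsWithin_le_nhds (Ioi_mem_nhds hx)] with t ht using h2 t (le_of_lt ht)

lemma limit (u : ℕ → G) (c : ℕ → ℝ) (hu : ∀ n, PL (u n)) (hc : Monotone c)
    (hag : ∀ n, ∀ x ≤ c n, u (n + 1) x = u n x)
    (hc1 : ∀ B, ∃ n, B ≤ c n) (hc2 : ∀ B, ∃ n, B ≤ u n (c n)) :
    ∃ w : G, PL w ∧ ∀ n, ∀ x ≤ c n, w x = u n x := by
  have hag' : ∀ n m, n ≤ m → ∀ x ≤ c n, u m x = u n x := by
    intro n m hnm x hx
    induction m, hnm using Nat.le_induction with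
    | base => rfl
    | succ m hm ih => rw [hag m x (hx.trans (hc hm)), ih]
  choose N hN using hc1
  have key : ∀ n, ∀ x ≤ c n, u (N x) x = u n x := by
    intro n x hx
    rcases le_total n (N x) with h | h
    · exact hag' _ _ h x hx
    · exact (hag' _ _ h x (hN x)).symm
  obtain ⟨w, hw⟩ := mk_G (fun x => u (N x) x)
    (by
      intro s t hst
      simp only
      rw [key (N t) s (hst.le.trans (hN t))]
      exact (u _).strictMono hst)
    (by
      intro y
      obtain ⟨n, hn⟩ := hc2 y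
      refine ⟨(u n)⁻¹ y, ?_⟩
      simp only
      rw [key n]
      · simp
      · rw [← (u n).le_iff_le]; simpa using hn)
  have h1 : ∀ n, ∀ x ≤ c n, w x = u n x := fun n x hx => by rw [hw, key n x hx]
  refine ⟨w, fun x => ?_, h1⟩
  have hx : x < c (N (x + 1)) := by linarith [hN (x + 1)]
  have h2 : ∀ᶠ t in 𝓝 x, w t = u (N (x + 1)) t := by
    filter_upwards [Iio_mem_nhds hx] with t ht using h1 _ t (le_of_lt ht)
  exact ⟨(hu _ x).1.congr (h1 _ x hx.le) (nhdsWithin_le_nhds h2),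
    (hu _ x).2.congr (h1 _ x hx.le) (nhdsWithin_le_nhds h2)⟩

/-- reflection -/
lemma exists_refl (u : G) : ∃ w : G, ∀ x, w x = - u (-x) :=
  mk_G (fun x => - u (-x)) (fun s t hst => neg_lt_neg (u.strictMono (neg_lt_neg hst)))
    (fun y => ⟨-(u⁻¹ (-y)), by simp⟩)

noncomputable def rf (u : G) : G := (exists_refl u).choose

lemma rf_ap (u : G) (x : ℝ) : rf u x = - u (-x) := (exists_refl u).choose_spec x

lemma rf_mul (u v : G) : rf (u * v) = rf u * rf v := by
  ext x; simp [rf_ap, mul_ap]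

lemma rf_rf (u : G) : rf (rf u) = u := by
  ext x; simp [rf_ap]

lemma rf_inv (u : G) : rf u⁻¹ = (rf u)⁻¹ := by
  rw [eq_inv_iff_mul_eq_one, ← rf_mul]
  ext x; simp [rf_ap, one_ap]

lemma PL.rf {u : G} (hu : PL u) : PL (rf u) := by
  intro x
  have t1 : Tendsto (fun t : ℝ => -t) (𝓝[≥] x) (𝓝[≤] (-x)) := by
    apply tendsto_nhdsWithin_of_tendsto_nhds_of_eventually_within
    · exact (continuous_neg.tendsto x).mono_left nhdsWithin_le_nhds
    · filter_upwards [self_mem_nhdsWithin] with t ht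
      exact neg_le_neg (show x ≤ t from ht)
  have t2 : Tendsto (fun t : ℝ => -t) (𝓝[≤] x) (𝓝[≥] (-x)) := by
    apply tendsto_nhdsWithin_of_tendsto_nhds_of_eventually_within
    · exact (continuous_neg.tendsto x).mono_left nhdsWithin_le_nhds
    · filter_upwards [self_mem_nhdsWithin] with t ht
      exact neg_le_neg (show t ≤ x from ht)
  obtain ⟨⟨a, ha⟩, ⟨b, hb⟩⟩ := hu (-x)
  refine ⟨⟨b, ?_⟩, ⟨a, ?_⟩⟩
  · filter_upwards [t1.eventually hb] with t ht
    rw [rf_ap, rf_ap, ht]; ring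
  · filter_upwards [t2.eventually ha] with t ht
    rw [rf_ap, rf_ap, ht]; ring

end Pool.Agent.H46.PLR
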