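import Pool.Agent.H46.PL1

open Set Filter Topology

namespace Pool.Agent.H46.PLR

def Good (μ : G) : Prop := PL μ ∧
  (∀ y, y < μ y → ∃ e : ℤ, μ y < e ∧ μ e = e ∧ ∀ x ∈ Ioo (e:ℝ) (e+1), μ x < x) ∧
  (∀ y, μ y < y → ∃ e : ℤ, y < e ∧ μ e = e ∧ ∀ x ∈ Ioo (e:ℝ) (e+1), x < μ x)

lemma lt_inv_iff (u : G) (x y : ℝ) : x < u⁻¹ y ↔ u x < y := by
  rw [← u.lt_iff_lt]; simp
lemma inv_lt_iff (u : G) (x y : ℝ) : u⁻¹ y < x ↔ y < u x := by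
  rw [← u.lt_iff_lt]; simp
lemma le_inv_iff (u : G) (x y : ℝ) : x ≤ u⁻¹ y ↔ u x ≤ y := by
  rw [← u.le_iff_le]; simp
lemma inv_le_iff (u : G) (x y : ℝ) : u⁻¹ y ≤ x ↔ y ≤ u x := by
  rw [← u.le_iff_le]; simp
lemma inv_eq_of (u : G) {x y : ℝ} (h : u x = y) : u⁻¹ y = x := by rw [← h]; simp

lemma Good.inv {μ : G} (h : Good μ) : Good μ⁻¹ := by
  refine ⟨h.1.inv, fun y hy => ?_, fun y hy => ?_⟩
  · obtain ⟨e, h1, h2, h3⟩ := h.2.2 (μ⁻¹ y) (by simpa using hy)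
    exact ⟨e, h1, inv_eq_of _ h2, fun x hx => (inv_lt_iff _ _ _).2 (h3 x hx)⟩
  · have hy' : y < μ y := (inv_lt_iff _ _ _).1 hy
    obtain ⟨e, h1, h2, h3⟩ := h.2.1 y hy'
    exact ⟨e, hy'.trans h1, inv_eq_of _ h2, fun x hx => (lt_inv_iff _ _ _).2 (h3 x hx)⟩

lemma force_aux {μ u : G} (hμ : PL μ) (hu : PL u) (b0 b' δ : ℝ)  (hδ : 0 < δ)
    (h : ∀ x ∈ Icc b0 b', x + δ ≤ u x) :
    ∀ N : ℕ, ∀ θ : G, PL θ → ∀ y, y < μ y → (∀ t ≤ y, θ (μ t) = u (θ t)) → b0 ≤ θ y →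
      b' ≤ θ y + N * δ →
      ∃ θ' : G, PL θ' ∧ (∀ t ≤ μ y, θ' t = θ t) ∧ ∀ t, θ' t ≤ b' → θ' (μ t) = u (θ' t) := by
  intro N
  induction N with
  | zero =>
    intro θ hθ y _ h2 _ h4
    refine ⟨θ, hθ, fun _ _ => rfl, fun t ht => h2 t ?_⟩
    rw [← θ.le_iff_le]; simp at h4; linarith
  | succ N ih =>
    intro θ hθ y h1 h2 h3 h4
    by_cases hb : b' ≤ θ y
    · refine ⟨θ, hθ, fun _ _ => rfl, fun t ht => h2 t ?_⟩
      rw [← θ.le_iff_le]; linarith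
    have h5 := h (θ y) ⟨h3, (not_le.mp hb).le⟩
    have hag : ∀ t ≤ μ y, (u * θ * μ⁻¹) t = θ t := by
      intro t ht
      rw [mul_ap, mul_ap, ← h2 _ ((inv_le_iff _ _ _).2 ht)]; simp
    obtain ⟨θ', k1, k2, k3⟩ := ih (u * θ * μ⁻¹) ((hu.mul hθ).mul hμ.inv) (μ y) (μ.strictMono h1)
      (by
        intro t ht
        rw [hag t ht, mul_ap, mul_ap]; simp)
      (by rw [mul_ap, mul_ap]; simp; linarith)
      (by rw [mul_ap, mul_ap]; simp; push_cast at h4; linarith)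
    refine ⟨θ', k1, fun t ht => ?_, k3⟩
    rw [k2 t (ht.trans (μ.strictMono h1).le), hag t ht]

lemma force_pos {μ u θ : G} (hμ : PL μ) (hu : PL u) (hθ : PL θ) {y b' : ℝ} (h1 : y < μ y)
    (h2 : ∀ t ≤ y, θ (μ t) = u (θ t)) (hb : θ y ≤ b') (h : ∀ x ∈ Icc (θ y) b', x < u x) :
    ∃ θ' : G, PL θ' ∧ (∀ t ≤ μ y, θ' t = θ t) ∧ ∀ t, θ' t ≤ b' → θ' (μ t) = u (θ' t) := by
  obtain ⟨m, hm, hmin⟩ := (isCompact_Icc (a := θ y) (b := b')).exists_isMinOn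
    ⟨θ y, le_rfl, hb⟩ (f := fun x => u x - x) (u.continuous.sub continuous_id).continuousOn
  have hδ : 0 < u m - m := by linarith [h m hm]
  obtain ⟨N, hN⟩ := exists_nat_ge ((b' - θ y) / (u m - m))
  refine force_aux hμ hu (θ y) b' (u m - m) hδ (fun x hx => ?_) N θ hθ y h1 h2 le_rfl ?_
  · have := hmin hx
    simp only [mem_ofPred_eq] at this
    linarith
  · rw [div_le_iff₀ hδ] at hN; linarith

lemma force_neg {μ u θ : G} (hμ : PL μ) (hu : PL u) (hθ : PL θ) {y b' : ℝ} (h1 : μ y < y)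
    (h2 : ∀ t ≤ y, θ (μ t) = u (θ t)) (hb : θ y ≤ b') (h : ∀ x ∈ Icc (θ y) b', u x < x) :
    ∃ θ' : G, PL θ' ∧ (∀ t ≤ y, θ' t = θ t) ∧ ∀ t, θ' t ≤ b' → θ' (μ t) = u (θ' t) := by
  obtain ⟨θ', k1, k2, k3⟩ := force_pos (y := μ y) (b' := u b') hμ.inv hu.inv hθ (by simpa using h1)
    (by
      intro t ht
      have := h2 (μ⁻¹ t) ((inv_le_iff _ _ _).2 ht)
      simp only [ap_inv] at this
      rw [this]; simp)
    (by rw [h2 y le_rfl]; exact u.monotone hb)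
    (by
      intro x hx
      rw [h2 y le_rfl] at hx
      have := h (u⁻¹ x) ⟨(le_inv_iff _ _ _).2 hx.1, (inv_le_iff _ _ _).2 hx.2⟩
      simpa using this)
  refine ⟨θ', k1, fun t ht => k2 t (by simpa using ht), fun t ht => ?_⟩
  have := k3 (θ'⁻¹ (u (θ' t))) (by simpa using ht)
  simp only [ap_inv, inv_ap] at this
  have h3 := θ'.injective this
  have h4 : θ'⁻¹ (u (θ' t)) = μ t := by
    have := congrArg μ h3
    simpa using this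
  rw [← h4]; simp

lemma ctl_above {ν θ g : G} (hν : Good ν) (hθ : PL θ) {y : ℝ} (hne : ν y ≠ y)
    (hg : g (θ y) < θ (ν y)) (hc : ∀ B, ∃ V, B ≤ V ∧ g V < V) (B : ℝ) :
    ∃ (θ' : G) (y' : ℝ), PL θ' ∧ (∀ t ≤ y, θ' t = θ t) ∧ (∀ t ≤ ν y, θ' t = θ t) ∧
      (∃ e : ℤ, y < e ∧ ν y < e ∧ e < y' ∧ e < ν y') ∧
      (y < ν y → ν y' < y' ∧ B ≤ θ' y') ∧ (ν y < y → y' < ν y') ∧
      ∀ t ∈ Icc y y', g (θ' t) < θ' (ν t) := by
  rcases lt_or_gt_of_ne hne with hlt | hlt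
  · obtain ⟨e, e1, e2, e3⟩ := hν.2.2 y hlt
    obtain ⟨p, p1, p2⟩ := exists_between ((lt_inv_iff g _ _).2 hg)
    obtain ⟨a, a1, a2, a3⟩ := exists_aff y e (θ y) p e1 p1
    obtain ⟨θ', k1, k2, k3⟩ := glue hθ a1 y a2.symm
    have k4 : θ' e = p := by rw [k3 _ e1.le, a3]
    have k5 : (e:ℝ) < min ((e:ℝ) + 1) (θ'⁻¹ (g⁻¹ (θ (ν y)))) :=
      lt_min (by linarith) ((lt_inv_iff _ _ _).2 (by rw [k4]; exact p2))
    obtain ⟨y', y1, y2⟩ := exists_between k5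
    rw [lt_min_iff] at y2
    refine ⟨θ', y', k1, k2, fun t ht => k2 t (ht.trans hlt.le),
      ⟨e, e1, hlt.trans e1, y1, by rw [← e2]; exact ν.strictMono y1⟩,
      fun h => absurd h (not_lt.mpr hlt.le), fun _ => e3 y' ⟨y1, y2.1⟩, fun t ht => ?_⟩
    have q1 : g (θ' y') < θ (ν y) := (lt_inv_iff _ _ _).1 ((lt_inv_iff _ _ _).1 y2.2)
    calc g (θ' t) ≤ g (θ' y') := g.monotone (θ'.monotone ht.2)
      _ < θ (ν y) := q1
      _ = θ' (ν y) := (k2 _ hlt.le).symm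
      _ ≤ θ' (ν t) := θ'.monotone (ν.monotone ht.1)
  · obtain ⟨e, e1, e2, e3⟩ := hν.2.1 y hlt
    have h0 : y < min (ν y) (θ⁻¹ (g⁻¹ (θ (ν y)))) :=
      lt_min hlt ((lt_inv_iff _ _ _).2 ((lt_inv_iff _ _ _).2 hg))
    obtain ⟨t0, t1, t2⟩ := exists_between h0
    rw [lt_min_iff] at t2
    have t3 : g (θ t0) < θ (ν y) := (lt_inv_iff _ _ _).1 ((lt_inv_iff _ _ _).1 t2.2)
    have w1 : ν y < ν t0 := ν.strictMono t1
    have w2 : ν t0 < e := by rw [← e2]; exact ν.strictMono (t2.1.trans e1)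
    obtain ⟨V, V1, V2⟩ := hc (max B (θ (ν y) + 1))
    rw [max_le_iff] at V1
    obtain ⟨p, p1, p2⟩ := exists_between ((lt_inv_iff g _ _).2 V2)
    obtain ⟨a, a1, a2, a3⟩ := exists_aff (ν y) (ν t0) (θ (ν y)) V w1 (by linarith [V1.2])
    obtain ⟨c, c1, c2, c3⟩ := exists_aff (ν t0) e V p w2 p1
    obtain ⟨θ1, j1, j2, j3⟩ := glue hθ a1 (ν y) a2.symm
    have j4 : θ1 (ν t0) = c (ν t0) := by rw [j3 _ w1.le, a3, c2]
    obtain ⟨θ', k1, k2, k3⟩ := glue j1 c1 (ν t0) j4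
    have k0 : ∀ t ≤ ν y, θ' t = θ t := fun t ht => by rw [k2 t (ht.trans w1.le), j2 t ht]
    have k4 : θ' e = p := by rw [k3 _ w2.le, c3]
    have k6 : θ' (ν t0) = V := by rw [k3 _ le_rfl, c2]
    have k5 : (e:ℝ) < min ((e:ℝ) + 1) (θ'⁻¹ (g⁻¹ V)) :=
      lt_min (by linarith) ((lt_inv_iff _ _ _).2 (by rw [k4]; exact p2))
    obtain ⟨y', y1, y2⟩ := exists_between k5
    rw [lt_min_iff] at y2
    refine ⟨θ', y', k1, fun t ht => k0 t (ht.trans hlt.le), k0,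
      ⟨e, hlt.trans e1, e1, y1, by rw [← e2]; exact ν.strictMono y1⟩,
      fun _ => ⟨e3 y' ⟨y1, y2.1⟩, ?_⟩, fun h => absurd h (not_lt.mpr hlt.le), fun t ht => ?_⟩
    · have := θ'.strictMono y1
      rw [k4] at this
      linarith [V1.1]
    · have q1 : g (θ' y') < V := (lt_inv_iff _ _ _).1 ((lt_inv_iff _ _ _).1 y2.2)
      rcases le_total t t0 with h | h
      · calc g (θ' t) = g (θ t) := by rw [k0 t (h.trans t2.1.le)]
          _ ≤ g (θ t0) := g.monotone (θ.monotone h)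
          _ < θ (ν y) := t3
          _ = θ' (ν y) := (k0 _ le_rfl).symm
          _ ≤ θ' (ν t) := θ'.monotone (ν.monotone ht.1)
      · calc g (θ' t) ≤ g (θ' y') := g.monotone (θ'.monotone ht.2)
          _ < V := q1
          _ = θ' (ν t0) := k6.symm
          _ ≤ θ' (ν t) := θ'.monotone (ν.monotone h)

lemma ctl_below {ν θ g : G} (hν : Good ν) (hθ : PL θ) {y : ℝ} (hne : ν y ≠ y)
    (hg : θ (ν y) < g (θ y)) (hc : ∀ B, ∃ V, B ≤ V ∧ V < g V) :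
    ∃ (θ' : G) (y' : ℝ), PL θ' ∧ (∀ t ≤ y, θ' t = θ t) ∧ (∀ t ≤ ν y, θ' t = θ t) ∧
      (∃ e : ℤ, y < e ∧ e < y') ∧
      (y < ν y → ν y' < y') ∧ (ν y < y → y' < ν y') ∧
      ∀ t ∈ Icc y y', θ' (ν t) < g (θ' t) := by
  obtain ⟨θ', w', k1, k2, k3, ⟨e, e1, e2, e3, e4⟩, k4, k5, k6⟩ :=
    ctl_above (g := g⁻¹) (y := ν y) hν.inv hθ (by simpa using hne.symm)
      (by rw [inv_lt_iff]; simpa using hg)
      (fun B => by
        obtain ⟨V, h1, h2⟩ := hc B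
        exact ⟨V, h1, (inv_lt_iff _ _ _).2 h2⟩) 0
  simp only [inv_ap] at k3 e2 k4 k5
  refine ⟨θ', ν⁻¹ w', k1, k3, k2, ⟨e, e2, e4⟩, fun h => by simpa using k5 h,
    fun h => by simpa using (k4 h).1, fun t ht => ?_⟩
  have := k6 (ν t) ⟨ν.monotone ht.1, (le_inv_iff _ _ _).1 ht.2⟩
  rw [inv_lt_iff] at this
  simpa using this

end Pool.Agent.H46.PLR
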