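import Pool.Agent.H46.PL2

open Set Filter Topology

namespace Pool.Agent.H46.PLR

def E (f μ ν φ ψ : G) (b : ℝ) : Prop := ∀ x ≤ b, φ (μ (φ⁻¹ x)) = f (ψ (ν (ψ⁻¹ x)))

lemma E.swap {f μ ν φ ψ : G} {b : ℝ} (h : E f μ ν φ ψ b) : E f⁻¹ ν μ ψ φ b := fun x hx => by
  rw [h x hx]; simp

def Ext (φ : G) (b : ℝ) (φ' : G) (b' : ℝ) : Prop := b ≤ b' ∧ ∀ t ≤ φ⁻¹ b, φ' t = φ t

lemma Ext.le {φ φ' : G} {b b' : ℝ} (h : Ext φ b φ' b') : φ⁻¹ b ≤ φ'⁻¹ b' := by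
  rw [le_inv_iff, h.2 _ le_rfl]; simpa using h.1

lemma Ext.trans {φ φ' φ'' : G} {b b' b'' : ℝ} (h : Ext φ b φ' b') (h' : Ext φ' b' φ'' b'') :
    Ext φ b φ'' b'' :=
  ⟨h.1.trans h'.1, fun t ht => by rw [h'.2 t (ht.trans h.le), h.2 t ht]⟩

lemma agree_conj {ψ ψ' ν : G} {z : ℝ} (h1 : ∀ t ≤ z, ψ' t = ψ t) (h2 : ∀ t ≤ ν z, ψ' t = ψ t)
    {x : ℝ} (hx : x ≤ ψ z) : ψ' (ν (ψ'⁻¹ x)) = ψ (ν (ψ⁻¹ x)) := by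
  have h3 : ψ⁻¹ x ≤ z := (inv_le_iff _ _ _).2 hx
  have h4 : ψ'⁻¹ x = ψ⁻¹ x := inv_eq_of _ (by rw [h1 _ h3]; simp)
  rw [h4, h2 _ (ν.monotone h3)]

lemma step_pos {f μ ν φ ψ : G} {b : ℝ} (hf : PL f) (hμ : Good μ) (hν : Good ν) (hφ : PL φ)
    (hψ : PL ψ) (hE : E f μ ν φ ψ b) (hp : φ⁻¹ b < μ (φ⁻¹ b)) (hne : ν (ψ⁻¹ b) ≠ ψ⁻¹ b)
    (hc : ∀ B, ∃ V, B ≤ V ∧ V < f V) (B : ℝ) :
    ∃ (φ' ψ' : G) (b' : ℝ), PL φ' ∧ PL ψ' ∧ E f μ ν φ' ψ' b' ∧ Ext φ b φ' b' ∧ Ext ψ b ψ' b' ∧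
      φ'⁻¹ b' < μ (φ'⁻¹ b') ∧ (∃ e : ℤ, ψ⁻¹ b < e ∧ e < ψ'⁻¹ b') ∧
      (ψ⁻¹ b < ν (ψ⁻¹ b) → ν (ψ'⁻¹ b') < ψ'⁻¹ b' ∧ B ≤ b') ∧
      (ν (ψ⁻¹ b) < ψ⁻¹ b → ψ'⁻¹ b' < ν (ψ'⁻¹ b')) := by
  obtain ⟨ψ', z', k1, k2, k3, ⟨e, e1, -, e3, -⟩, k4, k5, k6⟩ :=
    ctl_above (g := f⁻¹) (y := ψ⁻¹ b) hν hψ hne
      (by
        rw [inv_lt_iff, ← hE b le_rfl]
        exact φ.strictMono hp |>.trans_le' (by simp))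
      (fun B => by
        obtain ⟨V, h1, h2⟩ := hc B
        exact ⟨V, h1, (inv_lt_iff _ _ _).2 h2⟩) B
  have hb : ψ' (ψ⁻¹ b) = b := by rw [k2 _ le_rfl]; simp
  have hbb : b ≤ ψ' z' := by rw [← hb]; exact ψ'.monotone (e1.trans e3).le
  have hu : ∀ x ∈ Icc b (ψ' z'), x < (f * ψ' * ν * ψ'⁻¹) x := by
    intro x hx
    have := k6 (ψ'⁻¹ x) ⟨by rw [le_inv_iff, hb]; exact hx.1, (inv_le_iff _ _ _).2 hx.2⟩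
    rw [inv_lt_iff] at this
    simpa [mul_ap] using this
  obtain ⟨φ', j1, j2, j3⟩ := force_pos (u := f * ψ' * ν * ψ'⁻¹) (y := φ⁻¹ b) (b' := ψ' z') hμ.1
    (((hf.mul k1).mul hν.1).mul k1.inv) hφ hp
    (by
      intro t ht
      have h1 : φ t ≤ b := (le_inv_iff _ _ _).1 ht
      have h2 := hE _ h1
      simp only [inv_ap] at h2
      simp only [mul_ap]
      rw [h2, agree_conj k2 k3 (by simpa using h1)])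
    (by simpa using hbb) (by simpa using hu)
  have hE' : E f μ ν φ' ψ' (ψ' z') := by
    intro x hx
    have := j3 (φ'⁻¹ x) (by simpa using hx)
    simpa [mul_ap] using this
  refine ⟨φ', ψ', ψ' z', j1, k1, hE', ⟨hbb, fun t ht => j2 t (ht.trans hp.le)⟩, ⟨hbb, k2⟩, ?_,
    ⟨e, e1, by simpa using e3⟩, by simpa using k4, by simpa using k5⟩
  rw [← φ'.lt_iff_lt, hE' _ le_rfl]
  simpa [mul_ap] using hu _ ⟨hbb, le_rfl⟩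

lemma step_neg {f μ ν φ ψ : G} {b : ℝ} (hf : PL f) (hμ : Good μ) (hν : Good ν) (hφ : PL φ)
    (hψ : PL ψ) (hE : E f μ ν φ ψ b) (hp : ν (ψ⁻¹ b) < ψ⁻¹ b) (hne : μ (φ⁻¹ b) ≠ φ⁻¹ b)
    (hc : ∀ B, ∃ V, B ≤ V ∧ V < f V) :
    ∃ (φ' ψ' : G) (b' : ℝ), PL φ' ∧ PL ψ' ∧ E f μ ν φ' ψ' b' ∧ Ext φ b φ' b' ∧ Ext ψ b ψ' b' ∧
      ν (ψ'⁻¹ b') < ψ'⁻¹ b' ∧ (∃ e : ℤ, φ⁻¹ b < e ∧ e < φ'⁻¹ b') ∧
      (φ⁻¹ b < μ (φ⁻¹ b) → μ (φ'⁻¹ b') < φ'⁻¹ b') ∧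
      (μ (φ⁻¹ b) < φ⁻¹ b → φ'⁻¹ b' < μ (φ'⁻¹ b')) := by
  obtain ⟨φ', z', k1, k2, k3, ⟨e, e1, e3⟩, k4, k5, k6⟩ :=
    ctl_below (g := f) (y := φ⁻¹ b) hμ hφ hne
      (by
        rw [hE b le_rfl]
        apply f.strictMono
        exact ψ.strictMono hp |>.trans_le (by simp)) hc
  have hb : φ' (φ⁻¹ b) = b := by rw [k2 _ le_rfl]; simp
  have hbb : b ≤ φ' z' := by rw [← hb]; exact φ'.monotone (e1.trans e3).le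
  have hu : ∀ x ∈ Icc b (φ' z'), (f⁻¹ * φ' * μ * φ'⁻¹) x < x := by
    intro x hx
    have := k6 (φ'⁻¹ x) ⟨by rw [le_inv_iff, hb]; exact hx.1, (inv_le_iff _ _ _).2 hx.2⟩
    simp only [mul_ap]
    rw [inv_lt_iff]
    simpa using this
  obtain ⟨ψ', j1, j2, j3⟩ := force_neg (u := f⁻¹ * φ' * μ * φ'⁻¹) (y := ψ⁻¹ b) (b' := φ' z') hν.1
    (((hf.inv.mul k1).mul hμ.1).mul k1.inv) hψ hp
    (by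
      intro t ht
      have h1 : ψ t ≤ b := (le_inv_iff _ _ _).1 ht
      have h2 := hE.swap _ h1
      simp only [inv_ap] at h2
      simp only [mul_ap]
      rw [h2, agree_conj k2 k3 (by simpa using h1)])
    (by simpa using hbb) (by simpa using hu)
  have hE' : E f⁻¹ ν μ ψ' φ' (φ' z') := by
    intro x hx
    have := j3 (ψ'⁻¹ x) (by simpa using hx)
    simpa [mul_ap] using this
  refine ⟨φ', ψ', φ' z', k1, j1, by simpa using hE'.swap, ⟨hbb, k2⟩, ⟨hbb, j2⟩, ?_,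
    ⟨e, e1, by simpa using e3⟩, by simpa using k4, by simpa using k5⟩
  rw [← ψ'.lt_iff_lt, hE' _ le_rfl]
  simpa [mul_ap] using hu _ ⟨hbb, le_rfl⟩

def St (f μ ν : G) (p : G × G × ℝ) : Prop :=
  PL p.1 ∧ PL p.2.1 ∧ E f μ ν p.1 p.2.1 p.2.2 ∧ p.1⁻¹ p.2.2 < μ (p.1⁻¹ p.2.2) ∧
    p.2.1⁻¹ p.2.2 < ν (p.2.1⁻¹ p.2.2)

lemma from_neg {f μ ν φ ψ : G} {b : ℝ} (hf : PL f) (hμ : Good μ) (hν : Good ν) (hφ : PL φ)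
    (hψ : PL ψ) (hE : E f μ ν φ ψ b) (h1 : μ (φ⁻¹ b) < φ⁻¹ b) (h2 : ν (ψ⁻¹ b) < ψ⁻¹ b)
    (hc : ∀ B, ∃ V, B ≤ V ∧ V < f V) :
    ∃ q : G × G × ℝ, St f μ ν q ∧ Ext φ b q.1 q.2.2 ∧ Ext ψ b q.2.1 q.2.2 := by
  obtain ⟨φ3, ψ3, b3, c1, c2, c3, c4, c5, c6, -, -, c9⟩ :=
    step_neg hf hμ hν hφ hψ hE h2 h1.ne hc
  obtain ⟨φ4, ψ4, b4, d1, d2, d3, d4, d5, d6, -, -, d9⟩ :=
    step_pos hf hμ hν c1 c2 c3 (c9 h1) c6.ne hc 0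
  exact ⟨(φ4, ψ4, b4), ⟨d1, d2, d3, d6, d9 c6⟩, c4.trans d4, c5.trans d5⟩

lemma cycle {f μ ν : G} (hf : PL f) (hμ : Good μ) (hν : Good ν)
    (hc : ∀ B, ∃ V, B ≤ V ∧ V < f V) (p : G × G × ℝ) (hp : St f μ ν p) :
    ∃ q : G × G × ℝ, St f μ ν q ∧ Ext p.1 p.2.2 q.1 q.2.2 ∧ Ext p.2.1 p.2.2 q.2.1 q.2.2 ∧
      p.2.2 + 1 ≤ q.2.2 ∧ (∃ e : ℤ, p.1⁻¹ p.2.2 < e ∧ e < q.1⁻¹ q.2.2) ∧
      (∃ e : ℤ, p.2.1⁻¹ p.2.2 < e ∧ e < q.2.1⁻¹ q.2.2) := by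
  obtain ⟨φ, ψ, b⟩ := p
  obtain ⟨h1, h2, h3, h4, h5⟩ := hp
  simp only at h1 h2 h3 h4 h5 ⊢
  obtain ⟨φ1, ψ1, b1, a1, a2, a3, a4, a5, a6, ⟨e, a7, a7'⟩, a8, -⟩ :=
    step_pos hf hμ hν h1 h2 h3 h4 h5.ne' hc (b + 1)
  obtain ⟨φ2, ψ2, b2, c1, c2, c3, c4, c5, c6, ⟨e', c7, c7'⟩, c8, -⟩ :=
    step_neg hf hμ hν a1 a2 a3 (a8 h5).1 a6.ne' hc
  obtain ⟨q, q1, q2, q3⟩ := from_neg hf hμ hν c1 c2 c3 (c8 a6) c6 hc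
  exact ⟨q, q1, (a4.trans c4).trans q2, (a5.trans c5).trans q3,
    (a8 h5).2.trans (c4.1.trans q2.1), ⟨e', a4.le.trans_lt c7, c7'.trans_le q2.le⟩,
    ⟨e, a7, a7'.trans_le (c5.le.trans q3.le)⟩⟩

lemma unb (c : ℕ → ℝ) (h : ∀ n, ∃ e : ℤ, c n < e ∧ e < c (n + 1)) (B : ℝ) : ∃ n, B ≤ c n := by
  have key : ∀ n : ℕ, ((⌊c 0⌋ + n : ℤ) : ℝ) ≤ c n := by
    intro n
    induction n with
    | zero => simpa using Int.floor_le (c 0)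
    | succ n ih =>
      obtain ⟨e, h1, h2⟩ := h n
      have h3 : (⌊c 0⌋ + n : ℤ) < e := by exact_mod_cast ih.trans_lt h1
      have h4 : (⌊c 0⌋ + (n + 1 : ℕ) : ℤ) ≤ e := by push_cast; omega
      exact le_trans (by exact_mod_cast h4) h2.le
  obtain ⟨n, hn⟩ := exists_nat_ge (B - ⌊c 0⌋)
  refine ⟨n, le_trans ?_ (key n)⟩
  push_cast; linarith

lemma right_pos {f μ ν : G} (hf : PL f) (hμ : Good μ) (hν : Good ν)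
    (hc : ∀ B, ∃ V, B ≤ V ∧ V < f V) (p : G × G × ℝ) (hp : St f μ ν p) :
    ∃ φ ψ : G, PL φ ∧ PL ψ ∧ (∀ x, φ (μ (φ⁻¹ x)) = f (ψ (ν (ψ⁻¹ x)))) ∧
      ∀ B, ∃ b, B ≤ b ∧ φ⁻¹ b < μ (φ⁻¹ b) ∧ ψ⁻¹ b < ν (ψ⁻¹ b) := by
  choose nx hnx using cycle hf hμ hν hc
  let S := {q : G × G × ℝ // St f μ ν q}
  let F : S → S := fun q => ⟨nx q.1 q.2, (hnx q.1 q.2).1⟩
  let s : ℕ → S := fun n => F^[n] ⟨p, hp⟩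
  have hs : ∀ n, (s (n + 1)).1 = nx (s n).1 (s n).2 := fun n => by
    simp only [s, Function.iterate_succ_apply']; rfl
  let b : ℕ → ℝ := fun n => (s n).1.2.2
  let φ : ℕ → G := fun n => (s n).1.1
  let ψ : ℕ → G := fun n => (s n).1.2.1
  have k1 : ∀ n, Ext (φ n) (b n) (φ (n + 1)) (b (n + 1)) := fun n => by
    simp only [φ, b, hs]; exact (hnx _ _).2.1
  have k2 : ∀ n, Ext (ψ n) (b n) (ψ (n + 1)) (b (n + 1)) := fun n => by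
    simp only [ψ, b, hs]; exact (hnx _ _).2.2.1
  have k3 : ∀ n, b n + 1 ≤ b (n + 1) := fun n => by
    simp only [b, hs]; exact (hnx _ _).2.2.2.1
  have k4 : ∀ n, ∃ e : ℤ, (φ n)⁻¹ (b n) < e ∧ e < (φ (n + 1))⁻¹ (b (n + 1)) := fun n => by
    simp only [φ, b, hs]; exact (hnx _ _).2.2.2.2.1
  have k5 : ∀ n, ∃ e : ℤ, (ψ n)⁻¹ (b n) < e ∧ e < (ψ (n + 1))⁻¹ (b (n + 1)) := fun n => by
    simp only [ψ, b, hs]; exact (hnx _ _).2.2.2.2.2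
  have k6 : ∀ n : ℕ, b 0 + n ≤ b n := by
    intro n
    induction n with
    | zero => simp
    | succ n ih => push_cast; linarith [k3 n]
  have k7 : ∀ B, ∃ n, B ≤ b n := fun B => by
    obtain ⟨n, hn⟩ := exists_nat_ge (B - b 0)
    exact ⟨n, by linarith [k6 n]⟩
  have m1 : Monotone fun n => (φ n)⁻¹ (b n) := monotone_nat_of_le_succ fun n => (k1 n).le
  have m2 : Monotone fun n => (ψ n)⁻¹ (b n) := monotone_nat_of_le_succ fun n => (k2 n).le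
  have m3 : Monotone b := monotone_nat_of_le_succ fun n => (k1 n).1
  obtain ⟨Φ, a1, a2⟩ := limit φ (fun n => (φ n)⁻¹ (b n)) (fun n => (s n).2.1) m1
    (fun n => (k1 n).2) (unb _ k4) (fun B => by simpa using k7 B)
  obtain ⟨Ψ, c1, c2⟩ := limit ψ (fun n => (ψ n)⁻¹ (b n)) (fun n => (s n).2.2.1) m2
    (fun n => (k2 n).2) (unb _ k5) (fun B => by simpa using k7 B)
  have i1 : ∀ n, ∀ x ≤ b n, Φ⁻¹ x = (φ n)⁻¹ x := fun n x hx =>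
    inv_eq_of _ (by rw [a2 n _ ((φ n)⁻¹.monotone hx)]; simp)
  have i2 : ∀ n, ∀ x ≤ b n, Ψ⁻¹ x = (ψ n)⁻¹ x := fun n x hx =>
    inv_eq_of _ (by rw [c2 n _ ((ψ n)⁻¹.monotone hx)]; simp)
  refine ⟨Φ, Ψ, a1, c1, fun x => ?_, fun B => ?_⟩
  · obtain ⟨n1, h1⟩ := k7 x
    obtain ⟨n2, h2⟩ := unb _ k4 (μ (Φ⁻¹ x))
    obtain ⟨n3, h3⟩ := unb _ k5 (ν (Ψ⁻¹ x))
    let n := max n1 (max n2 n3)
    have g1 : x ≤ b n := h1.trans (m3 (le_max_left _ _))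
    have g2 := h2.trans (m1 (show n2 ≤ n from (le_max_left _ _).trans (le_max_right _ _)))
    have g3 := h3.trans (m2 (show n3 ≤ n from (le_max_right _ _).trans (le_max_right _ _)))
    rw [a2 n _ g2, c2 n _ g3, i1 n x g1, i2 n x g1]
    exact (s n).2.2.2.1 x g1
  · obtain ⟨n, hn⟩ := k7 B
    refine ⟨b n, hn, ?_, ?_⟩
    · rw [i1 n _ le_rfl]; exact (s n).2.2.2.2.1
    · rw [i2 n _ le_rfl]; exact (s n).2.2.2.2.2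

lemma right_pos' {f μ ν φ ψ : G} {b : ℝ} (hf : PL f) (hμ : Good μ) (hν : Good ν) (hφ : PL φ)
    (hψ : PL ψ) (hE : E f μ ν φ ψ b)
    (hs : (φ⁻¹ b < μ (φ⁻¹ b) ∧ ψ⁻¹ b < ν (ψ⁻¹ b)) ∨ (μ (φ⁻¹ b) < φ⁻¹ b ∧ ν (ψ⁻¹ b) < ψ⁻¹ b))
    (hc : ∀ B, ∃ V, B ≤ V ∧ V < f V) :
    ∃ φ ψ : G, PL φ ∧ PL ψ ∧ (∀ x, φ (μ (φ⁻¹ x)) = f (ψ (ν (ψ⁻¹ x)))) ∧
      ∀ B, ∃ b, B ≤ b ∧ φ⁻¹ b < μ (φ⁻¹ b) ∧ ψ⁻¹ b < ν (ψ⁻¹ b) := by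
  rcases hs with h | h
  · exact right_pos hf hμ hν hc (φ, ψ, b) ⟨hφ, hψ, hE, h.1, h.2⟩
  · obtain ⟨q, q1, -⟩ := from_neg hf hμ hν hφ hψ hE h.1 h.2 hc
    exact right_pos hf hμ hν hc q q1

lemma right_main {f μ ν φ ψ : G} {b : ℝ} (hf : PL f) (hμ : Good μ) (hν : Good ν) (hφ : PL φ)
    (hψ : PL ψ) (hE : E f μ ν φ ψ b)
    (hs : (φ⁻¹ b < μ (φ⁻¹ b) ∧ ψ⁻¹ b < ν (ψ⁻¹ b)) ∨ (μ (φ⁻¹ b) < φ⁻¹ b ∧ ν (ψ⁻¹ b) < ψ⁻¹ b))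
    (hc : ∀ B, ∃ V, B ≤ V ∧ f V ≠ V) :
    ∃ φ ψ : G, PL φ ∧ PL ψ ∧ (∀ x, φ (μ (φ⁻¹ x)) = f (ψ (ν (ψ⁻¹ x)))) ∧
      ∀ B, ∃ b, B ≤ b ∧ φ⁻¹ b < μ (φ⁻¹ b) ∧ ψ⁻¹ b < ν (ψ⁻¹ b) := by
  by_cases h : ∀ B, ∃ V, B ≤ V ∧ V < f V
  · exact right_pos' hf hμ hν hφ hψ hE hs h
  · push Not at h
    obtain ⟨B0, hB0⟩ := h
    have hc' : ∀ B, ∃ V, B ≤ V ∧ V < f⁻¹ V := fun B => by
      obtain ⟨V, h1, h2⟩ := hc (max B B0)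
      rw [max_le_iff] at h1
      exact ⟨V, h1.1, (lt_inv_iff _ _ _).2 (lt_of_le_of_ne (hB0 V h1.2) h2)⟩
    obtain ⟨ψ', φ', h1, h2, h3, h4⟩ := right_pos' hf.inv hν hμ hψ hφ hE.swap (by tauto) hc'
    refine ⟨φ', ψ', h2, h1, fun x => by rw [h3]; simp, fun B => ?_⟩
    obtain ⟨b, k1, k2, k3⟩ := h4 B
    exact ⟨b, k1, k3, k2⟩

end Pool.Agent.H46.PLR
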