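import Pool.Agent.H46.PL3

open Set Filter Topology

namespace Pool.Agent.H46.PLR

def Rev (r : G) : Prop := PL r ∧ ∃ h : G, PL h ∧ h * r * h⁻¹ = r⁻¹

def Alt (μ : G) : Prop := PL μ ∧ (∀ n : ℤ, μ n = n) ∧
  (∀ n : ℤ, Even n → ∀ x ∈ Ioo (n:ℝ) (n+1), x < μ x) ∧
  (∀ n : ℤ, ¬ Even n → ∀ x ∈ Ioo (n:ℝ) (n+1), μ x < x)

lemma Alt.good {μ : G} (h : Alt μ) : Good μ := by
  obtain ⟨h0, h1, h2, h3⟩ := h
  have hf : ∀ y, μ y ≠ y → y ∈ Ioo (⌊y⌋:ℝ) (⌊y⌋+1) := fun y hy =>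
    ⟨lt_of_le_of_ne (Int.floor_le y) (fun h => hy (by rw [← h, h1])), Int.lt_floor_add_one y⟩
  refine ⟨h0, fun y hy => ⟨⌊y⌋ + 1, ?_, h1 _, h3 _ ?_⟩, fun y hy => ⟨⌊y⌋ + 1, ?_, h1 _, h2 _ ?_⟩⟩
  · rw [← h1]; apply μ.strictMono; push_cast; exact Int.lt_floor_add_one y
  · rw [Int.even_add_one, not_not]
    by_contra h
    exact absurd (h3 _ h y (hf y hy.ne')) (not_lt.mpr hy.le)
  · push_cast; exact Int.lt_floor_add_one y
  · rw [Int.even_add_one]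
    intro h
    exact absurd (h2 _ h y (hf y hy.ne)) (not_lt.mpr hy.le)

lemma Alt.rf {μ : G} (h : Alt μ) : Alt (rf μ) := by
  obtain ⟨h0, h1, h2, h3⟩ := h
  refine ⟨h0.rf, fun n => ?_, fun n hn x hx => ?_, fun n hn x hx => ?_⟩
  · rw [rf_ap, ← Int.cast_neg, h1]; simp
  · have := h3 (-n - 1) (by rw [Int.even_sub_one, not_not]; simpa using hn) (-x)
      ⟨by push_cast; linarith [hx.2], by push_cast; linarith [hx.1]⟩
    rw [rf_ap]; linarith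
  · have := h2 (-n - 1) (by rw [Int.even_sub_one]; simpa using hn) (-x)
      ⟨by push_cast; linarith [hx.2], by push_cast; linarith [hx.1]⟩
    rw [rf_ap]; linarith

lemma exists_tr (c : ℝ) : ∃ u : G, PL u ∧ ∀ x, u x = x + c := by
  obtain ⟨u, hu⟩ := mk_G (fun t => t + c) (fun s t h => by simpa using h)
    (fun y => ⟨y - c, by simp⟩)
  exact ⟨u, fun x => ⟨⟨1, Eventually.of_forall fun t => by rw [hu, hu]; ring⟩,
    ⟨1, Eventually.of_forall fun t => by rw [hu, hu]; ring⟩⟩, hu⟩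

lemma piece (w : ℤ → G) (hw : ∀ n, PL (w n)) (h0 : ∀ n : ℤ, w n n = n)
    (h1 : ∀ n : ℤ, w n (n + 1) = n + 1) :
    ∃ U : G, PL U ∧ ∀ n : ℤ, ∀ x ∈ Icc (n:ℝ) (n + 1), U x = w n x := by
  have hm : ∀ x, (⌊x⌋:ℝ) ≤ w ⌊x⌋ x ∧ w ⌊x⌋ x < ⌊x⌋ + 1 := fun x =>
    ⟨by have := (w ⌊x⌋).monotone (Int.floor_le x); rwa [h0] at this,
     by rw [← h1]; exact (w _).strictMono (Int.lt_floor_add_one x)⟩
  obtain ⟨U, hU⟩ := mk_G (fun x => w ⌊x⌋ x)
    (by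
      intro s t hst
      simp only
      rcases eq_or_lt_of_le (Int.floor_le_floor hst.le) with h | h
      · rw [h]; exact (w _).strictMono hst
      · have : ((⌊s⌋ + 1 : ℤ) : ℝ) ≤ ⌊t⌋ := by exact_mod_cast h
        push_cast at this
        linarith [(hm s).2, (hm t).1])
    (by
      intro y
      refine ⟨(w ⌊y⌋)⁻¹ y, ?_⟩
      have : ⌊(w ⌊y⌋)⁻¹ y⌋ = ⌊y⌋ := by
        rw [Int.floor_eq_iff, le_inv_iff, inv_lt_iff, h0, h1]
        exact ⟨Int.floor_le y, Int.lt_floor_add_one y⟩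
      simp [this])
  have key : ∀ n : ℤ, ∀ x ∈ Icc (n:ℝ) (n + 1), U x = w n x := by
    intro n x hx
    rcases eq_or_lt_of_le hx.2 with h | h
    · rw [hU, h, h1]
      have := h0 (n + 1)
      push_cast at this
      simpa using this
    · rw [hU, Int.floor_eq_iff.2 ⟨hx.1, h⟩]
  refine ⟨U, fun x => ⟨?_, ?_⟩, key⟩
  · refine (hw ⌊x⌋ x).1.congr (hU x) ?_
    filter_upwards [self_mem_nhdsWithin, nhdsWithin_le_nhds (Iio_mem_nhds (Int.lt_floor_add_one x))]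
      with t h2 h3 using key _ t ⟨(Int.floor_le x).trans h2, le_of_lt h3⟩
  · have a1 : ((⌈x⌉ - 1 : ℤ) : ℝ) < x := by push_cast; linarith [Int.ceil_lt_add_one x]
    have a2 : x ≤ ((⌈x⌉ - 1 : ℤ) : ℝ) + 1 := by push_cast; linarith [Int.le_ceil x]
    refine (hw (⌈x⌉ - 1) x).2.congr (key _ x ⟨a1.le, a2⟩) ?_
    filter_upwards [self_mem_nhdsWithin, nhdsWithin_le_nhds (Ioi_mem_nhds a1)]
      with t h2 h3 using key _ t ⟨le_of_lt h3, le_trans h2 a2⟩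

lemma exists_bump : ∃ g : G, PL g ∧ g 0 = 0 ∧ g 1 = 1 ∧ ∀ x ∈ Ioo (0:ℝ) 1, x < g x := by
  obtain ⟨a, ha⟩ := mk_G (fun t => 2 * t) (fun s t h => by simpa using h)
    (fun y => ⟨y / 2, by simp only; ring⟩)
  obtain ⟨c, hc⟩ := mk_G (fun t => (t + 1) / 2) (fun s t h => by simp only; linarith)
    (fun y => ⟨2 * y - 1, by simp only; ring⟩)
  have a1 : PL a := fun x => ⟨⟨2, Eventually.of_forall fun t => by rw [ha, ha]; ring⟩,
    ⟨2, Eventually.of_forall fun t => by rw [ha, ha]; ring⟩⟩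
  have c1 : PL c := fun x => ⟨⟨1/2, Eventually.of_forall fun t => by rw [hc, hc]; ring⟩,
    ⟨1/2, Eventually.of_forall fun t => by rw [hc, hc]; ring⟩⟩
  obtain ⟨g, g1, g2, g3⟩ := glue a1 c1 (1/3) (by rw [ha, hc]; norm_num)
  refine ⟨g, g1, by rw [g2 _ (by norm_num), ha]; simp, by rw [g3 _ (by norm_num), hc]; norm_num,
    fun x hx => ?_⟩
  rcases le_total x (1/3) with h | h
  · rw [g2 _ h, ha]; linarith [hx.1]
  · rw [g3 _ h, hc]; linarith [hx.2]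

lemma exists_rho : ∃ ρ : G, Alt ρ ∧ Rev ρ := by
  classical
  obtain ⟨g, g0, g1, g2, g3⟩ := exists_bump
  choose T T1 T2 using exists_tr
  have Ti : ∀ c x, (T c)⁻¹ x = x - c := fun c x => inv_eq_of _ (by rw [T2]; ring)
  let k : ℤ → G := fun n => if Even n then g else g⁻¹
  have k0 : ∀ n, PL (k n) := fun n => by
    simp only [k]; split_ifs; exacts [g0, g0.inv]
  have k1 : ∀ n, k n 0 = 0 := fun n => by
    simp only [k]; split_ifs; exacts [g1, inv_eq_of _ g1]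
  have k2 : ∀ n, k n 1 = 1 := fun n => by
    simp only [k]; split_ifs; exacts [g2, inv_eq_of _ g2]
  have k3 : ∀ n, k (n + 1) = (k n)⁻¹ := fun n => by
    simp only [k, Int.even_add_one]
    by_cases h : Even n <;> simp [h]
  have w : ∀ (n : ℤ) x, (T n * k n * (T n)⁻¹) x = k n (x - n) + n := fun n x => by
    rw [mul_ap, mul_ap, T2, Ti]
  obtain ⟨ρ, r0, r1⟩ := piece (fun n => T n * k n * (T n)⁻¹)
    (fun n => ((T1 _).mul (k0 n)).mul (T1 _).inv) (fun n => by rw [w]; simp [k1])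
    (fun n => by rw [w]; simp [k2, add_comm])
  simp only [w] at r1
  refine ⟨ρ, ⟨r0, fun n => ?_, fun n hn x hx => ?_, fun n hn x hx => ?_⟩, r0, T 1, T1 _, ?_⟩
  · rw [r1 n n ⟨le_rfl, by linarith⟩]; simp [k1]
  · rw [r1 n x ⟨hx.1.le, hx.2.le⟩]
    simp only [k, hn, if_true]
    linarith [g3 (x - n) ⟨by linarith [hx.1], by linarith [hx.2]⟩]
  · rw [r1 n x ⟨hx.1.le, hx.2.le⟩]
    simp only [k, hn, if_false]
    have := (inv_lt_iff g (x - n) (x - n)).2 (g3 (x - n) ⟨by linarith [hx.1], by linarith [hx.2]⟩)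
    linarith
  · ext x
    rw [mul_ap, mul_ap, T2, Ti]
    symm
    apply inv_eq_of
    set n := ⌊x - 1⌋ with hn
    have a1 : (n:ℝ) ≤ x - 1 := Int.floor_le _
    have a2 : x - 1 ≤ n + 1 := (Int.lt_floor_add_one _).le
    rw [r1 n _ ⟨a1, a2⟩]
    have b1 : 0 ≤ k n (x - 1 - n) := by
      have := (k n).monotone (show 0 ≤ x - 1 - n by linarith)
      rwa [k1] at this
    have b2 : k n (x - 1 - n) ≤ 1 := by
      have := (k n).monotone (show x - 1 - n ≤ 1 by linarith)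
      rwa [k2] at this
    rw [r1 (n + 1) _ ⟨by push_cast; linarith, by push_cast; linarith⟩, k3]
    have : k n (x - 1 - n) + n + 1 - ((n + 1 : ℤ) : ℝ) = k n (x - 1 - n) := by push_cast; ring
    rw [this]; simp only [inv_ap]; push_cast; ring

lemma Rev.conj {r φ : G} (h : Rev r) (hφ : PL φ) : Rev (φ * r * φ⁻¹) := by
  obtain ⟨h1, k, h2, h3⟩ := h
  refine ⟨(hφ.mul h1).mul hφ.inv, φ * k * φ⁻¹, (hφ.mul h2).mul hφ.inv, ?_⟩
  have : φ * k * φ⁻¹ * (φ * r * φ⁻¹) * (φ * k * φ⁻¹)⁻¹ = φ * (k * r * k⁻¹) * φ⁻¹ := by group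
  rw [this, h3]; group

lemma Rev.inv {r : G} (h : Rev r) : Rev r⁻¹ := by
  obtain ⟨h1, k, h2, h3⟩ := h
  refine ⟨h1.inv, k, h2, ?_⟩
  have : k * r⁻¹ * k⁻¹ = (k * r * k⁻¹)⁻¹ := by group
  rw [this, h3]

lemma Rev.rf {r : G} (h : Rev r) : Rev (rf r) := by
  obtain ⟨h1, k, h2, h3⟩ := h
  exact ⟨h1.rf, PLR.rf k, h2.rf, by rw [← rf_inv, ← rf_mul, ← rf_mul, h3, rf_inv]⟩

def R2 (f : G) : Prop := ∃ r s : G, Rev r ∧ Rev s ∧ f = r * s

lemma R2.of_rf {f : G} (h : R2 (rf f)) : R2 f := by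
  obtain ⟨r, s, h1, h2, h3⟩ := h
  exact ⟨rf r, rf s, h1.rf, h2.rf, by rw [← rf_mul, ← h3, rf_rf]⟩

lemma stage1 {f ρ : G} (hf : PL f) (hρ : Alt ρ) :
    ∃ (φ ψ : G) (b : ℝ), PL φ ∧ PL ψ ∧ (∀ x ≥ b, φ (ρ (φ⁻¹ x)) = f (ψ (ρ (ψ⁻¹ x)))) ∧
      φ⁻¹ b < ρ (φ⁻¹ b) ∧ ψ⁻¹ b < ρ (ψ⁻¹ b) := by
  by_cases hc : ∀ B, ∃ V, B ≤ V ∧ f V ≠ V
  · have h0 : (1/2 : ℝ) < ρ (1/2) := hρ.2.2.1 0 (by simp) _ ⟨by norm_num, by norm_num⟩
    set K := max 0 (f⁻¹ 0) + 1 with hK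
    have K1 : 0 < K := by linarith [le_max_left 0 (f⁻¹ 0)]
    have K2 : 0 < f K := (inv_lt_iff _ _ _).1 (by linarith [le_max_right 0 (f⁻¹ 0)])
    obtain ⟨ψ, a1, a2, a3⟩ := exists_aff _ _ 0 K h0 K1
    obtain ⟨φ, c1, c2, c3⟩ := exists_aff _ _ 0 (f K) h0 K2
    have a4 := inv_eq_of _ a2
    have c4 := inv_eq_of _ c2
    obtain ⟨f', d1, d2, d3⟩ := glue (u := (φ * ρ * φ⁻¹) * (ψ * ρ * ψ⁻¹)⁻¹)
      (((c1.mul hρ.1).mul c1.inv).mul ((a1.mul hρ.1).mul a1.inv).inv) hf K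
      (by
        have : (ψ * ρ * ψ⁻¹)⁻¹ K = 0 := inv_eq_of _ (by rw [mul_ap, mul_ap, a4, a3])
        rw [mul_ap, this, mul_ap, mul_ap, c4, c3])
    obtain ⟨φ', ψ', e1, e2, e3, e4⟩ := right_main (b := 0) d1 hρ.good hρ.good c1 a1
      (by
        intro x hx
        have h1 : (ψ * ρ * ψ⁻¹) x ≤ K := by
          rw [← a3, ← a4]; exact (ψ * ρ * ψ⁻¹).monotone hx
        have h2 := d2 _ h1
        rw [mul_ap _ _ ((ψ * ρ * ψ⁻¹) x), inv_ap] at h2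
        exact h2.symm)
      (Or.inl ⟨by rw [c4]; exact h0, by rw [a4]; exact h0⟩)
      (fun B => by
        obtain ⟨V, h1, h2⟩ := hc (max B K)
        rw [max_le_iff] at h1
        exact ⟨V, h1.1, by rw [d3 V h1.2]; exact h2⟩)
    obtain ⟨b, b1, b2, b3⟩ := e4 K
    refine ⟨φ', ψ', b, e1, e2, fun x hx => ?_, b2, b3⟩
    rw [e3, d3]
    have h1 : b < ψ' (ρ (ψ'⁻¹ b)) := by simpa using ψ'.strictMono b3
    have h2 : ψ' (ρ (ψ'⁻¹ b)) ≤ ψ' (ρ (ψ'⁻¹ x)) := (ψ' * ρ * ψ'⁻¹).monotone hx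
    linarith
  · push Not at hc
    obtain ⟨B, hB⟩ := hc
    obtain ⟨n, hn⟩ := exists_nat_ge B
    have h0 : (2 * n + 1/2 : ℝ) < ρ (2 * n + 1/2) :=
      hρ.2.2.1 (2 * n) (by simp) _ ⟨by push_cast; linarith, by push_cast; linarith⟩
    refine ⟨1, 1, 2 * n + 1/2, PL.one, PL.one, fun x hx => ?_, h0, h0⟩
    have h1 := ρ.monotone hx
    have h2 : (0:ℝ) ≤ n := Nat.cast_nonneg n
    exact (hB (ρ x) (by linarith)).symm

lemma r2_left {f : G} (hf : PL f) (hc : ∀ B, ∃ V, V ≤ B ∧ f V ≠ V) : R2 f := by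
  obtain ⟨ρ, h1, h2⟩ := exists_rho
  obtain ⟨φ, ψ, b, a1, a2, a3, a4, a5⟩ := stage1 hf h1
  apply R2.of_rf
  obtain ⟨φ', ψ', e1, e2, e3, -⟩ := right_main (b := -b) hf.rf h1.rf.good h1.rf.good a1.rf a2.rf
    (by
      intro x hx
      simp only [← rf_inv, rf_ap, neg_neg]
      rw [a3 (-x) (by linarith)])
    (Or.inr (by
      simp only [← rf_inv, rf_ap, neg_neg]
      exact ⟨neg_lt_neg a4, neg_lt_neg a5⟩))
    (fun B => by
      obtain ⟨V, k1, k2⟩ := hc (-B)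
      refine ⟨-V, by linarith, ?_⟩
      rw [rf_ap, neg_neg]
      intro h; exact k2 (neg_injective h))
  refine ⟨φ' * rf ρ * φ'⁻¹, (ψ' * rf ρ * ψ'⁻¹)⁻¹, h2.rf.conj e1, (h2.rf.conj e2).inv, ?_⟩
  rw [eq_mul_inv_iff_mul_eq]
  ext x
  exact (e3 x).symm

lemma r2_main {f : G} (hf : PL f) (hc : ∀ B, ∃ V, B ≤ |V| ∧ f V ≠ V) : R2 f := by
  by_cases h : ∀ B, ∃ V, V ≤ B ∧ f V ≠ V
  · exact r2_left hf h
  · push Not at h
    obtain ⟨B0, hB0⟩ := h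
    apply R2.of_rf
    refine r2_left hf.rf fun B => ?_
    obtain ⟨V, h1, h2⟩ := hc (max |B| |B0| + 1)
    have h3 : B0 < V := by
      by_contra h4
      exact h2 (hB0 V (not_lt.mp h4))
    have h5 := le_max_left |B| |B0|
    have h6 := le_max_right |B| |B0|
    have h7 : 0 ≤ V := by
      by_contra h8
      rw [abs_of_neg (not_le.mp h8)] at h1
      linarith [neg_abs_le B0]
    rw [abs_of_nonneg h7] at h1
    refine ⟨-V, by linarith [neg_abs_le B], ?_⟩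
    rw [rf_ap, neg_neg]
    intro h; exact h2 (neg_injective h)

lemma r3_main {f : G} (hf : PL f) : ∃ r s t : G, Rev r ∧ Rev s ∧ Rev t ∧ f = r * s * t := by
  by_cases hc : ∀ B, ∃ V, B ≤ |V| ∧ f V ≠ V
  · obtain ⟨r, s, h1, h2, h3⟩ := r2_main hf hc
    exact ⟨r, s, 1, h1, h2, ⟨PL.one, 1, PL.one, by simp⟩, by simpa using h3⟩
  · push Not at hc
    obtain ⟨B0, hB0⟩ := hc
    obtain ⟨ρ, h1, h2⟩ := exists_rho
    obtain ⟨r, s, k1, k2, k3⟩ := r2_main (hf.mul h1.1) (fun B => by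
      obtain ⟨n, hn⟩ := exists_nat_ge (max B B0)
      rw [max_le_iff] at hn
      have h3 : (0:ℝ) ≤ n := Nat.cast_nonneg n
      have h0 : (2 * n + 1/2 : ℝ) < ρ (2 * n + 1/2) :=
        h1.2.2.1 (2 * n) (by simp) _ ⟨by push_cast; linarith, by push_cast; linarith⟩
      refine ⟨2 * n + 1/2, by rw [abs_of_nonneg (by linarith)]; linarith [hn.1], ?_⟩
      rw [mul_ap, hB0 _ (by rw [abs_of_nonneg (by linarith)]; linarith [hn.2])]
      exact h0.ne')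
    exact ⟨r, s, ρ⁻¹, k1, k2, h2.inv, by rw [← k3]; group⟩

end Pool.Agent.H46.PLR
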