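import Mathlib

namespace Pool.Agent.H46.PLR

/-- `f` is affine on some open interval around `x`. -/
def LocAffine (f : ℝ → ℝ) (x : ℝ) : Prop :=
  ∃ l u a b : ℝ, l < x ∧ x < u ∧ ∀ t ∈ Set.Ioo l u, f t = a * t + b

/-- `PL⁺(ℝ)`: increasing homeomorphisms of `ℝ` that are locally affine at every point outside a
set with no accumulation point in `ℝ`. -/
def PLplus : Set (ℝ ≃ₜ ℝ) :=
  {f | StrictMono f ∧ ∃ D : Set ℝ, (∀ x : ℝ, ¬ AccPt x (Filter.principal D)) ∧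
    ∀ x, x ∉ D → LocAffine f x}

/-- `g` is an element of `PL⁺(ℝ)` that is reversible in `PL⁺(ℝ)`. -/
def Reversible (g : ℝ ≃ₜ ℝ) : Prop :=
  g ∈ PLplus ∧ ∃ h ∈ PLplus, h * g * h⁻¹ = g⁻¹

end Pool.Agent.H46.PLR
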