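import Pool.Agent.H46.PL4
import Pool.Agent.H46.PLDefs

open Set Filter Topology

namespace Pool.Agent.H46.PLR

lemma aff_on {f : ℝ → ℝ} (hf : Continuous f) {l u : ℝ} (hlu : l < u)
    (h : ∀ t ∈ Ioo l u, LocAffine f t) : ∃ a b : ℝ, ∀ t ∈ Icc l u, f t = a * t + b := by
  have ev : ∀ t, LocAffine f t → ∃ a b : ℝ, f =ᶠ[𝓝 t] fun s => a * s + b := by
    rintro t ⟨l', u', a, b, h1, h2, h3⟩
    exact ⟨a, b, by filter_upwards [Ioo_mem_nhds h1 h2] with s hs using h3 s hs⟩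
  have an : ∀ a b t : ℝ, AnalyticAt ℝ (fun s : ℝ => a * s + b) t := fun a b t => by fun_prop
  have h1 : AnalyticOnNhd ℝ f (Ioo l u) := fun t ht => by
    obtain ⟨a, b, hab⟩ := ev t (h t ht)
    exact (an a b t).congr hab.symm
  have hm : (l + u) / 2 ∈ Ioo l u := ⟨by linarith, by linarith⟩
  obtain ⟨a, b, hab⟩ := ev _ (h _ hm)
  have h2 := h1.eqOn_of_preconnected_of_eventuallyEq (fun t _ => an a b t) isPreconnected_Ioo hm hab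
  have h3 := h2.closure hf (by fun_prop)
  rw [closure_Ioo hlu.ne] at h3
  exact ⟨a, b, fun t ht => h3 ht⟩

lemma to_G {f : ℝ ≃ₜ ℝ} (hf : f ∈ PLplus) : ∃ u : G, PL u ∧ ∀ x, u x = f x := by
  obtain ⟨h1, D, h2, h3⟩ := hf
  obtain ⟨u, hu⟩ := mk_G f h1 f.surjective
  refine ⟨u, fun x => ?_, hu⟩
  have h4 := h2 x
  rw [accPt_iff_frequently, not_frequently] at h4
  obtain ⟨l, v, ⟨a1, a2⟩, a3⟩ := mem_nhds_iff_exists_Ioo_subset.1 h4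
  have a4 : ∀ t ∈ Ioo l v, t ≠ x → LocAffine f t := fun t ht hx =>
    h3 t fun hD => a3 ht ⟨hx, hD⟩
  obtain ⟨a, b, hab⟩ := aff_on f.continuous a2 fun t ht => a4 t ⟨a1.trans ht.1, ht.2⟩ ht.1.ne'
  obtain ⟨c, d, hcd⟩ := aff_on f.continuous a1 fun t ht => a4 t ⟨ht.1, ht.2.trans a2⟩ ht.2.ne
  refine ⟨⟨a, ?_⟩, ⟨c, ?_⟩⟩
  · filter_upwards [self_mem_nhdsWithin, nhdsWithin_le_nhds (Iio_mem_nhds a2)] with t k1 k2
    rw [hu, hu, hab t ⟨k1, le_of_lt k2⟩, hab x ⟨le_rfl, a2.le⟩]; ring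
  · filter_upwards [self_mem_nhdsWithin, nhdsWithin_le_nhds (Ioi_mem_nhds a1)] with t k1 k2
    rw [hu, hu, hcd t ⟨le_of_lt k2, k1⟩, hcd x ⟨a1.le, le_rfl⟩]; ring

lemma of_G {u : G} (hu : PL u) : u.toHomeomorph ∈ PLplus := by
  refine ⟨u.strictMono, {x | ¬ LocAffine u x}, fun x => ?_, fun x hx => not_not.mp hx⟩
  rw [accPt_iff_frequently, not_frequently]
  obtain ⟨⟨a, ha⟩, ⟨c, hc⟩⟩ := hu x
  obtain ⟨v, v1, v2⟩ := mem_nhdsGE_iff_exists_Ico_subset.1 ha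
  obtain ⟨l, l1, l2⟩ := mem_nhdsLE_iff_exists_Ioc_subset.1 hc
  filter_upwards [Ioo_mem_nhds l1 v1] with t ht
  rintro ⟨h1, h2⟩
  apply h2
  rcases lt_or_gt_of_ne h1 with h | h
  · refine ⟨l, x, c, u x - c * x, ht.1, h, fun s hs => ?_⟩
    have := l2 ⟨hs.1, hs.2.le⟩
    simp only [mem_ofPred_eq] at this
    rw [this]; ring
  · refine ⟨x, v, a, u x - a * x, h, ht.2, fun s hs => ?_⟩
    have := v2 ⟨hs.1.le, hs.2⟩
    simp only [mem_ofPred_eq] at this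
    rw [this]; ring

lemma rev_of {r : G} (h : Rev r) : Reversible r.toHomeomorph := by
  obtain ⟨h1, k, h2, h3⟩ := h
  refine ⟨of_G h1, k.toHomeomorph, of_G h2, ?_⟩
  ext x
  exact congrArg (fun w : G => w x) h3

theorem main3 (f : ℝ ≃ₜ ℝ) (hf : f ∈ PLplus) :
    ∃ r₁ r₂ r₃ : ℝ ≃ₜ ℝ, Reversible r₁ ∧ Reversible r₂ ∧ Reversible r₃ ∧ f = r₁ * r₂ * r₃ := by
  obtain ⟨u, h1, h2⟩ := to_G hf
  obtain ⟨r, s, t, k1, k2, k3, k4⟩ := r3_main h1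
  refine ⟨_, _, _, rev_of k1, rev_of k2, rev_of k3, ?_⟩
  ext x
  rw [← h2, k4]; rfl

theorem main2 (f : ℝ ≃ₜ ℝ) (hf : f ∈ PLplus) (hc : ¬ Bornology.IsBounded {x | f x ≠ x}) :
    ∃ r₁ r₂ : ℝ ≃ₜ ℝ, Reversible r₁ ∧ Reversible r₂ ∧ f = r₁ * r₂ := by
  obtain ⟨u, h1, h2⟩ := to_G hf
  obtain ⟨r, s, k1, k2, k4⟩ := r2_main h1 (fun B => by
    by_contra h
    push Not at h
    apply hc
    rw [isBounded_iff_forall_norm_le]
    refine ⟨B, fun x hx => ?_⟩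
    by_contra h3
    exact hx (by rw [← h2]; exact h x (not_le.mp h3).le))
  refine ⟨_, _, rev_of k1, rev_of k2, ?_⟩
  ext x
  rw [← h2, k4]; rfl

end Pool.Agent.H46.PLR
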