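import Mathlib

namespace Pool.Agent.H46.Sh

open MeasureTheory Finset Set
open scoped ENNReal

def cr (a b : ℂ) : ℝ := a.re * b.im - a.im * b.re

theorem cr_l (α β : ℝ) (a b y : ℂ) : cr (α * a + β * b) y = α * cr a y + β * cr b y := by
  simp [cr]; ring
theorem cr_r (α β : ℝ) (a b y : ℂ) : cr y (α * a + β * b) = α * cr y a + β * cr y b := by
  simp [cr]; ring
theorem cr_self (a : ℂ) : cr a a = 0 := by simp [cr]; ring
theorem cr_swap (a b : ℂ) : cr a b = -cr b a := by simp [cr]; ring

theorem coords (a b z : ℂ) (h : cr a b ≠ 0) :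
    z = ((cr z b / cr a b : ℝ) : ℂ) * a + ((cr a z / cr a b : ℝ) : ℂ) * b := by
  apply Complex.ext <;> simp <;> field_simp <;> simp [cr] <;> ring

/-- the part of the cone over `a, b` where the gauge lies in `T` -/
def cone (a b : ℂ) (T : Set ℝ) : Set ℂ :=
  {z | 0 ≤ cr z b ∧ 0 ≤ cr a z ∧ (cr z b + cr a z) / cr a b ∈ T}

theorem cone_closed (a b : ℂ) (T : Set ℝ) (hT : IsClosed T) : IsClosed (cone a b T) := by
  have h1 : Continuous fun z => cr z b := by unfold cr; fun_prop
  have h2 : Continuous fun z => cr a z := by unfold cr; fun_prop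
  exact (isClosed_le continuous_const h1).inter ((isClosed_le continuous_const h2).inter
    (hT.preimage ((h1.add h2).div_const _)))

theorem mem_cone {a b : ℂ} (h : 0 < cr a b) (T : Set ℝ) (z : ℂ) :
    z ∈ cone a b T ↔ ∃ α β : ℝ, 0 ≤ α ∧ 0 ≤ β ∧ α + β ∈ T ∧ z = α * a + β * b := by
  constructor
  · rintro ⟨h1, h2, h3⟩
    exact ⟨_, _, div_nonneg h1 h.le, div_nonneg h2 h.le, by rw [← add_div]; exact h3,
      coords a b z h.ne'⟩
  · rintro ⟨α, β, h1, h2, h3, rfl⟩
    simp only [cone, mem_ofPred_eq, cr_l, cr_r, cr_self, mul_zero, add_zero, zero_add]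
    refine ⟨by positivity, by positivity, ?_⟩
    rw [← add_mul, mul_div_cancel_right₀ _ h.ne']; exact h3

theorem vol_std : volume (cone 1 Complex.I (Iic 1)) = ENNReal.ofReal (1 / 2) := by
  have h1 : cone 1 Complex.I (Iic 1) = Complex.measurableEquivRealProd ⁻¹'
      {p : ℝ × ℝ | p.1 ∈ Icc (0 : ℝ) 1 ∧ p.2 ∈ Icc 0 (1 - p.1)} := by
    ext z
    simp only [cone, cr, mem_ofPred_eq, Set.mem_preimage, Complex.measurableEquivRealProd_apply,
      Set.mem_Icc, Set.mem_Iic, Complex.I_im, Complex.I_re, Complex.one_re, Complex.one_im]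
    constructor
    · rintro ⟨a, b, c⟩; refine ⟨⟨?_, ?_⟩, ?_, ?_⟩ <;> norm_num at a b c ⊢ <;> linarith
    · rintro ⟨⟨a, b⟩, c, d⟩; refine ⟨?_, ?_, ?_⟩ <;> norm_num <;> linarith
  have hm : MeasurableSet {p : ℝ × ℝ | p.1 ∈ Icc (0 : ℝ) 1 ∧ p.2 ∈ Icc 0 (1 - p.1)} :=
    measurableSet_region_between_cc (f := fun _ => 0) (g := fun x => 1 - x) measurable_const
      (by fun_prop) measurableSet_Icc
  rw [h1, Complex.volume_preserving_equiv_real_prod.measure_preimage hm.nullMeasurableSet,
    Measure.volume_eq_prod, Measure.prod_apply hm]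
  have h2 : ∀ x : ℝ, volume (Prod.mk x ⁻¹' {p : ℝ × ℝ | p.1 ∈ Icc (0 : ℝ) 1 ∧ p.2 ∈ Icc 0 (1 - p.1)})
      = (Icc (0 : ℝ) 1).indicator (fun x => ENNReal.ofReal (1 - x)) x := by
    intro x
    by_cases hx : x ∈ Icc (0 : ℝ) 1
    · rw [indicator_of_mem hx]
      have : Prod.mk x ⁻¹' {p : ℝ × ℝ | p.1 ∈ Icc (0 : ℝ) 1 ∧ p.2 ∈ Icc 0 (1 - p.1)}
          = Icc 0 (1 - x) := by ext y; simp only [Set.mem_preimage, mem_ofPred_eq, hx, true_and]
      rw [this, Real.volume_Icc, sub_zero]
    · rw [indicator_of_notMem hx]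
      have : Prod.mk x ⁻¹' {p : ℝ × ℝ | p.1 ∈ Icc (0 : ℝ) 1 ∧ p.2 ∈ Icc 0 (1 - p.1)} = ∅ := by
        ext y; simp only [Set.mem_preimage, mem_ofPred_eq, hx, false_and, mem_empty_iff_false]
      rw [this, measure_empty]
  simp only [h2]
  rw [lintegral_indicator measurableSet_Icc, ← ofReal_integral_eq_lintegral_ofReal
    (f := fun x : ℝ => 1 - x) (Continuous.integrableOn_Icc (by fun_prop))
    ((ae_restrict_mem measurableSet_Icc).mono fun x hx => sub_nonneg.2 hx.2),
    integral_Icc_eq_integral_Ioc, ← intervalIntegral.integral_of_le zero_le_one]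
  congr 1
  rw [intervalIntegral.integral_sub (by simp) (by simp)]
  simp; norm_num

theorem vol_tri {a b : ℂ} (h : 0 < cr a b) :
    volume (cone a b (Iic 1)) = ENNReal.ofReal (cr a b / 2) := by
  let L : ℂ →ₗ[ℝ] ℂ := Complex.reLm.smulRight a + Complex.imLm.smulRight b
  have hL : ∀ z, L z = z.re * a + z.im * b := fun z => by simp [L]
  have hd : LinearMap.det L = cr a b := by
    rw [← LinearMap.det_toMatrix Complex.basisOneI, Matrix.det_fin_two]
    simp [LinearMap.toMatrix_apply, hL, cr]; ring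
  have h1 : cone a b (Iic 1) = L '' cone 1 Complex.I (Iic 1) := by
    ext z
    rw [mem_cone h]
    constructor
    · rintro ⟨α, β, h1, h2, h3, rfl⟩
      refine ⟨_, (mem_cone (by simp [cr]) _ _).2 ⟨α, β, h1, h2, h3, rfl⟩, by simp [hL]⟩
    · rintro ⟨w, hw, rfl⟩
      obtain ⟨α, β, h1, h2, h3, rfl⟩ := (mem_cone (by simp [cr]) _ _).1 hw
      exact ⟨α, β, h1, h2, h3, by simp [hL]⟩
  rw [h1, Measure.addHaar_image_linearMap, hd, vol_std, abs_of_pos h,
    ← ENNReal.ofReal_mul h.le]
  congr 1; ring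

theorem line_null (a : ℂ) : volume ((Submodule.span ℝ {a} : Submodule ℝ ℂ) : Set ℂ) = 0 := by
  refine Measure.addHaar_submodule _ _ fun h => ?_
  have h1 := finrank_span_le_card (R := ℝ) ({a} : Set ℂ)
  rw [h, finrank_top, Complex.finrank_real_complex] at h1
  simp at h1

theorem star (N : ℕ) (hN : 3 ≤ N) (X : ℕ → ℂ) (U : Set ℂ) (hper : ∀ l, X (l + 2 * N) = X l)
    (hA : ∀ l d, 1 ≤ d → d < N → 0 < cr (X l) (X (l + d)))
    (hin : ∀ l, ∀ α β : ℝ, 0 ≤ α → 0 ≤ β → (α * X l + β * X (l + 1) ∈ U ↔ α + β ≤ 1)) :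
    volume U = ∑ l ∈ range (2 * N), ENNReal.ofReal (cr (X l) (X (l + 1)) / 2) ∧
    μH[1] (frontier U) = ∑ l ∈ range (2 * N), edist (X l) (X (l + 1)) := by
  have h1 : ∀ l, 0 < cr (X l) (X (l + 1)) := fun l => hA l 1 le_rfl (by omega)
  have hcov : ∀ z, ∃ l ∈ range (2 * N), ∃ α β : ℝ, 0 ≤ α ∧ 0 ≤ β ∧ z = α * X l + β * X (l + 1) := by
    intro z
    have id3 : cr (X (N - 1)) (X (2 * N - 2)) * cr (X 0) z + cr (X (2 * N - 2)) (X 0) *
        cr (X (N - 1)) z + cr (X 0) (X (N - 1)) * cr (X (2 * N - 2)) z = 0 := by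
      simp only [cr]; ring
    have c1 := hA (N - 1) (N - 1) (by omega) (by omega)
    have c2 := hA (2 * N - 2) 2 (by omega) (by omega)
    have c3 := hA 0 (N - 1) (by omega) (by omega)
    rw [show N - 1 + (N - 1) = 2 * N - 2 by omega] at c1
    rw [show 2 * N - 2 + 2 = 0 + 2 * N by omega, hper] at c2
    rw [zero_add] at c3
    have e1 : ∃ l < 2 * N, 0 ≤ cr (X l) z := by
      by_contra h; push Not at h
      nlinarith [mul_pos c1 (neg_pos.2 (h 0 (by omega))), mul_pos c2 (neg_pos.2 (h (N - 1) (by omega))),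
        mul_pos c3 (neg_pos.2 (h (2 * N - 2) (by omega)))]
    have e2 : ∃ l, cr (X l) z ≤ 0 := by
      by_contra h; push Not at h
      nlinarith [mul_pos c1 (h 0), mul_pos c2 (h (N - 1)), mul_pos c3 (h (2 * N - 2))]
    obtain ⟨l1, hl1, g1⟩ := e1
    obtain ⟨l2, g2⟩ := e2
    have key : ∀ i, cr (X (l1 + i + 1)) z ≤ 0 → ∃ l, 0 ≤ cr (X l) z ∧ cr (X (l + 1)) z ≤ 0 := by
      intro i
      induction i with
      | zero => exact fun h => ⟨l1, g1, h⟩
      | succ i ih =>
        intro h
        rcases le_total (cr (X (l1 + i + 1)) z) 0 with h' | h'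
        · exact ih h'
        · exact ⟨_, h', h⟩
    obtain ⟨l, a1, a2⟩ := key (l2 + 2 * N - l1 - 1) (by
      rw [show l1 + (l2 + 2 * N - l1 - 1) + 1 = l2 + 2 * N by omega, hper]; exact g2)
    have hp : Function.Periodic X (2 * N) := hper
    have p1 : X (l % (2 * N)) = X l := hp.map_mod_nat l
    have p2 : X (l % (2 * N) + 1) = X (l + 1) :=
      (show Function.Periodic (fun i => X (i + 1)) (2 * N) from fun i => by
        simp only [add_right_comm i, hper]).map_mod_nat l
    refine ⟨l % (2 * N), mem_range.2 (Nat.mod_lt _ (by omega)), _, _, ?_, ?_,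
      coords _ _ z (h1 _).ne'⟩
    · rw [p1, p2, cr_swap z]; exact div_nonneg (by linarith) (h1 l).le
    · rw [p1, p2]; exact div_nonneg a1 (h1 l).le
  have hsep0 : ∀ l d, 1 ≤ d → d ≤ N → ∀ α β α' β' : ℝ, 0 ≤ α → 0 ≤ β → 0 ≤ α' → 0 ≤ β' →
      α * X l + β * X (l + 1) = α' * X (l + d) + β' * X (l + d + 1) → α = 0 := by
    intro l d d1 d2 α β α' β' a b a' b' h
    rcases d2.lt_or_eq with d2 | rfl
    · have e := congrArg (fun z => cr (X (l + 1)) z) h
      simp only [cr_r, cr_self] at e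
      have c1 : 0 ≤ cr (X (l + 1)) (X (l + d)) := by
        rcases d1.lt_or_eq with d1 | rfl
        · have := hA (l + 1) (d - 1) (by omega) (by omega)
          rw [show l + 1 + (d - 1) = l + d by omega] at this; exact this.le
        · rw [cr_self]
      have c2 := hA (l + 1) d d1 d2
      rw [add_right_comm] at c2
      rw [cr_swap] at e
      nlinarith [h1 l, mul_nonneg a' c1, mul_nonneg b' c2.le]
    · have e := congrArg (fun z => cr (X (l + 2)) z) h
      simp only [cr_r] at e
      have c1 := hA (l + 2) (d - 2) (by omega) (by omega)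
      have c2 := hA (l + 2) (d - 1) (by omega) (by omega)
      have c3 := hA l 2 (by omega) (by omega)
      have c4 := h1 (l + 1)
      rw [show l + 2 + (d - 2) = l + d by omega] at c1
      rw [show l + 2 + (d - 1) = l + d + 1 by omega] at c2
      rw [cr_swap _ (X l), cr_swap _ (X (l + 1))] at e
      nlinarith [mul_nonneg a' c1.le, mul_nonneg b' c2.le, mul_nonneg b c4.le]
  have hsep : ∀ l ∈ range (2 * N), ∀ l' ∈ range (2 * N), l ≠ l' → ∀ α β α' β' : ℝ, 0 ≤ α → 0 ≤ β →
      0 ≤ α' → 0 ≤ β' → α * X l + β * X (l + 1) = α' * X l' + β' * X (l' + 1) →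
      α = 0 ∨ α' = 0 := by
    have : ∀ l ∈ range (2 * N), ∀ l' ∈ range (2 * N), l < l' → ∀ α β α' β' : ℝ, 0 ≤ α → 0 ≤ β →
        0 ≤ α' → 0 ≤ β' → α * X l + β * X (l + 1) = α' * X l' + β' * X (l' + 1) →
        α = 0 ∨ α' = 0 := by
      intro l hl l' hl' hlt α β α' β' a b a' b' h
      rw [Finset.mem_range] at hl hl'
      by_cases hd : l' - l ≤ N
      · left
        refine hsep0 l (l' - l) (by omega) hd α β α' β' a b a' b' ?_
        rw [show l + (l' - l) = l' by omega]; exact h
      · right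
        refine hsep0 l' (l + 2 * N - l') (by omega) (by omega) α' β' α β a' b' a b ?_
        rw [show l' + (l + 2 * N - l') = l + 2 * N by omega, add_right_comm, hper, hper]
        exact h.symm
    intro l hl l' hl' hne α β α' β' a b a' b' h
    rcases hne.lt_or_gt with h' | h'
    · exact this l hl l' hl' h' α β α' β' a b a' b' h
    · exact (this l' hl' l hl h' α' β' α β a' b' a b h.symm).symm
  have hU : U = ⋃ l ∈ range (2 * N), cone (X l) (X (l + 1)) (Iic 1) := by
    ext z
    simp only [mem_iUnion, mem_cone (h1 _)]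
    constructor
    · intro hz
      obtain ⟨l, hl, α, β, a, b, rfl⟩ := hcov z
      exact ⟨l, hl, α, β, a, b, (hin l α β a b).1 hz, rfl⟩
    · rintro ⟨l, _, α, β, a, b, c, rfl⟩; exact (hin l α β a b).2 c
  have hcl : IsClosed U := by
    rw [hU]; exact isClosed_biUnion_finset fun l _ => cone_closed _ _ _ isClosed_Iic
  have hF : frontier U = ⋃ l ∈ range (2 * N), segment ℝ (X l) (X (l + 1)) := by
    ext z
    rw [hcl.frontier_eq]
    simp only [mem_iUnion]
    constructor
    · rintro ⟨hz, hz'⟩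
      obtain ⟨l, hl, α, β, a, b, rfl⟩ := hcov z
      refine ⟨l, hl, α, β, a, b, le_antisymm ((hin l α β a b).1 hz) ?_, by simp⟩
      by_contra hlt; push Not at hlt
      apply hz'
      have hV : IsClosed (⋃ l ∈ range (2 * N), cone (X l) (X (l + 1)) (Ici 1)) :=
        isClosed_biUnion_finset fun l _ => cone_closed _ _ _ isClosed_Ici
      refine interior_maximal (t := (⋃ l ∈ range (2 * N), cone (X l) (X (l + 1)) (Ici 1))ᶜ)
        (fun y hy => ?_) hV.isOpen_compl ?_
      · obtain ⟨l', hl', α', β', a', b', rfl⟩ := hcov y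
        refine (hin l' α' β' a' b').2 (le_of_not_gt fun hc => hy ?_)
        simp only [mem_iUnion, mem_cone (h1 _)]
        exact ⟨l', hl', α', β', a', b', hc.le, rfl⟩
      · simp only [mem_compl_iff, mem_iUnion, mem_cone (h1 _)]
        rintro ⟨l', _, α', β', a', b', c', e⟩
        have c'' : 1 ≤ α' + β' := c'
        set s := 2 - (α + β) with hs
        have hs1 : 1 < s := by linarith
        have m1 := (hin l (s * α) (s * β) (by positivity) (by positivity)).2 (by nlinarith)
        have e2 : ((s * α : ℝ) : ℂ) * X l + ((s * β : ℝ) : ℂ) * X (l + 1)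
            = ((s * α' : ℝ) : ℂ) * X l' + ((s * β' : ℝ) : ℂ) * X (l' + 1) := by
          push_cast; linear_combination (s : ℂ) * e
        rw [e2, hin l' _ _ (by positivity) (by positivity)] at m1
        nlinarith
    · rintro ⟨l, _, α, β, a, b, c, rfl⟩
      have e0 : α • X l + β • X (l + 1) = α * X l + β * X (l + 1) := by simp
      rw [e0]
      refine ⟨(hin l α β a b).2 c.le, fun hi => ?_⟩
      have hc : Continuous fun s : ℝ => (s : ℂ) * (α * X l + β * X (l + 1)) := by fun_prop
      have := hc.continuousAt (x := 1) (by simpa using mem_interior_iff_mem_nhds.1 hi)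
      have h2 : ∀ᶠ s : ℝ in nhdsWithin 1 (Ioi 1), (s : ℂ) * (α * X l + β * X (l + 1)) ∈ U :=
        nhdsWithin_le_nhds this
      obtain ⟨s, m1, hs⟩ := (h2.and self_mem_nhdsWithin).exists
      have hs1 : 1 < s := hs
      rw [show (s : ℂ) * (α * X l + β * X (l + 1)) = ((s * α : ℝ) : ℂ) * X l
        + ((s * β : ℝ) : ℂ) * X (l + 1) by push_cast; ring,
        hin l _ _ (by positivity) (by positivity), ← mul_add, c] at m1
      linarith
  constructor
  · rw [hU, measure_biUnion_finset₀]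
    · exact sum_congr rfl fun l _ => vol_tri (h1 l)
    · intro l hl l' hl' hne
      refine measure_mono_null (t := (Submodule.span ℝ {X (l + 1)} : Submodule ℝ ℂ)
        ∪ (Submodule.span ℝ {X (l' + 1)} : Submodule ℝ ℂ)) ?_
        (measure_union_null (line_null _) (line_null _))
      rintro z ⟨hz, hz'⟩
      obtain ⟨α, β, a, b, _, e⟩ := (mem_cone (h1 _) _ _).1 hz
      obtain ⟨α', β', a', b', _, e'⟩ := (mem_cone (h1 _) _ _).1 hz'
      rcases hsep l hl l' hl' hne α β α' β' a b a' b' (e.symm.trans e') with rfl | rfl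
      · left; exact Submodule.mem_span_singleton.2 ⟨β, by simp [e]⟩
      · right; exact Submodule.mem_span_singleton.2 ⟨β', by simp [e']⟩
    · exact fun l _ => (cone_closed _ _ _ isClosed_Iic).measurableSet.nullMeasurableSet
  · rw [hF, measure_biUnion_finset₀]
    · exact sum_congr rfl fun l _ => hausdorffMeasure_segment _ _
    · intro l hl l' hl' hne
      have := Measure.nullSingletonClass_hausdorff ℂ (d := 1) one_pos
      refine measure_mono_null (t := {X (l + 1)} ∪ {X (l' + 1)}) ?_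
        (measure_union_null (measure_singleton _) (measure_singleton _))
      rintro z ⟨⟨α, β, a, b, c, e⟩, ⟨α', β', a', b', c', e'⟩⟩
      rcases hsep l hl l' hl' hne α β α' β' a b a' b' (by simpa using e.trans e'.symm) with rfl | rfl
      · left; rw [zero_add] at c; simp [← e, c]
      · right; rw [zero_add] at c'; simp [← e', c']
    · intro l _
      rw [segment_eq_image]
      exact (isCompact_Icc.image (by fun_prop)).isClosed.measurableSet.nullMeasurableSet

end Pool.Agent.H46.Sh
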