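import Mathlib

/-! Shifted `(k,n)`-setups of regular polygons, in the plane `ℂ`. -/

namespace Pool.Agent.H46.Sh

open MeasureTheory Real

/-- The unit vector of argument `x`. -/
noncomputable def ex (x : ℝ) : ℂ := Complex.exp (x * Complex.I)

/-- Circumradius of the regular `n`-gon of side `1`. -/
noncomputable def R (n : ℕ) : ℝ := 1 / (2 * sin (π / n))

/-- Vertex `s` of polygon `t`; vertex `0` is the marked vertex `A_t`. -/
noncomputable def vtx (k n : ℕ) (θ : ℝ) (t s : ℕ) : ℂ :=
  R n * ex (θ + 2 * π * t / k + 2 * π * s / n)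

/-- Polygon `t` of the basic setup. -/
def poly (k n : ℕ) (θ : ℝ) (t : ℕ) : Set ℂ :=
  convexHull ℝ (Set.range fun s : Fin n => vtx k n θ t s)

/-- The union of the polygons, polygon `t` being translated by `ε A_t`. -/
def U (k n : ℕ) (θ ε : ℝ) : Set ℂ :=
  ⋃ t : Fin k, (fun z => z + ε * vtx k n θ t 0) '' poly k n θ t

/-- Perimeter (length of the boundary) divided by area. -/
noncomputable def ratio (S : Set ℂ) : ℝ := (μH[1] (frontier S)).toReal / (volume S).toReal

end Pool.Agent.H46.Sh
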