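import Pool.Agent.H46.Sh1
import Pool.Agent.H46.ShDefs

namespace Pool.Agent.H46.Sh

open MeasureTheory Finset Real Filter Topology

theorem ex_add (x y : ℝ) : ex (x + y) = ex x * ex y := by
  simp only [ex]; rw [← Complex.exp_add]; congr 1; push_cast; ring
theorem ex_re (x : ℝ) : (ex x).re = cos x := Complex.exp_ofReal_mul_I_re x
theorem ex_im (x : ℝ) : (ex x).im = sin x := Complex.exp_ofReal_mul_I_im x
theorem ex_norm (x : ℝ) : ‖ex x‖ = 1 := Complex.norm_exp_ofReal_mul_I x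
theorem cr_ex (x y : ℝ) : cr (ex x) (ex y) = sin (y - x) := by
  simp only [cr, ex_re, ex_im, sin_sub]; ring
theorem ex_per (x y : ℝ) (c : ℤ) (h : y = x + c * (2 * π)) : ex y = ex x :=
  Complex.ext (by rw [ex_re, ex_re, h, cos_add_int_mul_two_pi])
    (by rw [ex_im, ex_im, h, sin_add_int_mul_two_pi])
theorem ex_zero : ex 0 = 1 := by simp [ex]
theorem ex_nat (j : ℕ) (y : ℝ) : ex (j * y) = ex y ^ j := by
  induction j with
  | zero => simp [ex_zero]
  | succ j ih => push_cast; rw [add_mul, one_mul, ex_add, ih, pow_succ]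

theorem sum_ex (M : ℕ) (y c : ℝ) (h1 : ex (M * y) = 1) (h2 : ex y ≠ 1) :
    ∑ j ∈ range M, ex (c + j * y) = 0 := by
  simp only [ex_add, ex_nat, ← mul_sum]
  rw [ex_nat] at h1
  have := geom_sum_mul (ex y) M
  rw [h1, sub_self] at this
  rw [(mul_eq_zero.1 this).resolve_right (sub_ne_zero.2 h2), mul_zero]

theorem sum_cos (M : ℕ) (y c : ℝ) (h1 : ex (M * y) = 1) (h2 : ex y ≠ 1) :
    ∑ j ∈ range M, cos (c + j * y) = 0 := by
  have := congrArg Complex.re (sum_ex M y c h1 h2)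
  simpa [Complex.re_sum, ex_re] using this

theorem cr_add (a b y : ℂ) : cr (a + b) y = cr a y + cr b y := by simp [cr]; ring
theorem cr_sub (a b y : ℂ) : cr (a - b) y = cr a y - cr b y := by simp [cr]; ring
theorem cr_sub' (a b y : ℂ) : cr y (a - b) = cr y a - cr y b := by simp [cr]; ring
theorem cr_add' (a b y : ℂ) : cr y (a + b) = cr y a + cr y b := by simp [cr]; ring
theorem cr_mul (c : ℝ) (a y : ℂ) : cr (c * a) y = c * cr a y := by simp [cr]; ring
theorem cr_mul' (c : ℝ) (a y : ℂ) : cr y (c * a) = c * cr y a := by simp [cr]; ring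

theorem cos_le_mid {x y : ℝ} (h0 : 0 ≤ y) (h1 : y ≤ x) (h2 : x ≤ 2 * π - y) : cos x ≤ cos y := by
  rcases le_total x π with h | h
  · exact cos_le_cos_of_nonneg_of_le_pi h0 h h1
  · rw [← cos_two_pi_sub x]
    exact cos_le_cos_of_nonneg_of_le_pi h0 (by linarith) (by linarith)

theorem cos_lt_abs {x y : ℝ} (h1 : -y < x) (h2 : x < y) (hy : y ≤ π) : cos y < cos x := by
  rw [← cos_abs x]
  exact cos_lt_cos_of_nonneg_of_le_pi (abs_nonneg _) hy (abs_lt.2 ⟨h1, h2⟩)

theorem mid1 (x a b : ℝ) (h : cos (a - b) ≠ 0) :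
    ex x + (sin b / cos (a - b) : ℝ) * ex (x + a + π / 2) = (cos a / cos (a - b) : ℝ) * ex (x + b) := by
  have : (1 : ℂ) + (sin b / cos (a - b) : ℝ) * ex (a + π / 2) = (cos a / cos (a - b) : ℝ) * ex b := by
    apply Complex.ext <;>
      simp only [Complex.add_re, Complex.add_im, Complex.one_re, Complex.one_im,
        Complex.re_ofReal_mul, Complex.im_ofReal_mul, ex_re, ex_im, cos_add_pi_div_two,
        sin_add_pi_div_two] <;> field_simp
    · rw [cos_sub]; ring
    · ring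
  rw [add_assoc, ex_add x, ex_add x]
  linear_combination ex x * this

theorem mid2 (x a b : ℝ) (h : cos (a - b) ≠ 0) :
    ex (x + 2 * b) - (sin b / cos (a - b) : ℝ) * ex (x + 2 * b - a + π / 2)
      = (cos a / cos (a - b) : ℝ) * ex (x + b) := by
  have : (1 : ℂ) - (sin b / cos (a - b) : ℝ) * ex (-a + π / 2)
      = (cos a / cos (a - b) : ℝ) * ex (-b) := by
    apply Complex.ext <;>
      simp only [Complex.sub_re, Complex.sub_im, Complex.one_re, Complex.one_im,
        Complex.re_ofReal_mul, Complex.im_ofReal_mul, ex_re, ex_im, cos_add_pi_div_two,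
        sin_add_pi_div_two, cos_neg, sin_neg] <;> field_simp
    · rw [cos_sub]; ring
    · ring
  rw [show x + 2 * b - a + π / 2 = x + 2 * b + (-a + π / 2) by ring,
    show x + b = x + 2 * b + -b by ring, ex_add (x + 2 * b), ex_add (x + 2 * b)]
  linear_combination ex (x + 2 * b) * this

theorem chord (x a : ℝ) : ex (x + 2 * a) = ex x + (2 * sin a : ℝ) * ex (x + a + π / 2) := by
  have : ex (2 * a) = 1 + (2 * sin a : ℝ) * ex (a + π / 2) := by
    apply Complex.ext <;>
      simp only [Complex.add_re, Complex.add_im, Complex.one_re, Complex.one_im,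
        Complex.re_ofReal_mul, Complex.im_ofReal_mul, ex_re, ex_im, cos_add_pi_div_two,
        sin_add_pi_div_two, cos_two_mul, sin_two_mul]
    · nlinarith [sin_sq_add_cos_sq a]
    · ring
  rw [add_assoc, ex_add x, ex_add x, this]; ring

theorem tri_mem {P : Set ℂ} (hP : Convex ℝ P) (h0 : (0 : ℂ) ∈ P) {x y : ℂ} (hx : x ∈ P)
    (hy : y ∈ P) {α β : ℝ} (a : 0 ≤ α) (b : 0 ≤ β) (c : α + β ≤ 1) : α * x + β * y ∈ P := by
  have := hP.sum_mem (t := (univ : Finset (Fin 3))) (w := ![α, β, 1 - α - β]) (z := ![x, y, 0])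
    (fun i _ => by fin_cases i <;> simp <;> linarith) (by simp [Fin.sum_univ_three])
    (fun i _ => by fin_cases i <;> simpa)
  simpa [Fin.sum_univ_three] using this

theorem ev_lt {f g : ℝ → ℝ} (hf : Continuous f) (hg : Continuous g) (h : f 0 < g 0) :
    ∀ᶠ ε in 𝓝[>] (0 : ℝ), f ε < g ε :=
  nhdsWithin_le_nhds (hf.continuousAt.eventually_lt hg.continuousAt h)

theorem sum_two (f : ℕ → ℝ) (m : ℕ) :
    ∑ l ∈ range (2 * m), f l = ∑ l ∈ range m, (f (2 * l) + f (2 * l + 1)) := by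
  induction m with
  | zero => simp
  | succ m ih => rw [show 2 * (m + 1) = 2 * m + 1 + 1 by ring, sum_range_succ, sum_range_succ,
      ih, sum_range_succ]; ring

theorem star' (N : ℕ) (hN : 3 ≤ N) (X : ℕ → ℂ) (U : Set ℂ) (hper : ∀ l, X (l + 2 * N) = X l)
    (hA : ∀ l ∈ range (2 * N), ∀ d ∈ Ico 1 N, 0 < cr (X l) (X (l + d)))
    (hin : ∀ l ∈ range (2 * N), ∀ α β : ℝ, 0 ≤ α → 0 ≤ β →
      (α * X l + β * X (l + 1) ∈ U ↔ α + β ≤ 1)) :
    ratio U = (∑ l ∈ range (2 * N), ‖X (l + 1) - X l‖)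
      / ∑ l ∈ range (2 * N), cr (X l) (X (l + 1)) / 2 := by
  have p : ∀ l d, X (l % (2 * N) + d) = X (l + d) := fun l d =>
    (show Function.Periodic (fun i => X (i + d)) (2 * N) from fun i => by
      simp only [add_right_comm i, hper]).map_mod_nat l
  have hm : ∀ l, l % (2 * N) ∈ range (2 * N) := fun l => mem_range.2 (Nat.mod_lt _ (by omega))
  have p0 : ∀ l, X (l % (2 * N)) = X l := fun l => p l 0
  obtain ⟨h1, h2⟩ := star N hN X U hper
    (fun l d a b => by rw [← p0, ← p]; exact hA _ (hm l) d (mem_Ico.2 ⟨a, b⟩))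
    (fun l => by rw [← p0, ← p]; exact hin _ (hm l))
  rw [ratio, h1, h2, ENNReal.toReal_sum fun _ _ => edist_ne_top _ _,
    ENNReal.toReal_sum fun _ _ => ENNReal.ofReal_ne_top]
  congr 1
  · exact sum_congr rfl fun l _ => by rw [edist_comm, ← dist_edist, dist_eq_norm]
  · exact sum_congr rfl fun l hl => ENNReal.toReal_ofReal
      (div_nonneg (hA l hl 1 (mem_Ico.2 ⟨le_rfl, by omega⟩)).le two_pos.le)

end Pool.Agent.H46.Sh
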