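import Pool.Agent.H46.Sh2

namespace Pool.Agent.H46.Sh

open MeasureTheory Finset Real Filter Topology

structure Par where
  k : ℕ
  n : ℕ
  m : ℕ
  r : ℝ
  θ : ℝ
  a : ℝ
  b : ℝ
  φ : ℝ
  hn : 3 ≤ n
  hk : 1 ≤ k
  hr : 0 < r
  hb : k * b = a
  ha : n * a = π
  hφ : k * φ = -m * (2 * π)

namespace Par
variable (p : Par)

noncomputable def V (ε : ℝ) (j : ℤ) : ℂ :=
  p.r * (ex (p.θ + j * (2 * p.b)) + ε * ex (p.θ + j * p.φ))
noncomputable def d1 (j : ℤ) : ℂ := ex (p.θ + j * (2 * p.b) + p.a + π / 2)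
noncomputable def d2 (j : ℤ) : ℂ := ex (p.θ + j * (2 * p.b) + 2 * p.b - p.a + π / 2)
noncomputable def De (j : ℤ) : ℂ := ex (p.θ + j * p.φ + p.φ) - ex (p.θ + j * p.φ)
noncomputable def t0 : ℝ := sin p.b / cos (p.a - p.b)
noncomputable def tt (ε : ℝ) (j : ℤ) : ℝ := p.t0 + ε * (cr (p.De j) (p.d2 j) / cr (p.d1 j) (p.d2 j))
noncomputable def ss (ε : ℝ) (j : ℤ) : ℝ := p.t0 + ε * (cr (p.d1 j) (p.De j) / cr (p.d1 j) (p.d2 j))
noncomputable def W (ε : ℝ) (j : ℤ) : ℂ := p.V ε j + (p.r * p.tt ε j : ℝ) * p.d1 j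
def P (ε : ℝ) (j : ℤ) : Set ℂ := (fun z => z + ε * (p.r * ex (p.θ + j * p.φ))) ''
  convexHull ℝ (Set.range fun q : ℤ => (p.r : ℂ) * ex (p.θ + j * (2 * p.b) + q * (2 * p.a)))
noncomputable def X (ε : ℝ) (l : ℕ) : ℂ :=
  if l % 2 = 0 then p.V ε (l / 2 : ℕ) else p.W ε (l / 2 : ℕ)

theorem a_pos : 0 < p.a := by
  have h : (0 : ℝ) < p.n := by have := p.hn; positivity
  have := p.ha; have := pi_pos
  by_contra hc; nlinarith
theorem a_le : 3 * p.a ≤ π := by
  have h : (3 : ℝ) ≤ p.n := by exact_mod_cast p.hn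
  have := p.ha; have := p.a_pos; nlinarith
theorem b_pos : 0 < p.b := by
  have h : (0 : ℝ) < p.k := by have := p.hk; positivity
  have := p.hb; have := p.a_pos
  by_contra hc; nlinarith
theorem b_le : p.b ≤ p.a := by
  have h : (1 : ℝ) ≤ p.k := by exact_mod_cast p.hk
  have := p.hb; have := p.b_pos; nlinarith
theorem cab : 1 / 2 < cos (p.a - p.b) := by
  rw [← cos_pi_div_three]
  have := p.a_le; have := p.b_pos; have := p.b_le; have := pi_pos
  exact cos_lt_abs (by linarith) (by linarith) (by linarith)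
theorem ca : 0 < cos p.a := by
  have := p.a_le; have := p.a_pos
  exact cos_pos_of_mem_Ioo ⟨by linarith, by linarith⟩
theorem sa : 0 < sin p.a := by
  have := p.a_le; have := p.a_pos
  exact sin_pos_of_pos_of_lt_pi (by linarith) (by linarith)
theorem t0_pos : 0 < p.t0 := by
  have := p.a_le; have := p.b_pos; have := p.b_le; have := p.cab
  exact div_pos (sin_pos_of_pos_of_lt_pi (by linarith) (by linarith)) (by linarith)
theorem t0_lt : p.t0 < 2 * sin p.a := by
  have := p.a_le; have := p.b_pos; have := p.b_le; have := p.cab; have := p.sa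
  have h : sin p.b ≤ sin p.a := sin_le_sin_of_le_of_le_pi_div_two (by linarith) (by linarith) p.b_le
  rw [t0, div_lt_iff₀ (by linarith)]; nlinarith

theorem cr12 (j : ℤ) : cr (p.d1 j) (p.d2 j) = -sin (2 * p.a - 2 * p.b) := by
  rw [d1, d2, cr_ex, ← sin_neg]; congr 1; ring

theorem WV (ε : ℝ) (j : ℤ) : p.W ε j = p.V ε (j + 1) - (p.r * p.ss ε j : ℝ) * p.d2 j := by
  have c : cos (p.a - p.b) ≠ 0 := by linarith [p.cab]
  have h1 := mid1 (p.θ + j * (2 * p.b)) p.a p.b c
  have h2 := mid2 (p.θ + j * (2 * p.b)) p.a p.b c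
  have h3 : p.De j = ((cr (p.De j) (p.d2 j) / cr (p.d1 j) (p.d2 j) : ℝ) : ℂ) * p.d1 j
      + ((cr (p.d1 j) (p.De j) / cr (p.d1 j) (p.d2 j) : ℝ) : ℂ) * p.d2 j := by
    rcases p.hk.lt_or_eq with h | h
    · refine coords _ _ _ ?_
      rw [cr12, neg_ne_zero]
      have h' : (2 : ℝ) ≤ p.k := by exact_mod_cast h
      have := p.a_le; have := p.b_pos; have := p.hb
      exact (sin_pos_of_pos_of_lt_pi (by nlinarith) (by linarith [pi_pos])).ne'
    · have : p.De j = 0 := by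
        have h4 := p.hφ; rw [← h] at h4
        rw [De, ex_per (p.θ + j * p.φ) _ (-p.m) (by push_cast at h4 ⊢; linarith), sub_self]
      rw [this]; simp [cr]
  have e1 : p.θ + ((j + 1 : ℤ) : ℝ) * (2 * p.b) = p.θ + j * (2 * p.b) + 2 * p.b := by
    push_cast; ring
  have e2 : p.θ + ((j + 1 : ℤ) : ℝ) * p.φ = p.θ + j * p.φ + p.φ := by push_cast; ring
  simp only [W, V, tt, ss, e1, e2, Complex.ofReal_mul, Complex.ofReal_add]
  rw [De] at h3
  simp only [← De.eq_1] at h3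
  conv_lhs at h3 => rw [De]
  unfold t0
  simp only [d1, d2] at h1 h2 ⊢ h3
  linear_combination (p.r : ℂ) * (h1 - h2) - p.r * ε * h3

theorem Vk (ε : ℝ) (j : ℤ) : p.V ε (j + p.k) = p.V ε j + (p.r * (2 * sin p.a) : ℝ) * p.d1 j := by
  have e1 : p.θ + ((j + p.k : ℤ) : ℝ) * (2 * p.b) = p.θ + j * (2 * p.b) + 2 * p.a := by
    push_cast; linear_combination 2 * p.hb
  rw [V, V, e1, chord, ex_per (p.θ + j * p.φ) (p.θ + ((j + p.k : ℤ) : ℝ) * p.φ) (-p.m)
    (by push_cast; linear_combination p.hφ), d1]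
  push_cast; ring

theorem d21 (j : ℤ) : p.d2 j = p.d1 (j + 1 - p.k) := by
  rw [d1, d2]; congr 1; push_cast; linear_combination 2 * p.hb

theorem P_shift (ε : ℝ) (j c : ℤ) : p.P ε (j + p.k * c) = p.P ε j := by
  unfold P
  rw [ex_per (p.θ + j * p.φ) _ (-p.m * c) (by push_cast; linear_combination c * p.hφ)]
  congr 2
  ext z
  constructor
  · rintro ⟨q, rfl⟩
    exact ⟨q + c, by simp only; congr 2; push_cast; linear_combination -2 * c * p.hb⟩
  · rintro ⟨q, rfl⟩
    exact ⟨q - c, by simp only; congr 2; push_cast; linear_combination 2 * c * p.hb⟩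

theorem P_conv (ε : ℝ) (j : ℤ) : Convex ℝ (p.P ε j) := by
  have := (convex_convexHull ℝ (Set.range fun q : ℤ =>
    (p.r : ℂ) * ex (p.θ + j * (2 * p.b) + q * (2 * p.a)))).translate (ε * (p.r * ex (p.θ + j * p.φ)))
  simpa only [P, add_comm] using this

theorem V_mem (ε : ℝ) (j : ℤ) : p.V ε j ∈ p.P ε j :=
  ⟨_, subset_convexHull ℝ _ ⟨0, rfl⟩, by simp [V]; ring⟩

theorem P_le (ε : ℝ) (j : ℤ) (z : ℂ) (hz : z ∈ p.P ε j) :
    cr z (p.d1 j) ≤ cr (p.V ε j) (p.d1 j) := by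
  obtain ⟨y, hy, rfl⟩ := hz
  have hc : Convex ℝ {y : ℂ | cr y (p.d1 j) ≤ p.r * cos p.a} := by
    intro x hx y hy s t hs ht hst
    simp only [Set.mem_ofPred_eq, Complex.real_smul, cr_l] at hx hy ⊢
    calc _ ≤ s * (p.r * cos p.a) + t * (p.r * cos p.a) := by gcongr
      _ = _ := by rw [← add_mul, hst, one_mul]
  have := convexHull_min (by
    rintro _ ⟨q, rfl⟩
    simp only [Set.mem_ofPred_eq, cr_mul, d1, cr_ex]
    refine mul_le_mul_of_nonneg_left ?_ p.hr.le
    have hn : (0 : ℤ) < p.n := by have := p.hn; omega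
    have h1 := Int.emod_nonneg (-q) hn.ne'
    have h2 := Int.emod_lt_of_pos (-q) hn
    have h3 := Int.emod_add_mul_ediv (-q) p.n
    set s := -q % p.n
    set c := -q / p.n
    have h4 : (q : ℝ) = -s - p.n * c := by
      have : q = -s - p.n * c := by omega
      exact_mod_cast this
    have h5 : (0 : ℝ) ≤ s := by exact_mod_cast h1
    have h6 : (s : ℝ) + 1 ≤ p.n := by exact_mod_cast h2
    rw [show p.θ + j * (2 * p.b) + p.a + π / 2 - (p.θ + j * (2 * p.b) + q * (2 * p.a))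
      = (2 * s + 1) * p.a + c * (2 * π) + π / 2 by rw [h4]; linear_combination 2 * c * p.ha,
      sin_add_pi_div_two, cos_add_int_mul_two_pi]
    have := p.a_pos; have := p.ha
    exact cos_le_mid p.a_pos.le (by nlinarith) (by nlinarith)) hc hy
  simp only [Set.mem_ofPred_eq] at this
  simp only [V, mul_add, cr_add, cr_mul, d1, cr_ex] at this ⊢
  rw [show p.θ + j * (2 * p.b) + p.a + π / 2 - (p.θ + j * (2 * p.b)) = p.a + π / 2 by ring,
    sin_add_pi_div_two]
  linarith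

theorem zero_mem (hm : ∃ q, p.n * p.m + 1 = p.k * q) (ε : ℝ) (h0 : 0 < ε) (h1 : ε < 1 / p.n) (j : ℤ) :
    (0 : ℂ) ∈ p.P ε j := by
  obtain ⟨q, hq⟩ := hm
  have hq' : (p.n : ℝ) * p.m + 1 = p.k * q := by exact_mod_cast hq
  have hk : (p.k : ℝ) ≠ 0 := by have := p.hk; positivity
  have hn : (0 : ℝ) < p.n := by have := p.hn; positivity
  -- the shift direction is a vertex direction
  have hv : ∃ c : ℤ, ex (p.θ + j * (2 * p.b) + c * (2 * p.a)) = ex (p.θ + j * p.φ) := by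
    refine ⟨-j * q, congrArg _ ?_⟩
    apply mul_left_cancel₀ hk
    push_cast
    linear_combination 2 * j * p.hb - j * p.hφ + 2 * j * p.a * hq' - 2 * j * p.m * p.ha
  obtain ⟨c, hc⟩ := hv
  refine ⟨-(ε * (p.r * ex (p.θ + j * p.φ))), ?_, by simp⟩
  have hs := sum_ex p.n (2 * p.a) (p.θ + j * (2 * p.b) + c * (2 * p.a))
    (by rw [← ex_zero]; exact ex_per _ _ 1 (by push_cast; linear_combination 2 * p.ha))
    (fun h => by
      have h2 := congrArg Complex.re h
      rw [ex_re, Complex.one_re, cos_two_mul] at h2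
      nlinarith [sin_sq_add_cos_sq p.a, p.sa])
  have := (convex_convexHull ℝ (Set.range fun q : ℤ =>
    (p.r : ℂ) * ex (p.θ + j * (2 * p.b) + q * (2 * p.a)))).sum_mem (t := range p.n)
    (w := fun i => (1 + ε) / p.n - if i = 0 then ε else 0)
    (z := fun i => (p.r : ℂ) * ex (p.θ + j * (2 * p.b) + c * (2 * p.a) + i * (2 * p.a)))
    (fun i _ => by
      have : ε ≤ (1 + ε) / p.n := by
        rw [add_div]; have : 0 ≤ ε / p.n := by positivity
        linarith
      split_ifs <;> linarith)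
    (by
      rw [sum_sub_distrib, sum_const, card_range, sum_ite_eq', if_pos (by have := p.hn; simp; omega),
        nsmul_eq_mul]
      field_simp; ring)
    (fun i _ => subset_convexHull ℝ _ ⟨c + i, by simp only; congr 2; push_cast; ring⟩)
  simp only [sub_smul, sum_sub_distrib, ← smul_sum, ← mul_sum, hs, ite_smul, zero_smul,
    sum_ite_eq'] at this
  rw [if_pos (by have := p.hn; simp; omega)] at this
  simpa [hc] using this

theorem X_per (ε : ℝ) (l : ℕ) : p.X ε (l + 2 * (p.k * p.n)) = p.X ε l := by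
  have e1 : ∀ (j : ℤ) (y : ℝ), ex (p.θ + ((j + p.k * p.n : ℤ) : ℝ) * (2 * p.b) + y)
      = ex (p.θ + j * (2 * p.b) + y) := fun j y =>
    ex_per _ _ 1 (by push_cast; linear_combination 2 * p.n * p.hb + 2 * p.ha)
  have e2 : ∀ (j : ℤ) (y : ℝ), ex (p.θ + ((j + p.k * p.n : ℤ) : ℝ) * p.φ + y)
      = ex (p.θ + j * p.φ + y) := fun j y =>
    ex_per _ _ (-p.m * p.n) (by push_cast; linear_combination p.n * p.hφ)
  have hV : ∀ j, p.V ε (j + p.k * p.n) = p.V ε j := fun j => by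
    have a := e1 j 0; have b := e2 j 0
    simp only [add_zero] at a b; simp only [V, a, b]
  have h1 : ∀ j, p.d1 (j + p.k * p.n) = p.d1 j := fun j => by
    simp only [d1, add_assoc _ p.a, e1]
  have h2 : ∀ j, p.d2 (j + p.k * p.n) = p.d2 j := fun j => by
    rw [d21, d21, ← h1 (j + 1 - p.k)]; congr 1; ring
  have h3 : ∀ j, p.De (j + p.k * p.n) = p.De j := fun j => by
    have b := e2 j 0
    simp only [add_zero] at b; simp only [De, b, e2]
  have e3 : (l + 2 * (p.k * p.n)) % 2 = l % 2 := by omega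
  have e4 : (((l + 2 * (p.k * p.n)) / 2 : ℕ) : ℤ) = (l / 2 : ℕ) + p.k * p.n := by
    rw [Nat.add_mul_div_left _ _ two_pos]; push_cast; ring
  simp only [X, e3, e4, W, tt, hV, h1, h2, h3]

theorem V0 (j : ℤ) : p.V 0 j = (p.r : ℝ) * ex (p.θ + j * (2 * p.b)) := by simp [V]

theorem W0 (j : ℤ) : p.W 0 j
    = (p.r * (cos p.a / cos (p.a - p.b)) : ℝ) * ex (p.θ + j * (2 * p.b) + p.b) := by
  have := mid1 (p.θ + j * (2 * p.b)) p.a p.b (by linarith [p.cab])
  simp only [W, V0, tt, zero_mul, add_zero, t0, d1, Complex.ofReal_mul]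
  linear_combination (p.r : ℂ) * this

theorem X0 (l : ℕ) : ∃ ρ : ℝ, 0 < ρ ∧ p.X 0 l = ρ * ex (p.θ + l * p.b) := by
  have h : (l : ℝ) = 2 * (l / 2 : ℕ) + (l % 2 : ℕ) := by exact_mod_cast (Nat.div_add_mod l 2).symm
  unfold X; split_ifs with h2
  · refine ⟨_, p.hr, (p.V0 _).trans ?_⟩
    congr 2; rw [h2] at h; rw [Int.cast_natCast]; linear_combination (-p.b) * h
  · have := p.cab; have := p.ca; have := p.hr
    refine ⟨p.r * (cos p.a / cos (p.a - p.b)), ?_, (p.W0 _).trans ?_⟩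
    · have : 0 < cos (p.a - p.b) := by linarith
      positivity
    congr 2; rw [show l % 2 = 1 by omega] at h; rw [Int.cast_natCast]
    linear_combination (-p.b) * h

theorem cV (j : ℤ) : Continuous fun ε => p.V ε j := by unfold V; fun_prop
theorem cW (j : ℤ) : Continuous fun ε => p.W ε j := by unfold W V tt; fun_prop
theorem cX (l : ℕ) : Continuous fun ε => p.X ε l := by
  unfold X; split_ifs; exacts [p.cV _, p.cW _]

end Par

theorem ccr {f g : ℝ → ℂ} (hf : Continuous f) (hg : Continuous g) :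
    Continuous fun ε => cr (f ε) (g ε) := by unfold cr; fun_prop

end Pool.Agent.H46.Sh
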