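import Pool.Agent.H46.Sh3

namespace Pool.Agent.H46.Sh

open MeasureTheory Finset Real Filter Topology

namespace Par
variable (p : Par)

theorem Nb : ((p.k * p.n : ℕ) : ℝ) * p.b = π := by
  push_cast; linear_combination p.n * p.hb + p.ha

theorem N3 : 3 ≤ p.k * p.n := le_trans p.hn (Nat.le_mul_of_pos_left _ p.hk)

theorem E1 : ∀ᶠ ε in 𝓝[>] (0 : ℝ), ∀ l ∈ range (2 * (p.k * p.n)), ∀ d ∈ Ico 1 (p.k * p.n),
    0 < cr (p.X ε l) (p.X ε (l + d)) := by
  simp only [eventually_all_finset]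
  intro l _ d hd
  refine ev_lt continuous_const (ccr (p.cX _) (p.cX _)) ?_
  obtain ⟨ρ, h1, e1⟩ := p.X0 l
  obtain ⟨σ, h2, e2⟩ := p.X0 (l + d)
  rw [e1, e2, cr_mul, cr_mul', cr_ex]
  have a1 : (1 : ℝ) ≤ d := by exact_mod_cast (mem_Ico.1 hd).1
  have a2 : (d : ℝ) < (p.k * p.n : ℕ) := by exact_mod_cast (mem_Ico.1 hd).2
  have := p.b_pos; have := p.Nb
  refine mul_pos h1 (mul_pos h2 (sin_pos_of_pos_of_lt_pi ?_ ?_)) <;> rw [Nat.cast_add] <;> nlinarith

theorem E2 : ∀ᶠ ε in 𝓝[>] (0 : ℝ), ∀ j ∈ range (p.k * p.n),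
    (0 < p.tt ε j ∧ p.tt ε j < 2 * sin p.a) ∧ (0 < p.ss ε j ∧ p.ss ε j < 2 * sin p.a) := by
  simp only [eventually_all_finset]
  intro j _
  have c1 : Continuous fun ε => p.tt ε j := by unfold tt; fun_prop
  have c2 : Continuous fun ε => p.ss ε j := by unfold ss; fun_prop
  exact ((ev_lt continuous_const c1 (by simpa [tt] using p.t0_pos)).and
    (ev_lt c1 continuous_const (by simpa [tt] using p.t0_lt))).and
    ((ev_lt continuous_const c2 (by simpa [ss] using p.t0_pos)).and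
    (ev_lt c2 continuous_const (by simpa [ss] using p.t0_lt)))

theorem crV0 (i j : ℤ) : cr (p.V 0 j) (p.d1 i) = p.r * cos (p.a - (j - i) * (2 * p.b)) := by
  rw [V0, cr_mul, d1, cr_ex, ← sin_add_pi_div_two]; congr 2; ring

theorem E4 : ∀ᶠ ε in 𝓝[>] (0 : ℝ), ∀ j ∈ range (p.k * p.n), ∀ d ∈ range p.k,
    0 < cr (p.V ε (j - d)) (p.d1 (j - d)) ∧
    cr (p.V ε (j - d)) (p.d1 (j - d)) ≤ cr (p.V ε j) (p.d1 (j - d)) ∧
    cr (p.V ε (j - d)) (p.d1 (j - d)) ≤ cr (p.W ε j) (p.d1 (j - d)) ∧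
    cr (p.V ε (j - d)) (p.d1 (j - d)) ≤ cr (p.V ε (j + 1)) (p.d1 (j - d)) := by
  simp only [eventually_all_finset]
  intro j _ d hd
  rw [mem_range] at hd
  have h0 : cr (p.V 0 (j - d)) (p.d1 (j - d)) = p.r * cos p.a := by rw [crV0]; simp
  have cc := fun i => ccr (p.cV i) (continuous_const (y := p.d1 (j - d)))
  have := p.b_pos; have := p.hb; have := p.a_le; have := pi_pos; have := p.a_pos
  have hd1 : (d : ℝ) + 1 ≤ p.k := by exact_mod_cast hd
  have hd0 : (0 : ℝ) ≤ d := Nat.cast_nonneg d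
  have top : d + 1 = p.k → ∀ ε, cr (p.V ε (j + 1)) (p.d1 (j - d))
      = cr (p.V ε (j - d)) (p.d1 (j - d)) := fun h ε => by
    rw [show (j + 1 : ℤ) = j - d + p.k by rw [← h]; push_cast; ring, Vk, cr_add, cr_mul, cr_self]
    ring
  refine (ev_lt continuous_const (cc _) (by rw [h0]; exact mul_pos p.hr p.ca)).and
    (Eventually.and ?_ (Eventually.and ?_ ?_))
  · rcases Nat.eq_zero_or_pos d with rfl | h
    · exact Eventually.of_forall fun ε => by simp
    · refine (ev_lt (cc _) (cc _) ?_).mono fun _ => le_of_lt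
      have : (1 : ℝ) ≤ d := by exact_mod_cast h
      rw [h0, crV0]
      refine mul_lt_mul_of_pos_left (cos_lt_abs ?_ ?_ (by linarith)) p.hr <;> push_cast <;> nlinarith
  · rcases Nat.eq_zero_or_pos d with rfl | h
    · exact Eventually.of_forall fun ε => by simp [W, cr_add, cr_mul, cr_self, -Complex.ofReal_mul]
    rcases (Nat.succ_le_of_lt hd).lt_or_eq with h' | h'
    · refine (ev_lt (cc _) (ccr (p.cW _) continuous_const) ?_).mono fun _ => le_of_lt
      have : (1 : ℝ) ≤ d := by exact_mod_cast h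
      have : (d : ℝ) + 1 + 1 ≤ p.k := by exact_mod_cast h'
      have e : cr (p.W 0 j) (p.d1 (j - d))
          = p.r * (cos p.a / cos (p.a - p.b)) * cos (p.a - p.b - d * (2 * p.b)) := by
        rw [W0, cr_mul, d1, cr_ex, ← sin_add_pi_div_two (p.a - p.b - d * (2 * p.b))]
        congr 2; push_cast; ring
      rw [h0, e, mul_assoc]
      refine mul_lt_mul_of_pos_left ?_ p.hr
      rw [div_mul_eq_mul_div, lt_div_iff₀ (by linarith [p.cab])]
      exact mul_lt_mul_of_pos_left (cos_lt_abs (by nlinarith) (by nlinarith) (by linarith)) p.ca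
    · refine Eventually.of_forall fun ε => le_of_eq ?_
      have h'' : d + 1 = p.k := h'
      rw [WV, d21, show (j + 1 - p.k : ℤ) = j - d by rw [← h'']; push_cast; ring, cr_sub, cr_mul,
        cr_self, top h'']; ring
  · rcases (Nat.succ_le_of_lt hd).lt_or_eq with h' | h'
    · refine (ev_lt (cc _) (cc _) ?_).mono fun _ => le_of_lt
      have : (d : ℝ) + 1 + 1 ≤ p.k := by exact_mod_cast h'
      rw [h0, crV0]
      refine mul_lt_mul_of_pos_left (cos_lt_abs ?_ ?_ (by linarith)) p.hr <;> push_cast <;> nlinarith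
    · exact Eventually.of_forall fun ε => (top h' ε).ge

theorem X_even (ε : ℝ) (j : ℕ) : p.X ε (2 * j) = p.V ε j := by simp [X]
theorem X_odd (ε : ℝ) (j : ℕ) : p.X ε (2 * j + 1) = p.W ε j := by
  have : (2 * j + 1) / 2 = j := by omega
  simp [X, this]
theorem X_even' (ε : ℝ) (j : ℕ) : p.X ε (2 * j + 1 + 1) = p.V ε (j + 1) := by
  rw [show 2 * j + 1 + 1 = 2 * (j + 1) by ring, X_even]; push_cast; rfl

theorem E5 (hm : ∃ q, p.n * p.m + 1 = p.k * q) : ∀ᶠ ε in 𝓝[>] (0 : ℝ),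
    ∀ l ∈ range (2 * (p.k * p.n)), ∀ α β : ℝ, 0 ≤ α → 0 ≤ β →
      (α * p.X ε l + β * p.X ε (l + 1) ∈ ⋃ j, p.P ε j ↔ α + β ≤ 1) := by
  have hn : (0 : ℝ) < 1 / p.n := by have := p.hn; positivity
  filter_upwards [p.E2, p.E4, self_mem_nhdsWithin,
    ev_lt continuous_id continuous_const hn] with ε e2 e4 e0 e3 l hl α β a b
  have hj : l / 2 ∈ range (p.k * p.n) := by rw [mem_range] at hl ⊢; omega
  set j := l / 2 with hjd
  have z0 := p.zero_mem hm ε e0 e3
  have hs : (sin p.a : ℝ) ≠ 0 := p.sa.ne'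
  have sa2 : 0 < 2 * sin p.a := by linarith [p.sa]
  have w1 : p.W ε j ∈ p.P ε j := by
    have m1 : p.V ε (j + p.k) ∈ p.P ε j := by
      rw [← p.P_shift ε j 1, mul_one]; exact p.V_mem _ _
    have := (p.P_conv ε j).add_smul_sub_mem (p.V_mem ε j) m1 (t := p.tt ε j / (2 * sin p.a))
      ⟨div_nonneg (e2 j hj).1.1.le sa2.le, (div_le_one sa2).2 (e2 j hj).1.2.le⟩
    rw [Vk, add_sub_cancel_left, Complex.real_smul, ← mul_assoc, ← Complex.ofReal_mul] at this
    rwa [W, show p.r * p.tt ε j = p.tt ε j / (2 * sin p.a) * (p.r * (2 * sin p.a)) by field_simp]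
  have w2 : p.W ε j ∈ p.P ε (j + 1) := by
    have m1 : p.V ε (j + 1 - p.k) ∈ p.P ε (j + 1) := by
      rw [← p.P_shift ε (j + 1) (-1), mul_neg_one, ← sub_eq_add_neg]; exact p.V_mem _ _
    have := (p.P_conv ε _).add_smul_sub_mem (p.V_mem ε (j + 1)) m1 (t := p.ss ε j / (2 * sin p.a))
      ⟨div_nonneg (e2 j hj).2.1.le sa2.le, (div_le_one sa2).2 (e2 j hj).2.2.le⟩
    have e := p.Vk ε (j + 1 - p.k)
    rw [sub_add_cancel, ← d21] at e
    rw [show p.V ε (j + 1 - p.k) - p.V ε (j + 1) = -(((p.r * (2 * sin p.a) : ℝ) : ℂ) * p.d2 j) by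
      rw [e]; ring, smul_neg, Complex.real_smul, ← mul_assoc, ← Complex.ofReal_mul] at this
    rwa [WV, sub_eq_add_neg,
      show p.r * p.ss ε j = p.ss ε j / (2 * sin p.a) * (p.r * (2 * sin p.a)) by field_simp]
  have hX : (p.X ε l = p.V ε j ∧ p.X ε (l + 1) = p.W ε j) ∨
      (p.X ε l = p.W ε j ∧ p.X ε (l + 1) = p.V ε (j + 1)) := by
    rcases Nat.mod_two_eq_zero_or_one l with h | h
    · left; rw [show l = 2 * j by omega]; exact ⟨p.X_even _ _, p.X_odd _ _⟩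
    · right; rw [show l = 2 * j + 1 by omega]; exact ⟨p.X_odd _ _, p.X_even' _ _⟩
  constructor
  · intro hz
    obtain ⟨i, hi⟩ := Set.mem_iUnion.1 hz
    have hk : (0 : ℤ) < p.k := by have := p.hk; omega
    obtain ⟨d, hd⟩ := Int.eq_ofNat_of_zero_le (Int.emod_nonneg (j - i) hk.ne')
    have h2 := Int.emod_lt_of_pos (j - i) hk
    have h3 := Int.emod_add_mul_ediv (j - i) p.k
    rw [hd] at h2 h3
    rw [← p.P_shift ε i ((j - i) / p.k), show i + p.k * ((j - i) / p.k) = j - d by omega] at hi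
    obtain ⟨c0, c1, c2, c3⟩ := e4 j hj d (mem_range.2 (by exact_mod_cast h2))
    have := p.P_le ε _ _ hi
    rw [cr_l] at this
    by_contra hc; push Not at hc
    rcases hX with ⟨x1, x2⟩ | ⟨x1, x2⟩ <;> rw [x1, x2] at this
    · nlinarith [mul_le_mul_of_nonneg_left c1 a, mul_le_mul_of_nonneg_left c2 b]
    · nlinarith [mul_le_mul_of_nonneg_left c2 a, mul_le_mul_of_nonneg_left c3 b]
  · intro c
    rcases hX with ⟨x1, x2⟩ | ⟨x1, x2⟩ <;> rw [x1, x2]
    · exact Set.mem_iUnion.2 ⟨j, tri_mem (p.P_conv _ _) (z0 _) (p.V_mem _ _) w1 a b c⟩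
    · exact Set.mem_iUnion.2 ⟨j + 1, tri_mem (p.P_conv _ _) (z0 _) w2 (p.V_mem _ _) a b c⟩

noncomputable def ka : ℝ :=
  (cos (2 * p.a - 2 * p.b) - cos (p.φ + (2 * p.a - 2 * p.b))) / sin (2 * p.a - 2 * p.b)

theorem sums (c : ℝ) : ∑ j ∈ range (p.k * p.n), cos (c + j * (p.φ - 2 * p.b)) = 0 ∧
    ∑ j ∈ range (p.k * p.n), cos (c + j * (2 * (p.φ - 2 * p.b))) = 0 := by
  have h2 : ex (2 * (p.φ - 2 * p.b)) ≠ 1 := fun h => by
    have h3 := ex_nat p.k (2 * (p.φ - 2 * p.b))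
    rw [h, one_pow, ex_per (-(4 * p.a)) _ (-2 * p.m)
      (by push_cast; linear_combination 2 * p.hφ - 4 * p.hb)] at h3
    have h4 := congrArg Complex.re h3
    rw [ex_re, Complex.one_re, cos_neg, show 4 * p.a = 2 * (2 * p.a) by ring, cos_two_mul] at h4
    have := p.a_le; have := p.a_pos
    have : 0 < sin (2 * p.a) := sin_pos_of_pos_of_lt_pi (by linarith) (by linarith)
    nlinarith [sin_sq_add_cos_sq (2 * p.a)]
  constructor
  · refine sum_cos _ _ _ ?_ fun h => h2 (by rw [two_mul, ex_add, h, one_mul])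
    rw [← ex_zero]
    exact ex_per _ _ (-p.m * p.n - 1)
      (by push_cast; linear_combination p.n * p.hφ - 2 * p.n * p.hb - 2 * p.ha)
  · refine sum_cos _ _ _ ?_ h2
    rw [← ex_zero]
    exact ex_per _ _ (-2 * p.m * p.n - 2)
      (by push_cast; linear_combination 2 * p.n * p.hφ - 4 * p.n * p.hb - 4 * p.ha)

theorem formula (hm : ∃ q, p.n * p.m + 1 = p.k * q) : ∀ᶠ ε in 𝓝[>] (0 : ℝ),
    ratio (⋃ j, p.P ε j) = 4 * p.t0 / (p.r * (2 * cos p.a * p.t0 + ε ^ 2 * p.ka)) := by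
  filter_upwards [p.E1, p.E2, p.E5 hm] with ε e1 e2 e5
  rw [star' _ p.N3 _ _ (p.X_per ε) e1 e5, sum_two, sum_two]
  simp only [X_even, X_odd, X_even']
  set ψ := p.φ - 2 * p.b with hψ
  set D := (sin (2 * p.a - 2 * p.b))⁻¹ with hD
  have ht : ∀ j : ℕ, p.tt ε j = p.t0 - ε * D * (cos (ψ + p.a + j * ψ) - cos (p.a - 2 * p.b + j * ψ)) := by
    intro j
    rw [tt, cr12, De, cr_sub, d2, cr_ex, cr_ex, ← cos_neg (ψ + p.a + j * ψ),
      ← cos_neg (p.a - 2 * p.b + j * ψ), ← sin_add_pi_div_two, ← sin_add_pi_div_two, div_neg,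
      div_eq_mul_inv, ← hD]
    rw [show p.θ + ((j : ℤ) : ℝ) * (2 * p.b) + 2 * p.b - p.a + π / 2 - (p.θ + ((j : ℤ) : ℝ) * p.φ + p.φ)
      = -(ψ + p.a + j * ψ) + π / 2 by rw [hψ]; push_cast; ring,
      show p.θ + ((j : ℤ) : ℝ) * (2 * p.b) + 2 * p.b - p.a + π / 2 - (p.θ + ((j : ℤ) : ℝ) * p.φ)
      = -(p.a - 2 * p.b + j * ψ) + π / 2 by rw [hψ]; push_cast; ring]
    ring
  have hs : ∀ j : ℕ, p.ss ε j = p.t0 + ε * D * (cos (p.φ - p.a + j * ψ) - cos (-p.a + j * ψ)) := by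
    intro j
    rw [ss, cr12, De, cr_sub', d1, cr_ex, cr_ex, div_neg, div_eq_mul_inv, ← hD]
    rw [show p.θ + ((j : ℤ) : ℝ) * p.φ + p.φ - (p.θ + ((j : ℤ) : ℝ) * (2 * p.b) + p.a + π / 2)
      = (p.φ - p.a + j * ψ) - π / 2 by rw [hψ]; push_cast; ring,
      show p.θ + ((j : ℤ) : ℝ) * p.φ - (p.θ + ((j : ℤ) : ℝ) * (2 * p.b) + p.a + π / 2)
      = (-p.a + j * ψ) - π / 2 by rw [hψ]; push_cast; ring, sin_sub_pi_div_two, sin_sub_pi_div_two]
    ring
  have hh : ∀ j : ℕ, cr (p.V ε j) (p.d1 j) = p.r * (cos p.a + ε * cos (-p.a + j * ψ)) := by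
    intro j
    rw [V, cr_mul, cr_add, cr_mul, d1, cr_ex, cr_ex, ← cos_neg (-p.a + j * ψ),
      ← sin_add_pi_div_two, ← sin_add_pi_div_two]
    congr 3
    · ring
    · rw [hψ]; push_cast; ring
  have hg : ∀ j : ℕ, cr (p.V ε (j + 1)) (p.d2 j) = p.r * (cos p.a + ε * cos (ψ + p.a + j * ψ)) := by
    intro j
    rw [V, cr_mul, cr_add, cr_mul, d2, cr_ex, cr_ex, ← cos_neg (ψ + p.a + j * ψ), ← cos_neg p.a,
      ← sin_add_pi_div_two, ← sin_add_pi_div_two]
    congr 3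
    · push_cast; ring
    · rw [hψ]; push_cast; ring
  have per : ∑ j ∈ range (p.k * p.n), (‖p.W ε j - p.V ε j‖ + ‖p.V ε (j + 1) - p.W ε j‖)
      = (p.k * p.n : ℕ) * (2 * p.r * p.t0) := by
    have : ∀ j ∈ range (p.k * p.n), ‖p.W ε j - p.V ε j‖ + ‖p.V ε (j + 1) - p.W ε j‖
        = 2 * p.r * p.t0 + p.r * ε * D * (cos (p.φ - p.a + j * ψ) - cos (-p.a + j * ψ)
          - cos (ψ + p.a + j * ψ) + cos (p.a - 2 * p.b + j * ψ)) := by
      intro j hj
      have a1 := (e2 j hj).1.1; have a2 := (e2 j hj).2.1; have := p.hr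
      conv_lhs => enter [2]; rw [WV]
      rw [W, add_sub_cancel_left, sub_sub_cancel, norm_mul, norm_mul, d1, d2, ex_norm, ex_norm,
        Complex.norm_real, Complex.norm_real, Real.norm_of_nonneg (by positivity),
        Real.norm_of_nonneg (by positivity), ht, hs]
      ring
    rw [sum_congr rfl this]
    simp only [sum_add_distrib, sum_sub_distrib, ← mul_sum, (p.sums _).1, hψ]
    simp; ring
  have ar : ∑ j ∈ range (p.k * p.n), (cr (p.V ε j) (p.W ε j) / 2 + cr (p.W ε j) (p.V ε (j + 1)) / 2)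
      = (p.k * p.n : ℕ) * (p.r ^ 2 / 2 * (2 * cos p.a * p.t0 + ε ^ 2 * p.ka)) := by
    have cc : ∀ x y z w : ℝ, x - y = z → x + y = w → cos x * cos y = (cos z + cos w) / 2 := by
      rintro x y _ _ rfl rfl; rw [cos_sub, cos_add]; ring
    have : ∀ j ∈ range (p.k * p.n), cr (p.V ε j) (p.W ε j) / 2 + cr (p.W ε j) (p.V ε (j + 1)) / 2
        = p.r ^ 2 / 2 * (2 * cos p.a * p.t0 + ε ^ 2 * p.ka)
          + p.r ^ 2 / 2 * ε * (p.t0 * (cos (-p.a + j * ψ) + cos (ψ + p.a + j * ψ))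
            + cos p.a * D * (cos (p.φ - p.a + j * ψ) - cos (-p.a + j * ψ)
            - cos (ψ + p.a + j * ψ) + cos (p.a - 2 * p.b + j * ψ)))
          + p.r ^ 2 / 4 * ε ^ 2 * D * (cos (-(2 * p.b) + j * (2 * ψ)) + cos (ψ + p.φ + j * (2 * ψ))
            - 2 * cos (ψ + j * (2 * ψ))) := by
      intro j _
      conv_lhs => enter [2]; rw [WV]
      rw [W, cr_add', cr_self, cr_mul', cr_sub, cr_self, cr_mul, cr_swap (p.d2 j), hh, hg, ht, hs,
        ka, div_eq_mul_inv _ (sin _), ← hD]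
      have i1 := cc (ψ + p.a + j * ψ) (-p.a + j * ψ) (p.φ + (2 * p.a - 2 * p.b)) (ψ + j * (2 * ψ))
        (by rw [hψ]; ring) (by ring)
      have i2 := cc (p.a - 2 * p.b + j * ψ) (-p.a + j * ψ) (2 * p.a - 2 * p.b)
        (-(2 * p.b) + j * (2 * ψ)) (by ring) (by ring)
      have i3 := cc (ψ + p.a + j * ψ) (p.φ - p.a + j * ψ) (2 * p.a - 2 * p.b)
        (ψ + p.φ + j * (2 * ψ)) (by rw [hψ]; ring) (by ring)
      linear_combination p.r ^ 2 / 2 * ε ^ 2 * D * (i2 + i3 - 2 * i1)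
    rw [sum_congr rfl this, sum_add_distrib, sum_add_distrib, ← mul_sum, ← mul_sum]
    simp only [sum_add_distrib, sum_sub_distrib, ← mul_sum, (p.sums _).1, (p.sums _).2, hψ]
    simp; ring
  rw [per, ar]
  have hN : ((p.k * p.n : ℕ) : ℝ) ≠ 0 := by have := p.N3; positivity
  have := p.hr.ne'
  rw [mul_div_mul_left _ _ hN]
  by_cases h : 2 * cos p.a * p.t0 + ε ^ 2 * p.ka = 0
  · simp [h]
  · field_simp; ring

theorem iff_ka (hm : ∃ q, p.n * p.m + 1 = p.k * q) (hr : p.r * (2 * sin p.a) = 1) :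
    ∀ᶠ ε in 𝓝[>] (0 : ℝ), (4 * tan p.a < ratio (⋃ j, p.P ε j) ↔ p.ka < 0) := by
  have h0 := mul_pos p.ca p.t0_pos
  filter_upwards [p.formula hm, self_mem_nhdsWithin, ev_lt (f := fun _ => 0)
    (g := fun ε => 2 * cos p.a * p.t0 + ε ^ 2 * p.ka) continuous_const (by fun_prop)
    (by nlinarith)] with ε e1 e2 e3
  have e4 : 0 < ε ^ 2 := pow_pos e2 2
  rw [e1, lt_div_iff₀ (mul_pos p.hr e3), tan_eq_sin_div_cos]
  have : 4 * (sin p.a / cos p.a) * (p.r * (2 * cos p.a * p.t0 + ε ^ 2 * p.ka))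
      = 4 * p.t0 + 2 / cos p.a * ε ^ 2 * p.ka := by
    have := p.ca.ne'
    field_simp
    linear_combination (2 * (2 * cos p.a * p.t0 + ε ^ 2 * p.ka)) * hr
  rw [this, add_lt_iff_neg_left]
  have h1 : 0 < 2 / cos p.a * ε ^ 2 := by have := p.ca; positivity
  exact ⟨fun h => by by_contra hc; push Not at hc; nlinarith [mul_nonneg h1.le hc],
    fun h => mul_neg_of_pos_of_neg h1 h⟩

end Par

noncomputable def mkP (k n m : ℕ) (hn : 3 ≤ n) (hk : 1 ≤ k) (θ : ℝ) : Par where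
  k := k
  n := n
  m := m
  r := R n
  θ := θ
  a := π / n
  b := π / n / k
  φ := -m * (2 * π) / k
  hn := hn
  hk := hk
  hr := by
    have h : (3 : ℝ) ≤ n := by exact_mod_cast hn
    have := pi_pos
    have : 0 < sin (π / n) := sin_pos_of_pos_of_lt_pi (by positivity)
      (div_lt_self pi_pos (by linarith))
    unfold R; positivity
  hb := by field_simp
  ha := by field_simp
  hφ := by field_simp

theorem U_eq (p : Par) (hm : ∃ q, p.n * p.m + 1 = p.k * q) (hr : p.r = R p.n) (ε : ℝ) :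
    U p.k p.n p.θ ε = ⋃ j, p.P ε j := by
  obtain ⟨q, hq⟩ := hm
  have hq' : (p.n : ℝ) * p.m + 1 = p.k * q := by exact_mod_cast hq
  have hk : (p.k : ℝ) ≠ 0 := by have := p.hk; positivity
  have hn : (p.n : ℝ) ≠ 0 := by have := p.hn; positivity
  have key : ∀ t : ℕ, (fun z => z + ε * vtx p.k p.n p.θ t 0) '' poly p.k p.n p.θ t
      = p.P ε (p.n * t) := by
    intro t
    have e1 : 2 * π * t / p.k = ((p.n * t : ℤ) : ℝ) * (2 * p.b) := by
      rw [div_eq_iff hk]; push_cast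
      linear_combination -2 * t * p.n * p.hb - 2 * t * p.ha
    have e2 : ∀ s : ℝ, 2 * π * s / p.n = s * (2 * p.a) := fun s => by
      rw [div_eq_iff hn]; linear_combination -2 * s * p.ha
    unfold Par.P poly vtx
    rw [← hr, ex_per (p.θ + ((p.n * t : ℤ) : ℝ) * p.φ) (p.θ + 2 * π * t / p.k + 2 * π * (0 : ℕ) / p.n)
      (q * t) (by
        have : 2 * π * t / p.k = p.n * t * p.φ + q * t * (2 * π) := by
          rw [div_eq_iff hk]; linear_combination -p.n * t * p.hφ + 2 * π * t * hq'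
        push_cast; rw [this]; ring)]
    congr 2
    simp only [e1, e2]
    ext z
    constructor
    · rintro ⟨s, rfl⟩; exact ⟨s, by simp⟩
    · rintro ⟨c, rfl⟩
      have hn' : (0 : ℤ) < p.n := by have := p.hn; omega
      obtain ⟨s, hs⟩ := Int.eq_ofNat_of_zero_le (Int.emod_nonneg c hn'.ne')
      have h2 := Int.emod_lt_of_pos c hn'
      have h3 := Int.emod_add_mul_ediv c p.n
      rw [hs] at h2 h3
      refine ⟨⟨s, by exact_mod_cast h2⟩, ?_⟩
      simp only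
      congr 1
      have h4 : (s : ℝ) + p.n * ((c / p.n : ℤ) : ℝ) = c := by exact_mod_cast h3
      exact (ex_per _ _ (c / p.n) (by rw [← h4]; linear_combination 2 * ((c / p.n : ℤ) : ℝ) * p.ha)).symm
  unfold U
  simp only [key]
  ext z
  simp only [Set.mem_iUnion]
  constructor
  · rintro ⟨t, ht⟩; exact ⟨_, ht⟩
  · rintro ⟨j, hj⟩
    have hk' : (0 : ℤ) < p.k := by have := p.hk; omega
    obtain ⟨t, ht⟩ := Int.eq_ofNat_of_zero_le (Int.emod_nonneg (-p.m * j) hk'.ne')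
    have h2 := Int.emod_lt_of_pos (-p.m * j) hk'
    have h3 := Int.emod_add_mul_ediv (-p.m * j) p.k
    rw [ht] at h2 h3
    refine ⟨⟨t, by exact_mod_cast h2⟩, ?_⟩
    have hqz : (p.n : ℤ) * p.m + 1 = p.k * q := by exact_mod_cast hq
    rw [← p.P_shift ε _ (p.n * (-p.m * j / p.k) + q * j)]
    convert hj using 2
    simp only
    linear_combination p.n * h3 - j * hqz

theorem ev_U (k n m : ℕ) (hn : 3 ≤ n) (hk : 1 ≤ k) (θ : ℝ) (hm : ∃ q, n * m + 1 = k * q) :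
    ∀ᶠ ε in 𝓝[>] (0 : ℝ), (4 * tan (π / n) < ratio (U k n θ ε) ↔ (mkP k n m hn hk θ).ka < 0) := by
  have := (mkP k n m hn hk θ).iff_ka hm (by
    have := (mkP k n m hn hk θ).sa.ne'
    simp only [mkP, R] at this ⊢
    field_simp)
  simp only [← U_eq (mkP k n m hn hk θ) hm rfl] at this
  exact this

theorem ka_neg (p : Par) (h1 : 1 < p.k) (hm : p.n * p.m + 1 = p.k) : p.ka < 0 := by
  have hq : (p.n : ℝ) * p.m + 1 = p.k := by exact_mod_cast hm
  have h' : (2 : ℝ) ≤ p.k := by exact_mod_cast h1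
  have := p.a_le; have := p.b_pos; have := p.hb; have := pi_pos
  have e : p.φ = -(2 * p.a - 2 * p.b) := by
    have hk : (p.k : ℝ) ≠ 0 := by positivity
    apply mul_left_cancel₀ hk
    linear_combination p.hφ - 2 * p.hb - 2 * p.a * hq + 2 * p.m * p.ha
  refine div_neg_of_neg_of_pos (sub_neg.2 (cos_lt_abs ?_ ?_ (by linarith)))
    (sin_pos_of_pos_of_lt_pi ?_ (by linarith)) <;> nlinarith

theorem ka_nonneg (p : Par) (q : ℕ) (hm : p.n * p.m + 1 = p.k * q) (hq2 : 2 ≤ q) (hmk : p.m ≤ p.k) :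
    0 ≤ p.ka := by
  have hq : (p.n : ℝ) * p.m + 1 = p.k * q := by exact_mod_cast hm
  have h' : (1 : ℝ) ≤ p.k := by exact_mod_cast p.hk
  have h2 : (2 : ℝ) ≤ q := by exact_mod_cast hq2
  have h3 : (p.m : ℝ) ≤ p.k := by exact_mod_cast hmk
  have := p.a_le; have := p.b_pos; have := p.b_le; have := pi_pos; have := p.a_pos
  have e : p.φ = -(2 * q * p.a - 2 * p.b) := by
    have hk : (p.k : ℝ) ≠ 0 := by positivity
    apply mul_left_cancel₀ hk
    linear_combination p.hφ - 2 * p.hb - 2 * p.a * hq + 2 * p.m * p.ha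
  have e2 : -(2 * π) ≤ p.φ := by
    have := p.hφ
    by_contra hc; push Not at hc; nlinarith
  refine div_nonneg (sub_nonneg.2 ?_) (sin_nonneg_of_nonneg_of_le_pi (by linarith) (by linarith))
  rw [← cos_neg (p.φ + _)]
  exact cos_le_mid (by linarith) (by nlinarith) (by linarith)

theorem main (k n : ℕ) (hk : 1 ≤ k) (hn : 3 ≤ n) (hc : Nat.Coprime k n) (θ : ℝ) :
    (∃ ε₀ > 0, ∀ ε ∈ Set.Ioo (0 : ℝ) ε₀, 4 * tan (π / n) < ratio (U k n θ ε)) ↔
      (1 < k ∧ k ≡ 1 [MOD n]) := by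
  rw [show (∃ ε₀ > 0, ∀ ε ∈ Set.Ioo (0 : ℝ) ε₀, 4 * tan (π / n) < ratio (U k n θ ε)) ↔
    ∀ᶠ ε in 𝓝[>] (0 : ℝ), 4 * tan (π / n) < ratio (U k n θ ε) from
    (mem_nhdsGT_iff_exists_Ioo_subset).symm]
  constructor
  · intro h
    by_contra hc'
    have key : ∀ m, (∃ q, n * m + 1 = k * q) → (mkP k n m hn hk θ).ka < 0 := fun m hm => by
      obtain ⟨ε, h1, h2⟩ := (h.and (ev_U k n m hn hk θ hm)).exists
      exact h2.1 h1
    rcases hk.lt_or_eq with h1 | rfl
    · obtain ⟨u, hu1, hu⟩ := Nat.exists_mul_mod_eq_one_of_coprime hc.symm h1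
      have h3 := Nat.mod_add_div (n * u) k
      rw [hu] at h3
      have h4 : k ∣ n * (k - u) + 1 := by
        have : n * (k - u) + 1 + k * (n * u / k) = k * n := by
          rw [Nat.mul_sub, mul_comm k n]
          have := Nat.mul_le_mul_left n hu1.le
          omega
        exact (Nat.dvd_add_left (dvd_mul_right _ _)).1 (this ▸ dvd_mul_right _ _)
      obtain ⟨q, hq⟩ := h4
      refine absurd (key _ ⟨q, hq⟩) (not_lt.2 (ka_nonneg _ q hq ?_ (Nat.sub_le _ _)))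
      rcases q with _ | _ | q
      · omega
      · refine absurd ⟨h1, ?_⟩ hc'
        rw [zero_add, mul_one] at hq
        rw [← hq]; simp [Nat.ModEq]
      · omega
    · have := key 0 ⟨1, by simp⟩
      simp [Par.ka, mkP] at this
  · rintro ⟨h1, h2⟩
    obtain ⟨m, hm⟩ := (Nat.modEq_iff_dvd' hk).1 h2.symm
    have hm' : n * m + 1 = k := by omega
    exact (ev_U k n m hn hk θ ⟨1, by omega⟩).mono fun ε h => h.2 (ka_neg _ h1 hm')

end Pool.Agent.H46.Sh
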