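import Pool.Agent.H46.PL3

open Set Filter Topology
open scoped ContDiff

namespace Pool.Agent.H46.SmR

open Pool.Agent.H46.PLR

def Sm (u : G) : Prop := ContDiff ℝ ∞ u ∧ ContDiff ℝ ∞ (u⁻¹ : G)

lemma Sm.mul {u v : G} (hu : Sm u) (hv : Sm v) : Sm (u * v) :=
  ⟨hu.1.comp hv.1, by rw [mul_inv_rev]; exact hv.2.comp hu.2⟩

lemma Sm.one : Sm 1 := ⟨contDiff_id, contDiff_id⟩

lemma Sm.inv {u : G} (hu : Sm u) : Sm u⁻¹ := ⟨hu.2, by rw [inv_inv]; exact hu.1⟩

lemma Sm.rf {u : G} (hu : Sm u) : Sm (rf u) := by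
  have key : ∀ v : G, ContDiff ℝ ∞ v → ContDiff ℝ ∞ (PLR.rf v) := fun v hv => by
    have : (PLR.rf v : ℝ → ℝ) = fun x => - v (-x) := funext (rf_ap v)
    rw [this]
    exact (hv.comp contDiff_neg).neg
  exact ⟨key u hu.1, by rw [← rf_inv]; exact key _ hu.2⟩

lemma mk_Sm (U : ℝ → ℝ) (h0 : ContDiff ℝ ∞ U) (h1 : ∀ x, 0 < deriv U x)
    (h2 : Function.Surjective U) : ∃ u : G, Sm u ∧ ∀ x, u x = U x := by
  obtain ⟨u, hu⟩ := mk_G U (strictMono_of_deriv_pos h1) h2
  have e : (u : ℝ → ℝ) = U := funext hu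
  refine ⟨u, ⟨by rw [e]; exact h0, ?_⟩, hu⟩
  have hd : Differentiable ℝ U := h0.differentiable (by simp)
  exact u.toHomeomorph.contDiff_symm_deriv (f' := deriv U) (fun x => (h1 x).ne')
    (fun x => by
      have := (hd x).hasDerivAt
      rw [← e] at this ⊢
      exact this) (by
      have := h0
      rw [← e] at this
      exact this)

lemma Sm.deriv_pos {u : G} (hu : Sm u) (x : ℝ) : 0 < deriv u x := by
  have d1 : Differentiable ℝ u := hu.1.differentiable (by simp)
  have d2 : Differentiable ℝ (u⁻¹ : G) := hu.2.differentiable (by simp)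
  refine lt_of_le_of_ne u.monotone.deriv_nonneg fun h => ?_
  have h1 := ((d2 (u x)).hasDerivAt).comp x (d1 x).hasDerivAt
  have h2 : ((u⁻¹ : G) ∘ u) = id := funext fun t => by simp
  rw [h2, ← h, mul_zero] at h1
  exact one_ne_zero ((hasDerivAt_id x).unique h1)

lemma blend {f : G} (hf : Sm f) {a b : ℝ} (hab : a < b) (h : ∀ x ∈ Icc a b, x ≤ f x) :
    ∃ w : G, Sm w ∧ (∀ x ≤ a, w x = x) ∧ ∀ x ≥ b, w x = f x := by
  have hd : 0 < b - a := by linarith
  let σ : ℝ → ℝ := fun x => Real.smoothTransition ((x - a) / (b - a))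
  have s0 : ∀ x ≤ a, σ x = 0 := fun x hx =>
    Real.smoothTransition.zero_of_nonpos (div_nonpos_of_nonpos_of_nonneg (by linarith) hd.le)
  have s1 : ∀ x ≥ b, σ x = 1 := fun x hx =>
    Real.smoothTransition.one_of_one_le (by rw [le_div_iff₀ hd]; linarith)
  have s2 : ContDiff ℝ ∞ σ :=
    Real.smoothTransition.contDiff.comp ((contDiff_id.sub contDiff_const).div_const _)
  have s3 : Monotone σ := fun x y hxy =>
    Real.smoothTransition.monotone (div_le_div_of_nonneg_right (by linarith) hd.le)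
  have s4 : ∀ x, 0 ≤ deriv σ x * (f x - x) := by
    intro x
    rcases lt_or_ge x a with h1 | h1
    · have : σ =ᶠ[𝓝 x] fun _ => 0 := by
        filter_upwards [Iio_mem_nhds h1] with t ht using s0 t (le_of_lt ht)
      rw [this.deriv_eq]; simp
    rcases lt_or_ge b x with h2 | h2
    · have : σ =ᶠ[𝓝 x] fun _ => 1 := by
        filter_upwards [Ioi_mem_nhds h2] with t ht using s1 t (le_of_lt ht)
      rw [this.deriv_eq]; simp
    exact mul_nonneg s3.deriv_nonneg (by linarith [h x ⟨h1, h2⟩])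
  have c0 : ContDiff ℝ ∞ fun x => x + σ x * (f x - x) :=
    contDiff_id.add (s2.mul (hf.1.sub contDiff_id))
  obtain ⟨w, w1, w2⟩ := mk_Sm (fun x => x + σ x * (f x - x)) c0
    (by
      intro x
      have d1 := ((s2.differentiable (by simp)) x).hasDerivAt
      have d2 := ((hf.1.differentiable (by simp)) x).hasDerivAt
      have d3 : HasDerivAt (fun x => x + σ x * (f x - x))
          (1 + (deriv σ x * (f x - x) + σ x * (deriv f x - 1))) x :=
        (hasDerivAt_id x).add (d1.mul (d2.sub (hasDerivAt_id x)))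
      rw [d3.deriv]
      have e1 : 0 ≤ σ x := Real.smoothTransition.nonneg _
      have e2 : σ x ≤ 1 := Real.smoothTransition.le_one _
      have e3 := hf.deriv_pos x
      have e4 := s4 x
      rcases eq_or_lt_of_le e1 with h0 | h0
      · rw [← h0]; linarith
      · nlinarith [mul_pos h0 e3])
    (by
      intro y
      have := intermediate_value_univ (min a y) (max b (f⁻¹ y)) c0.continuous
      apply this
      constructor
      · simp only [s0 _ (min_le_left _ _)]; simp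
      · simp only [s1 _ (le_max_left _ _)]
        have := f.monotone (le_max_right b (f⁻¹ y))
        simp only [ap_inv] at this
        linarith)
  exact ⟨w, w1, fun x hx => by rw [w2, s0 x hx]; ring, fun x hx => by rw [w2, s1 x hx]; ring⟩

lemma exists_tr (c : ℝ) : ∃ u : G, Sm u ∧ ∀ x, u x = x + c :=
  mk_Sm (fun t => t + c) (contDiff_id.add contDiff_const) (fun x => by simp)
    (fun y => ⟨y - c, by simp⟩)

lemma push {a b c : ℝ} (hab : a < b) (hc : b ≤ c) :
    ∃ w : G, Sm w ∧ (∀ x ≤ a, w x = x) ∧ w b = c := by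
  obtain ⟨t, t1, t2⟩ := exists_tr (c - b)
  obtain ⟨w, w1, w2, w3⟩ := blend t1 hab (fun x _ => by rw [t2]; linarith)
  exact ⟨w, w1, w2, by rw [w3 b le_rfl, t2]; ring⟩

lemma pull {θ : G} (hθ : Sm θ) {y p : ℝ} (e : ℝ) (hp : θ y < p) :
    ∃ θ' : G, Sm θ' ∧ (∀ t ≤ y, θ' t = θ t) ∧ θ' e ≤ p := by
  obtain ⟨w, w1, w2, w3⟩ := push hp (le_max_left p (θ e))
  refine ⟨w⁻¹ * θ, w1.inv.mul hθ, fun t ht => inv_eq_of _ (w2 _ (θ.monotone ht)), ?_⟩
  rw [mul_ap, inv_le_iff, w3]; exact le_max_right _ _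

lemma limit (u : ℕ → G) (c : ℕ → ℝ) (hu : ∀ n, Sm (u n)) (hc : Monotone c)
    (hag : ∀ n, ∀ x ≤ c n, u (n + 1) x = u n x)
    (hc1 : ∀ B, ∃ n, B ≤ c n) (hc2 : ∀ B, ∃ n, B ≤ u n (c n)) :
    ∃ w : G, Sm w ∧ ∀ n, ∀ x ≤ c n, w x = u n x := by
  have hag' : ∀ n m, n ≤ m → ∀ x ≤ c n, u m x = u n x := by
    intro n m hnm x hx
    induction m, hnm using Nat.le_induction with
    | base => rfl
    | succ m hm ih => rw [hag m x (hx.trans (hc hm)), ih]
  choose N hN using hc1
  have key : ∀ n, ∀ x ≤ c n, u (N x) x = u n x := by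
    intro n x hx
    rcases le_total n (N x) with h | h
    · exact hag' _ _ h x hx
    · exact (hag' _ _ h x (hN x)).symm
  obtain ⟨w, hw⟩ := mk_G (fun x => u (N x) x)
    (by
      intro s t hst
      simp only
      rw [key (N t) s (hst.le.trans (hN t))]
      exact (u _).strictMono hst)
    (by
      intro y
      obtain ⟨n, hn⟩ := hc2 y
      refine ⟨(u n)⁻¹ y, ?_⟩
      simp only
      rw [key n]
      · simp
      · rw [← (u n).le_iff_le]; simpa using hn)
  have h1 : ∀ n, ∀ x ≤ c n, w x = u n x := fun n x hx => by rw [hw, key n x hx]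
  refine ⟨w, ⟨contDiff_iff_contDiffAt.2 fun x => ?_, contDiff_iff_contDiffAt.2 fun y => ?_⟩, h1⟩
  · have hx : x < c (N (x + 1)) := by linarith [hN (x + 1)]
    refine (hu (N (x + 1))).1.contDiffAt.congr_of_eventuallyEq ?_
    filter_upwards [Iio_mem_nhds hx] with t ht using h1 _ t (le_of_lt ht)
  · obtain ⟨n, hn⟩ := hc2 (y + 1)
    have hy : y < u n (c n) := by linarith
    refine (hu n).2.contDiffAt.congr_of_eventuallyEq ?_
    filter_upwards [Iio_mem_nhds hy] with t ht
    apply inv_eq_of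
    rw [h1 n _ ((inv_le_iff _ _ _).2 (le_of_lt ht))]; simp

end Pool.Agent.H46.SmR
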