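import Pool.Agent.H46.Sm1

open Set Filter Topology

namespace Pool.Agent.H46.SmR

open Pool.Agent.H46.PLR hiding Good Good.inv force_aux force_pos force_neg ctl_above ctl_below step_pos step_neg St from_neg cycle right_pos right_pos' right_main limit

def Good (μ : G) : Prop := Sm μ ∧
  (∀ y, y < μ y → ∃ e : ℤ, μ y < e ∧ μ e = e ∧ ∀ x ∈ Ioo (e:ℝ) (e+1), μ x < x) ∧
  (∀ y, μ y < y → ∃ e : ℤ, y < e ∧ μ e = e ∧ ∀ x ∈ Ioo (e:ℝ) (e+1), x < μ x)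

lemma Good.inv {μ : G} (h : Good μ) : Good μ⁻¹ := by
  refine ⟨h.1.inv, fun y hy => ?_, fun y hy => ?_⟩
  · obtain ⟨e, h1, h2, h3⟩ := h.2.2 (μ⁻¹ y) (by simpa using hy)
    exact ⟨e, h1, inv_eq_of _ h2, fun x hx => (inv_lt_iff _ _ _).2 (h3 x hx)⟩
  · have hy' : y < μ y := (inv_lt_iff _ _ _).1 hy
    obtain ⟨e, h1, h2, h3⟩ := h.2.1 y hy'
    exact ⟨e, hy'.trans h1, inv_eq_of _ h2, fun x hx => (lt_inv_iff _ _ _).2 (h3 x hx)⟩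

lemma force_aux {μ u : G} (hμ : Sm μ) (hu : Sm u) (b0 b' δ : ℝ)  (hδ : 0 < δ)
    (h : ∀ x ∈ Icc b0 b', x + δ ≤ u x) :
    ∀ N : ℕ, ∀ θ : G, Sm θ → ∀ y, y < μ y → (∀ t ≤ y, θ (μ t) = u (θ t)) → b0 ≤ θ y →
      b' ≤ θ y + N * δ →
      ∃ θ' : G, Sm θ' ∧ (∀ t ≤ μ y, θ' t = θ t) ∧ ∀ t, θ' t ≤ b' → θ' (μ t) = u (θ' t) := by
  intro N
  induction N with
  | zero =>
    intro θ hθ y _ h2 _ h4
    refine ⟨θ, hθ, fun _ _ => rfl, fun t ht => h2 t ?_⟩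
    rw [← θ.le_iff_le]; simp at h4; linarith
  | succ N ih =>
    intro θ hθ y h1 h2 h3 h4
    by_cases hb : b' ≤ θ y
    · refine ⟨θ, hθ, fun _ _ => rfl, fun t ht => h2 t ?_⟩
      rw [← θ.le_iff_le]; linarith
    have h5 := h (θ y) ⟨h3, (not_le.mp hb).le⟩
    have hag : ∀ t ≤ μ y, (u * θ * μ⁻¹) t = θ t := by
      intro t ht
      rw [mul_ap, mul_ap, ← h2 _ ((inv_le_iff _ _ _).2 ht)]; simp
    obtain ⟨θ', k1, k2, k3⟩ := ih (u * θ * μ⁻¹) ((hu.mul hθ).mul hμ.inv) (μ y) (μ.strictMono h1)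
      (by
        intro t ht
        rw [hag t ht, mul_ap, mul_ap]; simp)
      (by rw [mul_ap, mul_ap]; simp; linarith)
      (by rw [mul_ap, mul_ap]; simp; push_cast at h4; linarith)
    refine ⟨θ', k1, fun t ht => ?_, k3⟩
    rw [k2 t (ht.trans (μ.strictMono h1).le), hag t ht]

lemma force_pos {μ u θ : G} (hμ : Sm μ) (hu : Sm u) (hθ : Sm θ) {y b' : ℝ} (h1 : y < μ y)
    (h2 : ∀ t ≤ y, θ (μ t) = u (θ t)) (hb : θ y ≤ b') (h : ∀ x ∈ Icc (θ y) b', x < u x) :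
    ∃ θ' : G, Sm θ' ∧ (∀ t ≤ μ y, θ' t = θ t) ∧ ∀ t, θ' t ≤ b' → θ' (μ t) = u (θ' t) := by
  obtain ⟨m, hm, hmin⟩ := (isCompact_Icc (a := θ y) (b := b')).exists_isMinOn
    ⟨θ y, le_rfl, hb⟩ (f := fun x => u x - x) (u.continuous.sub continuous_id).continuousOn
  have hδ : 0 < u m - m := by linarith [h m hm]
  obtain ⟨N, hN⟩ := exists_nat_ge ((b' - θ y) / (u m - m))
  refine force_aux hμ hu (θ y) b' (u m - m) hδ (fun x hx => ?_) N θ hθ y h1 h2 le_rfl ?_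
  · have := hmin hx
    simp only [mem_ofPred_eq] at this
    linarith
  · rw [div_le_iff₀ hδ] at hN; linarith

lemma force_neg {μ u θ : G} (hμ : Sm μ) (hu : Sm u) (hθ : Sm θ) {y b' : ℝ} (h1 : μ y < y)
    (h2 : ∀ t ≤ y, θ (μ t) = u (θ t)) (hb : θ y ≤ b') (h : ∀ x ∈ Icc (θ y) b', u x < x) :
    ∃ θ' : G, Sm θ' ∧ (∀ t ≤ y, θ' t = θ t) ∧ ∀ t, θ' t ≤ b' → θ' (μ t) = u (θ' t) := by
  obtain ⟨θ', k1, k2, k3⟩ := force_pos (y := μ y) (b' := u b') hμ.inv hu.inv hθ (by simpa using h1)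
    (by
      intro t ht
      have := h2 (μ⁻¹ t) ((inv_le_iff _ _ _).2 ht)
      simp only [ap_inv] at this
      rw [this]; simp)
    (by rw [h2 y le_rfl]; exact u.monotone hb)
    (by
      intro x hx
      rw [h2 y le_rfl] at hx
      have := h (u⁻¹ x) ⟨(le_inv_iff _ _ _).2 hx.1, (inv_le_iff _ _ _).2 hx.2⟩
      simpa using this)
  refine ⟨θ', k1, fun t ht => k2 t (by simpa using ht), fun t ht => ?_⟩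
  have := k3 (θ'⁻¹ (u (θ' t))) (by simpa using ht)
  simp only [ap_inv, inv_ap] at this
  have h3 := θ'.injective this
  have h4 : θ'⁻¹ (u (θ' t)) = μ t := by
    have := congrArg μ h3
    simpa using this
  rw [← h4]; simp

lemma ctl_above {ν θ g : G} (hν : Good ν) (hθ : Sm θ) {y : ℝ} (hne : ν y ≠ y)
    (hg : g (θ y) < θ (ν y)) (hc : ∀ B, ∃ V, B ≤ V ∧ g V < V) (B : ℝ) :
    ∃ (θ' : G) (y' : ℝ), Sm θ' ∧ (∀ t ≤ y, θ' t = θ t) ∧ (∀ t ≤ ν y, θ' t = θ t) ∧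
      (∃ e : ℤ, y < e ∧ ν y < e ∧ e < y' ∧ e < ν y') ∧
      (y < ν y → ν y' < y' ∧ B ≤ θ' y') ∧ (ν y < y → y' < ν y') ∧
      ∀ t ∈ Icc y y', g (θ' t) < θ' (ν t) := by
  rcases lt_or_gt_of_ne hne with hlt | hlt
  · obtain ⟨e, e1, e2, e3⟩ := hν.2.2 y hlt
    obtain ⟨p, p1, p2⟩ := exists_between ((lt_inv_iff g _ _).2 hg)
    obtain ⟨θ', k1, k2, k4⟩ := pull hθ e p1
    have k5 : (e:ℝ) < min ((e:ℝ) + 1) (θ'⁻¹ (g⁻¹ (θ (ν y)))) :=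
      lt_min (by linarith) ((lt_inv_iff _ _ _).2 (k4.trans_lt p2))
    obtain ⟨y', y1, y2⟩ := exists_between k5
    rw [lt_min_iff] at y2
    refine ⟨θ', y', k1, k2, fun t ht => k2 t (ht.trans hlt.le),
      ⟨e, e1, hlt.trans e1, y1, by rw [← e2]; exact ν.strictMono y1⟩,
      fun h => absurd h (not_lt.mpr hlt.le), fun _ => e3 y' ⟨y1, y2.1⟩, fun t ht => ?_⟩
    have q1 : g (θ' y') < θ (ν y) := (lt_inv_iff _ _ _).1 ((lt_inv_iff _ _ _).1 y2.2)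
    calc g (θ' t) ≤ g (θ' y') := g.monotone (θ'.monotone ht.2)
      _ < θ (ν y) := q1
      _ = θ' (ν y) := (k2 _ hlt.le).symm
      _ ≤ θ' (ν t) := θ'.monotone (ν.monotone ht.1)
  · obtain ⟨e, e1, e2, e3⟩ := hν.2.1 y hlt
    have h0 : y < min (ν y) (θ⁻¹ (g⁻¹ (θ (ν y)))) :=
      lt_min hlt ((lt_inv_iff _ _ _).2 ((lt_inv_iff _ _ _).2 hg))
    obtain ⟨t0, t1, t2⟩ := exists_between h0
    rw [lt_min_iff] at t2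
    have t3 : g (θ t0) < θ (ν y) := (lt_inv_iff _ _ _).1 ((lt_inv_iff _ _ _).1 t2.2)
    have w1 : ν y < ν t0 := ν.strictMono t1
    have w2 : ν t0 < e := by rw [← e2]; exact ν.strictMono (t2.1.trans e1)
    obtain ⟨V, V1, V2⟩ := hc (max B (θ (ν t0)))
    rw [max_le_iff] at V1
    obtain ⟨p, p1, p2⟩ := exists_between ((lt_inv_iff g _ _).2 V2)
    obtain ⟨κ, a1, a2, a3⟩ := push (θ.strictMono w1) V1.2
    have j4 : (κ * θ) (ν t0) = V := a3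
    obtain ⟨θ', k1, k2, k4⟩ := pull (y := ν t0) (p := p) (a1.mul hθ) e (by rw [j4]; exact p1)
    have k0 : ∀ t ≤ ν y, θ' t = θ t := fun t ht => by
      rw [k2 t (ht.trans w1.le), mul_ap, a2 _ (θ.monotone ht)]
    have k6 : θ' (ν t0) = V := by rw [k2 _ le_rfl, j4]
    have k5 : (e:ℝ) < min ((e:ℝ) + 1) (θ'⁻¹ (g⁻¹ V)) :=
      lt_min (by linarith) ((lt_inv_iff _ _ _).2 (k4.trans_lt p2))
    obtain ⟨y', y1, y2⟩ := exists_between k5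
    rw [lt_min_iff] at y2
    refine ⟨θ', y', k1, fun t ht => k0 t (ht.trans hlt.le), k0,
      ⟨e, hlt.trans e1, e1, y1, by rw [← e2]; exact ν.strictMono y1⟩,
      fun _ => ⟨e3 y' ⟨y1, y2.1⟩, ?_⟩, fun h => absurd h (not_lt.mpr hlt.le), fun t ht => ?_⟩
    · have := θ'.strictMono (w2.trans y1)
      rw [k6] at this
      linarith [V1.1]
    · have q1 : g (θ' y') < V := (lt_inv_iff _ _ _).1 ((lt_inv_iff _ _ _).1 y2.2)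
      rcases le_total t t0 with h | h
      · calc g (θ' t) = g (θ t) := by rw [k0 t (h.trans t2.1.le)]
          _ ≤ g (θ t0) := g.monotone (θ.monotone h)
          _ < θ (ν y) := t3
          _ = θ' (ν y) := (k0 _ le_rfl).symm
          _ ≤ θ' (ν t) := θ'.monotone (ν.monotone ht.1)
      · calc g (θ' t) ≤ g (θ' y') := g.monotone (θ'.monotone ht.2)
          _ < V := q1
          _ = θ' (ν t0) := k6.symm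
          _ ≤ θ' (ν t) := θ'.monotone (ν.monotone h)

lemma ctl_below {ν θ g : G} (hν : Good ν) (hθ : Sm θ) {y : ℝ} (hne : ν y ≠ y)
    (hg : θ (ν y) < g (θ y)) (hc : ∀ B, ∃ V, B ≤ V ∧ V < g V) :
    ∃ (θ' : G) (y' : ℝ), Sm θ' ∧ (∀ t ≤ y, θ' t = θ t) ∧ (∀ t ≤ ν y, θ' t = θ t) ∧
      (∃ e : ℤ, y < e ∧ e < y') ∧
      (y < ν y → ν y' < y') ∧ (ν y < y → y' < ν y') ∧
      ∀ t ∈ Icc y y', θ' (ν t) < g (θ' t) := by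
  obtain ⟨θ', w', k1, k2, k3, ⟨e, e1, e2, e3, e4⟩, k4, k5, k6⟩ :=
    ctl_above (g := g⁻¹) (y := ν y) hν.inv hθ (by simpa using hne.symm)
      (by rw [inv_lt_iff]; simpa using hg)
      (fun B => by
        obtain ⟨V, h1, h2⟩ := hc B
        exact ⟨V, h1, (inv_lt_iff _ _ _).2 h2⟩) 0
  simp only [inv_ap] at k3 e2 k4 k5
  refine ⟨θ', ν⁻¹ w', k1, k3, k2, ⟨e, e2, e4⟩, fun h => by simpa using k5 h,
    fun h => by simpa using (k4 h).1, fun t ht => ?_⟩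
  have := k6 (ν t) ⟨ν.monotone ht.1, (le_inv_iff _ _ _).1 ht.2⟩
  rw [inv_lt_iff] at this
  simpa using this

lemma step_pos {f μ ν φ ψ : G} {b : ℝ} (hf : Sm f) (hμ : Good μ) (hν : Good ν) (hφ : Sm φ)
    (hψ : Sm ψ) (hE : E f μ ν φ ψ b) (hp : φ⁻¹ b < μ (φ⁻¹ b)) (hne : ν (ψ⁻¹ b) ≠ ψ⁻¹ b)
    (hc : ∀ B, ∃ V, B ≤ V ∧ V < f V) (B : ℝ) :
    ∃ (φ' ψ' : G) (b' : ℝ), Sm φ' ∧ Sm ψ' ∧ E f μ ν φ' ψ' b' ∧ Ext φ b φ' b' ∧ Ext ψ b ψ' b' ∧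
      φ'⁻¹ b' < μ (φ'⁻¹ b') ∧ (∃ e : ℤ, ψ⁻¹ b < e ∧ e < ψ'⁻¹ b') ∧
      (ψ⁻¹ b < ν (ψ⁻¹ b) → ν (ψ'⁻¹ b') < ψ'⁻¹ b' ∧ B ≤ b') ∧
      (ν (ψ⁻¹ b) < ψ⁻¹ b → ψ'⁻¹ b' < ν (ψ'⁻¹ b')) := by
  obtain ⟨ψ', z', k1, k2, k3, ⟨e, e1, -, e3, -⟩, k4, k5, k6⟩ :=
    ctl_above (g := f⁻¹) (y := ψ⁻¹ b) hν hψ hne
      (by
        rw [inv_lt_iff, ← hE b le_rfl]
        exact φ.strictMono hp |>.trans_le' (by simp))
      (fun B => by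
        obtain ⟨V, h1, h2⟩ := hc B
        exact ⟨V, h1, (inv_lt_iff _ _ _).2 h2⟩) B
  have hb : ψ' (ψ⁻¹ b) = b := by rw [k2 _ le_rfl]; simp
  have hbb : b ≤ ψ' z' := by rw [← hb]; exact ψ'.monotone (e1.trans e3).le
  have hu : ∀ x ∈ Icc b (ψ' z'), x < (f * ψ' * ν * ψ'⁻¹) x := by
    intro x hx
    have := k6 (ψ'⁻¹ x) ⟨by rw [le_inv_iff, hb]; exact hx.1, (inv_le_iff _ _ _).2 hx.2⟩
    rw [inv_lt_iff] at this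
    simpa [mul_ap] using this
  obtain ⟨φ', j1, j2, j3⟩ := force_pos (u := f * ψ' * ν * ψ'⁻¹) (y := φ⁻¹ b) (b' := ψ' z') hμ.1
    (((hf.mul k1).mul hν.1).mul k1.inv) hφ hp
    (by
      intro t ht
      have h1 : φ t ≤ b := (le_inv_iff _ _ _).1 ht
      have h2 := hE _ h1
      simp only [inv_ap] at h2
      simp only [mul_ap]
      rw [h2, agree_conj k2 k3 (by simpa using h1)])
    (by simpa using hbb) (by simpa using hu)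
  have hE' : E f μ ν φ' ψ' (ψ' z') := by
    intro x hx
    have := j3 (φ'⁻¹ x) (by simpa using hx)
    simpa [mul_ap] using this
  refine ⟨φ', ψ', ψ' z', j1, k1, hE', ⟨hbb, fun t ht => j2 t (ht.trans hp.le)⟩, ⟨hbb, k2⟩, ?_,
    ⟨e, e1, by simpa using e3⟩, by simpa using k4, by simpa using k5⟩
  rw [← φ'.lt_iff_lt, hE' _ le_rfl]
  simpa [mul_ap] using hu _ ⟨hbb, le_rfl⟩

lemma step_neg {f μ ν φ ψ : G} {b : ℝ} (hf : Sm f) (hμ : Good μ) (hν : Good ν) (hφ : Sm φ)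
    (hψ : Sm ψ) (hE : E f μ ν φ ψ b) (hp : ν (ψ⁻¹ b) < ψ⁻¹ b) (hne : μ (φ⁻¹ b) ≠ φ⁻¹ b)
    (hc : ∀ B, ∃ V, B ≤ V ∧ V < f V) :
    ∃ (φ' ψ' : G) (b' : ℝ), Sm φ' ∧ Sm ψ' ∧ E f μ ν φ' ψ' b' ∧ Ext φ b φ' b' ∧ Ext ψ b ψ' b' ∧
      ν (ψ'⁻¹ b') < ψ'⁻¹ b' ∧ (∃ e : ℤ, φ⁻¹ b < e ∧ e < φ'⁻¹ b') ∧
      (φ⁻¹ b < μ (φ⁻¹ b) → μ (φ'⁻¹ b') < φ'⁻¹ b') ∧
      (μ (φ⁻¹ b) < φ⁻¹ b → φ'⁻¹ b' < μ (φ'⁻¹ b')) := by
  obtain ⟨φ', z', k1, k2, k3, ⟨e, e1, e3⟩, k4, k5, k6⟩ :=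
    ctl_below (g := f) (y := φ⁻¹ b) hμ hφ hne
      (by
        rw [hE b le_rfl]
        apply f.strictMono
        exact ψ.strictMono hp |>.trans_le (by simp)) hc
  have hb : φ' (φ⁻¹ b) = b := by rw [k2 _ le_rfl]; simp
  have hbb : b ≤ φ' z' := by rw [← hb]; exact φ'.monotone (e1.trans e3).le
  have hu : ∀ x ∈ Icc b (φ' z'), (f⁻¹ * φ' * μ * φ'⁻¹) x < x := by
    intro x hx
    have := k6 (φ'⁻¹ x) ⟨by rw [le_inv_iff, hb]; exact hx.1, (inv_le_iff _ _ _).2 hx.2⟩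
    simp only [mul_ap]
    rw [inv_lt_iff]
    simpa using this
  obtain ⟨ψ', j1, j2, j3⟩ := force_neg (u := f⁻¹ * φ' * μ * φ'⁻¹) (y := ψ⁻¹ b) (b' := φ' z') hν.1
    (((hf.inv.mul k1).mul hμ.1).mul k1.inv) hψ hp
    (by
      intro t ht
      have h1 : ψ t ≤ b := (le_inv_iff _ _ _).1 ht
      have h2 := hE.swap _ h1
      simp only [inv_ap] at h2
      simp only [mul_ap]
      rw [h2, agree_conj k2 k3 (by simpa using h1)])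
    (by simpa using hbb) (by simpa using hu)
  have hE' : E f⁻¹ ν μ ψ' φ' (φ' z') := by
    intro x hx
    have := j3 (ψ'⁻¹ x) (by simpa using hx)
    simpa [mul_ap] using this
  refine ⟨φ', ψ', φ' z', k1, j1, by simpa using hE'.swap, ⟨hbb, k2⟩, ⟨hbb, j2⟩, ?_,
    ⟨e, e1, by simpa using e3⟩, by simpa using k4, by simpa using k5⟩
  rw [← ψ'.lt_iff_lt, hE' _ le_rfl]
  simpa [mul_ap] using hu _ ⟨hbb, le_rfl⟩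

def St (f μ ν : G) (p : G × G × ℝ) : Prop :=
  Sm p.1 ∧ Sm p.2.1 ∧ E f μ ν p.1 p.2.1 p.2.2 ∧ p.1⁻¹ p.2.2 < μ (p.1⁻¹ p.2.2) ∧
    p.2.1⁻¹ p.2.2 < ν (p.2.1⁻¹ p.2.2)

lemma from_neg {f μ ν φ ψ : G} {b : ℝ} (hf : Sm f) (hμ : Good μ) (hν : Good ν) (hφ : Sm φ)
    (hψ : Sm ψ) (hE : E f μ ν φ ψ b) (h1 : μ (φ⁻¹ b) < φ⁻¹ b) (h2 : ν (ψ⁻¹ b) < ψ⁻¹ b)
    (hc : ∀ B, ∃ V, B ≤ V ∧ V < f V) :
    ∃ q : G × G × ℝ, St f μ ν q ∧ Ext φ b q.1 q.2.2 ∧ Ext ψ b q.2.1 q.2.2 := by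
  obtain ⟨φ3, ψ3, b3, c1, c2, c3, c4, c5, c6, -, -, c9⟩ :=
    step_neg hf hμ hν hφ hψ hE h2 h1.ne hc
  obtain ⟨φ4, ψ4, b4, d1, d2, d3, d4, d5, d6, -, -, d9⟩ :=
    step_pos hf hμ hν c1 c2 c3 (c9 h1) c6.ne hc 0
  exact ⟨(φ4, ψ4, b4), ⟨d1, d2, d3, d6, d9 c6⟩, c4.trans d4, c5.trans d5⟩

lemma cycle {f μ ν : G} (hf : Sm f) (hμ : Good μ) (hν : Good ν)
    (hc : ∀ B, ∃ V, B ≤ V ∧ V < f V) (p : G × G × ℝ) (hp : St f μ ν p) :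
    ∃ q : G × G × ℝ, St f μ ν q ∧ Ext p.1 p.2.2 q.1 q.2.2 ∧ Ext p.2.1 p.2.2 q.2.1 q.2.2 ∧
      p.2.2 + 1 ≤ q.2.2 ∧ (∃ e : ℤ, p.1⁻¹ p.2.2 < e ∧ e < q.1⁻¹ q.2.2) ∧
      (∃ e : ℤ, p.2.1⁻¹ p.2.2 < e ∧ e < q.2.1⁻¹ q.2.2) := by
  obtain ⟨φ, ψ, b⟩ := p
  obtain ⟨h1, h2, h3, h4, h5⟩ := hp
  simp only at h1 h2 h3 h4 h5 ⊢
  obtain ⟨φ1, ψ1, b1, a1, a2, a3, a4, a5, a6, ⟨e, a7, a7'⟩, a8, -⟩ :=
    step_pos hf hμ hν h1 h2 h3 h4 h5.ne' hc (b + 1)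
  obtain ⟨φ2, ψ2, b2, c1, c2, c3, c4, c5, c6, ⟨e', c7, c7'⟩, c8, -⟩ :=
    step_neg hf hμ hν a1 a2 a3 (a8 h5).1 a6.ne' hc
  obtain ⟨q, q1, q2, q3⟩ := from_neg hf hμ hν c1 c2 c3 (c8 a6) c6 hc
  exact ⟨q, q1, (a4.trans c4).trans q2, (a5.trans c5).trans q3,
    (a8 h5).2.trans (c4.1.trans q2.1), ⟨e', a4.le.trans_lt c7, c7'.trans_le q2.le⟩,
    ⟨e, a7, a7'.trans_le (c5.le.trans q3.le)⟩⟩

lemma right_pos {f μ ν : G} (hf : Sm f) (hμ : Good μ) (hν : Good ν)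
    (hc : ∀ B, ∃ V, B ≤ V ∧ V < f V) (p : G × G × ℝ) (hp : St f μ ν p) :
    ∃ φ ψ : G, Sm φ ∧ Sm ψ ∧ (∀ x, φ (μ (φ⁻¹ x)) = f (ψ (ν (ψ⁻¹ x)))) ∧
      ∀ B, ∃ b, B ≤ b ∧ φ⁻¹ b < μ (φ⁻¹ b) ∧ ψ⁻¹ b < ν (ψ⁻¹ b) := by
  choose nx hnx using cycle hf hμ hν hc
  let S := {q : G × G × ℝ // St f μ ν q}
  let F : S → S := fun q => ⟨nx q.1 q.2, (hnx q.1 q.2).1⟩
  let s : ℕ → S := fun n => F^[n] ⟨p, hp⟩
  have hs : ∀ n, (s (n + 1)).1 = nx (s n).1 (s n).2 := fun n => by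
    simp only [s, Function.iterate_succ_apply']; rfl
  let b : ℕ → ℝ := fun n => (s n).1.2.2
  let φ : ℕ → G := fun n => (s n).1.1
  let ψ : ℕ → G := fun n => (s n).1.2.1
  have k1 : ∀ n, Ext (φ n) (b n) (φ (n + 1)) (b (n + 1)) := fun n => by
    simp only [φ, b, hs]; exact (hnx _ _).2.1
  have k2 : ∀ n, Ext (ψ n) (b n) (ψ (n + 1)) (b (n + 1)) := fun n => by
    simp only [ψ, b, hs]; exact (hnx _ _).2.2.1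
  have k3 : ∀ n, b n + 1 ≤ b (n + 1) := fun n => by
    simp only [b, hs]; exact (hnx _ _).2.2.2.1
  have k4 : ∀ n, ∃ e : ℤ, (φ n)⁻¹ (b n) < e ∧ e < (φ (n + 1))⁻¹ (b (n + 1)) := fun n => by
    simp only [φ, b, hs]; exact (hnx _ _).2.2.2.2.1
  have k5 : ∀ n, ∃ e : ℤ, (ψ n)⁻¹ (b n) < e ∧ e < (ψ (n + 1))⁻¹ (b (n + 1)) := fun n => by
    simp only [ψ, b, hs]; exact (hnx _ _).2.2.2.2.2
  have k6 : ∀ n : ℕ, b 0 + n ≤ b n := by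
    intro n
    induction n with
    | zero => simp
    | succ n ih => push_cast; linarith [k3 n]
  have k7 : ∀ B, ∃ n, B ≤ b n := fun B => by
    obtain ⟨n, hn⟩ := exists_nat_ge (B - b 0)
    exact ⟨n, by linarith [k6 n]⟩
  have m1 : Monotone fun n => (φ n)⁻¹ (b n) := monotone_nat_of_le_succ fun n => (k1 n).le
  have m2 : Monotone fun n => (ψ n)⁻¹ (b n) := monotone_nat_of_le_succ fun n => (k2 n).le
  have m3 : Monotone b := monotone_nat_of_le_succ fun n => (k1 n).1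
  obtain ⟨Φ, a1, a2⟩ := limit φ (fun n => (φ n)⁻¹ (b n)) (fun n => (s n).2.1) m1
    (fun n => (k1 n).2) (unb _ k4) (fun B => by simpa using k7 B)
  obtain ⟨Ψ, c1, c2⟩ := limit ψ (fun n => (ψ n)⁻¹ (b n)) (fun n => (s n).2.2.1) m2
    (fun n => (k2 n).2) (unb _ k5) (fun B => by simpa using k7 B)
  have i1 : ∀ n, ∀ x ≤ b n, Φ⁻¹ x = (φ n)⁻¹ x := fun n x hx =>
    inv_eq_of _ (by rw [a2 n _ ((φ n)⁻¹.monotone hx)]; simp)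
  have i2 : ∀ n, ∀ x ≤ b n, Ψ⁻¹ x = (ψ n)⁻¹ x := fun n x hx =>
    inv_eq_of _ (by rw [c2 n _ ((ψ n)⁻¹.monotone hx)]; simp)
  refine ⟨Φ, Ψ, a1, c1, fun x => ?_, fun B => ?_⟩
  · obtain ⟨n1, h1⟩ := k7 x
    obtain ⟨n2, h2⟩ := unb _ k4 (μ (Φ⁻¹ x))
    obtain ⟨n3, h3⟩ := unb _ k5 (ν (Ψ⁻¹ x))
    let n := max n1 (max n2 n3)
    have g1 : x ≤ b n := h1.trans (m3 (le_max_left _ _))
    have g2 := h2.trans (m1 (show n2 ≤ n from (le_max_left _ _).trans (le_max_right _ _)))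
    have g3 := h3.trans (m2 (show n3 ≤ n from (le_max_right _ _).trans (le_max_right _ _)))
    rw [a2 n _ g2, c2 n _ g3, i1 n x g1, i2 n x g1]
    exact (s n).2.2.2.1 x g1
  · obtain ⟨n, hn⟩ := k7 B
    refine ⟨b n, hn, ?_, ?_⟩
    · rw [i1 n _ le_rfl]; exact (s n).2.2.2.2.1
    · rw [i2 n _ le_rfl]; exact (s n).2.2.2.2.2

lemma right_pos' {f μ ν φ ψ : G} {b : ℝ} (hf : Sm f) (hμ : Good μ) (hν : Good ν) (hφ : Sm φ)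
    (hψ : Sm ψ) (hE : E f μ ν φ ψ b)
    (hs : (φ⁻¹ b < μ (φ⁻¹ b) ∧ ψ⁻¹ b < ν (ψ⁻¹ b)) ∨ (μ (φ⁻¹ b) < φ⁻¹ b ∧ ν (ψ⁻¹ b) < ψ⁻¹ b))
    (hc : ∀ B, ∃ V, B ≤ V ∧ V < f V) :
    ∃ φ ψ : G, Sm φ ∧ Sm ψ ∧ (∀ x, φ (μ (φ⁻¹ x)) = f (ψ (ν (ψ⁻¹ x)))) ∧
      ∀ B, ∃ b, B ≤ b ∧ φ⁻¹ b < μ (φ⁻¹ b) ∧ ψ⁻¹ b < ν (ψ⁻¹ b) := by
  rcases hs with h | h
  · exact right_pos hf hμ hν hc (φ, ψ, b) ⟨hφ, hψ, hE, h.1, h.2⟩
  · obtain ⟨q, q1, -⟩ := from_neg hf hμ hν hφ hψ hE h.1 h.2 hc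
    exact right_pos hf hμ hν hc q q1

lemma right_main {f μ ν φ ψ : G} {b : ℝ} (hf : Sm f) (hμ : Good μ) (hν : Good ν) (hφ : Sm φ)
    (hψ : Sm ψ) (hE : E f μ ν φ ψ b)
    (hs : (φ⁻¹ b < μ (φ⁻¹ b) ∧ ψ⁻¹ b < ν (ψ⁻¹ b)) ∨ (μ (φ⁻¹ b) < φ⁻¹ b ∧ ν (ψ⁻¹ b) < ψ⁻¹ b))
    (hc : ∀ B, ∃ V, B ≤ V ∧ f V ≠ V) :
    ∃ φ ψ : G, Sm φ ∧ Sm ψ ∧ (∀ x, φ (μ (φ⁻¹ x)) = f (ψ (ν (ψ⁻¹ x)))) ∧
      ∀ B, ∃ b, B ≤ b ∧ φ⁻¹ b < μ (φ⁻¹ b) ∧ ψ⁻¹ b < ν (ψ⁻¹ b) := by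
  by_cases h : ∀ B, ∃ V, B ≤ V ∧ V < f V
  · exact right_pos' hf hμ hν hφ hψ hE hs h
  · push Not at h
    obtain ⟨B0, hB0⟩ := h
    have hc' : ∀ B, ∃ V, B ≤ V ∧ V < f⁻¹ V := fun B => by
      obtain ⟨V, h1, h2⟩ := hc (max B B0)
      rw [max_le_iff] at h1
      exact ⟨V, h1.1, (lt_inv_iff _ _ _).2 (lt_of_le_of_ne (hB0 V h1.2) h2)⟩
    obtain ⟨ψ', φ', h1, h2, h3, h4⟩ := right_pos' hf.inv hν hμ hψ hφ hE.swap (by tauto) hc'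
    refine ⟨φ', ψ', h2, h1, fun x => by rw [h3]; simp, fun B => ?_⟩
    obtain ⟨b, k1, k2, k3⟩ := h4 B
    exact ⟨b, k1, k3, k2⟩

end Pool.Agent.H46.SmR
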