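import Mathlib

open scoped ContDiff

namespace Pool.Agent.H46.SmR

/-- `Diffeo⁺(ℝ)`: increasing homeomorphisms of `ℝ` that are `C^∞` with `C^∞` inverse. -/
def DiffPlus : Set (ℝ ≃ₜ ℝ) :=
  {f | StrictMono f ∧ ContDiff ℝ ∞ f ∧ ContDiff ℝ ∞ f.symm}

/-- `g` is an element of `Diffeo⁺(ℝ)` that is reversible in `Diffeo⁺(ℝ)`. -/
def Reversible (g : ℝ ≃ₜ ℝ) : Prop :=
  g ∈ DiffPlus ∧ ∃ h ∈ DiffPlus, h * g * h⁻¹ = g⁻¹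

end Pool.Agent.H46.SmR
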