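import Pool.Agent.H46.Sm2
import Pool.Agent.H46.SmDefs

open Set Filter Topology
open scoped ContDiff

namespace Pool.Agent.H46.SmR

open Pool.Agent.H46.PLR hiding Good right_main

def Rev (r : G) : Prop := Sm r ∧ ∃ h : G, Sm h ∧ h * r * h⁻¹ = r⁻¹

def Alt (μ : G) : Prop := Sm μ ∧ (∀ n : ℤ, μ n = n) ∧
  (∀ n : ℤ, Even n → ∀ x ∈ Ioo (n:ℝ) (n+1), x < μ x) ∧
  (∀ n : ℤ, ¬ Even n → ∀ x ∈ Ioo (n:ℝ) (n+1), μ x < x)

lemma Alt.good {μ : G} (h : Alt μ) : Good μ := by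
  obtain ⟨h0, h1, h2, h3⟩ := h
  have hf : ∀ y, μ y ≠ y → y ∈ Ioo (⌊y⌋:ℝ) (⌊y⌋+1) := fun y hy =>
    ⟨lt_of_le_of_ne (Int.floor_le y) (fun h => hy (by rw [← h, h1])), Int.lt_floor_add_one y⟩
  refine ⟨h0, fun y hy => ⟨⌊y⌋ + 1, ?_, h1 _, h3 _ ?_⟩, fun y hy => ⟨⌊y⌋ + 1, ?_, h1 _, h2 _ ?_⟩⟩
  · rw [← h1]; apply μ.strictMono; push_cast; exact Int.lt_floor_add_one y
  · rw [Int.even_add_one, not_not]
    by_contra h
    exact absurd (h3 _ h y (hf y hy.ne')) (not_lt.mpr hy.le)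
  · push_cast; exact Int.lt_floor_add_one y
  · rw [Int.even_add_one]
    intro h
    exact absurd (h2 _ h y (hf y hy.ne)) (not_lt.mpr hy.le)

lemma Alt.rf {μ : G} (h : Alt μ) : Alt (rf μ) := by
  obtain ⟨h0, h1, h2, h3⟩ := h
  refine ⟨h0.rf, fun n => ?_, fun n hn x hx => ?_, fun n hn x hx => ?_⟩
  · rw [rf_ap, ← Int.cast_neg, h1]; simp
  · have := h3 (-n - 1) (by rw [Int.even_sub_one, not_not]; simpa using hn) (-x)
      ⟨by push_cast; linarith [hx.2], by push_cast; linarith [hx.1]⟩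
    rw [rf_ap]; linarith
  · have := h2 (-n - 1) (by rw [Int.even_sub_one]; simpa using hn) (-x)
      ⟨by push_cast; linarith [hx.2], by push_cast; linarith [hx.1]⟩
    rw [rf_ap]; linarith

lemma exists_rho : ∃ ρ : G, Alt ρ ∧ Rev ρ := by
  have key : ∀ c : ℝ, |c| ≤ 1 / 4 → ∃ u : G, Sm u ∧ ∀ x, u x = x + c * Real.sin (Real.pi * x) := by
    intro c hc
    have c0 : ContDiff ℝ ∞ fun x : ℝ => x + c * Real.sin (Real.pi * x) := by fun_prop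
    have hb : ∀ t : ℝ, |t| ≤ 1 → |c * t| ≤ 1 / 4 := fun t ht => by
      rw [abs_mul]; nlinarith [abs_nonneg c, abs_nonneg t]
    refine mk_Sm _ c0 (fun x => ?_) (fun y => ?_)
    · have d : HasDerivAt (fun x : ℝ => x + c * Real.sin (Real.pi * x))
          (1 + c * (Real.cos (Real.pi * x) * (Real.pi * 1))) x :=
        (hasDerivAt_id x).add (((hasDerivAt_id x).const_mul Real.pi).sin.const_mul c)
      rw [d.deriv]
      have h1 := abs_le.1 (hb _ (Real.abs_cos_le_one (Real.pi * x)))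
      nlinarith [Real.pi_lt_four, Real.pi_pos, h1.1]
    · apply intermediate_value_univ (y - 1) (y + 1) c0.continuous
      have h1 := abs_le.1 (hb _ (Real.abs_sin_le_one (Real.pi * (y - 1))))
      have h2 := abs_le.1 (hb _ (Real.abs_sin_le_one (Real.pi * (y + 1))))
      constructor
      · linarith [h1.2]
      · linarith [h2.1]
  obtain ⟨p, p1, p2⟩ := key (1 / 4) (by rw [abs_of_pos] <;> norm_num)
  obtain ⟨m, m1, m2⟩ := key (-(1 / 4)) (by rw [abs_neg, abs_of_pos] <;> norm_num)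
  obtain ⟨T, T1, T2⟩ := exists_tr 1
  have sz : ∀ n : ℤ, Real.sin (Real.pi * n) = 0 := fun n => by
    rw [mul_comm]; exact Real.sin_int_mul_pi n
  have pn : ∀ n : ℤ, p n = n := fun n => by rw [p2, sz]; ring
  have mn : ∀ n : ℤ, m n = n := fun n => by rw [m2, sz]; ring
  have mi : ∀ n : ℤ, ∀ x ∈ Ioo (n:ℝ) (n + 1), m⁻¹ x ∈ Ioo (n:ℝ) (n + 1) := fun n x hx =>
    ⟨(lt_inv_iff _ _ _).2 (by rw [mn]; exact hx.1), (inv_lt_iff _ _ _).2 (by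
      have := mn (n + 1)
      push_cast at this
      rw [this]; exact hx.2)⟩
  have ss : ∀ n : ℤ, ∀ x ∈ Ioo (n:ℝ) (n + 1),
      ∃ s > 0, Real.sin (Real.pi * x) = (-1) ^ n * s := fun n x hx => by
    refine ⟨Real.sin (Real.pi * (x - n)), Real.sin_pos_of_pos_of_lt_pi
      (mul_pos Real.pi_pos (by linarith [hx.1])) (by nlinarith [Real.pi_pos, hx.2]), ?_⟩
    rw [← Real.sin_add_int_mul_pi]; congr 1; ring
  have sh : ∀ x, Real.sin (Real.pi * (x + 1)) = - Real.sin (Real.pi * x) := fun x => by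
    rw [← Real.sin_add_pi]; congr 1; ring
  have e1 : T * p = m * T := by
    ext x; rw [mul_ap, mul_ap, T2, T2, p2, m2, sh]; ring
  have e2 : T * m = p * T := by
    ext x; rw [mul_ap, mul_ap, T2, T2, p2, m2, sh]; ring
  refine ⟨p * m⁻¹, ⟨p1.mul m1.inv, fun n => ?_, fun n hn x hx => ?_, fun n hn x hx => ?_⟩,
    p1.mul m1.inv, T, T1, ?_⟩
  · rw [mul_ap, inv_eq_of _ (mn n), pn]
  · obtain ⟨s, s1, s2⟩ := ss n _ (mi n x hx)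
    have h1 := m2 (m⁻¹ x)
    rw [ap_inv] at h1
    rw [mul_ap, p2]
    rw [hn.neg_one_zpow] at s2
    rw [s2] at h1 ⊢
    linarith
  · obtain ⟨s, s1, s2⟩ := ss n _ (mi n x hx)
    have h1 := m2 (m⁻¹ x)
    rw [ap_inv] at h1
    rw [mul_ap, p2]
    rw [(Int.not_even_iff_odd.1 hn).neg_one_zpow] at s2
    rw [s2] at h1 ⊢
    linarith
  · have e3 : T * p * T⁻¹ = m := by rw [e1]; group
    have e4 : T * m * T⁻¹ = p := by rw [e2]; group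
    have : T * (p * m⁻¹) * T⁻¹ = (T * p * T⁻¹) * (T * m * T⁻¹)⁻¹ := by group
    rw [this, e3, e4]; group

lemma Rev.conj {r φ : G} (h : Rev r) (hφ : Sm φ) : Rev (φ * r * φ⁻¹) := by
  obtain ⟨h1, k, h2, h3⟩ := h
  refine ⟨(hφ.mul h1).mul hφ.inv, φ * k * φ⁻¹, (hφ.mul h2).mul hφ.inv, ?_⟩
  have : φ * k * φ⁻¹ * (φ * r * φ⁻¹) * (φ * k * φ⁻¹)⁻¹ = φ * (k * r * k⁻¹) * φ⁻¹ := by group
  rw [this, h3]; group

lemma Rev.inv {r : G} (h : Rev r) : Rev r⁻¹ := by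
  obtain ⟨h1, k, h2, h3⟩ := h
  refine ⟨h1.inv, k, h2, ?_⟩
  have : k * r⁻¹ * k⁻¹ = (k * r * k⁻¹)⁻¹ := by group
  rw [this, h3]

lemma Rev.rf {r : G} (h : Rev r) : Rev (rf r) := by
  obtain ⟨h1, k, h2, h3⟩ := h
  exact ⟨h1.rf, PLR.rf k, h2.rf, by rw [← rf_inv, ← rf_mul, ← rf_mul, h3, rf_inv]⟩

def R2 (f : G) : Prop := ∃ r s : G, Rev r ∧ Rev s ∧ f = r * s

lemma R2.of_rf {f : G} (h : R2 (rf f)) : R2 f := by
  obtain ⟨r, s, h1, h2, h3⟩ := h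
  exact ⟨rf r, rf s, h1.rf, h2.rf, by rw [← rf_mul, ← h3, rf_rf]⟩

lemma stage1_pos {f ρ : G} (hf : Sm f) (hρ : Alt ρ) (hc : ∀ B, ∃ V, B ≤ V ∧ V < f V) :
    ∃ (φ ψ : G) (b : ℝ), Sm φ ∧ Sm ψ ∧ (∀ x ≥ b, φ (ρ (φ⁻¹ x)) = f (ψ (ρ (ψ⁻¹ x)))) ∧
      φ⁻¹ b < ρ (φ⁻¹ b) ∧ ψ⁻¹ b < ρ (ψ⁻¹ b) := by
  obtain ⟨V, V1, V2⟩ := hc 1
  obtain ⟨f', d1, d2, d3⟩ := blend hf V2 (fun x hx => hx.2.trans (f.monotone hx.1))
  have h0 : (1/2 : ℝ) < ρ (1/2) := hρ.2.2.1 0 (by simp) _ ⟨by norm_num, by norm_num⟩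
  have h1 : ρ 1 = 1 := by simpa using hρ.2.1 1
  obtain ⟨φ', ψ', e1, e2, e3, e4⟩ := right_main (b := 1/2) d1 hρ.good hρ.good Sm.one Sm.one
    (by
      intro x hx
      have h2 : ρ x ≤ 1 := by rw [← h1]; exact ρ.monotone (by linarith)
      exact (d2 (ρ x) (by linarith)).symm)
    (Or.inl ⟨h0, h0⟩)
    (fun B => by
      obtain ⟨W, h1, h2⟩ := hc (max B (f V))
      rw [max_le_iff] at h1
      exact ⟨W, h1.1, by rw [d3 W h1.2]; exact h2.ne'⟩)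
  obtain ⟨b, b1, b2, b3⟩ := e4 (f V)
  refine ⟨φ', ψ', b, e1, e2, fun x hx => ?_, b2, b3⟩
  rw [e3, d3]
  have h1 : b < ψ' (ρ (ψ'⁻¹ b)) := by simpa using ψ'.strictMono b3
  have h2 : ψ' (ρ (ψ'⁻¹ b)) ≤ ψ' (ρ (ψ'⁻¹ x)) := (ψ' * ρ * ψ'⁻¹).monotone hx
  linarith

lemma stage1 {f ρ : G} (hf : Sm f) (hρ : Alt ρ) :
    ∃ (φ ψ : G) (b : ℝ), Sm φ ∧ Sm ψ ∧ (∀ x ≥ b, φ (ρ (φ⁻¹ x)) = f (ψ (ρ (ψ⁻¹ x)))) ∧
      φ⁻¹ b < ρ (φ⁻¹ b) ∧ ψ⁻¹ b < ρ (ψ⁻¹ b) := by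
  by_cases hp : ∀ B, ∃ V, B ≤ V ∧ V < f V
  · exact stage1_pos hf hρ hp
  by_cases hq : ∀ B, ∃ V, B ≤ V ∧ V < f⁻¹ V
  · obtain ⟨ψ, φ, b, h1, h2, h3, h4, h5⟩ := stage1_pos hf.inv hρ hq
    exact ⟨φ, ψ, b, h2, h1, fun x hx => by rw [h3 x hx]; simp, h5, h4⟩
  push Not at hp hq
  obtain ⟨B1, hB1⟩ := hp
  obtain ⟨B2, hB2⟩ := hq
  obtain ⟨n, hn⟩ := exists_nat_ge (max B1 B2)
  rw [max_le_iff] at hn
  have h0 : (2 * n + 1/2 : ℝ) < ρ (2 * n + 1/2) :=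
    hρ.2.2.1 (2 * n) (by simp) _ ⟨by push_cast; linarith, by push_cast; linarith⟩
  refine ⟨1, 1, 2 * n + 1/2, Sm.one, Sm.one, fun x hx => ?_, h0, h0⟩
  have h1 := ρ.monotone hx
  have h2 : (0:ℝ) ≤ n := Nat.cast_nonneg n
  exact le_antisymm ((inv_le_iff _ _ _).1 (hB2 (ρ x) (by linarith [hn.2])))
    (hB1 (ρ x) (by linarith [hn.1]))

lemma r2_left {f : G} (hf : Sm f) (hc : ∀ B, ∃ V, V ≤ B ∧ f V ≠ V) : R2 f := by
  obtain ⟨ρ, h1, h2⟩ := exists_rho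
  obtain ⟨φ, ψ, b, a1, a2, a3, a4, a5⟩ := stage1 hf h1
  apply R2.of_rf
  obtain ⟨φ', ψ', e1, e2, e3, -⟩ := right_main (b := -b) hf.rf h1.rf.good h1.rf.good a1.rf a2.rf
    (by
      intro x hx
      simp only [← rf_inv, rf_ap, neg_neg]
      rw [a3 (-x) (by linarith)])
    (Or.inr (by
      simp only [← rf_inv, rf_ap, neg_neg]
      exact ⟨neg_lt_neg a4, neg_lt_neg a5⟩))
    (fun B => by
      obtain ⟨V, k1, k2⟩ := hc (-B)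
      refine ⟨-V, by linarith, ?_⟩
      rw [rf_ap, neg_neg]
      intro h; exact k2 (neg_injective h))
  refine ⟨φ' * rf ρ * φ'⁻¹, (ψ' * rf ρ * ψ'⁻¹)⁻¹, h2.rf.conj e1, (h2.rf.conj e2).inv, ?_⟩
  rw [eq_mul_inv_iff_mul_eq]
  ext x
  exact (e3 x).symm

lemma r2_main {f : G} (hf : Sm f) (hc : ∀ B, ∃ V, B ≤ |V| ∧ f V ≠ V) : R2 f := by
  by_cases h : ∀ B, ∃ V, V ≤ B ∧ f V ≠ V
  · exact r2_left hf h
  · push Not at h
    obtain ⟨B0, hB0⟩ := h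
    apply R2.of_rf
    refine r2_left hf.rf fun B => ?_
    obtain ⟨V, h1, h2⟩ := hc (max |B| |B0| + 1)
    have h3 : B0 < V := by
      by_contra h4
      exact h2 (hB0 V (not_lt.mp h4))
    have h5 := le_max_left |B| |B0|
    have h6 := le_max_right |B| |B0|
    have h7 : 0 ≤ V := by
      by_contra h8
      rw [abs_of_neg (not_le.mp h8)] at h1
      linarith [neg_abs_le B0]
    rw [abs_of_nonneg h7] at h1
    refine ⟨-V, by linarith [neg_abs_le B], ?_⟩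
    rw [rf_ap, neg_neg]
    intro h; exact h2 (neg_injective h)

lemma r3_main {f : G} (hf : Sm f) : ∃ r s t : G, Rev r ∧ Rev s ∧ Rev t ∧ f = r * s * t := by
  by_cases hc : ∀ B, ∃ V, B ≤ |V| ∧ f V ≠ V
  · obtain ⟨r, s, h1, h2, h3⟩ := r2_main hf hc
    exact ⟨r, s, 1, h1, h2, ⟨Sm.one, 1, Sm.one, by simp⟩, by simpa using h3⟩
  · push Not at hc
    obtain ⟨B0, hB0⟩ := hc
    obtain ⟨ρ, h1, h2⟩ := exists_rho
    obtain ⟨r, s, k1, k2, k3⟩ := r2_main (hf.mul h1.1) (fun B => by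
      obtain ⟨n, hn⟩ := exists_nat_ge (max B B0)
      rw [max_le_iff] at hn
      have h3 : (0:ℝ) ≤ n := Nat.cast_nonneg n
      have h0 : (2 * n + 1/2 : ℝ) < ρ (2 * n + 1/2) :=
        h1.2.2.1 (2 * n) (by simp) _ ⟨by push_cast; linarith, by push_cast; linarith⟩
      refine ⟨2 * n + 1/2, by rw [abs_of_nonneg (by linarith)]; linarith [hn.1], ?_⟩
      rw [mul_ap, hB0 _ (by rw [abs_of_nonneg (by linarith)]; linarith [hn.2])]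
      exact h0.ne')
    exact ⟨r, s, ρ⁻¹, k1, k2, h2.inv, by rw [← k3]; group⟩

lemma to_G {f : ℝ ≃ₜ ℝ} (hf : f ∈ DiffPlus) : ∃ u : G, Sm u ∧ ∀ x, u x = f x := by
  obtain ⟨h1, h2, h3⟩ := hf
  obtain ⟨u, hu⟩ := mk_G f h1 f.surjective
  have e1 : (u : ℝ → ℝ) = f := funext hu
  have e2 : ((u⁻¹ : G) : ℝ → ℝ) = f.symm := funext fun y => inv_eq_of _ (by rw [hu]; simp)
  exact ⟨u, ⟨by rw [e1]; exact h2, by rw [e2]; exact h3⟩, hu⟩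

lemma of_G {u : G} (hu : Sm u) : u.toHomeomorph ∈ DiffPlus := ⟨u.strictMono, hu.1, hu.2⟩

lemma rev_of {r : G} (h : Rev r) : Reversible r.toHomeomorph := by
  obtain ⟨h1, k, h2, h3⟩ := h
  refine ⟨of_G h1, k.toHomeomorph, of_G h2, ?_⟩
  ext x
  exact congrArg (fun w : G => w x) h3

theorem main3 (f : ℝ ≃ₜ ℝ) (hf : f ∈ DiffPlus) :
    ∃ r₁ r₂ r₃ : ℝ ≃ₜ ℝ, Reversible r₁ ∧ Reversible r₂ ∧ Reversible r₃ ∧ f = r₁ * r₂ * r₃ := by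
  obtain ⟨u, h1, h2⟩ := to_G hf
  obtain ⟨r, s, t, k1, k2, k3, k4⟩ := r3_main h1
  refine ⟨_, _, _, rev_of k1, rev_of k2, rev_of k3, ?_⟩
  ext x
  rw [← h2, k4]; rfl

theorem main2 (f : ℝ ≃ₜ ℝ) (hf : f ∈ DiffPlus) (hc : ¬ Bornology.IsBounded {x | f x ≠ x}) :
    ∃ r₁ r₂ : ℝ ≃ₜ ℝ, Reversible r₁ ∧ Reversible r₂ ∧ f = r₁ * r₂ := by
  obtain ⟨u, h1, h2⟩ := to_G hf
  obtain ⟨r, s, k1, k2, k4⟩ := r2_main h1 (fun B => by
    by_contra h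
    push Not at h
    apply hc
    rw [isBounded_iff_forall_norm_le]
    refine ⟨B, fun x hx => ?_⟩
    by_contra h3
    exact hx (by rw [← h2]; exact h x (not_le.mp h3).le))
  refine ⟨_, _, rev_of k1, rev_of k2, ?_⟩
  ext x
  rw [← h2, k4]; rfl

end Pool.Agent.H46.SmR
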