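import Pool.Agent.H46.TsDefs

open Equiv

namespace Pool.Agent.H46.Ts

variable {n : ℕ}

lemma norm_avg_le (κ : Fin n → ℤ) (u : H n) : ‖avg κ u‖ ≤ ‖u‖ := by
  have h1 : ∀ κ : Fin n → ℤ, ‖tens κ u‖ ≤ ‖u‖ := fun κ =>
    lp.norm_le_of_forall_sum_le (by norm_num) (norm_nonneg _) (sf_sum_le κ u)
  have h2 : (0:ℝ) < n.factorial := by exact_mod_cast n.factorial_pos
  simp only [avg, smul_apply, sum_apply, norm_smul, norm_inv, Complex.norm_natCast]
  rw [inv_mul_le_iff₀ h2]
  refine (norm_sum_le _ _).trans ((Finset.sum_le_sum fun π _ => h1 _).trans ?_)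
  simp [Fintype.card_perm]

lemma T_coe (κ : Fin n → ℤ) (anti : Bool) (u : V n anti) : (T κ anti u : H n) = avg κ u := rfl

lemma T_pow_coe (κ : Fin n → ℤ) (anti : Bool) (j : ℕ) (u : V n anti) :
    ((T κ anti ^ j) u : H n) = (avg κ ^ j) u := by
  induction j with
  | zero => rfl
  | succ j ih => rw [pow_succ', pow_succ', mul_apply_eq_comp, mul_apply_eq_comp, T_coe, ih]

lemma norm_T_le (κ : Fin n → ℤ) (anti : Bool) : ‖T κ anti‖ ≤ 1 :=
  ContinuousLinearMap.opNorm_le_bound _ zero_le_one fun u => by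
    rw [one_mul]; exact norm_avg_le κ u

noncomputable def dl (b : Fin n → ℕ) : H n := lp.single 2 b 1

lemma dl_apply (b x : Fin n → ℕ) : dl b x = if x = b then 1 else 0 := by
  simp [dl, lp.single_apply, Pi.single_apply]

lemma tens_dl (κ : Fin n → ℤ) (b : Fin n → ℕ) (h : ∀ i, 0 ≤ b i + κ i) :
    tens κ (dl b) = dl fun i => (b i + κ i).toNat := by
  ext x
  rw [tens_apply, sf, dl_apply, dl_apply]
  by_cases hx : x = fun i => (b i + κ i).toNat
  · rw [if_pos hx, if_pos, if_pos]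
    · funext i
      have := congrFun hx i
      have := h i
      omega
    · intro i
      have := congrFun hx i
      have := h i
      omega
  · rw [if_neg hx]
    split_ifs with h1 h2
    · exfalso
      apply hx
      funext i
      have := congrFun h2 i
      have := h1 i
      omega
    · rfl
    · rfl

lemma mass (κ : Fin n → ℤ) (K M : ℕ) (hK : ∀ i, |κ i| ≤ K) (Φ : H n →ₗ[ℂ] ℂ) (c : Fin n → ℕ)
    (v : ℂ) (hc : ∀ i, M ≤ c i)
    (hΦ : ∀ b : Fin n → ℕ, (∀ i, |(b i : ℤ) - c i| ≤ M) → Φ (dl b) = v) (j : ℕ) :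
    ∀ b : Fin n → ℕ, (∀ i, |(b i : ℤ) - c i| + j * K ≤ M) → Φ ((avg κ ^ j) (dl b)) = v := by
  induction j with
  | zero => intro b hb; exact hΦ b fun i => by simpa using hb i
  | succ j ih =>
    intro b hb
    have h0 : (0:ℤ) ≤ j * K := by positivity
    have h2 : (n.factorial : ℂ) ≠ 0 := by exact_mod_cast n.factorial_ne_zero
    have key : ∀ π : Perm (Fin n), Φ ((avg κ ^ j) (tens (κ ∘ π) (dl b))) = v := by
      intro π
      have h3 : ∀ i, 0 ≤ b i + (κ ∘ π) i ∧
          |((b i + (κ ∘ π) i : ℤ)) - c i| + j * K ≤ M := by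
        intro i
        have a1 := hb i
        have a2 := abs_le.1 (hK (π i))
        have a3 : (M : ℤ) ≤ c i := by exact_mod_cast hc i
        push_cast at a1
        have a4 := le_abs_self ((b i : ℤ) - c i)
        have a5 := neg_abs_le ((b i : ℤ) - c i)
        simp only [Function.comp]
        refine ⟨by nlinarith, ?_⟩
        have : |((b i + κ (π i) : ℤ)) - c i| ≤ |(b i : ℤ) - c i| + K := by
          rw [abs_le]; constructor <;> linarith
        nlinarith
      rw [tens_dl _ _ fun i => (h3 i).1]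
      refine ih _ fun i => ?_
      rw [Int.toNat_of_nonneg (h3 i).1]
      exact (h3 i).2
    have h5 : avg κ (dl b) = ((n.factorial : ℂ))⁻¹ • ∑ π : Perm (Fin n), tens (κ ∘ π) (dl b) := by
      simp only [avg, smul_apply, sum_apply]
    rw [pow_succ, mul_apply_eq_comp, h5]
    simp only [map_smul, map_sum, key]
    simp [Fintype.card_perm, h2]

lemma eps_mul (anti : Bool) (π σ : Perm (Fin n)) : eps anti (π * σ) = eps anti π * eps anti σ := by
  cases anti <;> simp [eps]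

lemma norm_eps (anti : Bool) (π : Perm (Fin n)) : ‖eps anti π‖ = 1 := by
  cases anti
  · simp [eps]
  · rcases Int.units_eq_one_or (Perm.sign π) with h | h <;> simp [eps, h]

noncomputable def u0 (anti : Bool) (a : Fin n → ℕ) : V n anti :=
  ⟨∑ π : Perm (Fin n), eps anti π • dl (a ∘ π), fun σ x => by
    simp only [lp.coeFn_sum, Finset.sum_apply, lp.coeFn_smul, Pi.smul_apply, smul_eq_mul, dl_apply]
    rw [Finset.mul_sum, ← Equiv.sum_comp (Equiv.mulRight σ)
      fun π => eps anti π * if x ∘ σ = a ∘ π then 1 else 0]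
    refine Finset.sum_congr rfl fun π _ => ?_
    have : (x ∘ σ = a ∘ (Equiv.mulRight σ π)) ↔ x = a ∘ π :=
      ⟨fun h => funext fun i => by simpa using congrFun h (σ.symm i),
        fun h => by rw [h]; rfl⟩
    simp only [this]
    simp only [Equiv.coe_mulRight, eps_mul]
    ring⟩

lemma norm_u0 (anti : Bool) (a : Fin n → ℕ) : ‖u0 anti a‖ ≤ n.factorial := by
  change ‖∑ π : Perm (Fin n), eps anti π • dl (a ∘ π)‖ ≤ _
  refine (norm_sum_le _ _).trans ?_
  simp [norm_smul, norm_eps, dl, lp.norm_single, Fintype.card_perm]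

lemma lower (κ : Fin n → ℤ) (anti : Bool) (K : ℕ) (hK : ∀ i, |κ i| ≤ K) (J : ℕ) :
    ∃ a : Fin n → ℕ, 1 ≤ (2 * (J * K) + 1 : ℝ) ^ n * ‖(T κ anti ^ J) (u0 anti a)‖ := by
  classical
  set M := J * K with hM
  let a : Fin n → ℕ := fun i => (2 * M + 1) * (i + 1)
  have ha : ∀ i, M ≤ a i := fun i => by simp only [a]; nlinarith
  let B : Finset (Fin n → ℕ) := Fintype.piFinset fun i => Finset.Icc (a i - M) (a i + M)
  have hB : ∀ b, b ∈ B ↔ ∀ i, |(b i : ℤ) - a i| ≤ M := by
    intro b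
    simp only [B, Fintype.mem_piFinset, Finset.mem_Icc, abs_le]
    refine forall_congr' fun i => ?_
    have := ha i
    omega
  let Φ : H n →ₗ[ℂ] ℂ := ∑ x ∈ B, lp.evalₗ (𝕜 := ℂ) (fun _ : Fin n → ℕ => ℂ) 2 x
  have hΦ : ∀ w, Φ w = ∑ x ∈ B, w x := fun w => by simp [Φ]
  have hΦd : ∀ b, Φ (dl b) = if b ∈ B then 1 else 0 := fun b => by simp [hΦ, dl_apply]
  have h1 : ∀ π : Perm (Fin n), Φ ((avg κ ^ J) (dl (a ∘ π))) = if π = 1 then 1 else 0 := by
    intro π
    refine mass κ K M hK Φ (a ∘ π) _ (fun i => ha _) (fun b hb => ?_) J _ fun i => by simp [hM]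
    rw [hΦd]
    by_cases hπ : π = 1
    · subst hπ
      rw [if_pos rfl, if_pos ((hB b).2 hb)]
    · rw [if_neg hπ, if_neg]
      intro hb'
      apply hπ
      ext i
      have a1 := abs_le.1 (hb i)
      have a2 := abs_le.1 ((hB b).1 hb' i)
      simp only [a, Function.comp] at a1 a2
      push_cast at a1 a2
      have : ((π i : ℕ) : ℤ) = (i : ℕ) := by
        by_contra hne
        rcases lt_or_gt_of_ne hne with h | h <;> nlinarith [Int.natCast_nonneg M]
      exact_mod_cast this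
  refine ⟨a, ?_⟩
  have h2 : Φ ((T κ anti ^ J) (u0 anti a)) = 1 := by
    rw [T_pow_coe]
    simp only [u0, map_sum, map_smul, h1]
    cases anti <;> simp [eps]
  have h3 : B.card = (2 * M + 1) ^ n := by
    rw [Fintype.card_piFinset]
    have : ∀ i, (Finset.Icc (a i - M) (a i + M)).card = 2 * M + 1 := fun i => by
      have := ha i
      rw [Nat.card_Icc]; omega
    simp [this]
  have h4 : ‖Φ ((T κ anti ^ J) (u0 anti a))‖ ≤ B.card * ‖(T κ anti ^ J) (u0 anti a)‖ := by
    rw [hΦ]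
    refine (norm_sum_le _ _).trans ((Finset.sum_le_sum fun x _ =>
      lp.norm_apply_le_norm (by norm_num) _ x).trans ?_)
    simp
  rw [h2, h3, norm_one] at h4
  simpa [hM] using h4

lemma small (K n : ℕ) {C r : ℝ} (hC : 0 ≤ C) (h0 : 0 ≤ r) (hr : r < 1) :
    ∃ J : ℕ, (2 * (J * K) + 1 : ℝ) ^ n * (C * r ^ J) < 1 := by
  have h := (tendsto_pow_const_mul_const_pow_of_abs_lt_one n
    (show |r| < 1 by rwa [abs_of_nonneg h0])).const_mul ((2 * K + 1 : ℝ) ^ n * C)
  rw [mul_zero] at h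
  obtain ⟨J, h1, h2⟩ := ((h.eventually (gt_mem_nhds zero_lt_one)).and
    (Filter.eventually_ge_atTop 1)).exists
  refine ⟨J, lt_of_le_of_lt ?_ h1⟩
  have h3 : (1:ℝ) ≤ J := by exact_mod_cast h2
  have : (2 * (J * K) + 1 : ℝ) ^ n ≤ (2 * K + 1 : ℝ) ^ n * (J:ℝ) ^ n := by
    rw [← mul_pow]
    gcongr
    nlinarith
  calc _ ≤ (2 * K + 1 : ℝ) ^ n * (J:ℝ) ^ n * (C * r ^ J) := by gcongr
    _ = _ := by ring

lemma no_decay (κ : Fin n → ℤ) (anti : Bool) {C r : ℝ} (hC : 0 ≤ C) (h0 : 0 ≤ r) (hr : r < 1)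
    (h : ∀ (J : ℕ) (a : Fin n → ℕ), ‖(T κ anti ^ J) (u0 anti a)‖ ≤ C * r ^ J) : False := by
  let K : ℕ := ∑ i, (κ i).natAbs
  have hK : ∀ i, |κ i| ≤ K := fun i => by
    have : (κ i).natAbs ≤ K :=
      Finset.single_le_sum (f := fun i => (κ i).natAbs) (fun _ _ => Nat.zero_le _) (Finset.mem_univ i)
    rw [← Int.natCast_natAbs]; exact_mod_cast this
  obtain ⟨J, hJ⟩ := small K n hC h0 hr
  obtain ⟨a, ha⟩ := lower κ anti K hK J
  have : (2 * (J * K) + 1 : ℝ) ^ n * ‖(T κ anti ^ J) (u0 anti a)‖ ≤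
      (2 * (J * K) + 1 : ℝ) ^ n * (C * r ^ J) := by gcongr; exact h J a
  linarith

theorem norm_T (κ : Fin n → ℤ) (anti : Bool) : ‖T κ anti‖ = 1 := by
  refine le_antisymm (norm_T_le κ anti) (not_lt.1 fun hlt => ?_)
  refine no_decay κ anti (C := n.factorial) (by positivity) (norm_nonneg (T κ anti)) hlt fun J a => ?_
  induction J with
  | zero => simpa using norm_u0 anti a
  | succ J ih =>
    rw [pow_succ', mul_apply_eq_comp]
    refine ((T κ anti).le_opNorm _).trans ?_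
    calc _ ≤ ‖T κ anti‖ * (n.factorial * ‖T κ anti‖ ^ J) := by gcongr
      _ = _ := by ring

end Pool.Agent.H46.Ts
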