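import Pool.Agent.H46.Ts1

open Equiv

namespace Pool.Agent.H46.Ts

variable {n : ℕ}

def deg (x : Fin n → ℕ) : ℤ := ∑ i, (x i : ℤ)

lemma deg_nonneg (x : Fin n → ℕ) : 0 ≤ deg x := Finset.sum_nonneg fun _ _ => by positivity

lemma avg_deg (κ : Fin n → ℤ) (Q : ℤ → Prop) (w : H n) (hw : ∀ x, ¬ Q (deg x) → w x = 0)
    (x : Fin n → ℕ) (hx : ¬ Q (deg x - ∑ i, κ i)) : avg κ w x = 0 := by
  rw [avg_apply, Finset.sum_eq_zero, mul_zero]
  intro π _
  unfold sf
  split_ifs with h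
  · apply hw
    have : deg (fun i => ((x i : ℤ) - (κ ∘ π) i).toNat) = deg x - ∑ i, κ i := by
      rw [deg, deg, ← Equiv.sum_comp π κ, ← Finset.sum_sub_distrib]
      exact Finset.sum_congr rfl fun i _ => Int.toNat_of_nonneg (sub_nonneg.2 (h i))
    rwa [this]
  · rfl

lemma pow_deg (κ : Fin n → ℤ) (Q : ℤ → Prop) (w : H n) (hw : ∀ x, ¬ Q (deg x) → w x = 0) (j : ℕ) :
    ∀ x, ¬ Q (deg x - j * ∑ i, κ i) → (avg κ ^ j) w x = 0 := by
  induction j with
  | zero => intro x hx; exact hw x (by simpa using hx)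
  | succ j ih =>
    intro x hx
    rw [pow_succ', mul_apply_eq_comp]
    refine avg_deg κ (fun t => Q (t - j * ∑ i, κ i)) _ ih x ?_
    convert hx using 2
    push_cast
    ring

lemma u0_deg (anti : Bool) (a x : Fin n → ℕ) (hx : ¬ deg x = deg a) : (u0 anti a : H n) x = 0 := by
  simp only [u0, lp.coeFn_sum, Finset.sum_apply, lp.coeFn_smul, Pi.smul_apply, smul_eq_mul,
    dl_apply]
  refine Finset.sum_eq_zero fun π _ => ?_
  rw [if_neg, mul_zero]
  rintro rfl
  exact hx (Equiv.sum_comp π fun i => (a i : ℤ))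

instance (anti : Bool) : CompleteSpace (V n anti) := by
  suffices h : IsClosed (V n anti : Set (H n)) from h.completeSpace_coe
  have : (V n anti : Set (H n)) =
      ⋂ π : Perm (Fin n), ⋂ x : Fin n → ℕ, {u : H n | u (x ∘ π) = eps anti π * u x} := by
    ext u
    simp only [Set.mem_iInter]
    rfl
  rw [this]
  exact isClosed_iInter fun π => isClosed_iInter fun x =>
    isClosed_eq (lp.evalCLM ℂ (fun _ : Fin n → ℕ => ℂ) 2 (x ∘ π)).continuous
      (continuous_const.mul (lp.evalCLM ℂ (fun _ : Fin n → ℕ => ℂ) 2 x).continuous)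

end Pool.Agent.H46.Ts
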