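import Pool.Agent.H46.Ts2

open Equiv

namespace Pool.Agent.H46.Ts

variable {n : ℕ}

lemma gen_spec {E : Type*} [NormedAddCommGroup E] [NormedSpace ℂ E] [CompleteSpace E]
    (T : E →L[ℂ] E) (hT : ‖T‖ = 1) (h : ∀ l : ℂ, l ≠ 0 → ‖l‖ < 1 → l ∈ spectrum ℂ T) :
    spectrum ℂ T = Metric.closedBall 0 1 := by
  apply Set.Subset.antisymm
  · intro l hl
    have h1 := spectrum.norm_le_norm_mul_of_mem hl
    have h2 : ‖(1 : E →L[ℂ] E)‖ ≤ 1 := ContinuousLinearMap.norm_id_le
    rw [hT] at h1
    simpa using h1.trans (by simpa using h2)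
  · have h1 : Metric.ball (0:ℂ) 1 \ {0} ⊆ spectrum ℂ T := fun l hl =>
      h l hl.2 (by simpa using hl.1)
    have h2 := closure_minimal h1 (spectrum.isClosed _)
    refine subset_trans ?_ h2
    rw [← closure_ball (0:ℂ) one_ne_zero]
    refine closure_minimal ?_ isClosed_closure
    have := (dense_compl_singleton (0:ℂ)).open_subset_closure_inter
      (Metric.isOpen_ball (x := (0:ℂ)) (ε := 1))
    exact this

lemma gen_res {E : Type*} [NormedAddCommGroup E] [NormedSpace ℂ E]
    (T : E →L[ℂ] E) {l : ℂ} (hl : l ∉ spectrum ℂ T) : ∃ C : ℝ, 0 ≤ C ∧ ∀ u : E, ∃ y : E,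
      ‖y‖ ≤ C * ‖u‖ ∧ (∀ m : ℕ, l ^ m • y =
        ∑ i ∈ Finset.range m, l ^ (m - 1 - i) • (T ^ i) u + (T ^ m) y) ∧
      ∀ m : ℕ, (T ^ m) u = 0 → (T ^ m) y = 0 := by
  rw [spectrum.notMem_iff] at hl
  obtain ⟨R, hR1, hR2⟩ := isUnit_iff_exists.1 hl
  refine ⟨‖R‖, norm_nonneg R, fun u => ⟨R u, R.le_opNorm u, ?_⟩⟩
  set y := R u with hy
  have e1 : l • y = u + T y := by
    have := congrArg (fun f : E →L[ℂ] E => f u) hR1
    simp only [mul_apply_eq_comp, sub_apply, Algebra.algebraMap_eq_smul_one, smul_apply,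
      one_apply_eq_self] at this
    rw [← this, hy]; abel
  refine ⟨fun m => ?_, fun m z1 => ?_⟩
  · induction m with
    | zero => simp
    | succ m ih =>
      have : (T ^ m) (l • y) = (T ^ m) u + (T ^ (m + 1)) y := by
        rw [e1, map_add, pow_succ, mul_apply_eq_comp]
      rw [pow_succ', mul_smul, ih, smul_add, ← map_smul, this, Finset.sum_range_succ,
        Finset.smul_sum, add_assoc]
      congr 1
      · refine Finset.sum_congr rfl fun i hi => ?_
        have := Finset.mem_range.1 hi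
        rw [← mul_smul, ← pow_succ']
        congr 2
        omega
      · simp
  · have z2 : l • (T ^ m) y = T ((T ^ m) y) := by
      rw [← map_smul, e1, map_add, z1, zero_add, ← mul_apply_eq_comp, ← pow_succ, pow_succ',
        mul_apply_eq_comp]
    have z3 := congrArg (fun f : E →L[ℂ] E => f ((T ^ m) y)) hR2
    simp only [mul_apply_eq_comp, sub_apply, Algebra.algebraMap_eq_smul_one, smul_apply,
      one_apply_eq_self, z2, sub_self, map_zero] at z3
    exact z3.symm

set_option maxHeartbeats 400000 in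
lemma mem_spec (κ : Fin n → ℤ) (anti : Bool) (hs : ∑ i, κ i ≠ 0) {l : ℂ} (h0 : l ≠ 0)
    (h1 : ‖l‖ < 1) : l ∈ spectrum ℂ (T κ anti) := by
  by_contra hl
  obtain ⟨C, hC, hR⟩ := gen_res (E := V n anti) (T κ anti) hl
  refine no_decay κ anti (C := ‖l‖ * (C * n.factorial)) (by positivity) (norm_nonneg l) h1
    fun J a => ?_
  obtain ⟨y, hy, e2, e2'⟩ := hR (u0 anti a)
  set u := u0 anti a with hu
  have e3 : ∀ (i : ℕ) x, deg x - i * ∑ i, κ i ≠ deg a → ((T κ anti ^ i) u : H n) x = 0 := by
    intro i x hx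
    rw [T_pow_coe]
    exact pow_deg κ (fun t => t = deg a) _ (u0_deg anti a) i x hx
  have e4 : ∀ x, ∃ m, J < m ∧ ((T κ anti ^ m) y : H n) x = 0 := by
    intro x
    have hx := deg_nonneg x
    have ha := deg_nonneg a
    rcases lt_or_gt_of_ne hs with hs | hs
    · refine ⟨J + 1 + (deg a).toNat, by omega, ?_⟩
      set m := J + 1 + (deg a).toNat with hm
      have z1 : (T κ anti ^ m) u = 0 := by
        ext x'
        refine e3 m x' fun h => ?_
        have := deg_nonneg x'
        have : (m : ℤ) = J + 1 + deg a := by rw [hm]; push_cast; rw [Int.toNat_of_nonneg ha]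
        nlinarith [Int.natCast_nonneg J]
      rw [e2' m z1]
      rfl
    · refine ⟨J + 1 + (deg x).toNat, by omega, ?_⟩
      rw [T_pow_coe]
      refine pow_deg κ (fun t => 0 ≤ t) _ (fun x' hx' => absurd (deg_nonneg x') hx') _ x ?_
      push_cast
      rw [Int.toNat_of_nonneg hx]
      nlinarith [Int.natCast_nonneg J]
  have e5 : ‖((T κ anti ^ J) u : H n)‖ ≤ ‖l ^ (J + 1) • (y : H n)‖ := by
    refine lp.norm_mono (by norm_num) fun x => ?_
    by_cases hx : deg x - J * ∑ i, κ i = deg a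
    · obtain ⟨m, hm1, hm2⟩ := e4 x
      have z := congrArg (fun w : V n anti => (w : H n) x) (e2 m)
      simp only [Submodule.coe_smul, Submodule.coe_add, Submodule.coe_sum, lp.coeFn_smul,
        lp.coeFn_add, lp.coeFn_sum, Pi.add_apply, Pi.smul_apply, Finset.sum_apply, hm2, add_zero,
        smul_eq_mul] at z
      rw [Finset.sum_eq_single J] at z
      · have : l ^ m = l ^ (m - 1 - J) * l ^ (J + 1) := by rw [← pow_add]; congr 1; omega
        rw [this, mul_assoc] at z
        have z' := mul_left_cancel₀ (pow_ne_zero _ h0) z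
        simp only [lp.coeFn_smul, Pi.smul_apply, smul_eq_mul, z', le_refl]
      · intro i _ hi
        rw [e3 i x, mul_zero]
        intro h
        apply hi
        have : (i : ℤ) * ∑ i, κ i = J * ∑ i, κ i := by linarith
        exact_mod_cast mul_right_cancel₀ hs this
      · intro h
        exact absurd (Finset.mem_range.2 hm1) h
    · rw [e3 J x hx, norm_zero]
      exact norm_nonneg _
  have e6 : ‖(y : H n)‖ ≤ C * n.factorial :=
    hy.trans (mul_le_mul_of_nonneg_left (norm_u0 anti a) hC)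
  refine le_trans e5 ?_
  rw [norm_smul, norm_pow]
  calc _ ≤ ‖l‖ ^ (J + 1) * (C * n.factorial) := by gcongr
    _ = _ := by ring

set_option maxHeartbeats 400000 in
theorem spec_T (κ : Fin n → ℤ) (anti : Bool) (hs : ∑ i, κ i ≠ 0) :
    spectrum ℂ (T κ anti) = Metric.closedBall 0 1 :=
  gen_spec (E := V n anti) (T κ anti) (norm_T κ anti) fun _ h0 h1 => mem_spec κ anti hs h0 h1

end Pool.Agent.H46.Ts
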