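import Pool.Agent.H46.TsDefs

namespace Pool.Agent.H46.Ts

/-- The symbol `φ(t) = (1 / n!) ∑_π exp (2 π i ⟨κ ∘ π, t⟩)` on the torus `(ℝ / ℤ)ⁿ`. -/
noncomputable def symb {n : ℕ} (κ : Fin n → ℤ) (t : UnitAddTorus (Fin n)) : ℂ :=
  ((n.factorial : ℂ))⁻¹ * ∑ π : Equiv.Perm (Fin n), UnitAddTorus.mFourier (κ ∘ π) t

end Pool.Agent.H46.Ts
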