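import Pool.Agent.H46.Ts3
import Pool.Agent.H46.TsSym

open Equiv MeasureTheory UnitAddTorus

namespace Pool.Agent.H46.Ts

variable {n : ℕ}

noncomputable local instance : MeasureSpace UnitAddCircle := ⟨AddCircle.haarAddCircle⟩

local instance : IsProbabilityMeasure (volume : Measure UnitAddCircle) :=
  inferInstanceAs (IsProbabilityMeasure AddCircle.haarAddCircle)

lemma norm_mF (k : Fin n → ℤ) (t : UnitAddTorus (Fin n)) : ‖mFourier k t‖ = 1 := by
  simp [mFourier, fourier_apply]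

lemma cont_symb (κ : Fin n → ℤ) : Continuous (symb κ) := by
  unfold symb
  fun_prop

noncomputable def extF (u : (Fin n → ℕ) → ℂ) (m : Fin n → ℤ) : ℂ :=
  if ∀ i, 0 ≤ m i then u fun i => (m i).toNat else 0

lemma ext_sum_le (u : H n) (s : Finset (Fin n → ℤ)) :
    ∑ x ∈ s, ‖extF u x‖ ^ (2 : ENNReal).toReal ≤ ‖u‖ ^ (2 : ENNReal).toReal := by
  classical
  have h2 : 0 < (2 : ENNReal).toReal := by norm_num
  let g : (Fin n → ℤ) → Fin n → ℕ := fun x i => (x i).toNat
  have h1 : ∑ x ∈ s, ‖extF u x‖ ^ (2 : ENNReal).toReal =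
      ∑ x ∈ s.filter (fun x => ∀ i, 0 ≤ x i), ‖u (g x)‖ ^ (2 : ENNReal).toReal := by
    rw [Finset.sum_filter]
    refine Finset.sum_congr rfl fun x _ => ?_
    unfold extF
    split_ifs
    · rfl
    · simp
  rw [h1, ← Finset.sum_image (g := g) (f := fun y => ‖u y‖ ^ (2 : ENNReal).toReal)]
  · exact lp.sum_rpow_le_norm_rpow h2 u _
  · intro x hx y hy hxy
    have hx' := (Finset.mem_filter.1 hx).2
    have hy' := (Finset.mem_filter.1 hy).2
    funext i
    have := congrFun hxy i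
    have a := hx' i
    have b := hy' i
    simp only [g] at this
    omega

lemma upper (κ : Fin n → ℤ) (μ : ℂ) (r : ℝ) (hr : ∀ t, ‖symb κ t - μ‖ ≤ r) (u : H n) :
    ‖avg κ u - μ • u‖ ≤ r * ‖u‖ := by
  classical
  have hr0 : 0 ≤ r := (norm_nonneg _).trans (hr 0)
  let v : lp (fun _ : Fin n → ℤ => ℂ) 2 := ⟨extF u, memℓp_gen' (ext_sum_le u)⟩
  have hv : ‖v‖ ≤ ‖u‖ := lp.norm_le_of_forall_sum_le (by norm_num) (norm_nonneg _) (ext_sum_le u)
  let F := (mFourierBasis (d := Fin n)).repr.symm v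
  have hF : ∀ m, mFourierCoeff F m = extF u m := fun m => by
    rw [← mFourierBasis_repr, LinearIsometryEquiv.apply_symm_apply]
  have hFn : ‖F‖ ≤ ‖u‖ := by rw [LinearIsometryEquiv.norm_map]; exact hv
  have hFi : Integrable F := (Lp.memLp F).integrable (by norm_num)
  have hb : ∀ t, ‖(symb κ t - μ) * F t‖ ≤ r * ‖F t‖ := fun t => by
    rw [norm_mul]; exact mul_le_mul_of_nonneg_right (hr t) (norm_nonneg _)
  have hG : MemLp (fun t => (symb κ t - μ) * F t) 2 volume :=
    (Lp.memLp F).of_le_mul (((cont_symb κ).sub continuous_const).aestronglyMeasurable.mul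
      (Lp.aestronglyMeasurable F)) (Filter.Eventually.of_forall hb)
  let G := hG.toLp
  have hGn : ‖G‖ ≤ r * ‖F‖ := by
    refine Lp.norm_le_mul_norm_of_ae_le_mul ?_
    filter_upwards [hG.coeFn_toLp] with t ht
    rw [ht]; exact hb t
  have hI : ∀ k : Fin n → ℤ, Integrable fun t => mFourier k t * F t := fun k =>
    hFi.bdd_mul (mFourier k).continuous.aestronglyMeasurable
      (Filter.Eventually.of_forall fun t => (norm_mF k t).le)
  have hc : ∀ x : Fin n → ℕ, (mFourierBasis (d := Fin n)).repr G (fun i => (x i : ℤ)) =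
      (avg κ u - μ • u) x := by
    intro x
    rw [mFourierBasis_repr]
    have e1 : mFourierCoeff G (fun i => (x i : ℤ)) = ∫ t, (((n.factorial : ℂ))⁻¹ *
        ∑ π : Perm (Fin n), mFourier (-((fun i => (x i : ℤ)) - κ ∘ π)) t * F t -
          μ * (mFourier (-(fun i => (x i : ℤ))) t * F t)) := by
      refine integral_congr_ae ?_
      filter_upwards [hG.coeFn_toLp] with t ht
      rw [show G t = _ from ht]
      simp only [smul_eq_mul, symb, neg_sub, sub_eq_add_neg (κ ∘ _), mFourier_add,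
        ← Finset.sum_mul]
      ring
    rw [e1, integral_sub ((integrable_finsetSum _ fun π _ => hI _).const_mul _)
      ((hI _).const_mul _), integral_const_mul, integral_const_mul,
      integral_finsetSum _ fun π _ => hI _]
    have e2 : ∀ m, ∫ t, mFourier (-m) t * F t = extF u m := hF
    simp only [e2, lp.coeFn_sub, lp.coeFn_smul, Pi.sub_apply, Pi.smul_apply, avg_apply,
      smul_eq_mul]
    congr 2
    · refine Finset.sum_congr rfl fun π _ => ?_
      simp only [extF, sf, Pi.sub_apply, sub_nonneg]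
    · simp [extF]
  refine le_trans ?_ (hGn.trans (mul_le_mul_of_nonneg_left hFn hr0))
  rw [← (mFourierBasis (d := Fin n)).repr.norm_map G]
  refine lp.norm_le_of_forall_sum_le (by norm_num) (norm_nonneg _) fun s => ?_
  simp only [← hc]
  rw [← Finset.sum_image (g := fun (x : Fin n → ℕ) i => (x i : ℤ))
    (f := fun y => ‖(mFourierBasis (d := Fin n)).repr G y‖ ^ (2 : ENNReal).toReal)]
  · exact lp.sum_rpow_le_norm_rpow (by norm_num) _ _
  · intro x _ y _ hxy
    funext i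
    have := congrFun hxy i
    simpa using this

lemma gen_disc {E : Type*} [NormedAddCommGroup E] [NormedSpace ℂ E] [CompleteSpace E]
    (T : E →L[ℂ] E) (μ : ℂ) (r : ℝ) (hr : 0 ≤ r) (h : ∀ u, ‖T u - μ • u‖ ≤ r * ‖u‖) {l : ℂ}
    (hl : l ∈ spectrum ℂ T) : ‖l - μ‖ ≤ r := by
  have h1 : l - μ ∈ spectrum ℂ (T - algebraMap ℂ (E →L[ℂ] E) μ) := by
    rw [spectrum.mem_iff] at hl ⊢
    rwa [map_sub, sub_sub_sub_cancel_right]
  have h2 := spectrum.norm_le_norm_mul_of_mem h1
  have h3 : ‖(1 : E →L[ℂ] E)‖ ≤ 1 := ContinuousLinearMap.norm_id_le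
  have h4 : ‖T - algebraMap ℂ (E →L[ℂ] E) μ‖ ≤ r :=
    ContinuousLinearMap.opNorm_le_bound _ hr fun u => by
      simpa [Algebra.algebraMap_eq_smul_one] using h u
  calc _ ≤ _ := h2
    _ ≤ r * 1 := by gcongr
    _ = r := mul_one r

lemma norm_symb_le (κ : Fin n → ℤ) (t : UnitAddTorus (Fin n)) : ‖symb κ t‖ ≤ 1 := by
  have h2 : (0:ℝ) < n.factorial := by exact_mod_cast n.factorial_pos
  rw [symb, norm_mul, norm_inv, Complex.norm_natCast, inv_mul_le_iff₀ h2]
  refine (norm_sum_le _ _).trans ?_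
  simp [norm_mF, Fintype.card_perm]

theorem spec_sub (κ : Fin n → ℤ) (anti : Bool) {K : Set ℂ} (h1 : Convex ℝ K) (h2 : IsClosed K)
    (h3 : Set.range (symb κ) ⊆ K) : spectrum ℂ (T κ anti) ⊆ K := by
  intro l hl
  by_contra hK
  obtain ⟨f, s, hf1, hf2⟩ := geometric_hahn_banach_closed_point h1 h2 hK
  have hf : ∀ z : ℂ, f z = z.re * f 1 + z.im * f Complex.I := fun z => by
    conv_lhs => rw [show z = z.re • (1:ℂ) + z.im • Complex.I by simp]
    rw [map_add, map_smul, map_smul, smul_eq_mul, smul_eq_mul]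
  set R := 1 / (f l - s) with hR
  have hR0 : 0 < R := by rw [hR]; exact one_div_pos.2 (sub_pos.2 hf2)
  have hR1 : R * (f l - s) = 1 := by rw [hR]; exact one_div_mul_cancel (sub_pos.2 hf2).ne'
  let μ : ℂ := ⟨-R * f 1, -R * f Complex.I⟩
  have hn : ∀ z : ℂ, ‖z - μ‖ ^ 2 = ‖z‖ ^ 2 + 2 * R * f z + ‖μ‖ ^ 2 := fun z => by
    simp only [Complex.sq_norm, Complex.normSq_apply, Complex.sub_re, Complex.sub_im, μ, hf z]
    ring
  have hr' : ∀ t, ‖symb κ t - μ‖ ^ 2 ≤ 1 + 2 * R * s + ‖μ‖ ^ 2 := fun t => by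
    rw [hn]
    have a1 := hf1 _ (h3 ⟨t, rfl⟩)
    have a2 := norm_symb_le κ t
    have a3 := norm_nonneg (symb κ t)
    nlinarith
  have hr : ∀ t, ‖symb κ t - μ‖ ≤ √(1 + 2 * R * s + ‖μ‖ ^ 2) := fun t =>
    Real.le_sqrt_of_sq_le (hr' t)
  have h4 := gen_disc (E := V n anti) (T κ anti) μ _ (Real.sqrt_nonneg _)
    (fun u => upper κ μ _ hr u) hl
  have h5 := pow_le_pow_left₀ (norm_nonneg _) h4 2
  have h7 : 0 ≤ 1 + 2 * R * s + ‖μ‖ ^ 2 := (sq_nonneg _).trans (hr' 0)
  rw [Real.sq_sqrt h7, hn] at h5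
  nlinarith [sq_nonneg ‖l‖]

end Pool.Agent.H46.Ts
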