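import Pool.Agent.H46.Ts4

open Equiv UnitAddTorus

namespace Pool.Agent.H46.Ts

variable {n : ℕ}

lemma pm_sum_le (π : Perm (Fin n)) (u : H n) (s : Finset (Fin n → ℕ)) :
    ∑ x ∈ s, ‖u (x ∘ π)‖ ^ (2 : ENNReal).toReal ≤ ‖u‖ ^ (2 : ENNReal).toReal := by
  classical
  rw [← Finset.sum_image (g := fun x : Fin n → ℕ => x ∘ π)
    (f := fun y => ‖u y‖ ^ (2 : ENNReal).toReal)]
  · exact lp.sum_rpow_le_norm_rpow (by norm_num) u _
  · intro x _ y _ hxy
    funext i
    simpa using congrFun hxy (π.symm i)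

noncomputable def pm (π : Perm (Fin n)) (u : H n) : H n :=
  ⟨fun x => u (x ∘ π), memℓp_gen' (pm_sum_le π u)⟩

lemma pm_apply (π : Perm (Fin n)) (u : H n) (x : Fin n → ℕ) : pm π u x = u (x ∘ π) := rfl

lemma norm_pm (π : Perm (Fin n)) (u : H n) : ‖pm π u‖ ≤ ‖u‖ :=
  lp.norm_le_of_forall_sum_le (by norm_num) (norm_nonneg _) (pm_sum_le π u)

lemma avg_pm (κ : Fin n → ℤ) (σ : Perm (Fin n)) (u : H n) : avg κ (pm σ u) = pm σ (avg κ u) := by
  ext x
  rw [pm_apply, avg_apply, avg_apply]
  congr 1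
  rw [← Equiv.sum_comp (Equiv.mulRight σ) fun π => sf (κ ∘ π) u (x ∘ σ)]
  refine Finset.sum_congr rfl fun π _ => ?_
  unfold sf
  have h1 : (∀ i, (κ ∘ (Equiv.mulRight σ π)) i ≤ ((x ∘ σ) i : ℤ)) ↔ ∀ i, (κ ∘ π) i ≤ x i :=
    ⟨fun h i => by simpa using h (σ.symm i), fun h i => h (σ i)⟩
  by_cases h : ∀ i, (κ ∘ π) i ≤ x i
  · rw [if_pos h, if_pos (h1.2 h)]
    rfl
  · rw [if_neg h, if_neg (fun h' => h (h1.1 h'))]

lemma eps_sq (anti : Bool) (π : Perm (Fin n)) : eps anti π * eps anti π = 1 := by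
  cases anti
  · simp [eps]
  · rcases Int.units_eq_one_or (Perm.sign π) with h | h <;> simp [eps, h]

noncomputable def E (anti : Bool) (g : H n) : V n anti :=
  ⟨∑ π : Perm (Fin n), eps anti π • pm π g, fun σ x => by
    simp only [lp.coeFn_sum, Finset.sum_apply, lp.coeFn_smul, Pi.smul_apply, smul_eq_mul, pm_apply]
    rw [Finset.mul_sum, ← Equiv.sum_comp (Equiv.mulLeft σ)
      fun π => eps anti σ * (eps anti π * g (x ∘ π))]
    refine Finset.sum_congr rfl fun π _ => ?_
    simp only [Equiv.coe_mulLeft, eps_mul]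
    rw [← mul_assoc, ← mul_assoc, eps_sq, one_mul]
    rfl⟩

lemma norm_TE (κ : Fin n → ℤ) (anti : Bool) (l : ℂ) (g : H n) :
    ‖T κ anti (E anti g) - l • E anti g‖ ≤ n.factorial * ‖avg κ g - l • g‖ := by
  have : ((T κ anti (E anti g) - l • E anti g : V n anti) : H n) =
      ∑ π : Perm (Fin n), eps anti π • pm π (avg κ g - l • g) := by
    simp only [Submodule.coe_sub, Submodule.coe_smul, T_coe, E, map_sum, map_smul, avg_pm,
      Finset.smul_sum, ← Finset.sum_sub_distrib]
    refine Finset.sum_congr rfl fun π _ => ?_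
    ext x
    simp only [lp.coeFn_sub, lp.coeFn_smul, Pi.sub_apply, Pi.smul_apply, pm_apply, smul_eq_mul]
    ring
  change ‖((T κ anti (E anti g) - l • E anti g : V n anti) : H n)‖ ≤ _
  rw [this]
  refine (norm_sum_le _ _).trans ((Finset.sum_le_sum fun π _ =>
    (show _ ≤ ‖avg κ g - l • g‖ by rw [norm_smul, norm_eps, one_mul]; exact norm_pm _ _)).trans ?_)
  simp [Fintype.card_perm]

lemma gen_low {E : Type*} [NormedAddCommGroup E] [NormedSpace ℂ E]
    (T : E →L[ℂ] E) {l : ℂ} (hl : l ∉ spectrum ℂ T) :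
    ∃ C : ℝ, 0 ≤ C ∧ ∀ v : E, ‖v‖ ≤ C * ‖T v - l • v‖ := by
  rw [spectrum.notMem_iff] at hl
  obtain ⟨R, -, hR2⟩ := isUnit_iff_exists.1 hl
  refine ⟨‖R‖, norm_nonneg R, fun v => ?_⟩
  have z3 := congrArg (fun f : E →L[ℂ] E => f v) hR2
  simp only [mul_apply_eq_comp, sub_apply, Algebra.algebraMap_eq_smul_one, smul_apply,
    one_apply_eq_self] at z3
  rw [norm_sub_rev]
  conv_lhs => rw [← z3]
  exact R.le_opNorm _

lemma thin (D : ℝ) (K n : ℕ) : ∃ m : ℕ, D * (((m + K : ℕ) : ℝ) ^ n - (m : ℝ) ^ n) < (m : ℝ) ^ n := by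
  have h1 : Continuous fun e : ℝ => D * ((1 + K * e) ^ n - 1) := by fun_prop
  have h2 := (h1.tendsto 0).comp tendsto_one_div_atTop_nhds_zero_nat
  simp only [mul_zero, add_zero, one_pow, sub_self] at h2
  obtain ⟨m, h3, h4⟩ := ((h2.eventually (gt_mem_nhds zero_lt_one)).and
    (Filter.eventually_ge_atTop 1)).exists
  have h5 : (0:ℝ) < m := by exact_mod_cast h4
  refine ⟨m, ?_⟩
  have : ((m + K : ℕ) : ℝ) = (1 + K * (1 / m)) * m := by push_cast; field_simp
  rw [this, mul_pow]
  have h6 := mul_lt_mul_of_pos_right h3 (pow_pos h5 n)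
  simp only [Function.comp] at h6
  linarith

def box (c : Fin n → ℕ) (p q : ℕ) : Finset (Fin n → ℕ) :=
  Fintype.piFinset fun i => Finset.Ico (c i + p) (c i + p + q)

lemma mem_box (c : Fin n → ℕ) (p q : ℕ) (x : Fin n → ℕ) :
    x ∈ box c p q ↔ ∀ i, c i + p ≤ x i ∧ x i < c i + p + q := by
  simp [box]

lemma card_box (c : Fin n → ℕ) (p q : ℕ) : (box c p q).card = q ^ n := by
  simp [box, Fintype.card_piFinset]

theorem symb_mem (κ : Fin n → ℤ) (anti : Bool) (t : UnitAddTorus (Fin n)) :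
    symb κ t ∈ spectrum ℂ (T κ anti) := by
  classical
  by_contra hl
  obtain ⟨C, hC, hR⟩ := gen_low (E := V n anti) (T κ anti) hl
  let K : ℕ := ∑ i, (κ i).natAbs
  have hK : ∀ i, -(K : ℤ) ≤ κ i ∧ κ i ≤ K := fun i => by
    have : (κ i).natAbs ≤ K :=
      Finset.single_le_sum (f := fun i => (κ i).natAbs) (fun _ _ => Nat.zero_le _) (Finset.mem_univ i)
    omega
  obtain ⟨m, hm⟩ := thin ((C * n.factorial) ^ 2 * 4) (4 * K) n
  let c : Fin n → ℕ := fun i => (m + 4 * K) * i
  let f0 : (Fin n → ℕ) → ℂ := fun x =>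
    if x ∈ box c K (m + 2 * K) then mFourier (-fun i => (x i : ℤ)) t else 0
  have hf0 : ∀ x, ‖f0 x‖ ≤ 1 := fun x => by
    simp only [f0]
    split_ifs
    · exact (norm_mF _ _).le
    · simp
  let f : H n := ⟨f0, (memℓp_zero ((box c K (m + 2 * K)).finite_toSet.subset fun x hx => by
    by_contra h
    exact hx (if_neg h))).of_exponent_ge zero_le⟩
  have hf : ∀ x, f x = f0 x := fun _ => rfl
  have h2 : (n.factorial : ℂ) ≠ 0 := by exact_mod_cast n.factorial_ne_zero
  have g1 : ∀ x, ‖(avg κ f - symb κ t • f) x‖ ≤ 2 := by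
    intro x
    have h3 : (0:ℝ) < n.factorial := by exact_mod_cast n.factorial_pos
    have a1 : ‖avg κ f x‖ ≤ 1 := by
      rw [avg_apply, norm_mul, norm_inv, Complex.norm_natCast, inv_mul_le_iff₀ h3]
      refine (norm_sum_le _ _).trans ((Finset.sum_le_sum fun π _ =>
        (show _ ≤ (1:ℝ) by
          unfold sf
          split_ifs
          · exact hf0 _
          · simp)).trans ?_)
      simp [Fintype.card_perm]
    have a2 : ‖symb κ t * f x‖ ≤ 1 := by
      rw [norm_mul]
      exact mul_le_one₀ (norm_symb_le κ t) (norm_nonneg _) (hf0 x)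
    simp only [lp.coeFn_sub, lp.coeFn_smul, Pi.sub_apply, Pi.smul_apply, smul_eq_mul]
    exact (norm_sub_le _ _).trans (by linarith)
  have g2 : ∀ x, x ∉ box c 0 (m + 4 * K) \ box c (2 * K) m → (avg κ f - symb κ t • f) x = 0 := by
    intro x hx
    simp only [lp.coeFn_sub, lp.coeFn_smul, Pi.sub_apply, Pi.smul_apply, smul_eq_mul, avg_apply]
    by_cases h1 : x ∈ box c (2 * K) m
    · rw [mem_box] at h1
      have b1 : f x = mFourier (-fun i => (x i : ℤ)) t :=
        if_pos ((mem_box _ _ _ _).2 fun i => by have := h1 i; omega)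
      rw [b1, symb, mul_assoc, Finset.sum_mul, sub_eq_zero]
      congr 1
      refine Finset.sum_congr rfl fun π _ => ?_
      have b2 : ∀ i, (κ ∘ π) i ≤ x i := fun i => by
        have := h1 i; have := hK (π i); simp only [Function.comp]; omega
      rw [sf, if_pos b2, hf, ← mFourier_add]
      simp only [f0]
      rw [if_pos ((mem_box _ _ _ _).2 fun i => by
        have := h1 i; have := hK (π i); simp only [Function.comp]; omega)]
      congr 2
      funext i
      have := b2 i
      simp only [Pi.neg_apply, Pi.add_apply]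
      omega
    · have h3 : x ∉ box c 0 (m + 4 * K) := fun h => hx (Finset.mem_sdiff.2 ⟨h, h1⟩)
      rw [mem_box] at h3
      have b1 : f x = 0 := if_neg fun h => h3 fun i => by
        have := (mem_box _ _ _ _).1 h i; omega
      rw [b1, mul_zero, sub_zero, Finset.sum_eq_zero, mul_zero]
      intro π _
      unfold sf
      split_ifs with b2
      · refine if_neg fun h => h3 fun i => ?_
        have := (mem_box _ _ _ _).1 h i
        have := hK (π i)
        have := b2 i
        simp only [Function.comp] at *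
        omega
      · rfl
  have hsub : box c (2 * K) m ⊆ box c 0 (m + 4 * K) := fun x hx =>
    (mem_box _ _ _ _).2 fun i => by have := (mem_box _ _ _ _).1 hx i; omega
  have g3 : ‖avg κ f - symb κ t • f‖ ^ 2 ≤ 4 * (((m + 4 * K : ℕ) : ℝ) ^ n - (m : ℝ) ^ n) := by
    have e1 := lp.norm_rpow_eq_tsum (p := 2) (by norm_num) (avg κ f - symb κ t • f)
    rw [tsum_eq_sum (s := box c 0 (m + 4 * K) \ box c (2 * K) m)
      fun x hx => by rw [g2 x hx]; simp] at e1
    simp only [ENNReal.toReal_ofNat, Real.rpow_ofNat] at e1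
    rw [e1]
    refine (Finset.sum_le_sum fun x _ => (show _ ≤ (4:ℝ) by
      nlinarith [g1 x, norm_nonneg ((avg κ f - symb κ t • f) x)])).trans ?_
    rw [Finset.sum_const, Finset.card_sdiff_of_subset hsub, nsmul_eq_mul,
      Nat.cast_sub (Finset.card_le_card hsub), card_box, card_box]
    push_cast
    exact le_of_eq (by ring)
  have g4 : (m : ℝ) ^ n ≤ ‖E anti f‖ ^ 2 := by
    have e1 := lp.sum_rpow_le_norm_rpow (p := 2) (by norm_num) (E anti f : H n) (box c (2 * K) m)
    simp only [ENNReal.toReal_ofNat, Real.rpow_ofNat] at e1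
    refine le_trans (le_of_eq ?_) e1
    rw [Finset.sum_congr rfl (g := fun _ => (1:ℝ))]
    · simp [card_box]
    · intro x hx
      rw [mem_box] at hx
      simp only [E, lp.coeFn_sum, Finset.sum_apply, lp.coeFn_smul, Pi.smul_apply, smul_eq_mul,
        pm_apply]
      rw [Finset.sum_eq_single 1]
      · have b1 : f (x ∘ (1 : Perm (Fin n))) = mFourier (-fun i => (x i : ℤ)) t :=
          if_pos ((mem_box _ _ _ _).2 fun i => by have := hx i; simp; omega)
        rw [b1, norm_mul, norm_eps, norm_mF]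
        norm_num
      · intro π _ hπ
        have b1 : f (x ∘ π) = 0 := if_neg fun h => hπ (by
          ext i
          have a1 := (mem_box _ _ _ _).1 h i
          have a2 := hx (π i)
          simp only [c, Function.comp] at a1 a2
          by_contra hne
          rcases lt_or_gt_of_ne hne with h' | h'
          · have : (m + 4 * K) * ((π i : ℕ) + 1) ≤ (m + 4 * K) * (i : ℕ) :=
              Nat.mul_le_mul_left _ h'
            rw [mul_add] at this
            omega
          · have : (m + 4 * K) * ((i : ℕ) + 1) ≤ (m + 4 * K) * (π i : ℕ) :=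
              Nat.mul_le_mul_left _ h'
            rw [mul_add] at this
            omega)
        rw [b1, mul_zero]
      · simp
  have g5 : ‖E anti f‖ ≤ C * n.factorial * ‖avg κ f - symb κ t • f‖ := by
    rw [mul_assoc]
    exact (hR _).trans (mul_le_mul_of_nonneg_left (norm_TE κ anti _ f) hC)
  have g6 := pow_le_pow_left₀ (norm_nonneg _) g5 2
  rw [mul_pow] at g6
  have g7 := mul_le_mul_of_nonneg_left g3 (sq_nonneg (C * n.factorial))
  linarith

end Pool.Agent.H46.Ts
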