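import Pool.Agent.H46.Ts5

open Equiv UnitAddTorus

namespace Pool.Agent.H46.Ts

variable {n : ℕ}

lemma symb_real (κ : Fin n → ℤ) (τ : Perm (Fin n)) (hτ : κ ∘ τ = -κ) (t : UnitAddTorus (Fin n)) :
    ((symb κ t).re : ℂ) = symb κ t := by
  rw [← Complex.conj_eq_iff_re]
  simp only [symb, map_mul, map_inv₀, map_natCast, map_sum, ← mFourier_neg]
  congr 1
  rw [← Equiv.sum_comp (Equiv.mulLeft τ) fun π => mFourier (κ ∘ π) t]
  refine Finset.sum_congr rfl fun π _ => ?_
  congr 2
  funext i
  exact (congrFun hτ (π i)).symm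

theorem spec_sym (κ : Fin n → ℤ) (anti : Bool) (τ : Perm (Fin n)) (hτ : κ ∘ τ = -κ) :
    spectrum ℂ (T κ anti) = Set.range (symb κ) := by
  refine Set.Subset.antisymm (spec_sub κ anti ?_ (isCompact_range (cont_symb κ)).isClosed
    subset_rfl) (Set.range_subset_iff.2 (symb_mem κ anti))
  have h1 : Set.range (symb κ) = Complex.ofRealCLM '' Set.range fun t => (symb κ t).re := by
    rw [← Set.range_comp]
    congr 1
    funext t
    exact (symb_real κ τ hτ t).symm
  rw [h1]
  exact (isPreconnected_range (Complex.continuous_re.comp (cont_symb κ))).convex.linear_image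
    Complex.ofRealCLM.toLinearMap

theorem spec_two (k : ℤ) (hk : k ≠ 0) (anti : Bool) :
    spectrum ℂ (T ![k, -k] anti) = Complex.ofReal '' Set.Icc (-1) 1 := by
  have hτ : ![k, -k] ∘ (swap (0 : Fin 2) 1) = -![k, -k] := by
    funext i
    fin_cases i <;> simp
  rw [spec_sym _ anti _ hτ]
  apply Set.Subset.antisymm
  · rintro _ ⟨t, rfl⟩
    exact ⟨_, abs_le.1 ((Complex.abs_re_le_norm _).trans (norm_symb_le _ t)), symb_real _ _ hτ t⟩
  · rintro _ ⟨x, hx, rfl⟩
    refine ⟨![((Real.arccos x / (2 * Real.pi * k) : ℝ) : UnitAddCircle), 0], ?_⟩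
    have hu : (Finset.univ : Finset (Perm (Fin 2))) = {1, swap 0 1} := by decide
    have hne : (1 : Perm (Fin 2)) ≠ swap 0 1 := by decide
    have hk' : (k : ℂ) ≠ 0 := by exact_mod_cast hk
    have hp : (Real.pi : ℂ) ≠ 0 := by exact_mod_cast Real.pi_ne_zero
    rw [symb, hu, Finset.sum_pair hne]
    simp only [mFourier, ContinuousMap.coe_mk, Fin.prod_univ_two, Function.comp, Perm.one_apply,
      swap_apply_left, swap_apply_right, Matrix.cons_val_zero, Matrix.cons_val_one,
      fourier_eval_zero, mul_one, fourier_coe_apply]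
    have e1 : (x : ℂ) = Complex.cos (Real.arccos x) := by
      rw [← Complex.ofReal_cos, Real.cos_arccos hx.1 hx.2]
    rw [e1, Complex.cos]
    push_cast
    rw [show (2 * Real.pi * Complex.I * k * (Real.arccos x / (2 * Real.pi * k)) / 1 : ℂ) =
        Real.arccos x * Complex.I by field_simp,
      show (2 * Real.pi * Complex.I * -k * (Real.arccos x / (2 * Real.pi * k)) / 1 : ℂ) =
        -Real.arccos x * Complex.I by field_simp]
    simp [Nat.factorial]
    ring

end Pool.Agent.H46.Ts
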