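import Pool.Agent.H46.TsSym

namespace Pool.Agent.H46.Ts

/-- The tensor power of `ℓ²`, realised as `ℓ²(ℕⁿ)` (a named copy of the Mathlib space). -/
def L (n : ℕ) : Type := lp (fun _ : Fin n → ℕ => ℂ) 2

noncomputable instance (n : ℕ) : NormedAddCommGroup (L n) :=
  (inferInstance : NormedAddCommGroup (lp (fun _ : Fin n → ℕ => ℂ) 2))

noncomputable instance (n : ℕ) : NormedSpace ℂ (L n) :=
  (inferInstance : NormedSpace ℂ (lp (fun _ : Fin n → ℕ => ℂ) 2))

/-- The coordinates of a vector of `ℓ²(ℕⁿ)`. -/
def L.co {n : ℕ} (u : L n) : (Fin n → ℕ) → ℂ := Subtype.val u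

/-- The set of symmetric (`anti = false`) or antisymmetric (`anti = true`) tensors. -/
def symSet (n : ℕ) (anti : Bool) : Set (L n) :=
  {u | ∀ (π : Equiv.Perm (Fin n)) (x : Fin n → ℕ), u.co (x ∘ π) = eps anti π * u.co x}

theorem symSet_add {n : ℕ} {anti : Bool} {a b : L n} (ha : a ∈ symSet n anti)
    (hb : b ∈ symSet n anti) : a + b ∈ symSet n anti := (V n anti).add_mem ha hb

theorem symSet_zero {n : ℕ} {anti : Bool} : 0 ∈ symSet n anti := (V n anti).zero_mem

theorem symSet_smul {n : ℕ} {anti : Bool} (c : ℂ) {a : L n} (ha : a ∈ symSet n anti) :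
    c • a ∈ symSet n anti := (V n anti).smul_mem c ha

/-- The symmetric or antisymmetric tensors as a subspace. -/
def Sub (n : ℕ) (anti : Bool) : Submodule ℂ (L n) where
  carrier := symSet n anti
  add_mem' := symSet_add
  zero_mem' := symSet_zero
  smul_mem' := symSet_smul

/-- The space of symmetric or antisymmetric tensors, with the induced norm. -/
def W (n : ℕ) (anti : Bool) : Type := Sub n anti

noncomputable instance (n : ℕ) (anti : Bool) : NormedAddCommGroup (W n anti) :=
  (inferInstance : NormedAddCommGroup (Sub n anti))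

noncomputable instance (n : ℕ) (anti : Bool) : NormedSpace ℂ (W n anti) :=
  (inferInstance : NormedSpace ℂ (Sub n anti))

/-- The coordinates of a symmetric or antisymmetric tensor. -/
def W.co {n : ℕ} {anti : Bool} (u : W n anti) : (Fin n → ℕ) → ℂ := L.co (Subtype.val u)

/-- `A` is the restriction of `(1 / n!) ∑_π A_{π 1} ⊗ ⋯ ⊗ A_{π n}` to the symmetric or
antisymmetric tensors, where the factors are the shift powers with signed exponents `κ`. -/
def IsProd {n : ℕ} {anti : Bool} (κ : Fin n → ℤ) (A : W n anti →L[ℂ] W n anti) : Prop :=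
  ∀ (u : W n anti) (x : Fin n → ℕ),
    (A u).co x = ((n.factorial : ℂ))⁻¹ * ∑ π : Equiv.Perm (Fin n), sf (κ ∘ π) u.co x

/-- The operator norm of a bounded operator. -/
noncomputable def opNorm {E : Type} [NormedAddCommGroup E] [NormedSpace ℂ E] (A : E →L[ℂ] E) : ℝ :=
  ‖A‖

/-- The spectrum of a bounded operator. -/
def spec {E : Type} [NormedAddCommGroup E] [NormedSpace ℂ E] (A : E →L[ℂ] E) : Set ℂ :=
  spectrum ℂ A

/-- The closed convex hull of a set of complex numbers. -/
def hull (S : Set ℂ) : Set ℂ := closure (convexHull ℝ S)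

end Pool.Agent.H46.Ts
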