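import Mathlib

open Equiv

namespace Pool.Agent.H46.Ts

variable {n : ℕ}

/-- The tensor power of `ℓ²`, realised as `ℓ²(ℕⁿ)`: the point mass at `x` is
`e_{x 1} ⊗ ⋯ ⊗ e_{x n}`. -/
noncomputable abbrev H (n : ℕ) := lp (fun _ : Fin n → ℕ => ℂ) 2

/-- Coordinates of `(A₁ ⊗ ⋯ ⊗ Aₙ) u`, where `Aᵢ = S ^ k` if `κ i = k ≥ 0` and
`Aᵢ = (S*) ^ k` if `κ i = -k ≤ 0`. -/
noncomputable def sf (κ : Fin n → ℤ) (u : (Fin n → ℕ) → ℂ) (x : Fin n → ℕ) : ℂ :=
  if ∀ i, κ i ≤ x i then u fun i => ((x i : ℤ) - κ i).toNat else 0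

lemma sf_sum_le (κ : Fin n → ℤ) (u : H n) (s : Finset (Fin n → ℕ)) :
    ∑ x ∈ s, ‖sf κ u x‖ ^ (2 : ENNReal).toReal ≤ ‖u‖ ^ (2 : ENNReal).toReal := by
  classical
  have h2 : 0 < (2 : ENNReal).toReal := by norm_num
  let g : (Fin n → ℕ) → Fin n → ℕ := fun x i => ((x i : ℤ) - κ i).toNat
  have h1 : ∑ x ∈ s, ‖sf κ u x‖ ^ (2 : ENNReal).toReal =
      ∑ x ∈ s.filter (fun x => ∀ i, κ i ≤ x i), ‖u (g x)‖ ^ (2 : ENNReal).toReal := by
    rw [Finset.sum_filter]
    refine Finset.sum_congr rfl fun x _ => ?_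
    unfold sf
    split_ifs
    · rfl
    · simp
  rw [h1, ← Finset.sum_image (g := g) (f := fun y => ‖u y‖ ^ (2 : ENNReal).toReal)]
  · exact lp.sum_rpow_le_norm_rpow h2 u _
  · intro x hx y hy hxy
    have hx' := (Finset.mem_filter.1 hx).2
    have hy' := (Finset.mem_filter.1 hy).2
    funext i
    have := congrFun hxy i
    have a := hx' i
    have b := hy' i
    simp only [g] at this
    omega

/-- The operator `A₁ ⊗ ⋯ ⊗ Aₙ` on `ℓ²(ℕⁿ)`, given in coordinates by `sf`. -/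
noncomputable def tens (κ : Fin n → ℤ) : H n →L[ℂ] H n :=
  LinearMap.mkContinuous
    { toFun := fun u => ⟨sf κ u, memℓp_gen' (sf_sum_le κ u)⟩
      map_add' := fun u v => by
        ext x
        change sf κ (u + v) x = sf κ u x + sf κ v x
        unfold sf
        split_ifs <;> simp
      map_smul' := fun c u => by
        ext x
        change sf κ (c • u) x = c • sf κ u x
        unfold sf
        split_ifs <;> simp } 1
    fun u => by
      rw [one_mul]
      exact lp.norm_le_of_forall_sum_le (by norm_num) (norm_nonneg _) (sf_sum_le κ u)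

/-- The average `(1 / n!) ∑_π A_{π 1} ⊗ ⋯ ⊗ A_{π n}`. -/
noncomputable def avg (κ : Fin n → ℤ) : H n →L[ℂ] H n :=
  ((n.factorial : ℂ))⁻¹ • ∑ π : Perm (Fin n), tens (κ ∘ π)

/-- The trivial character (`anti = false`) or the sign character (`anti = true`). -/
def eps (anti : Bool) (π : Perm (Fin n)) : ℂ := if anti then ((Perm.sign π : ℤ) : ℂ) else 1

/-- The symmetric (`anti = false`) or antisymmetric (`anti = true`) tensors. -/
def V (n : ℕ) (anti : Bool) : Submodule ℂ (H n) where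
  carrier := {u | ∀ (π : Perm (Fin n)) (x : Fin n → ℕ), u (x ∘ π) = eps anti π * u x}
  add_mem' := fun {u v} hu hv π x => by
    simp only [lp.coeFn_add, Pi.add_apply, hu π x, hv π x, mul_add]
  zero_mem' := fun π x => by simp
  smul_mem' := fun c u hu π x => by
    simp only [lp.coeFn_smul, Pi.smul_apply, hu π x, smul_eq_mul]; ring

lemma tens_apply (κ : Fin n → ℤ) (u : H n) (x : Fin n → ℕ) : tens κ u x = sf κ u x := rfl

lemma avg_apply (κ : Fin n → ℤ) (u : H n) (x : Fin n → ℕ) :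
    avg κ u x = ((n.factorial : ℂ))⁻¹ * ∑ π : Perm (Fin n), sf (κ ∘ π) u x := by
  simp only [avg, smul_apply, sum_apply, lp.coeFn_smul,
    lp.coeFn_sum, Pi.smul_apply, Finset.sum_apply, smul_eq_mul, tens_apply]

lemma avg_mem (κ : Fin n → ℤ) (anti : Bool) : ∀ u ∈ V n anti, avg κ u ∈ V n anti := by
  intro u hu σ x
  rw [avg_apply, avg_apply, mul_left_comm]
  congr 1
  rw [Finset.mul_sum, ← Equiv.sum_comp (Equiv.mulRight σ) fun π => sf (κ ∘ π) u (x ∘ σ)]
  refine Finset.sum_congr rfl fun π _ => ?_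
  unfold sf
  have h1 : (∀ i, (κ ∘ (Equiv.mulRight σ π)) i ≤ ((x ∘ σ) i : ℤ)) ↔ ∀ i, (κ ∘ π) i ≤ x i :=
    ⟨fun h i => by simpa using h (σ.symm i), fun h i => h (σ i)⟩
  by_cases h : ∀ i, (κ ∘ π) i ≤ x i
  · rw [if_pos h, if_pos (h1.2 h), ← hu σ]
    rfl
  · rw [if_neg h, if_neg (fun h' => h (h1.1 h')), mul_zero]

/-- The symmetric (`anti = false`) or antisymmetric (`anti = true`) tensor product of the
shift powers with exponents `κ`: the restriction of `avg κ` to `V n anti`. -/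
noncomputable def T (κ : Fin n → ℤ) (anti : Bool) : V n anti →L[ℂ] V n anti :=
  (avg κ).restrict (avg_mem κ anti)

end Pool.Agent.H46.Ts
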