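import Pool.Agent.H46.UnfDefs

namespace Pool.Agent.H46.Unf

open scoped RealInnerProductSpace
open Filter Topology Module

theorem potential {V Γ : Type*} [Group Γ] {T : SimpleGraph V} (hT : T.IsTree) (c : V → V → Γ)
    (hc : ∀ u v, c u v * c v u = 1) (r : V) :
    ∃ A : V → Γ, A r = 1 ∧ ∀ u v, T.Adj u v → A v = A u * c u v := by
  classical
  choose p hp using fun v => (hT.existsUnique_path r v).exists
  let w : ∀ {a b : V}, T.Walk a b → Γ := fun q => (q.darts.map fun d => c d.fst d.snd).prod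
  have hw : ∀ {a b : V} (q : T.Walk r a) (h : T.Adj a b), w (q.concat h) = w q * c a b := by
    intro a b q h; simp [w, SimpleGraph.Walk.darts_concat]
  refine ⟨fun v => w (p v), ?_, fun u v h => ?_⟩
  · have : p r = SimpleGraph.Walk.nil := (SimpleGraph.Walk.isPath_iff_nil.1 (hp r)).eq_nil
    simp [this, w]
  · by_cases hu : u ∈ (p v).support
    · simp only [hT.isAcyclic.path_concat (hp u) (hp v) h hu, hw]
    · have hv := hT.isAcyclic.mem_support_of_ne_mem_support_of_adj_of_isPath (hp u) (hp v) h hu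
      simp only [hT.isAcyclic.path_concat (hp v) (hp u) h.symm hv, hw, mul_assoc, hc, mul_one]

theorem path_sub {V : Type*} {G : SimpleGraph V} (f : ℕ → V) : ∀ L,
    (∀ i ≤ L, ∀ j ≤ L, f i = f j → i = j) → (∀ i < L, G.Adj (f i) (f (i + 1))) →
    ∃ H ≤ G, H.IsAcyclic ∧ (∀ i < L, H.Adj (f i) (f (i + 1))) ∧ ∀ a b, H.Adj a b → ∃ j ≤ L, a = f j
  | 0, _, _ => ⟨⊥, bot_le, SimpleGraph.isAcyclic_bot, by simp, by simp⟩
  | L + 1, h1, h2 => by
    obtain ⟨H, a1, a2, a3, a4⟩ := path_sub f L (fun i hi j hj => h1 i (by omega) j (by omega))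
      fun i hi => h2 i (by omega)
    have hL := h2 L (by omega)
    refine ⟨H ⊔ SimpleGraph.edge (f (L + 1)) (f L), sup_le a1 ?_,
      a2.sup_edge_of_not_reachable ?_, fun i hi => ?_, fun a b h => ?_⟩
    · intro a b h
      rw [SimpleGraph.edge_adj] at h
      rcases h.1 with ⟨rfl, rfl⟩ | ⟨rfl, rfl⟩
      exacts [hL.symm, hL]
    · rintro ⟨q⟩
      cases hq : q.length with
      | zero => exact hL.ne' (SimpleGraph.Walk.eq_of_length_eq_zero hq)
      | succ n =>
        obtain ⟨j, hj, e⟩ := a4 _ _ (q.adj_getVert_succ (i := 0) (by omega))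
        rw [q.getVert_zero] at e
        have := h1 _ le_rfl _ (by omega) e
        omega
    · rcases (Nat.lt_succ_iff.1 hi).lt_or_eq with h | rfl
      · exact Or.inl (a3 i h)
      · exact Or.inr ((SimpleGraph.edge_adj ..).2 ⟨Or.inr ⟨rfl, rfl⟩, hL.ne⟩)
    · rcases h with h | h
      · obtain ⟨j, hj, e⟩ := a4 a b h; exact ⟨j, by omega, e⟩
      · rw [SimpleGraph.edge_adj] at h
        rcases h.1 with ⟨rfl, _⟩ | ⟨rfl, _⟩
        exacts [⟨_, le_rfl, rfl⟩, ⟨_, by omega, rfl⟩]

noncomputable def rf (a x : E4) : E4 := x - (2 * (⟪a, x⟫ - 2) / ⟪a, a⟫) • a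

theorem rf_rf (a x : E4) : rf a (rf a x) = x := by
  by_cases h : ⟪a, a⟫ = 0
  · simp only [rf, h, div_zero, zero_smul, sub_zero]
  · simp only [rf, inner_sub_right, inner_smul_right, sub_sub, ← add_smul]
    rw [sub_eq_self]; convert zero_smul ℝ a; field_simp; ring

noncomputable def rfl' (a : E4) : E4 ≃ᵢ E4 where
  toFun := rf a
  invFun := rf a
  left_inv := rf_rf a
  right_inv := rf_rf a
  isometry_toFun := Isometry.of_dist_eq fun x y => by
    rw [dist_eq_norm, dist_eq_norm, ← sq_eq_sq₀ (norm_nonneg _) (norm_nonneg _),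
      ← real_inner_self_eq_norm_sq, ← real_inner_self_eq_norm_sq]
    have : rf a x - rf a y = (x - y) - (2 * ⟪a, x - y⟫ / ⟪a, a⟫) • a := by
      simp only [rf, inner_sub_right]; module
    show ⟪rf a x - rf a y, rf a x - rf a y⟫ = _
    rw [this]
    generalize x - y = d
    simp only [inner_sub_left, inner_sub_right, inner_smul_left, inner_smul_right,
      real_inner_comm a d, conj_trivial]
    by_cases h : ⟪a, a⟫ = 0
    · simp only [h, div_zero, zero_mul, sub_zero]
    · field_simp; ring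

def face (S J : Set E4) : Set E4 := {x | x ∈ poly S ∧ ∀ u ∈ J, ⟪u, x⟫ = 1}

theorem ev_strict {S : Set E4} (hS : S.Finite) {X : Type*} [TopologicalSpace X] (J : Set E4)
    (γ : X → E4) (hγ : Continuous γ) (t : X) (h : ∀ u ∈ S, u ∉ J → ⟪u, γ t⟫ < 1) :
    ∀ᶠ s in 𝓝 t, ∀ u ∈ S, u ∉ J → ⟪u, γ s⟫ < 1 := by
  rw [eventually_all_finite hS]
  intro u hu
  by_cases hJ : u ∈ J
  · simp [hJ]
  · exact ((continuous_const.inner hγ).continuousAt.eventually_lt continuousAt_const
      (h u hu hJ)).mono fun s hs _ => hs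

theorem span_face {S : Set E4} (hS : S.Finite) (J : Set E4) (x : E4) (h1 : ∀ u ∈ J, ⟪u, x⟫ = 1)
    (h2 : ∀ u ∈ S, u ∉ J → ⟪u, x⟫ < 1) : vectorSpan ℝ (face S J) = (Submodule.span ℝ J)ᗮ := by
  have mem : ∀ d, d ∈ (Submodule.span ℝ J)ᗮ ↔ ∀ u ∈ J, ⟪u, d⟫ = 0 := fun d => by
    rw [Submodule.mem_orthogonal]
    refine ⟨fun h u hu => h u (Submodule.subset_span hu), fun h u hu => ?_⟩
    induction hu using Submodule.span_induction with
    | mem u hu => exact h u hu
    | zero => simp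
    | add a b _ _ ha hb => rw [inner_add_left, ha, hb, add_zero]
    | smul r a _ ha => rw [inner_smul_left, ha, mul_zero]
  have hm : ∀ y, (∀ u ∈ J, ⟪u, y⟫ = 1) → (∀ u ∈ S, u ∉ J → ⟪u, y⟫ < 1) → y ∈ face S J :=
    fun y a b => ⟨fun u hu => by
      by_cases hJ : u ∈ J
      exacts [(a u hJ).le, (b u hu hJ).le], a⟩
  apply le_antisymm
  · rw [vectorSpan_def, Submodule.span_le]
    rintro _ ⟨a, ha, b, hb, rfl⟩
    exact (mem _).2 fun u hu => by simp [inner_sub_right, ha.2 u hu, hb.2 u hu]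
  · intro d hd
    have := ev_strict hS J (fun t : ℝ => x + t • d) (by fun_prop) 0 (by simpa using h2)
    obtain ⟨t, ht, h0⟩ := ((this.filter_mono nhdsWithin_le_nhds).and
      (self_mem_nhdsWithin (s := {0}ᶜ))).exists
    have h3 := vsub_mem_vectorSpan ℝ (hm _ (fun u hu => by
      rw [inner_add_right, inner_smul_right, (mem d).1 hd u hu, h1 u hu]; simp) ht) (hm x h1 h2)
    rw [vsub_eq_sub, add_sub_cancel_left] at h3
    exact (Submodule.smul_mem_iff _ h0).1 h3

theorem dim_face {S : Set E4} (hS : S.Finite) (J : Set E4) (x : E4) (h1 : ∀ u ∈ J, ⟪u, x⟫ = 1)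
    (h2 : ∀ u ∈ S, u ∉ J → ⟪u, x⟫ < 1) : finrank ℝ (Submodule.span ℝ J) + dim (face S J) = 4 := by
  rw [dim, span_face hS J x h1 h2, Submodule.finrank_add_finrank_orthogonal]; simp

theorem poly_convex (S : Set E4) : Convex ℝ (poly S) := by
  intro x hx y hy a b ha hb hab u hu
  rw [inner_add_right, inner_smul_right, inner_smul_right]
  nlinarith [hx u hu, hy u hu]

section
variable {S : Set E4} (hS : S.Finite) {c m : ℝ} (hc : ∀ u ∈ S, ⟪u, u⟫ = c)
  (hm : ∀ u ∈ S, ∀ w ∈ S, w ≠ u → ⟪u, w⟫ ≤ m) (hmc : m < c) (h0 : 0 < m)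
include hS hc hm hmc h0

omit hS in
theorem ctr {u : E4} (hu : u ∈ S) : ⟪u, c⁻¹ • u⟫ = 1 ∧ ∀ w ∈ S, w ∉ ({u} : Set E4) →
    ⟪w, c⁻¹ • u⟫ < 1 := by
  have : 0 < c := by linarith
  refine ⟨by rw [inner_smul_right, hc u hu]; field_simp, fun w hw h => ?_⟩
  rw [inner_smul_right, inv_mul_lt_iff₀ this, real_inner_comm]
  linarith [hm u hu w hw h]

omit hS in
theorem ctr_mem {u : E4} (hu : u ∈ S) : c⁻¹ • u ∈ face S {u} := by
  obtain ⟨a, b⟩ := ctr hc hm hmc h0 hu
  refine ⟨fun w hw => ?_, by simpa using a⟩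
  by_cases h : w = u
  exacts [h ▸ a.le, (b w hw h).le]

omit hS hm in
theorem ne0 {u : E4} (hu : u ∈ S) : u ≠ 0 := fun h => by
  have := hc u hu; rw [h, inner_zero_left] at this; linarith

theorem facet_of {u : E4} (hu : u ∈ S) : IsExposed ℝ (poly S) (face S {u}) ∧ dim (face S {u}) = 3 := by
  obtain ⟨a, b⟩ := ctr hc hm hmc h0 hu
  constructor
  · refine fun _ => ⟨innerSL ℝ u, Set.ext fun x => ⟨fun hx => ⟨hx.1, fun y hy => ?_⟩, fun hx =>
      ⟨hx.1, ?_⟩⟩⟩
    · simp only [innerSL_apply_apply, hx.2 u rfl]; exact hy u hu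
    · rintro _ rfl
      have := hx.2 _ (ctr_mem hc hm hmc h0 hu).1
      simp only [innerSL_apply_apply, a] at this
      exact le_antisymm (hx.1 _ hu) this
  · have := dim_face hS {u} _ (by simpa using a) b
    rw [finrank_span_singleton (ne0 hc hmc h0 hu)] at this
    omega

theorem facet_eq (F : Facet (poly S)) : ∃ u ∈ S, F.1 = face S {u} := by
  obtain ⟨F, hF, hd⟩ := F
  have hne : F.Nonempty := by
    rw [Set.nonempty_iff_ne_empty]; rintro rfl
    rw [dim, vectorSpan_empty, finrank_bot] at hd; omega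
  have hcv := hF.convex (poly_convex S)
  have hsub := hF.subset
  obtain ⟨l, hl⟩ := hF hne
  have hu : ∃ u ∈ S, ∀ x ∈ F, ⟪u, x⟫ = 1 := by
    by_contra hn; push Not at hn
    have key : ∀ T : Set E4, T.Finite → T ⊆ S → ∃ x ∈ F, ∀ u ∈ T, ⟪u, x⟫ < 1 := by
      intro T hT
      induction T, hT using Set.Finite.induction_on with
      | empty => exact fun _ => hne.imp fun x hx => ⟨hx, by simp⟩
      | @insert a T _ _ ih =>
        intro h
        obtain ⟨x, hx, hx'⟩ := ih ((Set.subset_insert _ _).trans h)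
        obtain ⟨y, hy, hy'⟩ := hn a (h (Set.mem_insert _ _))
        refine ⟨_, hcv hx hy (a := 1 / 2) (b := 1 / 2) (by norm_num) (by norm_num) (by norm_num),
          fun u hu => ?_⟩
        rw [inner_add_right, inner_smul_right, inner_smul_right]
        have a1 := hsub hx u (h hu)
        have a2 := hsub hy u (h hu)
        rcases hu with rfl | hu
        · linarith [lt_of_le_of_ne a2 hy']
        · linarith [hx' u hu]
    obtain ⟨x, hx, hx'⟩ := key S hS subset_rfl
    have hl0 : ∀ d, l d ≤ 0 := fun d => by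
      have := ev_strict hS ∅ (fun t : ℝ => x + t • d) (by fun_prop) 0 (by simpa using hx')
      obtain ⟨t, ht, h0⟩ := ((this.filter_mono nhdsWithin_le_nhds).and
        (self_mem_nhdsWithin (s := Set.Ioi 0))).exists
      have h3 := (hl ▸ hx).2 _ fun u hu => (ht u hu (Set.notMem_empty _)).le
      rw [map_add, map_smul, smul_eq_mul] at h3
      have h4 : 0 < t := h0
      nlinarith
    have hFP : F = face S ∅ := by
      rw [hl]; ext y
      refine ⟨fun h => ⟨h.1, by simp⟩, fun h => ⟨h.1, fun z _ => ?_⟩⟩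
      have := hl0 (z - y); rw [map_sub] at this; linarith
    have := dim_face hS ∅ x (by simp) fun u hu _ => hx' u hu
    rw [← hFP, hd, Submodule.span_empty, finrank_bot] at this
    omega
  obtain ⟨u, hu, hu'⟩ := hu
  have hle : F ⊆ face S {u} := fun x hx => ⟨hsub hx, by simpa using hu' x hx⟩
  refine ⟨u, hu, hle.antisymm fun z hz => ?_⟩
  have e : vectorSpan ℝ F = vectorSpan ℝ (face S {u}) :=
    Submodule.eq_of_le_of_finrank_eq (vectorSpan_mono ℝ hle)
      (hd.trans (facet_of hS hc hm hmc h0 hu).2.symm)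
  have hk : vectorSpan ℝ F ≤ LinearMap.ker (l : E4 →ₗ[ℝ] ℝ) := by
    rw [vectorSpan_def, Submodule.span_le]
    rintro _ ⟨a, ha, b, hb, rfl⟩
    rw [hl] at ha hb
    simp only [SetLike.mem_coe, LinearMap.mem_ker, vsub_eq_sub, map_sub, ContinuousLinearMap.coe_coe]
    linarith [ha.2 b hb.1, hb.2 a ha.1]
  obtain ⟨x, hx⟩ := hne
  have h5 := hk (e ▸ vsub_mem_vectorSpan ℝ hz (hle hx))
  simp only [LinearMap.mem_ker, vsub_eq_sub, map_sub, ContinuousLinearMap.coe_coe] at h5
  rw [hl] at hx ⊢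
  exact ⟨hz.1, fun y hy => by linarith [hx.2 y hy]⟩

theorem ridge {u v : E4} (hu : u ∈ S) (hv : v ∈ S) (h : ⟪u, v⟫ = m) :
    dim (face S {u} ∩ face S {v}) = 2 := by
  have e : face S {u} ∩ face S {v} = face S {u, v} := by ext x; simp [face]
  have hcm : 0 < c + m := by linarith
  have := dim_face hS {u, v} ((c + m)⁻¹ • (u + v)) (by
    rintro w (rfl | rfl) <;> rw [inner_smul_right, inner_add_right]
    · rw [hc _ hu, h]; field_simp
    · rw [hc _ hv, real_inner_comm, h, add_comm m]; field_simp) (fun w hw hn => by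
    rw [Set.mem_insert_iff, Set.mem_singleton_iff, not_or] at hn
    rw [inner_smul_right, inner_add_right, inv_mul_lt_iff₀ hcm, real_inner_comm, real_inner_comm v]
    linarith [hm u hu w hw hn.1, hm v hv w hw hn.2])
  have li : LinearIndependent ℝ ![u, v] := LinearIndependent.pair_iff.2 fun s t hst => by
    have a := congrArg (fun z => ⟪u, z⟫) hst
    have b := congrArg (fun z => ⟪v, z⟫) hst
    simp only [inner_add_right, inner_smul_right, inner_zero_right, hc _ hu, hc _ hv, h,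
      real_inner_comm u v] at a b
    have h1 : (s + t) * (c + m) = 0 := by linarith
    have h2 : (s - t) * (c - m) = 0 := by linarith
    have := (mul_eq_zero.1 h1).resolve_right hcm.ne'
    have := (mul_eq_zero.1 h2).resolve_right (by linarith)
    constructor <;> linarith
  have h2 := finrank_span_eq_card li
  rw [show Set.range ![u, v] = {u, v} by ext; simp [or_comm]] at h2
  rw [h2] at this
  rw [e]; simp at this; omega

end

end Pool.Agent.H46.Unf
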