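import Pool.Agent.H46.Unf1

namespace Pool.Agent.H46.Unf

open scoped RealInnerProductSpace
open Filter Topology Module

theorem rf_eq {c m : ℝ} {u v : E4} (hu : ⟪u, u⟫ = c) (hv : ⟪v, v⟫ = c) (h : ⟪u, v⟫ = m)
    (h0 : c + m ≠ 0) (y : E4) :
    rf (u + v) y = y - ((⟪u, y⟫ + ⟪v, y⟫ - 2) / (c + m)) • (u + v) := by
  rw [rf, inner_add_left, inner_add_left, inner_add_right, inner_add_right, hu, hv, h,
    real_inner_comm u v, h]
  congr 2
  rw [show c + m + (m + c) = 2 * (c + m) by ring]; field_simp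

theorem rf_in {c m : ℝ} {u v : E4} (hu : ⟪u, u⟫ = c) (hv : ⟪v, v⟫ = c) (h : ⟪u, v⟫ = m)
    (h0 : c + m ≠ 0) (y : E4) : ⟪u, rf (u + v) y⟫ = 2 - ⟪v, y⟫ := by
  rw [rf_eq hu hv h h0, inner_sub_right, inner_smul_right, inner_add_right, hu, h]
  field_simp; ring

theorem notAllNet {S : Set E4} (hS : S.Finite) {c m : ℝ} (hc : ∀ u ∈ S, ⟪u, u⟫ = c)
    (hm : ∀ u ∈ S, ∀ w ∈ S, w ≠ u → ⟪u, w⟫ ≤ m) (hmc : m < c) (h0 : 0 < m) (u₀ : E4)
    (conn : ∀ u ∈ S, Relation.ReflTransGen (fun a b => a ∈ S ∧ b ∈ S ∧ ⟪a, b⟫ = m) u₀ u)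
    (hu₀ : u₀ ∈ S) (L : ℕ) (hL : 0 < L) (f y : ℕ → E4) (hf : ∀ i ≤ L, f i ∈ S)
    (hinj : ∀ i ≤ L, ∀ j ≤ L, f i = f j → i = j) (hadj : ∀ i < L, ⟪f i, f (i + 1)⟫ = m)
    (hy : ∀ i ≤ L, ⟪f i, y i⟫ = 1)
    (hst : ∀ i < L, (c + m) • y i = (c + m) • y (i + 1) - (⟪f i, y (i + 1)⟫ - 1) • (f i + f (i + 1)))
    (s0 : ∀ w ∈ S, w ≠ f 0 → ⟪w, y 0⟫ < 1) (sL : ∀ w ∈ S, w ≠ f L → ⟪w, y L⟫ < 1) :
    ¬AllNet (poly S) := by
  intro hall
  have hcm : c + m ≠ 0 := by linarith
  choose nv hnv env using facet_eq hS hc hm hmc h0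
  let fac : ∀ u ∈ S, Facet (poly S) := fun u hu => ⟨_, facet_of hS hc hm hmc h0 hu⟩
  have nvf : ∀ u hu, nv (fac u hu) = u := fun u hu => by
    by_contra h
    have h1 : c⁻¹ • u ∈ face S {nv (fac u hu)} := env (fac u hu) ▸ ctr_mem hc hm hmc h0 hu
    exact ((ctr hc hm hmc h0 hu).2 _ (hnv _) h).ne (h1.2 _ rfl)
  have fnv : ∀ F, fac _ (hnv F) = F := fun F => Subtype.ext (env F).symm
  let G' : SimpleGraph (Facet (poly S)) :=
    { Adj := fun F G => ⟪nv F, nv G⟫ = m
      symm := ⟨fun F G h => by rw [real_inner_comm]; exact h⟩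
      loopless := ⟨fun F h => by rw [hc _ (hnv F)] at h; exact hmc.ne' h⟩ }
  have hle : G' ≤ dual (poly S) := fun F G h =>
    ⟨h.ne, by rw [env F, env G]; exact ridge hS hc hm hmc h0 (hnv F) (hnv G) h⟩
  have hconn : G'.Connected := by
    have key : ∀ u, Relation.ReflTransGen (fun a b => a ∈ S ∧ b ∈ S ∧ ⟪a, b⟫ = m) u₀ u →
        ∀ hu, G'.Reachable (fac u₀ hu₀) (fac u hu) := by
      intro u h
      induction h with
      | refl => exact fun _ => .refl _
      | tail _ h ih =>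
        refine fun hu => (ih h.1).trans (SimpleGraph.Adj.reachable ?_)
        show ⟪nv _, nv _⟫ = m
        rw [nvf _ hu, nvf _ h.1]; exact h.2.2
    have : Nonempty (Facet (poly S)) := ⟨fac u₀ hu₀⟩
    refine ⟨fun F G => ?_⟩
    rw [← fnv F, ← fnv G]
    exact (key _ (conn _ (hnv F)) (hnv F)).symm.trans (key _ (conn _ (hnv G)) (hnv G))
  let ff : ℕ → Facet (poly S) := fun i => if h : i ≤ L then fac _ (hf i h) else fac u₀ hu₀
  have nff : ∀ i ≤ L, nv (ff i) = f i := fun i hi => by simp only [ff, dif_pos hi, nvf]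
  obtain ⟨H, H1, H2, H3, -⟩ := path_sub (G := G') ff L
    (fun i hi j hj h => hinj i hi j hj (by rw [← nff i hi, ← nff j hj, h]))
    (fun i hi => by
      show ⟪nv _, nv _⟫ = m
      rw [nff i hi.le, nff _ hi]; exact hadj i hi)
  obtain ⟨T, T1, T2, T3⟩ := hconn.exists_isTree_le_of_le_of_isAcyclic H1 H2
  obtain ⟨A, A0, A1⟩ := potential T3 (fun F G => rfl' (nv F + nv G))
    (fun F G => IsometryEquiv.ext fun x => by
      show rf _ (rf _ x) = x
      rw [add_comm (nv G), rf_rf]) (ff 0)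
  have A2 : ∀ F G, T.Adj F G → ∀ x, A G x = A F (rf (nv F + nv G) x) := fun F G h x => by
    rw [A1 F G h]; rfl
  set r := f 0 with hr
  have hrS : r ∈ S := hf 0 (Nat.zero_le _)
  have inv : ∀ F, ∀ x, ⟪nv F, x⟫ = 1 ↔ ⟪r, A F x⟫ = 1 := by
    intro F
    have := (SimpleGraph.reachable_iff_reflTransGen _ _).1 (T3.connected.preconnected (ff 0) F)
    induction this with
    | refl => intro x; rw [A0, nff 0 (Nat.zero_le _)]; rfl
    | @tail F G _ h ih =>
      intro x
      rw [A2 F G h, ← ih, rf_in (hc _ (hnv F)) (hc _ (hnv G)) (T2 h) hcm]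
      constructor <;> intro h <;> linarith
  have : Fact (finrank ℝ E4 = 3 + 1) := ⟨by simp⟩
  let e := (OrthonormalBasis.fromOrthogonalSpanSingleton (𝕜 := ℝ) 3 (ne0 hc hmc h0 hrS)).repr
  let π : E4 → E3 := fun x => e ((ℝ ∙ r)ᗮ.orthogonalProjectionOnto x)
  let ι : E3 → E4 := fun z => (e.symm z : E4) + c⁻¹ • r
  have cπ : Continuous π := e.continuous.comp (ContinuousLinearMap.continuous _)
  have cι : Continuous ι := (continuous_subtype_val.comp e.symm.continuous).add continuous_const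
  have hcr := (ctr hc hm hmc h0 hrS).1
  have ι1 : ∀ z, ⟪r, ι z⟫ = 1 := fun z => by
    simp only [ι]
    rw [inner_add_right, hcr, Submodule.mem_orthogonal_singleton_iff_inner_right.1 (e.symm z).2,
      zero_add]
  have πd : ∀ x y (hx : ⟪r, x⟫ = 1) (hy : ⟪r, y⟫ = 1), π x - π y = e ⟨x - y,
      Submodule.mem_orthogonal_singleton_iff_inner_right.2 (by
        rw [inner_sub_right, hx, hy, sub_self])⟩ := by
    intro x y hx hy
    simp only [π]
    rw [← map_sub, ← map_sub]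
    congr 1
    exact Submodule.orthogonalProjectionOnto_mem_subspace_eq_self (K := (ℝ ∙ r)ᗮ) ⟨x - y, _⟩
  have πiso : ∀ x y, ⟪r, x⟫ = 1 → ⟪r, y⟫ = 1 → dist (π x) (π y) = dist x y := fun x y hx hy => by
    rw [dist_eq_norm, dist_eq_norm, πd x y hx hy, e.norm_map]; rfl
  have πι : ∀ z, π (ι z) = z := fun z => by
    simp only [π, ι]
    rw [map_add, Submodule.orthogonalProjectionOnto_mem_subspace_eq_self, map_smul,
      Submodule.orthogonalProjectionOnto_orthogonalComplement_singleton_eq_zero]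
    simp
  let φ : Facet (poly S) → E4 → E3 := fun F x => π (A F x)
  let B : Facet (poly S) → E3 → E4 := fun F z => (A F).symm (ι z)
  have B1 : ∀ F z, ⟪nv F, B F z⟫ = 1 := fun F z => (inv F _).2 (by simp [B, ι1])
  have B2 : ∀ F z, φ F (B F z) = z := fun F z => by simp [φ, B, πι]
  have φi : ∀ F x y, ⟪nv F, x⟫ = 1 → ⟪nv F, y⟫ = 1 → dist (φ F x) (φ F y) = dist x y :=
    fun F x y hx hy => (πiso _ _ ((inv F x).1 hx) ((inv F y).1 hy)).trans ((A F).dist_eq _ _)
  have B3 : ∀ F x, ⟪nv F, x⟫ = 1 → B F (φ F x) = x := fun F x hx =>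
    dist_eq_zero.1 (by rw [← φi F _ _ (B1 F _) hx, B2, dist_self])
  have onF : ∀ (F : Facet (poly S)) x, x ∈ F.1 → x ∈ poly S ∧ ⟪nv F, x⟫ = 1 := fun F x hx => by
    rw [env F] at hx; exact ⟨hx.1, hx.2 _ rfl⟩
  have hun : IsUnfolding (poly S) T φ := by
    refine ⟨T3, T2.trans hle, fun F x hx y hy => φi F x y (onF F x hx).2 (onF F y hy).2,
      fun F G h => ⟨fun x hx => ?_, ?_⟩⟩
    · simp only [φ]
      rw [A2 F G h, rf_eq (hc _ (hnv F)) (hc _ (hnv G)) (T2 h) hcm, (onF F x hx.1).2,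
        (onF G x hx.2).2]
      norm_num
    · have hm' : ⟪nv F, nv G⟫ = m := T2 h
      refine Set.disjoint_left.2 fun z z1 z2 => ?_
      have hz : ∀ᶠ w in 𝓝 z, ⟪nv G, B F w⟫ = 1 := by
        filter_upwards [mem_interior_iff_mem_nhds.1 z1, mem_interior_iff_mem_nhds.1 z2]
        rintro _ ⟨x, hx, rfl⟩ ⟨x', hx', e'⟩
        refine le_antisymm (by rw [B3 F x (onF F x hx).2]; exact (onF F x hx).1 _ (hnv G)) ?_
        have h3 : φ G x' = φ F (rf (nv F + nv G) x') := by simp only [φ]; rw [A2 F G h]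
        rw [← e', h3, B3 F _ (by
          rw [rf_in (hc _ (hnv F)) (hc _ (hnv G)) hm' hcm, (onF G x' hx').2]; norm_num),
          add_comm, rf_in (hc _ (hnv G)) (hc _ (hnv F)) (by rw [real_inner_comm]; exact hm') hcm]
        linarith [(onF G x' hx').1 _ (hnv F)]
      have cφ : Continuous fun t : ℝ => φ F (B F z + t • (c • nv G - m • nv F)) :=
        cπ.comp ((A F).continuous.comp (by fun_prop))
      have h4 := cφ.continuousAt (x := 0) |>.eventually (p := fun w => ⟪nv G, B F w⟫ = 1)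
        (by simpa [B2] using hz)
      obtain ⟨t, ht, t0⟩ := ((h4.filter_mono nhdsWithin_le_nhds).and
        (self_mem_nhdsWithin (s := {0}ᶜ))).exists
      rw [B3 F _ (by
        rw [inner_add_right, B1, inner_smul_right, inner_sub_right, inner_smul_right,
          inner_smul_right, hm', hc _ (hnv F)]; ring), inner_add_right, hz.self_of_nhds,
        inner_smul_right, inner_sub_right, inner_smul_right, inner_smul_right, hc _ (hnv G),
        real_inner_comm, hm'] at ht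
      have h5 : t * ((c - m) * (c + m)) = 0 := by linarith
      exact mul_ne_zero t0 (mul_ne_zero (by linarith) hcm) h5
  have hint : ∀ F x, ⟪nv F, x⟫ = 1 → (∀ w ∈ S, w ≠ nv F → ⟪w, x⟫ < 1) →
      φ F x ∈ interior (φ F '' F.1) := by
    intro F x h1 h2
    have cB : Continuous (B F) := (A F).symm.continuous.comp cι
    refine mem_interior_iff_mem_nhds.2 ((ev_strict hS {nv F} (B F) cB (φ F x)
      (by rw [B3 F x h1]; exact h2)).mono fun z hz => ⟨B F z, ?_, B2 F z⟩)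
    rw [env F]
    refine ⟨fun u hu => ?_, by simpa using B1 F z⟩
    by_cases h : u = nv F
    exacts [h ▸ (B1 F z).le, (hz u hu h).le]
  have chain : ∀ i ≤ L, A (ff i) (y i) = y 0 := by
    intro i hi
    induction i with
    | zero => rw [A0]; rfl
    | succ i ih =>
      rw [A2 _ _ (T1 (H3 i hi)), nff i (by omega), nff _ hi, ← ih (by omega),
        rf_eq (hc _ (hf i (by omega))) (hc _ (hf _ hi)) (hadj i hi) hcm, hy _ hi]
      congr 1
      apply smul_right_injective E4 hcm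
      simp only
      rw [hst i hi, smul_sub, smul_smul]
      congr 2; field_simp; ring
  have hne : ff 0 ≠ ff L := fun h => by
    have := hinj 0 (Nat.zero_le _) L le_rfl (by rw [← nff L le_rfl, ← h, nff 0 (Nat.zero_le _)])
    omega
  have a0 := hint (ff 0) (y 0) (by rw [nff 0 (Nat.zero_le _)]; exact hy 0 (Nat.zero_le _))
    (by rw [nff 0 (Nat.zero_le _)]; exact s0)
  have aL := hint (ff L) (y L) (by rw [nff L le_rfl]; exact hy L le_rfl)
    (by rw [nff L le_rfl]; exact sL)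
  have : φ (ff L) (y L) = φ (ff 0) (y 0) := by
    simp only [φ]; rw [chain L le_rfl, chain 0 (Nat.zero_le _)]
  exact Set.disjoint_left.1 (hall T φ hun _ _ hne) a0 (this ▸ aL)

end Pool.Agent.H46.Unf
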