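import Pool.Agent.H46.Unf2

namespace Pool.Agent.H46.Unf

open scoped RealInnerProductSpace

abbrev Zp := ℤ × ℤ
abbrev V := Zp × Zp × Zp × Zp
abbrev Q4 := ℕ × ℕ × ℕ × ℕ
abbrev B4 := Bool × Bool × Bool × Bool
abbrev El := V × Q4 × B4

noncomputable def val (z : Zp) : ℝ := z.1 + z.2 * g
def mu (x y : Zp) : Zp := (x.1 * y.1 + x.2 * y.2, x.1 * y.2 + x.2 * y.1 + x.2 * y.2)
def ad (x y : Zp) : Zp := (x.1 + y.1, x.2 + y.2)
def sb (x y : Zp) : Zp := (x.1 - y.1, x.2 - y.2)
def sg (b : Bool) (x : Zp) : Zp := if b then (-x.1, -x.2) else x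
def pos (x : Zp) : Bool :=
  decide (0 < 100000000 * x.1 + 161803398 * x.2) && decide (0 < 100000000 * x.1 + 161803399 * x.2)
def get (v : V) : ℕ → Zp
  | 0 => v.1
  | 1 => v.2.1
  | 2 => v.2.2.1
  | _ => v.2.2.2
def ip (u v : V) : Zp :=
  ad (ad (mu u.1 v.1) (mu u.2.1 v.2.1)) (ad (mu u.2.2.1 v.2.2.1) (mu u.2.2.2 v.2.2.2))
def act (q : Q4) (s : B4) (B : V) : V :=
  (sg s.1 (get B q.1), sg s.2.1 (get B q.2.1), sg s.2.2.1 (get B q.2.2.1), sg s.2.2.2 (get B q.2.2.2))
def evens : List Q4 := [(0, 1, 2, 3), (0, 2, 3, 1), (0, 3, 1, 2), (1, 0, 3, 2), (1, 2, 0, 3),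
  (1, 3, 2, 0), (2, 0, 1, 3), (2, 1, 3, 0), (2, 3, 0, 1), (3, 0, 2, 1), (3, 1, 0, 2), (3, 2, 1, 0)]
def signs : List B4 := [false, true].flatMap fun a => [false, true].flatMap fun b =>
  [false, true].flatMap fun c => [false, true].map fun d => (a, b, c, d)
def allv (bs : List V) (p : V → Bool) : Bool :=
  bs.all fun B => evens.all fun q => signs.all fun s => p (act q s B)
def elt (e : El) : V := act e.2.1 e.2.2 e.1
def okb (bs : List V) (e : El) : Bool := bs.contains e.1 && evens.contains e.2.1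
def chk (bs : List V) (m : Zp) : V → List El → V → Bool
  | a, [], b => a == b
  | a, e :: l, b => okb bs e && (ip a (elt e) == m && chk bs m (elt e) l b)
def step (cm : Zp) (D : ℤ) (u v y y' : V) : Bool :=
  (List.range 4).all fun i => mu cm (get y i) ==
    sb (mu cm (get y' i)) (mu (sb (ip u y') (D, 0)) (ad (get u i) (get v i)))

noncomputable def rb (B : V) : Fin 4 → ℝ := fun i => val (get B i)
noncomputable def rv (B : V) : E4 := WithLp.toLp 2 (rb B)

theorem g_sq : g * g = g + 1 := by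
  have := Real.mul_self_sqrt (show (0 : ℝ) ≤ 5 by norm_num)
  unfold g; nlinarith
theorem val_mu (x y : Zp) : val (mu x y) = val x * val y := by
  simp only [val, mu]; push_cast; linear_combination (-x.2 * y.2 : ℝ) * g_sq
theorem val_ad (x y : Zp) : val (ad x y) = val x + val y := by simp only [val, ad]; push_cast; ring
theorem val_sb (x y : Zp) : val (sb x y) = val x - val y := by simp only [val, sb]; push_cast; ring
theorem val_sg (b : Bool) (x : Zp) : val (sg b x) = if b then -val x else val x := by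
  cases b <;> simp [val, sg]; ring
theorem val_pos {x : Zp} (h : pos x = true) : 0 < val x := by
  simp only [pos, Bool.and_eq_true, decide_eq_true_eq] at h
  have h1 : (0 : ℝ) < 100000000 * x.1 + 161803398 * x.2 := by exact_mod_cast h.1
  have h2 : (0 : ℝ) < 100000000 * x.1 + 161803399 * x.2 := by exact_mod_cast h.2
  have a : (2.23606796 : ℝ) < √5 := Real.lt_sqrt_of_sq_lt (by norm_num)
  have b : √5 < 2.23606798 := (Real.sqrt_lt' (by norm_num)).2 (by norm_num)
  unfold val g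
  rcases le_total 0 (x.2 : ℝ) with h | h <;> nlinarith
theorem ip_eq (u v : V) : ⟪rv u, rv v⟫ = val (ip u v) := by
  simp [rv, rb, ip, val_ad, val_mu, PiLp.inner_apply, Fin.sum_univ_four, get]; ring

noncomputable def tr (σ : Equiv.Perm (Fin 4)) (s : Fin 4 → Bool) (x : E4) : E4 :=
  WithLp.toLp 2 fun i => if s i then -x (σ i) else x (σ i)

theorem tr_tr (τ σ : Equiv.Perm (Fin 4)) (t s : Fin 4 → Bool) (x : E4) :
    tr τ t (tr σ s x) = tr (σ * τ) (fun i => xor (t i) (s (τ i))) x := by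
  ext i; simp only [tr, Equiv.Perm.mul_apply]
  cases t i <;> cases s (τ i) <;> simp
theorem tr_one (x : E4) : tr 1 (fun _ => false) x = x := by ext i; simp [tr]
theorem tr_inner (σ : Equiv.Perm (Fin 4)) (s : Fin 4 → Bool) (x y : E4) :
    ⟪tr σ s x, tr σ s y⟫ = ⟪x, y⟫ := by
  simp only [PiLp.inner_apply, tr]
  rw [← Equiv.sum_comp σ fun i => ⟪x i, y i⟫]
  exact Finset.sum_congr rfl fun i _ => by cases s i <;> simp

def tup (σ : Equiv.Perm (Fin 4)) : Q4 := (σ 0, σ 1, σ 2, σ 3)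
theorem ev1 : ∀ σ : Equiv.Perm (Fin 4), Equiv.Perm.sign σ = 1 → tup σ ∈ evens := by decide +kernel
theorem ev2 : ∀ q ∈ evens, ∃ σ : Equiv.Perm (Fin 4), Equiv.Perm.sign σ = 1 ∧ tup σ = q := by
  decide +kernel
theorem sg_all : ∀ s : B4, s ∈ signs := by decide +kernel
theorem tr_rv (σ : Equiv.Perm (Fin 4)) (s : Fin 4 → Bool) (B : V) :
    tr σ s (rv B) = rv (act (tup σ) (s 0, s 1, s 2, s 3) B) := by
  ext i; fin_cases i <;> simp [tr, rv, rb, act, tup, get, val_sg]

section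
variable (bs : List V)

theorem mem_orbit (x : E4) : x ∈ orbit (bs.map rb) ↔
    ∃ B ∈ bs, ∃ σ, Equiv.Perm.sign σ = 1 ∧ ∃ s, x = tr σ s (rv B) := by
  simp only [orbit, Set.mem_ofPred_eq, List.mem_map]
  constructor
  · rintro ⟨_, ⟨B, hB, rfl⟩, σ, h, s, e⟩; exact ⟨B, hB, σ, h, s, PiLp.ext e⟩
  · rintro ⟨B, hB, σ, h, s, rfl⟩; exact ⟨_, ⟨B, hB, rfl⟩, σ, h, s, fun _ => rfl⟩

theorem tr_mem {x : E4} (h : x ∈ orbit (bs.map rb)) (τ : Equiv.Perm (Fin 4))
    (hτ : Equiv.Perm.sign τ = 1) (t : Fin 4 → Bool) : tr τ t x ∈ orbit (bs.map rb) := by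
  obtain ⟨B, hB, σ, h', s, rfl⟩ := (mem_orbit bs x).1 h
  exact (mem_orbit bs _).2 ⟨B, hB, _, by rw [map_mul, h', hτ, one_mul], _, tr_tr ..⟩

theorem allv_spec {p : V → Bool} (h : allv bs p = true) {x : E4} (hx : x ∈ orbit (bs.map rb)) :
    ∃ Y, p Y = true ∧ x = rv Y := by
  obtain ⟨B, hB, σ, h1, s, rfl⟩ := (mem_orbit bs x).1 hx
  simp only [allv, List.all_eq_true] at h
  exact ⟨_, h B hB _ (ev1 σ h1) _ (sg_all _), tr_rv ..⟩

theorem elt_mem {e : El} (h : okb bs e = true) : rv (elt e) ∈ orbit (bs.map rb) := by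
  simp only [okb, Bool.and_eq_true, List.contains_iff_mem] at h
  obtain ⟨σ, h1, h2⟩ := ev2 _ h.2
  refine (mem_orbit bs _).2 ⟨_, h.1, σ, h1, ![e.2.2.1, e.2.2.2.1, e.2.2.2.2.1, e.2.2.2.2.2], ?_⟩
  rw [tr_rv, h2]; rfl

theorem chk_spec (m : Zp) : ∀ (l : List El) (a b : V), rv a ∈ orbit (bs.map rb) →
    chk bs m a l b = true → Relation.ReflTransGen (fun x y => x ∈ orbit (bs.map rb) ∧
      y ∈ orbit (bs.map rb) ∧ ⟪x, y⟫ = val m) (rv a) (rv b)
  | [], a, b, _, h => by simp only [chk, beq_iff_eq] at h; rw [h]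
  | e :: l, a, b, ha, h => by
    simp only [chk, Bool.and_eq_true, beq_iff_eq] at h
    exact .head ⟨ha, elt_mem bs h.1, by rw [ip_eq, h.2.1]⟩ (chk_spec m l _ _ (elt_mem bs h.1) h.2.2)

def cert (c m : Zp) (u : V) (ps : List (List El)) (L : ℕ) (f : List El) (y : List V) (D : ℤ) : Bool :=
  let F := fun i => elt (f.getD i default)
  let Y := fun i => y.getD i default
  let cov := fun t => ps.any fun l => chk bs m u l t
  pos (sb c m) && pos m && bs.contains u && decide (0 < L) && decide (0 < D) &&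
  (bs.all fun B => ip B B == c) &&
  (bs.all fun B => allv bs fun w => w == B || (ip B w == m || pos (sb m (ip B w)))) &&
  bs.all cov && (evens.all fun q => cov (act q (false, false, false, false) u)) &&
  (signs.all fun s => cov (act (0, 1, 2, 3) s u)) &&
  ((List.range (L + 1)).all fun i => okb bs (f.getD i default) && ip (F i) (Y i) == (D, 0) &&
    (List.range (L + 1)).all fun j => i == j || pos (sb c (ip (F i) (F j)))) &&
  ((List.range L).all fun i => ip (F i) (F (i + 1)) == m &&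
    step (ad c m) D (F i) (F (i + 1)) (Y i) (Y (i + 1))) &&
  (allv bs fun w => w == F 0 || pos (sb (D, 0) (ip w (Y 0)))) &&
  (allv bs fun w => w == F L || pos (sb (D, 0) (ip w (Y L))))

theorem of_cert {c m : Zp} {u : V} {ps : List (List El)} {L : ℕ} {f : List El} {y : List V} {D : ℤ}
    (h : cert bs c m u ps L f y D = true) : ¬AllNet (poly (orbit (bs.map rb))) := by
  simp only [cert, Bool.and_eq_true, List.all_eq_true, List.any_eq_true, decide_eq_true_eq,
    List.contains_iff_mem, beq_iff_eq, List.mem_range, Bool.or_eq_true] at h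
  obtain ⟨⟨⟨⟨⟨⟨⟨⟨⟨⟨⟨⟨⟨h1, h2⟩, h3⟩, h4⟩, h5⟩, h6⟩, h7⟩, h8⟩, h9⟩, h10⟩, h11⟩, h12⟩, h13⟩, h14⟩ := h
  have hD : (0 : ℝ) < D := by exact_mod_cast h5
  have vD : val (D, 0) = D := by simp [val]
  have bm : ∀ B ∈ bs, rv B ∈ orbit (bs.map rb) := fun B hB =>
    (mem_orbit bs _).2 ⟨B, hB, 1, map_one _, _, (tr_one _).symm⟩
  have hc : ∀ x ∈ orbit (bs.map rb), ⟪x, x⟫ = val c := fun x hx => by
    obtain ⟨B, hB, σ, -, s, rfl⟩ := (mem_orbit bs x).1 hx
    rw [tr_inner, ip_eq, h6 B hB]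
  have st : ∀ {F Y : V}, allv bs (fun w => w == F || pos (sb (D, 0) (ip w Y))) = true →
      ∀ w ∈ orbit (bs.map rb), w ≠ rv F → ⟪w, (D : ℝ)⁻¹ • rv Y⟫ < 1 := by
    intro F Y h w hw hne
    obtain ⟨W, hW, rfl⟩ := allv_spec bs h hw
    simp only [Bool.or_eq_true, beq_iff_eq] at hW
    have := val_pos (hW.resolve_left fun e => hne (by rw [e]))
    rw [val_sb, vD] at this
    rw [inner_smul_right, ip_eq, inv_mul_lt_iff₀ hD]; linarith
  refine notAllNet (c := val c) (m := val m) ?_ hc ?_ (by linarith [val_pos h1, val_sb c m])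
    (val_pos h2) (rv u) ?_ (bm u h3) L h4 (fun i => rv (elt (f.getD i default)))
    (fun i => (D : ℝ)⁻¹ • rv (y.getD i default))
    (fun i hi => elt_mem bs (h11 i (by omega)).1.1) (fun i hi j hj e => ?_)
    (fun i hi => by rw [ip_eq, (h12 i hi).1])
    (fun i hi => by
      rw [inner_smul_right, ip_eq, (h11 i (by omega)).1.2, vD, inv_mul_cancel₀ hD.ne'])
    (fun i hi => ?_) (st h13) (st h14)
  · refine ((bs.finite_toSet.prod (Set.finite_univ (α := Equiv.Perm (Fin 4) × (Fin 4 → Bool)))).image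
      fun p => tr p.2.1 p.2.2 (rv p.1)).subset fun x hx => ?_
    obtain ⟨B, hB, σ, -, s, rfl⟩ := (mem_orbit bs x).1 hx
    exact ⟨(B, σ, s), ⟨hB, trivial⟩, rfl⟩
  · intro x hx w hw hne
    obtain ⟨B, hB, σ, hσ, s, rfl⟩ := (mem_orbit bs x).1 hx
    have e : w = tr σ s (tr σ⁻¹ (fun i => s (σ⁻¹ i)) w) := by
      rw [tr_tr]; simp [tr_one]
    obtain ⟨W, hW, e2⟩ := allv_spec bs (h7 B hB)
      (tr_mem bs hw σ⁻¹ (by rw [Equiv.Perm.sign_inv, hσ]) fun i => s (σ⁻¹ i))
    rw [e2] at e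
    simp only [Bool.or_eq_true, beq_iff_eq] at hW
    rw [e, tr_inner, ip_eq]
    rcases hW with h | h | h
    · exact absurd (by rw [e, h]) hne
    · rw [h]
    · linarith [val_pos h, val_sb m (ip B W)]
  · intro x hx
    obtain ⟨B, hB, σ, hσ, s, rfl⟩ := (mem_orbit bs x).1 hx
    have cv := fun t (h : ∃ l ∈ ps, chk bs m u l t = true) =>
      h.elim fun l hl => chk_spec bs m l u t (bm u h3) hl.2
    have lift := fun (τ : Equiv.Perm (Fin 4)) (hτ : Equiv.Perm.sign τ = 1) (t : Fin 4 → Bool)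
      (a b : E4) (h : Relation.ReflTransGen (fun x y => x ∈ orbit (bs.map rb) ∧
        y ∈ orbit (bs.map rb) ∧ ⟪x, y⟫ = val m) a b) => h.lift (p := fun x y =>
        x ∈ orbit (bs.map rb) ∧ y ∈ orbit (bs.map rb) ∧ ⟪x, y⟫ = val m) (tr τ t)
        fun a b h => ⟨tr_mem bs h.1 τ hτ t, tr_mem bs h.2.1 τ hτ t, by rw [tr_inner, h.2.2]⟩
    have a1 := cv _ (h10 _ (sg_all (s 0, s 1, s 2, s 3)))
    have a2 := cv _ (h9 _ (ev1 σ hσ))
    rw [show ((0, 1, 2, 3) : Q4) = tup 1 from rfl, ← tr_rv] at a1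
    have a3 := lift 1 (map_one _) s _ _ a2
    rw [← tr_rv σ (fun _ => false), Function.onFun, tr_tr] at a3
    have a4 := lift σ hσ s _ _ (cv _ (h8 B hB))
    simp only [mul_one, Bool.xor_false] at a3
    exact (a1.trans a3).trans a4
  · rcases (h11 i (by omega)).2 j (by omega) with h | h
    · exact h
    · have := val_pos h
      rw [val_sb, ← ip_eq, ← e, hc _ (elt_mem bs (h11 i (by omega)).1.1)] at this
      exact absurd this (by simp)
  · have h := (h12 i hi).2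
    simp only [step, List.all_eq_true, List.mem_range, beq_iff_eq] at h
    ext k
    have := congrArg val (h k k.2)
    simp only [val_mu, val_sb, val_ad, vD] at this
    rw [inner_smul_right, ip_eq]
    simp only [rv, rb, PiLp.smul_apply, PiLp.sub_apply, PiLp.add_apply, smul_eq_mul]
    field_simp
    linear_combination this

end

end Pool.Agent.H46.Unf
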