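import Pool.Agent.H46.Unf3

namespace Pool.Agent.H46.Unf

def b24 : List V := [((1, 0), (1, 0), (0, 0), (0, 0))]

def p24 : List (List El) := [[(((1, 0), (1, 0), (0, 0), (0, 0)), (0, 2, 3, 1), (false, false, false, false))],
  [(((1, 0), (1, 0), (0, 0), (0, 0)), (2, 1, 3, 0), (false, false, false, false))],
  [(((1, 0), (1, 0), (0, 0), (0, 0)), (2, 0, 1, 3), (false, false, false, false))],
  [(((1, 0), (1, 0), (0, 0), (0, 0)), (0, 2, 3, 1), (false, false, false, false)),
   (((1, 0), (1, 0), (0, 0), (0, 0)), (2, 3, 0, 1), (false, false, false, false))],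
  [(((1, 0), (1, 0), (0, 0), (0, 0)), (2, 0, 1, 3), (false, false, false, false)),
   (((1, 0), (1, 0), (0, 0), (0, 0)), (0, 1, 2, 3), (true, false, false, false))],
  [(((1, 0), (1, 0), (0, 0), (0, 0)), (0, 2, 3, 1), (false, false, false, false)),
   (((1, 0), (1, 0), (0, 0), (0, 0)), (2, 1, 3, 0), (false, true, false, false)),
   (((1, 0), (1, 0), (0, 0), (0, 0)), (0, 1, 2, 3), (true, true, false, false))],
  [(((1, 0), (1, 0), (0, 0), (0, 0)), (0, 2, 3, 1), (false, false, false, false)),
   (((1, 0), (1, 0), (0, 0), (0, 0)), (0, 1, 2, 3), (false, true, false, false))],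
  [],
  [(((1, 0), (1, 0), (0, 0), (0, 0)), (0, 3, 1, 2), (false, false, false, false))]]

def f24 : List El := [(((1, 0), (1, 0), (0, 0), (0, 0)), (0, 1, 2, 3), (false, false, false, false)),
  (((1, 0), (1, 0), (0, 0), (0, 0)), (0, 2, 3, 1), (false, false, false, false)),
  (((1, 0), (1, 0), (0, 0), (0, 0)), (0, 1, 2, 3), (false, true, false, false)),
  (((1, 0), (1, 0), (0, 0), (0, 0)), (2, 0, 1, 3), (false, true, false, false)),
  (((1, 0), (1, 0), (0, 0), (0, 0)), (2, 3, 0, 1), (false, false, false, false)),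
  (((1, 0), (1, 0), (0, 0), (0, 0)), (0, 3, 1, 2), (false, false, false, false)),
  (((1, 0), (1, 0), (0, 0), (0, 0)), (0, 2, 3, 1), (false, false, false, true)),
  (((1, 0), (1, 0), (0, 0), (0, 0)), (0, 3, 1, 2), (false, false, true, false))]

def y24 : List V := [((225, 0), (225, 0), (153, 0), (-153, 0)),
  ((477, 0), (351, 0), (153, 0), (-27, 0)),
  ((693, 0), (243, 0), (153, 0), (81, 0)),
  ((873, 0), (-117, 0), (333, 0), (81, 0)),
  ((873, 0), (-129, 0), (357, 0), (93, 0)),
  ((613, 0), (-129, 0), (-163, 0), (-167, 0)),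
  ((393, 0), (-129, 0), (-273, 0), (-57, 0)),
  ((249, 0), (-129, 0), (-201, 0), (15, 0))]

def d24 : ℤ := 450

def b120 : List V := [((2, 0), (0, 0), (0, 0), (0, 0)),
  ((1, 0), (1, 0), (1, 0), (1, 0)),
  ((0, 1), (1, 0), (-1, 1), (0, 0))]

def p120 : List (List El) := [[(((0, 1), (1, 0), (-1, 1), (0, 0)), (0, 1, 2, 3), (false, false, false, false)),
   (((1, 0), (1, 0), (1, 0), (1, 0)), (0, 1, 2, 3), (false, false, false, false))],
  [],
  [(((0, 1), (1, 0), (-1, 1), (0, 0)), (0, 1, 2, 3), (false, false, false, false)),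
   (((0, 1), (1, 0), (-1, 1), (0, 0)), (1, 0, 3, 2), (false, false, false, false)),
   (((2, 0), (0, 0), (0, 0), (0, 0)), (1, 0, 3, 2), (false, false, false, false))],
  [(((0, 1), (1, 0), (-1, 1), (0, 0)), (0, 1, 2, 3), (false, false, false, false)),
   (((0, 1), (1, 0), (-1, 1), (0, 0)), (2, 0, 1, 3), (false, false, false, false)),
   (((0, 1), (1, 0), (-1, 1), (0, 0)), (2, 0, 1, 3), (true, false, false, false)),
   (((0, 1), (1, 0), (-1, 1), (0, 0)), (0, 1, 2, 3), (true, false, false, false)),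
   (((2, 0), (0, 0), (0, 0), (0, 0)), (0, 1, 2, 3), (true, false, false, false))],
  [(((0, 1), (1, 0), (-1, 1), (0, 0)), (0, 1, 2, 3), (false, false, false, false)),
   (((0, 1), (1, 0), (-1, 1), (0, 0)), (1, 2, 0, 3), (false, false, false, false)),
   (((2, 0), (0, 0), (0, 0), (0, 0)), (1, 2, 0, 3), (false, false, false, false))],
  [(((0, 1), (1, 0), (-1, 1), (0, 0)), (0, 2, 3, 1), (false, false, false, false)),
   (((0, 1), (1, 0), (-1, 1), (0, 0)), (1, 3, 2, 0), (false, false, false, false)),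
   (((2, 0), (0, 0), (0, 0), (0, 0)), (1, 3, 2, 0), (false, false, false, false))],
  [(((0, 1), (1, 0), (-1, 1), (0, 0)), (0, 1, 2, 3), (false, false, false, false))]]

def f120 : List El := [(((2, 0), (0, 0), (0, 0), (0, 0)), (0, 1, 2, 3), (false, false, false, false)),
  (((0, 1), (1, 0), (-1, 1), (0, 0)), (0, 1, 2, 3), (false, false, false, false)),
  (((1, 0), (1, 0), (1, 0), (1, 0)), (0, 1, 2, 3), (false, false, false, false)),
  (((0, 1), (1, 0), (-1, 1), (0, 0)), (0, 2, 3, 1), (false, false, false, false)),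
  (((0, 1), (1, 0), (-1, 1), (0, 0)), (0, 3, 1, 2), (false, false, false, false))]

def y120 : List V := [((25000000, 0), (2036800, 0), (8587950, 0), (1542900, 0)),
  ((53275575, -16793975), (22360940, -12372705), (-24108895, 20324140), (1542900, 0)),
  ((53545725, -14448265), (18750120, -8221585), (-22033335, 20594290), (-262510, 2075560)),
  ((65889907, -23256959), (-2402756, 4122597), (11463723, -558586), (66731606, -40230192)),
  ((-11383487, 22483861), (-102546560, 65629704), (72970830, -39195283), (28094909, -17359782))]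

def d120 : ℤ := 50000000

def b600 : List V := [((2, 0), (2, 0), (0, 0), (0, 0)),
  ((-1, 2), (1, 0), (1, 0), (1, 0)),
  ((2, -1), (0, 1), (0, 1), (0, 1)),
  ((1, 1), (-1, 1), (-1, 1), (-1, 1)),
  ((0, 0), (2, -1), (1, 0), (1, 1)),
  ((0, 0), (-1, 1), (0, 1), (-1, 2)),
  ((-1, 1), (1, 0), (0, 1), (2, 0))]

def p600 : List (List El) := [[(((0, 0), (-1, 1), (0, 1), (-1, 2)), (2, 3, 0, 1), (false, false, false, false)),
   (((0, 0), (2, -1), (1, 0), (1, 1)), (2, 3, 0, 1), (false, false, false, false)),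
   (((1, 1), (-1, 1), (-1, 1), (-1, 1)), (1, 0, 3, 2), (false, false, false, false)),
   (((0, 0), (2, -1), (1, 0), (1, 1)), (1, 3, 2, 0), (false, false, false, false)),
   (((0, 0), (-1, 1), (0, 1), (-1, 2)), (1, 3, 2, 0), (false, false, false, false)),
   (((2, 0), (2, 0), (0, 0), (0, 0)), (2, 0, 1, 3), (false, false, false, false))],
  [],
  [(((0, 0), (-1, 1), (0, 1), (-1, 2)), (2, 3, 0, 1), (false, false, false, false)),
   (((-1, 1), (1, 0), (0, 1), (2, 0)), (2, 3, 0, 1), (false, false, false, false)),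
   (((-1, 2), (1, 0), (1, 0), (1, 0)), (1, 0, 3, 2), (false, false, false, false)),
   (((-1, 1), (1, 0), (0, 1), (2, 0)), (0, 3, 1, 2), (false, false, false, false)),
   (((2, -1), (0, 1), (0, 1), (0, 1)), (0, 1, 2, 3), (false, false, false, false)),
   (((-1, 1), (1, 0), (0, 1), (2, 0)), (0, 1, 2, 3), (false, false, false, false)),
   (((0, 0), (-1, 1), (0, 1), (-1, 2)), (0, 1, 2, 3), (false, false, false, false)),
   (((2, 0), (2, 0), (0, 0), (0, 0)), (2, 3, 0, 1), (false, false, false, false))],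
  [(((0, 0), (-1, 1), (0, 1), (-1, 2)), (3, 2, 1, 0), (false, false, false, false)),
   (((0, 0), (2, -1), (1, 0), (1, 1)), (3, 2, 1, 0), (false, false, false, false)),
   (((1, 1), (-1, 1), (-1, 1), (-1, 1)), (0, 1, 2, 3), (false, false, false, false))],
  [(((0, 0), (-1, 1), (0, 1), (-1, 2)), (3, 2, 1, 0), (false, false, false, false)),
   (((0, 0), (2, -1), (1, 0), (1, 1)), (3, 2, 1, 0), (false, false, false, false)),
   (((1, 1), (-1, 1), (-1, 1), (-1, 1)), (0, 1, 2, 3), (false, false, false, false)),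
   (((0, 0), (2, -1), (1, 0), (1, 1)), (3, 0, 2, 1), (false, false, false, false)),
   (((0, 0), (-1, 1), (0, 1), (-1, 2)), (3, 0, 2, 1), (false, false, false, false)),
   (((2, 0), (2, 0), (0, 0), (0, 0)), (0, 3, 1, 2), (false, false, false, false))],
  [(((0, 0), (-1, 1), (0, 1), (-1, 2)), (3, 2, 1, 0), (false, false, false, false)),
   (((-1, 1), (1, 0), (0, 1), (2, 0)), (3, 2, 1, 0), (false, false, false, false)),
   (((-1, 2), (1, 0), (1, 0), (1, 0)), (0, 1, 2, 3), (false, false, false, false))],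
  [(((0, 0), (-1, 1), (0, 1), (-1, 2)), (2, 3, 0, 1), (false, false, false, false)),
   (((0, 0), (2, -1), (1, 0), (1, 1)), (2, 3, 0, 1), (false, false, false, false)),
   (((1, 1), (-1, 1), (-1, 1), (-1, 1)), (1, 0, 3, 2), (false, false, false, false)),
   (((0, 0), (2, -1), (1, 0), (1, 1)), (0, 3, 1, 2), (false, false, false, false)),
   (((1, 1), (-1, 1), (-1, 1), (-1, 1)), (1, 0, 3, 2), (true, false, false, false)),
   (((-1, 2), (1, 0), (1, 0), (1, 0)), (1, 0, 3, 2), (true, false, false, false)),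
   (((-1, 1), (1, 0), (0, 1), (2, 0)), (2, 3, 0, 1), (true, false, false, false)),
   (((-1, 1), (1, 0), (0, 1), (2, 0)), (3, 2, 1, 0), (true, false, false, false)),
   (((-1, 2), (1, 0), (1, 0), (1, 0)), (0, 1, 2, 3), (true, false, false, false)),
   (((1, 1), (-1, 1), (-1, 1), (-1, 1)), (0, 1, 2, 3), (true, false, false, false)),
   (((0, 0), (2, -1), (1, 0), (1, 1)), (3, 0, 2, 1), (true, false, false, false)),
   (((1, 1), (-1, 1), (-1, 1), (-1, 1)), (0, 1, 2, 3), (true, true, false, false)),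
   (((0, 0), (2, -1), (1, 0), (1, 1)), (3, 2, 1, 0), (true, true, false, false)),
   (((0, 0), (-1, 1), (0, 1), (-1, 2)), (3, 2, 1, 0), (true, true, false, false)),
   (((2, 0), (2, 0), (0, 0), (0, 0)), (0, 1, 2, 3), (true, true, false, false))],
  [(((0, 0), (-1, 1), (0, 1), (-1, 2)), (2, 3, 0, 1), (false, false, false, false)),
   (((-1, 1), (1, 0), (0, 1), (2, 0)), (2, 3, 0, 1), (false, false, false, false)),
   (((2, -1), (0, 1), (0, 1), (0, 1)), (1, 2, 0, 3), (false, false, false, false)),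
   (((-1, 1), (1, 0), (0, 1), (2, 0)), (1, 2, 0, 3), (false, false, false, false)),
   (((-1, 2), (1, 0), (1, 0), (1, 0)), (1, 3, 2, 0), (false, false, false, false)),
   (((1, 1), (-1, 1), (-1, 1), (-1, 1)), (1, 3, 2, 0), (false, false, false, false)),
   (((0, 0), (2, -1), (1, 0), (1, 1)), (0, 1, 2, 3), (false, false, false, false))],
  [(((0, 0), (-1, 1), (0, 1), (-1, 2)), (2, 3, 0, 1), (false, false, false, false)),
   (((-1, 1), (1, 0), (0, 1), (2, 0)), (2, 3, 0, 1), (false, false, false, false)),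
   (((2, -1), (0, 1), (0, 1), (0, 1)), (1, 2, 0, 3), (false, false, false, false)),
   (((-1, 1), (1, 0), (0, 1), (2, 0)), (3, 1, 0, 2), (false, false, false, false)),
   (((0, 0), (-1, 1), (0, 1), (-1, 2)), (3, 1, 0, 2), (false, false, false, false)),
   (((2, 0), (2, 0), (0, 0), (0, 0)), (0, 2, 3, 1), (false, false, false, false))],
  [(((0, 0), (-1, 1), (0, 1), (-1, 2)), (2, 3, 0, 1), (false, false, false, false)),
   (((0, 0), (2, -1), (1, 0), (1, 1)), (2, 3, 0, 1), (false, false, false, false)),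
   (((1, 1), (-1, 1), (-1, 1), (-1, 1)), (1, 0, 3, 2), (false, false, false, false)),
   (((0, 0), (2, -1), (1, 0), (1, 1)), (0, 3, 1, 2), (false, false, false, false)),
   (((1, 1), (-1, 1), (-1, 1), (-1, 1)), (1, 0, 3, 2), (true, false, false, false)),
   (((0, 0), (2, -1), (1, 0), (1, 1)), (2, 3, 0, 1), (true, false, false, false)),
   (((0, 0), (-1, 1), (0, 1), (-1, 2)), (2, 3, 0, 1), (true, false, false, false)),
   (((2, 0), (2, 0), (0, 0), (0, 0)), (0, 1, 2, 3), (true, false, false, false))],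
  [(((0, 0), (-1, 1), (0, 1), (-1, 2)), (2, 3, 0, 1), (false, false, false, false)),
   (((-1, 1), (1, 0), (0, 1), (2, 0)), (2, 3, 0, 1), (false, false, false, false)),
   (((-1, 2), (1, 0), (1, 0), (1, 0)), (1, 0, 3, 2), (false, false, false, false)),
   (((-1, 1), (1, 0), (0, 1), (2, 0)), (0, 3, 1, 2), (false, false, false, false)),
   (((2, -1), (0, 1), (0, 1), (0, 1)), (0, 1, 2, 3), (false, false, false, false)),
   (((-1, 1), (1, 0), (0, 1), (2, 0)), (0, 1, 2, 3), (false, false, false, false))],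
  [(((0, 0), (-1, 1), (0, 1), (-1, 2)), (2, 3, 0, 1), (false, false, false, false)),
   (((-1, 1), (1, 0), (0, 1), (2, 0)), (2, 3, 0, 1), (false, false, false, false)),
   (((-1, 2), (1, 0), (1, 0), (1, 0)), (1, 0, 3, 2), (false, false, false, false)),
   (((-1, 1), (1, 0), (0, 1), (2, 0)), (0, 3, 1, 2), (false, false, false, false)),
   (((2, -1), (0, 1), (0, 1), (0, 1)), (0, 1, 2, 3), (false, false, false, false)),
   (((-1, 1), (1, 0), (0, 1), (2, 0)), (0, 1, 2, 3), (false, false, false, false)),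
   (((0, 0), (-1, 1), (0, 1), (-1, 2)), (0, 1, 2, 3), (false, false, false, false))],
  [(((0, 0), (-1, 1), (0, 1), (-1, 2)), (3, 2, 1, 0), (false, false, false, false)),
   (((0, 0), (2, -1), (1, 0), (1, 1)), (3, 2, 1, 0), (false, false, false, false)),
   (((1, 1), (-1, 1), (-1, 1), (-1, 1)), (0, 1, 2, 3), (false, false, false, false)),
   (((0, 0), (2, -1), (1, 0), (1, 1)), (3, 0, 2, 1), (false, false, false, false)),
   (((1, 1), (-1, 1), (-1, 1), (-1, 1)), (0, 1, 2, 3), (false, true, false, false)),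
   (((0, 0), (2, -1), (1, 0), (1, 1)), (3, 2, 1, 0), (false, true, false, false)),
   (((0, 0), (-1, 1), (0, 1), (-1, 2)), (3, 2, 1, 0), (false, true, false, false)),
   (((2, 0), (2, 0), (0, 0), (0, 0)), (0, 1, 2, 3), (false, true, false, false))],
  [(((0, 0), (-1, 1), (0, 1), (-1, 2)), (2, 3, 0, 1), (false, false, false, false)),
   (((-1, 1), (1, 0), (0, 1), (2, 0)), (2, 3, 0, 1), (false, false, false, false)),
   (((-1, 2), (1, 0), (1, 0), (1, 0)), (1, 0, 3, 2), (false, false, false, false)),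
   (((-1, 1), (1, 0), (0, 1), (2, 0)), (0, 3, 1, 2), (false, false, false, false)),
   (((2, -1), (0, 1), (0, 1), (0, 1)), (0, 1, 2, 3), (false, false, false, false))],
  [(((0, 0), (-1, 1), (0, 1), (-1, 2)), (2, 3, 0, 1), (false, false, false, false)),
   (((0, 0), (2, -1), (1, 0), (1, 1)), (2, 3, 0, 1), (false, false, false, false)),
   (((1, 1), (-1, 1), (-1, 1), (-1, 1)), (1, 0, 3, 2), (false, false, false, false)),
   (((0, 0), (2, -1), (1, 0), (1, 1)), (0, 3, 1, 2), (false, false, false, false)),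
   (((0, 0), (-1, 1), (0, 1), (-1, 2)), (0, 3, 1, 2), (false, false, false, false)),
   (((2, 0), (2, 0), (0, 0), (0, 0)), (2, 1, 3, 0), (false, false, false, false))]]

def f600 : List El := [(((2, 0), (2, 0), (0, 0), (0, 0)), (0, 1, 2, 3), (false, false, false, false)),
  (((0, 0), (-1, 1), (0, 1), (-1, 2)), (2, 3, 0, 1), (false, false, false, false)),
  (((0, 0), (2, -1), (1, 0), (1, 1)), (2, 3, 0, 1), (false, false, false, false)),
  (((0, 0), (2, -1), (1, 0), (1, 1)), (2, 3, 0, 1), (false, false, false, true)),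
  (((1, 1), (-1, 1), (-1, 1), (-1, 1)), (1, 0, 3, 2), (false, false, false, true)),
  (((-1, 2), (1, 0), (1, 0), (1, 0)), (1, 0, 3, 2), (false, false, false, true)),
  (((-1, 1), (1, 0), (0, 1), (2, 0)), (2, 3, 0, 1), (false, false, false, true)),
  (((0, 0), (-1, 1), (0, 1), (-1, 2)), (2, 3, 0, 1), (false, false, false, true))]

def y600 : List V := [((452527479, 0), (640972521, 0), (-218133567, 0), (-29688525, 0)),
  ((2135800143, -1034641998), (356841855, 182250000), (-218133567, 0), (-1997091855, 1216891998)),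
  ((2922997428, -1518089283), (-3455091855, 2543841855), (-218133567, 0), (60750000, -53752572)),
  ((3233002572, -1711259379), (-3338256807, 2467506807), (-218133567, 0), (60750000, -53752572)),
  ((1196293968, -433030077), (-781798203, 950548203), (-5569780077, 3314937906), (-3254187906, 1982956032)),
  ((1044742770, -329129478), (-1236451797, 1262250000), (-5721331275, 3418838505), (-3102636708, 1879055433)),
  ((-164219466, 397582758), (-509739561, 780000000), (-3785656803, 2209876269), (3186636708, -1992293511)),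
  ((2719782226, -1422168088), (22385862, 402250000), (8220312, -142000000), (1744635862, -1082418088))]

def d600 : ℤ := 2187000000

theorem c24 : cert b24 (2, 0) (1, 0) ((1, 0), (1, 0), (0, 0), (0, 0)) p24 7 f24 y24 d24 = true := by
  decide +kernel
theorem c120 : cert b120 (4, 0) (0, 2) ((2, 0), (0, 0), (0, 0), (0, 0)) p120 4 f120 y120 d120
    = true := by decide +kernel
theorem c600 : cert b600 (8, 0) (-2, 6) ((2, 0), (2, 0), (0, 0), (0, 0)) p600 7 f600 y600 d600
    = true := by decide +kernel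

theorem rb_eq (a b c d : Zp) : rb (a, b, c, d) = ![val a, val b, val c, val d] := by
  funext i; fin_cases i <;> rfl

theorem main : ¬AllNet cell24 ∧ ¬AllNet cell120 ∧ ¬AllNet cell600 := by
  refine ⟨?_, ?_, ?_⟩
  · have := of_cert _ c24
    simpa [b24, rb_eq, val, cell24] using this
  · have := of_cert _ c120
    simpa [b120, rb_eq, val, cell120, neg_add_eq_sub] using this
  · have := of_cert _ c600
    simpa [b600, rb_eq, val, cell600, neg_add_eq_sub, ← sub_eq_add_neg, add_comm] using this

end Pool.Agent.H46.Unf
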