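import Mathlib

/-! Ridge unfoldings of convex 4-polytopes. -/

namespace Pool.Agent.H46.Unf

open scoped RealInnerProductSpace

abbrev E4 : Type := EuclideanSpace ℝ (Fin 4)
abbrev E3 : Type := EuclideanSpace ℝ (Fin 3)

/-- The polytope with facet normals `S` (the polar of the convex hull of `S`). -/
def poly (S : Set E4) : Set E4 := {x | ∀ u ∈ S, ⟪u, x⟫ ≤ 1}

/-- Affine dimension of a nonempty set. -/
noncomputable def dim (F : Set E4) : ℕ := Module.finrank ℝ (vectorSpan ℝ F)

/-- Facets: faces of dimension three. -/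
def Facet (P : Set E4) : Type := {F : Set E4 // IsExposed ℝ P F ∧ dim F = 3}

/-- The dual graph: two facets are adjacent when they share a ridge. -/
def dual (P : Set E4) : SimpleGraph (Facet P) where
  Adj F G := F ≠ G ∧ dim (F.1 ∩ G.1) = 2
  symm := ⟨fun _ _ h => ⟨h.1.symm, by rw [Set.inter_comm]; exact h.2⟩⟩
  loopless := ⟨fun _ h => h.1 rfl⟩

/-- The images of two facets do not overlap. -/
def Apart {P : Set E4} (φ : Facet P → E4 → E3) (F G : Facet P) : Prop :=
  Disjoint (interior (φ F '' F.1)) (interior (φ G '' G.1))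

/-- A ridge unfolding: a spanning tree `T` of the dual graph and isometric placements of the
facets in 3-space; facets adjacent in `T` stay glued along their ridge and lie on its two sides. -/
structure IsUnfolding (P : Set E4) (T : SimpleGraph (Facet P)) (φ : Facet P → E4 → E3) :
    Prop where
  tree : T.IsTree
  le : T ≤ dual P
  iso : ∀ F, ∀ x ∈ F.1, ∀ y ∈ F.1, dist (φ F x) (φ F y) = dist x y
  glue : ∀ F G, T.Adj F G → (∀ x ∈ F.1 ∩ G.1, φ F x = φ G x) ∧ Apart φ F G

/-- Every ridge unfolding is a net. -/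
def AllNet (P : Set E4) : Prop :=
  ∀ T φ, IsUnfolding P T φ → ∀ F G, F ≠ G → Apart φ F G

/-- All vectors obtained from the vectors in `B` by even permutations and sign changes. -/
def orbit (B : List (Fin 4 → ℝ)) : Set E4 :=
  {x | ∃ b ∈ B, ∃ σ : Equiv.Perm (Fin 4), Equiv.Perm.sign σ = 1 ∧
    ∃ s : Fin 4 → Bool, ∀ i, x i = if s i then -b (σ i) else b (σ i)}

/-- The golden ratio. -/
noncomputable def g : ℝ := (1 + √5) / 2

/-- The 24-cell (facet normals: the 24 vertices of a 24-cell). -/
def cell24 : Set E4 := poly (orbit [![1, 1, 0, 0]])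

/-- The 120-cell (facet normals: the 120 vertices of a 600-cell). -/
def cell120 : Set E4 := poly (orbit [![2, 0, 0, 0], ![1, 1, 1, 1], ![g, 1, g - 1, 0]])

/-- The 600-cell (facet normals: the 600 vertices of a 120-cell). -/
def cell600 : Set E4 := poly (orbit [![2, 2, 0, 0], ![2 * g - 1, 1, 1, 1], ![2 - g, g, g, g],
  ![g + 1, g - 1, g - 1, g - 1], ![0, 2 - g, 1, g + 1], ![0, g - 1, g, 2 * g - 1],
  ![g - 1, 1, g, 2]])

end Pool.Agent.H46.Unf
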