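import Pool.Agent.H46.WalDefs

namespace Pool.Agent.H46.Wal

open MeasureTheory ProbabilityTheory Filter Finset
open scoped ENNReal

def tp (a : ℕ → ℝ) : ℕ → ℝ := fun l => a (2 * l) + a (2 * l + 1)
def tm (a : ℕ → ℝ) : ℕ → ℝ := fun l => a (2 * l) - a (2 * l + 1)

noncomputable def e (p : ℝ) : ℕ → (ℕ → ℝ) → ℝ
  | 0, a => |a 0| ^ p
  | n + 1, a => (e p n (tp a) + e p n (tm a)) / 2

theorem e_nonneg (p : ℝ) : ∀ n a, 0 ≤ e p n a
  | 0, a => Real.rpow_nonneg (abs_nonneg _) _
  | n + 1, a => by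
    have := e_nonneg p n (tp a); have := e_nonneg p n (tm a)
    simp only [e]; positivity

theorem e_const {p : ℝ} (hp : 0 < p) : ∀ n (c : ℝ),
    e p n (fun _ => c) = |c| ^ p * ((2 : ℝ) ^ (p - 1)) ^ n
  | 0, c => by simp [e]
  | n + 1, c => by
    have h1 : tp (fun _ => c) = fun _ => 2 * c := by funext l; simp [tp]; ring
    have h2 : tm (fun _ => c) = fun _ => 0 := by funext l; simp [tm]
    simp only [e, h1, h2, e_const hp n]
    rw [abs_zero, Real.zero_rpow hp.ne', abs_mul, Real.mul_rpow (abs_nonneg _) (abs_nonneg _),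
      abs_two, pow_succ, Real.rpow_sub_one (two_ne_zero)]
    ring

theorem e_refl (p : ℝ) : ∀ n (g a : ℕ → ℝ) (ε : ℝ), |ε| = 1 → (∀ i < 2 ^ n, g i = 0) →
    (∀ i j, i + j + 1 = 2 ^ (n + 1) → i < 2 ^ n → g j = ε * a i) → e p (n + 1) g = e p n a
  | 0, g, a, ε, hε, h0, h1 => by
    have a0 := h0 0 (by norm_num)
    have a1 := h1 0 1 (by norm_num) (by norm_num)
    simp only [e, tp, tm, mul_zero, zero_add, a0, a1, zero_sub, abs_neg, abs_mul, hε, one_mul]
    ring
  | n + 1, g, a, ε, hε, h0, h1 => by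
    have hp1 : 2 ^ (n + 1) = 2 * 2 ^ n := by ring
    have hp2 : 2 ^ (n + 1 + 1) = 4 * 2 ^ n := by ring
    rw [hp1] at h0; rw [hp2, hp1] at h1
    have A := e_refl p n (tp g) (tp a) ε hε
      (fun i hi => by simp only [tp]; rw [h0 _ (by omega), h0 _ (by omega)]; ring)
      (fun i j hij hi => by
        rw [hp1] at hij
        simp only [tp]
        rw [h1 (2 * i + 1) (2 * j) (by omega) (by omega),
          h1 (2 * i) (2 * j + 1) (by omega) (by omega)]; ring)
    have B := e_refl p n (tm g) (tm a) (-ε) (by rw [abs_neg, hε])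
      (fun i hi => by simp only [tm]; rw [h0 _ (by omega), h0 _ (by omega)]; ring)
      (fun i j hij hi => by
        rw [hp1] at hij
        simp only [tm]
        rw [h1 (2 * i + 1) (2 * j) (by omega) (by omega),
          h1 (2 * i) (2 * j + 1) (by omega) (by omega)]; ring)
    have : e p (n + 1 + 1) g = (e p (n + 1) (tp g) + e p (n + 1) (tm g)) / 2 := rfl
    rw [this, A, B]; rfl

theorem sum_two (f : ℕ → ℝ) (m : ℕ) :
    ∑ l ∈ range (2 * m), f l = ∑ l ∈ range m, (f (2 * l) + f (2 * l + 1)) := by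
  induction m with
  | zero => simp
  | succ m ih => rw [show 2 * (m + 1) = 2 * m + 1 + 1 by ring, sum_range_succ, sum_range_succ,
      ih, sum_range_succ]; ring

theorem e_low {p : ℝ} (hp : 0 < p) (hp1 : p ≤ 1) {T : ℝ} (hT : 0 < T) : ∀ n (c : ℕ → ℝ),
    ∑ l ∈ range (2 ^ n), |c l| ≤ T → |c 0| * T ^ (p - 1) ≤ e p n c
  | 0, c, h => by
    simp only [pow_zero, range_one, sum_singleton] at h
    simp only [e]
    rcases (abs_nonneg (c 0)).eq_or_lt with h0 | h0
    · rw [← h0, zero_mul]; exact Real.rpow_nonneg le_rfl _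
    · have := Real.rpow_le_rpow_of_nonpos h0 h (by linarith : p - 1 ≤ 0)
      calc |c 0| * T ^ (p - 1) ≤ |c 0| * |c 0| ^ (p - 1) := by gcongr
        _ = |c 0| ^ p := by rw [Real.rpow_sub_one h0.ne']; field_simp
  | n + 1, c, h => by
    rw [show 2 ^ (n + 1) = 2 * 2 ^ n by ring, sum_two] at h
    have A := e_low hp hp1 hT n (tp c) (le_trans (sum_le_sum fun l _ => abs_add_le _ _) h)
    have B := e_low hp hp1 hT n (tm c) (le_trans (sum_le_sum fun l _ => abs_sub _ _) h)
    have hq : 0 ≤ T ^ (p - 1) := Real.rpow_nonneg hT.le _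
    have h3 : 2 * |c 0| ≤ |tp c 0| + |tm c 0| := by
      simp only [tp, tm, mul_zero, zero_add]
      calc 2 * |c 0| = |(c 0 + c 1) + (c 0 - c 1)| := by
            rw [show (c 0 + c 1) + (c 0 - c 1) = 2 * c 0 by ring, abs_mul, abs_two]
        _ ≤ _ := abs_add_le _ _
    simp only [e]
    nlinarith [mul_le_mul_of_nonneg_right h3 hq]

theorem e_main {α θ : ℝ} (h0 : 0 < α) (h1 : α < 1) (hθ0 : 0 ≤ θ) (hθ : θ ≤ 1) :
    ∀ n (a : ℕ → ℝ) (κ : ℝ), 0 < κ →
    (∀ l, a (l + 2) - a (l + 1) ≤ a (l + 1) - a l) →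
    (∀ l, a (2 * l + 3) - a (2 * l + 2) ≤ θ * (a (l + 1) - a l)) →
    (∀ l : ℕ, κ * ((l : ℝ) + 2) ^ (α - 1) ≤ a (l + 1) - a l) →
    n * ((1 - θ) / 4 * (κ * 2 ^ (α - 1)) ^ (1 / (1 + α))) ≤ e (1 / (1 + α)) (n + 1) a
  | 0, a, κ, _, _, _, _ => by simpa using e_nonneg _ _ _
  | n + 1, a, κ, hκ, hm, ht, hl => by
    set p := 1 / (1 + α) with hpd
    have hp : 0 < p := by positivity
    have hp1 : p ≤ 1 := by rw [hpd, div_le_one (by linarith)]; linarith
    set d : ℕ → ℝ := fun l => a (l + 1) - a l with hd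
    have hanti : Antitone d := antitone_nat_of_succ_le fun l => hm l
    have hpos : ∀ l, 0 < d l := fun l => lt_of_lt_of_le (by positivity) (hl l)
    have htd : ∀ l, d (2 * l + 2) ≤ θ * d l := fun l => ht l
    have hdp : ∀ l, tp a (l + 1) - tp a l = d (2 * l) + 2 * d (2 * l + 1) + d (2 * l + 2) := by
      intro l; simp only [tp, hd]
      rw [show 2 * (l + 1) = 2 * l + 2 by ring]; ring
    have A := e_main h0 h1 hθ0 hθ n (tp a) (2 ^ (1 + α) * κ) (by positivity)
      (fun l => by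
        rw [hdp (l + 1), hdp l]
        have := hanti (show 2 * l ≤ 2 * (l + 1) by omega)
        have := hanti (show 2 * l + 1 ≤ 2 * (l + 1) + 1 by omega)
        have := hanti (show 2 * l + 2 ≤ 2 * (l + 1) + 2 by omega)
        linarith)
      (fun l => by
        rw [hdp (2 * l + 2), hdp l]
        have a1 := (hanti (show 2 * (2 * l) + 2 ≤ 2 * (2 * l + 2) by omega)).trans (htd _)
        have a2 := (hanti (show 2 * (2 * l + 1) + 2 ≤ 2 * (2 * l + 2) + 1 by omega)).trans (htd _)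
        have a3 := htd (2 * l + 2)
        linarith)
      (fun l => by
        rw [hdp l]
        have a1 := hanti (show 2 * l ≤ 2 * l + 2 by omega)
        have a2 := hanti (show 2 * l + 1 ≤ 2 * l + 2 by omega)
        have a3 : κ * (((2 * l + 2 : ℕ) : ℝ) + 2) ^ (α - 1) ≤ d (2 * l + 2) := hl _
        have a4 : (((2 * l + 2 : ℕ) : ℝ) + 2) ^ (α - 1) = 2 ^ (α - 1) * ((l : ℝ) + 2) ^ (α - 1) := by
          rw [← Real.mul_rpow (by norm_num) (by positivity)]; congr 1; push_cast; ring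
        have a5 : (2 : ℝ) ^ (1 + α) = 4 * 2 ^ (α - 1) := by
          rw [show 1 + α = 2 + (α - 1) by ring, Real.rpow_add (by norm_num)]; norm_num
        rw [a4] at a3; rw [a5]
        linarith)
    have hc : ∀ l, tm (tm a) l = -(d (4 * l) - d (4 * l + 2)) := by
      intro l; simp only [tm, hd]
      rw [show 2 * (2 * l) = 4 * l by ring, show 2 * (2 * l + 1) = 4 * l + 2 by ring]; ring
    have hca : ∀ l, |tm (tm a) l| = d (4 * l) - d (4 * l + 2) := by
      intro l; rw [hc, abs_neg, abs_of_nonneg]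
      have := hanti (show 4 * l ≤ 4 * l + 2 by omega); linarith
    have hs : ∀ L, ∑ l ∈ range L, |tm (tm a) l| ≤ d 0 - d (4 * L) := by
      intro L
      induction L with
      | zero => simp
      | succ L ih =>
        rw [sum_range_succ, hca]
        have := hanti (show 4 * L + 2 ≤ 4 * (L + 1) by omega); linarith
    have B := e_low hp hp1 (hpos 0) n (tm (tm a)) ((hs _).trans (by linarith [hpos (4 * 2 ^ n)]))
    rw [hca 0] at B
    have hd0 : κ * 2 ^ (α - 1) ≤ d 0 := by simpa using hl 0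
    have B2 : (1 - θ) * (κ * 2 ^ (α - 1)) ^ p ≤ e p n (tm (tm a)) := by
      refine le_trans ?_ B
      have b1 : (κ * 2 ^ (α - 1)) ^ p ≤ d 0 * d 0 ^ (p - 1) := by
        rw [Real.rpow_sub_one (hpos 0).ne', mul_div_cancel₀ _ (hpos 0).ne']
        exact Real.rpow_le_rpow (by positivity) hd0 hp.le
      have b2 : (1 - θ) * d 0 ≤ d (4 * 0) - d (4 * 0 + 2) := by
        have h2 : d 2 ≤ θ * d 0 := htd 0
        show (1 - θ) * d 0 ≤ d 0 - d 2
        linarith
      have b3 : 0 ≤ d 0 ^ (p - 1) := Real.rpow_nonneg (hpos 0).le _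
      calc _ ≤ (1 - θ) * (d 0 * d 0 ^ (p - 1)) := by gcongr
        _ = (1 - θ) * d 0 * d 0 ^ (p - 1) := by ring
        _ ≤ _ := by gcongr
    have hk : (2 ^ (1 + α) * κ * 2 ^ (α - 1)) ^ p = 2 * (κ * 2 ^ (α - 1)) ^ p := by
      rw [mul_assoc, Real.mul_rpow (by positivity) (by positivity), ← Real.rpow_mul (by norm_num),
        hpd, mul_one_div_cancel (by linarith), Real.rpow_one]
    rw [hk] at A
    have e1 : e p (n + 1 + 1) a = (e p (n + 1) (tp a) + e p (n + 1) (tm a)) / 2 := rfl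
    have e2 : e p (n + 1) (tm a) = (e p n (tp (tm a)) + e p n (tm (tm a))) / 2 := rfl
    have := e_nonneg p n (tp (tm a))
    rw [e1, e2]; push_cast
    linarith

end Pool.Agent.H46.Wal
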