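import Pool.Agent.H46.Wal1

namespace Pool.Agent.H46.Wal

open MeasureTheory ProbabilityTheory Filter Finset
open scoped ENNReal

def fl (s : ℕ) (x : G) : G := fun i => if i = s then !(x i) else x i

theorem meas_fl (s : ℕ) : Measurable (fl s) :=
  measurable_pi_lambda _ fun i =>
    (measurable_of_countable (fun b : Bool => if i = s then !b else b)).comp (measurable_pi_apply i)

theorem coin_not : coin.map (fun b : Bool => !b) = coin := by
  refine Measure.ext_of_singleton fun b => ?_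
  rw [Measure.map_apply (measurable_of_countable _) (measurableSet_singleton _)]
  have : (fun b : Bool => !b) ⁻¹' {b} = {!b} := by ext c; cases b <;> cases c <;> simp
  rw [this]; simp [coin]

theorem mp_fl (s : ℕ) : MeasurePreserving (fl s) mu mu := by
  refine ⟨meas_fl s, ?_⟩
  have := Measure.infinitePi_map_pi (fun _ : ℕ => coin)
    (f := fun i (b : Bool) => if i = s then !b else b) (fun i => measurable_of_countable _)
  unfold mu
  refine this.trans ?_
  congr 1; funext i
  by_cases h : i = s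
  · simp only [h, if_true]; exact coin_not
  · simp only [h, if_false]; exact Measure.map_id

theorem fl_fl (s : ℕ) (x : G) : fl s (fl s x) = x := by
  funext i; by_cases h : i = s <;> simp [fl, h]

def sh (s : ℕ) (x : G) : G := fun k => x (k + s)

theorem meas_sh (s : ℕ) : Measurable (sh s) :=
  measurable_pi_lambda _ fun i => measurable_pi_apply (i + s)

theorem meas_r (k : ℕ) : Measurable (r k) :=
  (measurable_of_countable (fun b : Bool => (-1 : ℝ) ^ b.toNat)).comp (measurable_pi_apply k)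

theorem meas_w (n : ℕ) : Measurable (w n) :=
  Finset.measurable_prod _ fun k _ => (meas_r k).pow_const _

theorem w_eq (n m : ℕ) (h : n < 2 ^ m) (x : G) :
    w n x = ∏ k ∈ range m, r k x ^ (n.testBit k).toNat := by
  have key : ∀ a b, n < 2 ^ a → a ≤ b → ∏ k ∈ range a, r k x ^ (n.testBit k).toNat
      = ∏ k ∈ range b, r k x ^ (n.testBit k).toNat := by
    intro a b ha hab
    refine prod_subset (range_mono hab) fun k _ hk => ?_
    rw [mem_range, not_lt] at hk
    rw [Nat.testBit_lt_two_pow (lt_of_lt_of_le ha (Nat.pow_le_pow_right (by norm_num) hk))]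
    simp
  unfold w
  rw [key n (max n m) Nat.lt_two_pow_self (le_max_left _ _), key m (max n m) h (le_max_right _ _)]

theorem w_even (l : ℕ) (x : G) : w (2 * l) x = w l (sh 1 x) := by
  have : 2 * l < 2 ^ (l + 1) := by have := @Nat.lt_two_pow_self l; rw [pow_succ]; omega
  rw [w_eq _ _ this, prod_range_succ']
  simp only [Nat.testBit_succ, Nat.mul_div_cancel_left l two_pos]
  have : (2 * l).testBit 0 = false := by simp
  rw [this]; simp [w, r, sh]

theorem w_odd (l : ℕ) (x : G) : w (2 * l + 1) x = r 0 x * w l (sh 1 x) := by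
  have : 2 * l + 1 < 2 ^ (l + 1) := by have := @Nat.lt_two_pow_self l; rw [pow_succ]; omega
  rw [w_eq _ _ this, prod_range_succ']
  have h2 : (2 * l + 1) / 2 = l := by omega
  simp only [Nat.testBit_succ, h2]
  have : (2 * l + 1).testBit 0 = true := by simp
  rw [this, mul_comm]; simp [w, r, sh]

def W (n : ℕ) (a : ℕ → ℝ) (x : G) : ℝ := ∑ l ∈ range (2 ^ n), a l * w l x

theorem meas_W (n : ℕ) (a : ℕ → ℝ) : Measurable (W n a) :=
  Finset.measurable_sum _ fun l _ => (meas_w l).const_mul _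

theorem W_succ (n : ℕ) (a : ℕ → ℝ) (x : G) :
    W (n + 1) a x = if x 0 then W n (tm a) (sh 1 x) else W n (tp a) (sh 1 x) := by
  unfold W
  rw [show 2 ^ (n + 1) = 2 * 2 ^ n by ring, sum_two]
  simp only [w_even, w_odd, r]
  cases x 0
  · simp only [Bool.false_eq_true, if_false]
    exact sum_congr rfl fun l _ => by simp [tp]; ring
  · simp only [if_true]
    exact sum_congr rfl fun l _ => by simp [tm]; ring

theorem lint_split (s : ℕ) (A B : G → ℝ≥0∞) (hA : Measurable A) (hB : Measurable B)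
    (fA : ∀ x, A (fl s x) = A x) (fB : ∀ x, B (fl s x) = B x) :
    2 * ∫⁻ x, (if x s then A x else B x) ∂mu = ∫⁻ x, A x ∂mu + ∫⁻ x, B x ∂mu := by
  have hm : Measurable fun x : G => if x s then A x else B x :=
    Measurable.ite (measurableSet_eq_fun (measurable_pi_apply s) measurable_const) hA hB
  rw [two_mul]
  nth_rewrite 2 [← (mp_fl s).lintegral_comp hm]
  rw [← lintegral_add_left hm, ← lintegral_add_left hA]
  congr 1; funext x
  rw [fA, fB]
  have : fl s x s = !(x s) := by simp [fl]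
  rw [this]
  cases x s <;> simp [add_comm]

theorem lint_W {p : ℝ} (hp : 0 < p) : ∀ n s (a : ℕ → ℝ),
    ∫⁻ x, ‖W n a (sh s x)‖ₑ ^ p ∂mu = ENNReal.ofReal (e p n a)
  | 0, s, a => by
    simp only [W, pow_zero, range_one, sum_singleton, w, range_zero, prod_empty, mul_one, e,
      lintegral_const, measure_univ]
    rw [← ENNReal.ofReal_rpow_of_nonneg (abs_nonneg _) hp.le, Real.enorm_eq_ofReal_abs]
  | n + 1, s, a => by
    have hsh : ∀ x, sh 1 (sh s x) = sh (s + 1) x := by
      intro x; funext k; simp only [sh]; congr 1; ring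
    have hf : ∀ x, sh (s + 1) (fl s x) = sh (s + 1) x := by
      intro x; funext k; simp only [sh, fl]; rw [if_neg (by omega)]
    have hm : ∀ b, Measurable fun x => ‖W n b (sh (s + 1) x)‖ₑ ^ p := fun b =>
      ((meas_W n b).comp (meas_sh _)).enorm.pow_const _
    have h := lint_split s (fun x => ‖W n (tm a) (sh (s + 1) x)‖ₑ ^ p)
      (fun x => ‖W n (tp a) (sh (s + 1) x)‖ₑ ^ p) (hm _) (hm _) (fun x => by rw [hf])
      (fun x => by rw [hf])
    rw [lint_W hp n, lint_W hp n, ← ENNReal.ofReal_add (e_nonneg _ _ _) (e_nonneg _ _ _)] at h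
    have h2 : ∫⁻ x, ‖W (n + 1) a (sh s x)‖ₑ ^ p ∂mu = ∫⁻ x, (if x s then
        ‖W n (tm a) (sh (s + 1) x)‖ₑ ^ p else ‖W n (tp a) (sh (s + 1) x)‖ₑ ^ p) ∂mu := by
      congr 1; funext x
      rw [W_succ, hsh]
      have : sh s x 0 = x s := by simp [sh]
      rw [this]; cases x s <;> simp
    rw [h2]
    have h3 : e p (n + 1) a = (e p n (tm a) + e p n (tp a)) / 2 := by simp only [e]; ring
    rw [h3, ENNReal.ofReal_div_of_pos two_pos, ← h, ENNReal.ofReal_ofNat, mul_comm,
      ENNReal.mul_div_cancel_right (by norm_num) (by norm_num)]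

theorem lint_W0 {p : ℝ} (hp : 0 < p) (n : ℕ) (a : ℕ → ℝ) :
    ∫⁻ x, ‖W n a x‖ₑ ^ p ∂mu = ENNReal.ofReal (e p n a) := lint_W hp n 0 a

theorem r_sq (k : ℕ) (x : G) : r k x * r k x = 1 := by unfold r; cases x k <;> simp

theorem w_sq (n : ℕ) (x : G) : w n x * w n x = 1 := by
  unfold w; rw [← prod_mul_distrib]
  exact prod_eq_one fun k _ => by rw [← mul_pow, r_sq, one_pow]

theorem abs_w (n : ℕ) (x : G) : |w n x| = 1 := by
  have := w_sq n x
  rw [← abs_mul_abs_self] at this
  nlinarith [abs_nonneg (w n x)]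

theorem w_fl (n s : ℕ) (x : G) : w n (fl s x) = (-1) ^ (n.testBit s).toNat * w n x := by
  have h : n < 2 ^ (n + s + 1) := lt_of_lt_of_le Nat.lt_two_pow_self
    (Nat.pow_le_pow_right (by norm_num) (by omega))
  rw [w_eq _ _ h, w_eq _ _ h, ← mul_prod_erase _ _ (show s ∈ range (n + s + 1) by simp),
    ← mul_prod_erase _ _ (show s ∈ range (n + s + 1) by simp), ← mul_assoc, ← mul_pow]
  congr 1
  · congr 1; simp only [r, fl, if_true]; cases x s <;> simp
  · exact prod_congr rfl fun k hk => by simp only [r, fl, if_neg (ne_of_mem_erase hk)]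

theorem int_neg (s : ℕ) (g : G → ℝ) (hg : Measurable g) (h : ∀ x, g (fl s x) = -g x) :
    ∫ x, g x ∂mu = 0 := by
  have h1 : ∫ x, g (fl s x) ∂mu = ∫ x, g x ∂mu := by
    rw [← integral_map (meas_fl s).aemeasurable hg.aestronglyMeasurable, (mp_fl s).map_eq]
  simp only [h, integral_neg] at h1
  linarith

theorem orth (i j : ℕ) : ∫ x, w i x * w j x ∂mu = if i = j then 1 else 0 := by
  split_ifs with h
  · subst h; simp [w_sq]
  · obtain ⟨s, hs⟩ := Nat.exists_testBit_ne_of_ne h
    refine int_neg s _ ((meas_w i).mul (meas_w j)) fun x => ?_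
    rw [w_fl, w_fl]
    revert hs
    cases i.testBit s <;> cases j.testBit s <;> simp

theorem int_ww (i j : ℕ) : Integrable (fun x => w i x * w j x) mu :=
  Integrable.of_bound ((meas_w i).mul (meas_w j)).aestronglyMeasurable 1
    (ae_of_all _ fun x => by rw [Real.norm_eq_abs, abs_mul, abs_w, abs_w]; norm_num)

theorem int_W (n : ℕ) (a : ℕ → ℝ) : Integrable (W n a) mu := by
  refine integrable_finsetSum _ fun l _ => Integrable.const_mul ?_ _
  exact Integrable.of_bound (meas_w l).aestronglyMeasurable 1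
    (ae_of_all _ fun x => by rw [Real.norm_eq_abs, abs_w])

theorem W_coef (n : ℕ) (a : ℕ → ℝ) (i : ℕ) (hi : i < 2 ^ n) :
    ∫ x, W n a x * w i x ∂mu = a i := by
  simp only [W, sum_mul, mul_assoc]
  rw [integral_finsetSum _ fun l _ => (int_ww l i).const_mul _]
  simp only [integral_const_mul, orth, mul_ite, mul_one, mul_zero]
  rw [sum_ite_eq' (range (2 ^ n)) i a, if_pos (mem_range.2 hi)]

theorem dep_of_meas (n : ℕ) (s : Set G) (hs : MeasurableSet[Fn n] s) :
    ∀ x y : G, (∀ j < n, y j = x j) → (x ∈ s ↔ y ∈ s) := by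
  induction s, hs using MeasurableSpace.generateFrom_induction with
  | hC t ht _ =>
    obtain ⟨z, rfl⟩ := ht
    intro x y h
    exact ⟨fun hx j hj => (h j hj).trans (hx j hj), fun hy j hj => (h j hj).symm.trans (hy j hj)⟩
  | empty => simp
  | compl t _ ih => intro x y h; exact not_congr (ih x y h)
  | iUnion f _ ih => intro x y h; simp only [Set.mem_iUnion]; exact exists_congr fun i => ih i x y h

/-- coefficients of the test function `D_{2^{n+1}} - D_{2^n}` -/
def hc (n : ℕ) : ℕ → ℝ := fun i => if 2 ^ n ≤ i then 1 else 0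

/-- the test martingale -/
def tf (n : ℕ) : ℕ → G → ℝ := fun k => if n + 1 ≤ k then W (n + 1) (hc n) else 0

theorem W_dep (n : ℕ) (a : ℕ → ℝ) (x y : G) (h : ∀ j < n, y j = x j) : W n a y = W n a x :=
  sum_congr rfl fun l hl => by
    rw [w_eq _ _ (mem_range.1 hl), w_eq _ _ (mem_range.1 hl)]
    congr 1
    exact prod_congr rfl fun k hk => by simp only [r, h k (mem_range.1 hk)]

theorem mart (n : ℕ) : Martingale (tf n) F mu := by
  refine martingale_of_setIntegral_eq_succ (fun k => ?_) (fun k => ?_) fun k s hs => ?_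
  · unfold tf; split_ifs with h
    · refine Measurable.stronglyMeasurable fun t _ => meas_of_dep k _ fun x y hxy hx => ?_
      rw [Set.mem_preimage, W_dep _ _ x y fun j hj => hxy j (by omega)]; exact hx
    · exact stronglyMeasurable_zero
  · unfold tf; split_ifs with h
    · exact int_W _ _
    · exact integrable_zero _ _ _
  · rcases lt_trichotomy k n with h | rfl | h
    · simp only [tf, if_neg (show ¬ n + 1 ≤ k by omega), if_neg (show ¬ n + 1 ≤ k + 1 by omega)]
    · simp only [tf, if_neg (show ¬ k + 1 ≤ k by omega), le_refl, if_true, Pi.zero_apply,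
        integral_zero]
      have hs' : MeasurableSet s := F.le k s hs
      rw [← integral_indicator hs']
      refine (int_neg k _ ((meas_W _ _).indicator hs') fun x => ?_).symm
      have h1 : x ∈ s ↔ fl k x ∈ s := dep_of_meas k s hs _ _ fun j hj => by
        simp only [fl, if_neg hj.ne]
      by_cases hx : x ∈ s
      · rw [Set.indicator_of_mem hx, Set.indicator_of_mem (h1.1 hx)]
        unfold W; rw [← sum_neg_distrib]
        refine sum_congr rfl fun l hl => ?_
        unfold hc; split_ifs with h2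
        · rw [w_fl, Nat.testBit_of_two_pow_le_and_two_pow_add_one_gt h2 (mem_range.1 hl)]; simp
        · simp
      · rw [Set.indicator_of_notMem hx, Set.indicator_of_notMem (fun h => hx (h1.2 h)), neg_zero]
    · simp only [tf, if_pos (show n + 1 ≤ k by omega), if_pos (show n + 1 ≤ k + 1 by omega)]

theorem coef_tf (n i : ℕ) (hi : i < 2 ^ (n + 1)) : coef (tf n) i = hc n i := by
  refine Tendsto.limUnder_eq (tendsto_const_nhds.congr' ?_)
  filter_upwards [eventually_ge_atTop (n + 1)] with k hk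
  simp only [tf, if_pos hk]
  exact (W_coef _ _ _ hi).symm

theorem hp_tf {p : ℝ} (hp0 : 0 < p) (n : ℕ) :
    hp p (tf n) = ENNReal.ofReal (((2 : ℝ) ^ (p - 1)) ^ n) ^ (1 / p) := by
  unfold hp
  have : ∀ x, (⨆ k, ‖tf n k x‖ₑ) = ‖W (n + 1) (hc n) x‖ₑ := by
    intro x
    refine le_antisymm (iSup_le fun k => ?_) (le_iSup_of_le (n + 1) (by simp [tf]))
    unfold tf; split_ifs <;> simp
  simp only [this]
  rw [lint_W0 hp0, e_refl p n _ (fun _ => 1) 1 abs_one
    (fun i hi => by simp [hc, hi])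
    (fun i j hij hi => by rw [pow_succ] at hij; simp only [hc]; rw [if_pos (by omega)]; simp),
    e_const hp0]
  simp

/-- the weighted sum of the sums `S_k` for the test martingale -/
theorem sum_tf (q : ℕ → ℝ) (n : ℕ) (x : G) :
    ∑ k ∈ Icc 1 (2 ^ (n + 1)), q (2 ^ (n + 1) - k) * S k (tf n) x
      = W (n + 1) (fun i => hc n i * ∑ j ∈ range (2 ^ (n + 1) - i), q j) x := by
  have key : ∀ (N : ℕ) (c : ℕ → ℝ), ∑ k ∈ Icc 1 N, q (N - k) * ∑ j ∈ range k, c j
      = ∑ i ∈ range N, (∑ j ∈ range (N - i), q j) * c i := by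
    intro N c
    simp only [mul_sum, sum_mul]
    rw [sum_sigma', sum_sigma']
    refine sum_bij' (fun a _ => ⟨a.2, N - a.1⟩) (fun a _ => ⟨N - a.2, a.1⟩) ?_ ?_ ?_ ?_ ?_
    · rintro ⟨k, j⟩ h; simp only [mem_sigma, mem_Icc, mem_range] at h ⊢; omega
    · rintro ⟨k, j⟩ h; simp only [mem_sigma, mem_Icc, mem_range] at h ⊢; omega
    · rintro ⟨k, j⟩ h; simp only [mem_sigma, mem_Icc, mem_range] at h
      simp only [Sigma.mk.injEq, heq_eq_eq, and_true]; omega
    · rintro ⟨k, j⟩ h; simp only [mem_sigma, mem_Icc, mem_range] at h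
      simp only [Sigma.mk.injEq, heq_eq_eq, true_and]; omega
    · rintro ⟨k, j⟩ _; rfl
  unfold S W
  rw [key]
  exact sum_congr rfl fun i hi => by rw [coef_tf n i (mem_range.1 hi)]; ring

theorem lp_mul {p : ℝ} (hp0 : 0 < p) (c : ℝ) (g : G → ℝ) (hg : Measurable g) :
    lp p (fun x => c * g x) = (‖c‖ₑ ^ p * ∫⁻ x, ‖g x‖ₑ ^ p ∂mu) ^ (1 / p) := by
  unfold lp
  rw [← lintegral_const_mul _ (hg.enorm.pow_const _)]
  simp only [enorm_mul, ENNReal.mul_rpow_of_nonneg _ _ hp0.le]

/-- Unboundedness of dyadic Nörlund means at the endpoint. -/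
theorem general {α θ κ K : ℝ} (h0 : 0 < α) (h1 : α < 1) (hθ0 : 0 ≤ θ) (hθ : θ < 1) (hκ : 0 < κ)
    (hK : 0 < K) (q Q : ℕ → ℝ) (hm : ∀ l, q (l + 2) ≤ q (l + 1))
    (ht : ∀ l, q (2 * l + 3) ≤ θ * q (l + 1))
    (hl : ∀ l : ℕ, κ * ((l : ℝ) + 2) ^ (α - 1) ≤ q (l + 1))
    (hQ0 : ∀ N, 1 ≤ N → 0 < Q N) (hQ : ∀ N : ℕ, 1 ≤ N → Q N ≤ K * (N : ℝ) ^ α) (C : ℝ) :
    ∃ (f : ℕ → G → ℝ) (n : ℕ), Martingale f F mu ∧ hp (1 / (1 + α)) f < ⊤ ∧
      ENNReal.ofReal C * hp (1 / (1 + α)) f <
        lp (1 / (1 + α)) (fun x => 1 / Q (2 ^ n) * ∑ k ∈ Icc 1 (2 ^ n), q (2 ^ n - k) * S k f x) := by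
  set p := 1 / (1 + α) with hpd
  have hp0 : 0 < p := by positivity
  set c₀ := (1 - θ) / 4 * (κ * 2 ^ (α - 1)) ^ p with hc₀
  have hc0 : 0 < c₀ := by have : 0 < 1 - θ := by linarith
                          positivity
  set D := |C| ^ p * (K * 2 ^ α * 2 ^ α) ^ p with hD
  obtain ⟨m, hm'⟩ := exists_nat_gt (D / c₀)
  rw [div_lt_iff₀ hc0] at hm'
  refine ⟨tf (m + 1), m + 1 + 1, mart _, ?_, ?_⟩
  · rw [hp_tf hp0]
    exact ENNReal.rpow_lt_top_of_nonneg (by positivity) ENNReal.ofReal_ne_top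
  simp only [sum_tf]
  rw [lp_mul hp0 _ _ (meas_W _ _), lint_W0 hp0, hp_tf hp0,
    e_refl p (m + 1) _ (fun l => ∑ j ∈ range (l + 1), q j) 1 abs_one
    (fun i hi => by simp [hc, hi])
    (fun i j hij hi => by
      have : 2 ^ (m + 1 + 1) - j = i + 1 := by omega
      rw [this]
      rw [pow_succ 2 (m + 1)] at hij; simp only [hc]; rw [if_pos (by omega)])]
  have A := e_main h0 h1 hθ0 hθ.le m (fun l => ∑ j ∈ range (l + 1), q j) κ hκ
    (fun l => by simp only [sum_range_succ]; linarith [hm l])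
    (fun l => by simp only [sum_range_succ]; linarith [ht l])
    (fun l => by simp only [sum_range_succ]; linarith [hl l])
  rw [← hpd, ← hc₀] at A
  set E := e p (m + 1) (fun l => ∑ j ∈ range (l + 1), q j)
  have hN : 1 ≤ 2 ^ (m + 1 + 1) := Nat.one_le_two_pow
  have q0 := hQ0 _ hN
  have q1 := hQ _ hN
  set Q₀ := Q (2 ^ (m + 1 + 1))
  have hC : ENNReal.ofReal C ≤ ENNReal.ofReal (|C| ^ p) ^ (1 / p) := by
    rw [ENNReal.ofReal_rpow_of_nonneg (by positivity) (by positivity), ← Real.rpow_mul (abs_nonneg _),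
      mul_one_div_cancel hp0.ne', Real.rpow_one]
    exact ENNReal.ofReal_le_ofReal (le_abs_self _)
  refine lt_of_le_of_lt (mul_le_mul_left hC _) ?_
  rw [← ENNReal.mul_rpow_of_nonneg _ _ (by positivity)]
  refine ENNReal.rpow_lt_rpow ?_ (by positivity)
  rw [Real.enorm_eq_ofReal_abs, ENNReal.ofReal_rpow_of_nonneg (abs_nonneg _) hp0.le,
    ← ENNReal.ofReal_mul (by positivity), ← ENNReal.ofReal_mul (by positivity)]
  have hE : D < E := lt_of_lt_of_le hm' A
  have hD0 : 0 ≤ D := by positivity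
  rw [ENNReal.ofReal_lt_ofReal_iff (by have : 0 < E := by linarith
                                       positivity)]
  have hX : (0 : ℝ) < ((2 : ℝ) ^ α) ^ (m + 1) := by positivity
  have e1 : ((2 : ℝ) ^ (p - 1)) ^ (m + 1) = (1 / ((2 : ℝ) ^ α) ^ (m + 1)) ^ p := by
    have : p - 1 = -α * p := by rw [hpd]; field_simp; ring
    rw [this, one_div, ← inv_pow, ← Real.rpow_neg (by norm_num), Real.rpow_mul (by norm_num),
      Real.rpow_pow_comm (by positivity)]
  have e2 : (((2 ^ (m + 1 + 1) : ℕ) : ℝ)) ^ α = 2 ^ α * ((2 : ℝ) ^ α) ^ (m + 1) := by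
    push_cast
    rw [← Real.rpow_natCast, ← Real.rpow_mul (by norm_num), mul_comm,
      Real.rpow_mul (by norm_num), Real.rpow_natCast]; ring
  rw [e2] at q1
  have h2 : (1 : ℝ) ≤ 2 ^ α := Real.one_le_rpow (by norm_num) h0.le
  have e3 : 1 / ((2 : ℝ) ^ α) ^ (m + 1) ≤ |1 / Q₀| * (K * 2 ^ α * 2 ^ α) := by
    rw [abs_of_pos (by positivity), div_le_iff₀ hX, one_div, mul_assoc, ← div_eq_inv_mul,
      le_div_iff₀ q0]
    nlinarith [mul_pos hK (mul_pos (lt_of_lt_of_le one_pos h2) hX)]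
  have e4 := Real.rpow_le_rpow (by positivity) e3 hp0.le
  rw [Real.mul_rpow (abs_nonneg _) (by positivity)] at e4
  rw [e1]
  have e5 : 0 < |1 / Q₀| ^ p := by positivity
  calc _ ≤ |C| ^ p * (|1 / Q₀| ^ p * (K * 2 ^ α * 2 ^ α) ^ p) := by gcongr
    _ = |1 / Q₀| ^ p * D := by rw [hD]; ring
    _ < _ := by gcongr

end Pool.Agent.H46.Wal
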