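import Pool.Agent.H46.Wal2

namespace Pool.Agent.H46.Wal

open MeasureTheory Filter Finset

noncomputable def hn (n : ℕ) : ℝ := ∑ k ∈ Icc 1 n, 1 / (k : ℝ)

def chi (m : ℕ) (T : Finset ℕ) (j : ℕ) : ℝ := ∏ s ∈ T, (-1 : ℝ) ^ (j.testBit (m - 1 - s)).toNat

noncomputable def gam (s : ℕ) : ℝ := 2 * (2 / 3) ^ s

theorem gam_pos (s : ℕ) : 0 < gam s := by unfold gam; positivity

theorem bits : ∀ m j : ℕ, j < 2 ^ m → ∑ k ∈ range m, 2 ^ k * (j.testBit k).toNat = j
  | 0, j, h => by simp at h; simp [h]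
  | m + 1, j, h => by
    rw [sum_range_succ']
    have := bits m (j / 2) (by rw [pow_succ] at h; omega)
    simp only [Nat.testBit_succ, pow_succ, mul_right_comm _ 2]
    rw [← sum_mul, this]
    rcases Nat.mod_two_eq_zero_or_one j with h2 | h2 <;> simp [Nat.testBit_zero, h2] <;> omega

noncomputable def be (m : ℕ) (t : ℝ) (s : ℕ) : ℝ := (1 - t ^ 2 ^ (m - 1 - s)) / 2
noncomputable def al (m : ℕ) (t : ℝ) (s : ℕ) : ℝ := (1 + t ^ 2 ^ (m - 1 - s)) / 2

theorem pow_eq (t : ℝ) (m j : ℕ) (h : j < 2 ^ m) :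
    t ^ j = ∑ T ∈ (range m).powerset,
      (∏ s ∈ T, be m t s) * (∏ s ∈ range m \ T, al m t s) * chi m T j := by
  have h1 : t ^ j = ∏ s ∈ range m,
      (be m t s * (-1) ^ (j.testBit (m - 1 - s)).toNat + al m t s) := by
    conv_lhs => rw [← bits m j h, ← prod_pow_eq_pow_sum, ← prod_range_reflect]
    refine prod_congr rfl fun s _ => ?_
    unfold be al
    cases j.testBit (m - 1 - s) <;> simp <;> ring
  rw [h1, prod_add]
  exact sum_congr rfl fun T _ => by rw [prod_mul_distrib, chi]; ring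

noncomputable def hh (m : ℕ) (T : Finset ℕ) (t : ℝ) : ℝ :=
  t ^ 2 ^ m * ((∏ s ∈ T, be m t s) * (∏ s ∈ range m \ T, al m t s)) / (1 - t)

theorem hh_sum (m j : ℕ) (h : j < 2 ^ m) (t : ℝ) (ht : t ≠ 1) :
    ∑ k ∈ range j, t ^ (2 ^ m + k) = ∑ T ∈ (range m).powerset, hh m T t * (1 - chi m T j) := by
  have h0 := pow_eq t m 0 (by positivity)
  have h1 := pow_eq t m j h
  have hc : ∀ T, chi m T 0 = 1 := fun T => by simp [chi]
  simp only [hc, pow_zero, mul_one] at h0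
  have h2 : 1 - t ≠ 0 := sub_ne_zero.2 ht.symm
  have h3 : ∑ T ∈ (range m).powerset, hh m T t * (1 - chi m T j)
      = t ^ 2 ^ m * (1 - t ^ j) / (1 - t) := by
    conv_rhs => rw [h1]; enter [1, 2, 1]; rw [h0]
    rw [← sum_sub_distrib, mul_sum, sum_div]
    exact sum_congr rfl fun T _ => by unfold hh; ring
  rw [h3, eq_div_iff h2]
  simp only [pow_add, ← mul_sum]
  rw [mul_assoc, geom_sum_mul_neg]

theorem key_exp (T : Finset ℕ) (u : ℝ) (hu : 0 ≤ u) :
    Real.exp (-u / 2) * ∏ s ∈ T, u / 2 ^ (s + 2) ≤ ∏ s ∈ T, gam s := by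
  have h1 : ∑ s ∈ T, (3 / 4 : ℝ) ^ s ≤ 4 := by
    have := (summable_geometric_of_lt_one (r := (3 / 4 : ℝ)) (by norm_num) (by norm_num)).sum_le_tsum
      T (fun _ _ => by positivity)
    rw [tsum_geometric_of_lt_one (by norm_num) (by norm_num)] at this
    linarith
  have h2 : Real.exp (-u / 2) ≤ ∏ s ∈ T, Real.exp (-(u / 8 * (3 / 4) ^ s)) := by
    rw [← Real.exp_sum, Real.exp_le_exp, sum_neg_distrib, ← mul_sum]
    nlinarith
  calc _ ≤ (∏ s ∈ T, Real.exp (-(u / 8 * (3 / 4) ^ s))) * ∏ s ∈ T, u / 2 ^ (s + 2) := by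
        gcongr
    _ ≤ _ := by
        rw [← prod_mul_distrib]
        refine prod_le_prod (fun _ _ => by positivity) fun s _ => ?_
        have h3 := Real.add_one_le_exp (u / 8 * (3 / 4) ^ s)
        rw [Real.exp_neg, ← div_eq_inv_mul, div_le_iff₀ (Real.exp_pos _), div_le_iff₀ (by positivity)]
        have h4 : u = gam s * (u / 8 * (3 / 4) ^ s) * 2 ^ (s + 2) := by
          have : (2 / 3 : ℝ) ^ s * (3 / 4) ^ s * 2 ^ s = 1 := by
            rw [← mul_pow, ← mul_pow]; norm_num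
          unfold gam; rw [pow_add]
          linear_combination (-u) * this
        have := gam_pos s
        calc u = _ := h4
          _ ≤ _ := by gcongr; linarith

theorem be_bd (m s : ℕ) (hs : s < m) (t : ℝ) (h0 : 0 ≤ t) (h1 : t ≤ 1) :
    0 ≤ be m t s ∧ be m t s ≤ 2 ^ m * (1 - t) / 2 ^ (s + 2) := by
  unfold be
  refine ⟨by have := pow_le_one₀ (n := 2 ^ (m - 1 - s)) h0 h1; linarith, ?_⟩
  have h2 := one_add_mul_le_pow (a := t - 1) (by linarith) (2 ^ (m - 1 - s))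
  have h3 : (2 : ℝ) ^ m = 2 ^ (m - 1 - s) * 2 ^ (s + 1) := by
    rw [← pow_add]; congr 1; omega
  rw [h3, le_div_iff₀ (by positivity), pow_succ _ (s + 1)]
  push_cast at h2
  rw [show 1 + (t - 1) = t by ring] at h2
  have : (0 : ℝ) < 2 ^ (s + 1) := by positivity
  nlinarith

theorem hh_bd (m : ℕ) (T : Finset ℕ) (hT : T ⊆ range m) (hne : T.Nonempty) (t : ℝ) (h0 : 0 ≤ t)
    (h1 : t < 1) : 0 ≤ hh m T t ∧ hh m T t ≤ (∏ s ∈ T, gam s) * 2 ^ (m - 1) * t ^ 2 ^ (m - 1) := by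
  obtain ⟨s₀, hs₀⟩ := hne
  have hm : s₀ < m := mem_range.1 (hT hs₀)
  have hb := fun s (hs : s ∈ T) => be_bd m s (mem_range.1 (hT hs)) t h0 h1.le
  have ha0 : ∀ s, 0 ≤ al m t s := fun s => by unfold al; positivity
  have ha1 : ∏ s ∈ range m \ T, al m t s ≤ 1 := prod_le_one (fun s _ => ha0 s) fun s _ => by
    unfold al; have := pow_le_one₀ (n := 2 ^ (m - 1 - s)) h0 h1.le; linarith
  have hA : 0 ≤ ∏ s ∈ range m \ T, al m t s := prod_nonneg fun s _ => ha0 s
  have hB : 0 ≤ ∏ s ∈ T, be m t s := prod_nonneg fun s hs => (hb s hs).1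
  have ht : 0 < 1 - t := by linarith
  refine ⟨by unfold hh; positivity, ?_⟩
  set u := 2 ^ m * (1 - t) with hu
  have e1 : t ^ 2 ^ (m - 1) ≤ Real.exp (-u / 2) := by
    have : -u / 2 = (2 ^ (m - 1) : ℕ) * (t - 1) := by
      have : (2 : ℝ) ^ m = 2 ^ (m - 1) * 2 := by rw [← pow_succ]; congr 1; omega
      rw [hu, this]; push_cast; ring
    rw [this, Real.exp_nat_mul]
    exact pow_le_pow_left₀ h0 (by linarith [Real.add_one_le_exp (t - 1)]) _
  have e2 : ∏ s ∈ T.erase s₀, be m t s ≤ ∏ s ∈ T.erase s₀, u / 2 ^ (s + 2) :=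
    prod_le_prod (fun s hs => (hb s (mem_of_mem_erase hs)).1)
      fun s hs => (hb s (mem_of_mem_erase hs)).2
  have e3 := key_exp (T.erase s₀) u (by positivity)
  have hB' : 0 ≤ ∏ s ∈ T.erase s₀, be m t s := prod_nonneg fun s hs => (hb s (mem_of_mem_erase hs)).1
  have e4 : t ^ 2 ^ (m - 1) * ∏ s ∈ T.erase s₀, be m t s ≤ ∏ s ∈ T.erase s₀, gam s :=
    le_trans (mul_le_mul e1 e2 hB' (Real.exp_pos _).le) e3
  have e5 : be m t s₀ ≤ gam s₀ * 2 ^ (m - 1) * (1 - t) := by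
    refine (hb s₀ hs₀).2.trans ?_
    have h2 : (2 : ℝ) ^ m = 2 ^ (m - 1) * 2 := by rw [← pow_succ]; congr 1; omega
    have h3 : (1 : ℝ) ≤ (2 / 3) ^ s₀ * 2 ^ s₀ := by
      rw [← mul_pow]; exact one_le_pow₀ (by norm_num)
    rw [hu, h2, div_le_iff₀ (by positivity), pow_add]; unfold gam
    have : (0 : ℝ) < 2 ^ (m - 1) * (1 - t) := by positivity
    nlinarith
  have e6 : t ^ 2 ^ m = t ^ 2 ^ (m - 1) * t ^ 2 ^ (m - 1) := by
    rw [← pow_add]; congr 1
    rw [← two_mul, ← pow_succ']; congr 1; omega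
  unfold hh
  rw [div_le_iff₀ ht, ← mul_prod_erase T _ hs₀, ← mul_prod_erase T _ hs₀, e6]
  have hg : 0 ≤ ∏ s ∈ T.erase s₀, gam s := prod_nonneg fun s _ => (gam_pos s).le
  have := (hb s₀ hs₀).1
  calc _ = t ^ 2 ^ (m - 1) * (t ^ 2 ^ (m - 1) * ∏ s ∈ T.erase s₀, be m t s) * be m t s₀
        * ∏ s ∈ range m \ T, al m t s := by ring
    _ ≤ t ^ 2 ^ (m - 1) * (∏ s ∈ T.erase s₀, gam s) * (gam s₀ * 2 ^ (m - 1) * (1 - t)) * 1 := by
        have := gam_pos s₀
        gcongr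
    _ = _ := by ring

theorem meas_hh (m : ℕ) (T : Finset ℕ) : Measurable (hh m T) := by
  unfold hh be al; fun_prop

theorem int_pow (n : ℕ) : ∫ t in Set.Ioo (0 : ℝ) 1, t ^ n = 1 / (n + 1) := by
  rw [← integral_Ioc_eq_integral_Ioo, ← intervalIntegral.integral_of_le zero_le_one, integral_pow]
  simp

theorem intg_pow (n : ℕ) : IntegrableOn (fun t : ℝ => t ^ n) (Set.Ioo 0 1) :=
  ((continuous_pow n).integrableOn_Icc (a := 0) (b := 1)).mono_set Set.Ioo_subset_Icc_self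

theorem coefs (m : ℕ) : ∃ c : Finset ℕ → ℝ,
    (∀ T ⊆ range m, |c T| ≤ ∏ s ∈ T, gam s) ∧
    ∀ j < 2 ^ m, hn (2 ^ m + j) - hn (2 ^ m) = ∑ T ∈ (range m).powerset, c T * (1 - chi m T j) := by
  have hi : ∀ T ⊆ range m, T.Nonempty → IntegrableOn (hh m T) (Set.Ioo 0 1) := fun T hT hne =>
    Integrable.mono' ((intg_pow (2 ^ (m - 1))).const_mul ((∏ s ∈ T, gam s) * 2 ^ (m - 1)))
      (meas_hh m T).aestronglyMeasurable
      ((ae_restrict_mem measurableSet_Ioo).mono fun t ht => by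
        have := hh_bd m T hT hne t ht.1.le ht.2
        rw [Real.norm_eq_abs, abs_of_nonneg this.1]; exact this.2)
  refine ⟨fun T => if T.Nonempty then ∫ t in Set.Ioo (0 : ℝ) 1, hh m T t else 0, fun T hT => ?_,
    fun j hj => ?_⟩
  · have hg : 0 ≤ ∏ s ∈ T, gam s := prod_nonneg fun s _ => (gam_pos s).le
    simp only; split_ifs with hne
    · rw [abs_of_nonneg (setIntegral_nonneg measurableSet_Ioo
        fun t ht => (hh_bd m T hT hne t ht.1.le ht.2).1)]
      refine (setIntegral_mono_on (hi T hT hne)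
        ((intg_pow (2 ^ (m - 1))).const_mul ((∏ s ∈ T, gam s) * 2 ^ (m - 1))) measurableSet_Ioo
        fun t ht => (hh_bd m T hT hne t ht.1.le ht.2).2).trans ?_
      rw [integral_const_mul, int_pow, mul_assoc]
      refine mul_le_of_le_one_right hg ?_
      push_cast
      rw [mul_one_div, div_le_one (by positivity)]; linarith
    · simpa using hg
  · have h1 : ∀ j, hn (2 ^ m + j) - hn (2 ^ m)
        = ∑ k ∈ range j, ∫ t in Set.Ioo (0 : ℝ) 1, t ^ (2 ^ m + k) := by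
      intro j
      induction j with
      | zero => simp
      | succ j ih =>
        rw [sum_range_succ, ← ih, int_pow, ← add_assoc]
        unfold hn
        rw [sum_Icc_succ_top (by omega)]; push_cast; ring
    rw [h1, ← integral_finsetSum _ fun k _ => intg_pow _,
      setIntegral_congr_fun measurableSet_Ioo fun t ht => hh_sum m j hj t ht.2.ne,
      integral_finsetSum]
    · refine sum_congr rfl fun T _ => ?_
      rw [integral_mul_const]
      simp only
      split_ifs with hne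
      · rfl
      · rw [not_nonempty_iff_eq_empty.1 hne]; simp [chi]
    · intro T hT
      by_cases hne : T.Nonempty
      · exact (hi T (mem_powerset.1 hT) hne).mul_const _
      · rw [not_nonempty_iff_eq_empty.1 hne]; simp [chi]

end Pool.Agent.H46.Wal
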