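import Pool.Agent.H46.WalDefs

/-! Complex-valued dyadic martingales. -/

namespace Pool.Agent.H46.Wal

open MeasureTheory Filter Finset
open scoped ENNReal

/-- `‖g‖_p = (∫ |g|^p)^{1/p}`. -/
noncomputable def lpC (p : ℝ) (g : G → ℂ) : ℝ≥0∞ := (∫⁻ x, ‖g x‖ₑ ^ p ∂mu) ^ (1 / p)

/-- `‖f‖_{H_p} = ‖sup_n |f^{(n)}|‖_p`. -/
noncomputable def hpC (p : ℝ) (f : ℕ → G → ℂ) : ℝ≥0∞ :=
  (∫⁻ x, (⨆ n, ‖f n x‖ₑ) ^ p ∂mu) ^ (1 / p)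

/-- Walsh-Fourier coefficients of a martingale (the Walsh functions are real). -/
noncomputable def coefC (f : ℕ → G → ℂ) (i : ℕ) : ℂ :=
  limUnder atTop fun k => ∫ x, f k x * (w i x : ℂ) ∂mu

/-- The sums `S_k f = ∑_{j<k} coefC f j * w_j`. -/
noncomputable def SC (k : ℕ) (f : ℕ → G → ℂ) (x : G) : ℂ :=
  ∑ j ∈ range k, coefC f j * (w j x : ℂ)

end Pool.Agent.H46.Wal
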