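import Pool.Agent.H46.Wal3
import Pool.Agent.H46.WalDefsC

namespace Pool.Agent.H46.Wal

open MeasureTheory Filter Finset
open scoped ENNReal

def Dep {E : Type*} (K : ℕ) (g : G → E) : Prop := ∀ x y : G, (∀ j < K, y j = x j) → g y = g x

theorem Dep.mono {E : Type*} {K L : ℕ} {g : G → E} (h : Dep K g) (hKL : K ≤ L) : Dep L g :=
  fun x y hxy => h x y fun j hj => hxy j (lt_of_lt_of_le hj hKL)

theorem Dep.meas {E : Type*} [MeasurableSpace E] {K : ℕ} {g : G → E} (h : Dep K g) :
    Measurable g := fun t _ => F.le K _ (meas_of_dep K _ fun x y hxy hx => by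
      rw [Set.mem_preimage, h x y hxy]; exact hx)

theorem Dep.intg {E : Type*} [NormedAddCommGroup E] [MeasurableSpace E] [BorelSpace E]
    [SecondCountableTopology E] {K : ℕ} {g : G → E} (h : Dep K g) : Integrable g mu := by
  refine Integrable.of_bound h.meas.aestronglyMeasurable
    (∑ z : Fin K → Bool, ‖g (fun j => if hj : j < K then z ⟨j, hj⟩ else false)‖)
    (ae_of_all _ fun x => ?_)
  refine le_trans (le_of_eq ?_) (single_le_sum (f := fun z : Fin K → Bool =>
    ‖g (fun j => if hj : j < K then z ⟨j, hj⟩ else false)‖) (fun _ _ => norm_nonneg _)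
    (mem_univ (fun j : Fin K => x j)))
  exact congrArg _ (h x _ fun j hj => by simp [hj]).symm

theorem dep_w (n i : ℕ) (hi : i < 2 ^ n) : Dep n (w i) := fun x y h => by
  rw [w_eq _ _ hi, w_eq _ _ hi]
  exact prod_congr rfl fun k hk => by simp only [r, h k (mem_range.1 hk)]

theorem exists_W : ∀ (n : ℕ) (g : G → ℝ), Dep n g → ∃ a, g = W n a
  | 0, g, h => ⟨fun _ => g (fun _ => false), funext fun x => by
      simpa [W, w] using h _ x (fun j hj => absurd hj (Nat.not_lt_zero j))⟩
  | n + 1, g, h => by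
    have hd : ∀ b : Bool, Dep n fun y : G => g (fun k => Nat.casesOn k b y) := fun b x y hxy =>
      h _ _ fun j hj => by
        cases j with
        | zero => rfl
        | succ j => exact hxy j (by omega)
    obtain ⟨a0, h0⟩ := exists_W n _ (hd false)
    obtain ⟨a1, h1⟩ := exists_W n _ (hd true)
    refine ⟨fun i => if i % 2 = 0 then (a0 (i / 2) + a1 (i / 2)) / 2
      else (a0 (i / 2) - a1 (i / 2)) / 2, funext fun x => ?_⟩
    have e1 : ∀ l, (2 * l + 1) / 2 = l := fun l => by omega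
    have e2 : ∀ l, (2 * l + 1) % 2 = 1 := fun l => by omega
    rw [W_succ]
    have t0 : tp (fun i => if i % 2 = 0 then (a0 (i / 2) + a1 (i / 2)) / 2
      else (a0 (i / 2) - a1 (i / 2)) / 2) = a0 := by funext l; simp [tp, e1, e2]; ring
    have t1 : tm (fun i => if i % 2 = 0 then (a0 (i / 2) + a1 (i / 2)) / 2
      else (a0 (i / 2) - a1 (i / 2)) / 2) = a1 := by funext l; simp [tm, e1, e2]; ring
    rw [t0, t1, ← h0, ← h1]
    have : x = fun k => Nat.casesOn k (x 0) (sh 1 x) := by funext k; cases k <;> rfl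
    conv_lhs => rw [this]
    cases x 0 <;> simp

theorem repr_dep (n : ℕ) (g : G → ℂ) (h : Dep n g) (x : G) :
    g x = ∑ i ∈ range (2 ^ n), (∫ y, g y * (w i y : ℂ) ∂mu) * (w i x : ℂ) := by
  obtain ⟨a, ha⟩ := exists_W n (fun y => (g y).re) fun x y hxy => by simp only [h x y hxy]
  obtain ⟨b, hb⟩ := exists_W n (fun y => (g y).im) fun x y hxy => by simp only [h x y hxy]
  have hg : ∀ y, g y = (W n a y : ℂ) + (W n b y : ℂ) * Complex.I := fun y => by
    rw [← congrFun ha y, ← congrFun hb y]; exact (Complex.re_add_im _).symm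
  have hi : ∀ i ∈ range (2 ^ n), ∫ y, g y * (w i y : ℂ) ∂mu = a i + b i * Complex.I := by
    intro i hi
    have hd : ∀ c, Dep n fun y => ((W n c y * w i y : ℝ) : ℂ) := fun c x y hxy => by
      simp only [W_dep n c x y hxy, dep_w n i (mem_range.1 hi) x y hxy]
    have : ∀ y, g y * (w i y : ℂ) = ((W n a y * w i y : ℝ) : ℂ)
        + ((W n b y * w i y : ℝ) : ℂ) * Complex.I := fun y => by rw [hg]; push_cast; ring
    simp only [this]
    rw [integral_add (hd a).intg ((hd b).intg.mul_const _), integral_mul_const,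
      integral_complex_ofReal, integral_complex_ofReal, W_coef _ _ _ (mem_range.1 hi),
      W_coef _ _ _ (mem_range.1 hi)]
  rw [sum_congr rfl fun i h => by rw [hi i h], hg]
  simp only [W]; push_cast
  rw [sum_mul, ← sum_add_distrib]
  exact sum_congr rfl fun i _ => by ring

theorem mart_dep {f : ℕ → G → ℂ} (hf : Martingale f F mu) (n : ℕ) : Dep n (f n) := fun x y h => by
  have := (dep_of_meas n _ ((hf.stronglyAdapted n).measurable (measurableSet_singleton (f n x)))
    x y h).1 rfl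
  exact this

theorem mart_repr {f : ℕ → G → ℂ} (hf : Martingale f F mu) (n : ℕ) (x : G) :
    f n x = SC (2 ^ n) f x := by
  rw [repr_dep n _ (mart_dep hf n) x]
  refine sum_congr rfl fun i hi => ?_
  congr 1
  refine (Tendsto.limUnder_eq (tendsto_const_nhds.congr' ?_)).symm
  filter_upwards [eventually_ge_atTop n] with k hk
  set A : Set G := {y | w i y = 1}
  have hA : MeasurableSet[F n] A := meas_of_dep n _ fun x y hxy hx => by
    simp only [A, Set.mem_ofPred_eq] at hx ⊢; rw [dep_w n i (mem_range.1 hi) x y hxy, hx]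
  have hA' : MeasurableSet A := F.le n _ hA
  have key : ∀ k, n ≤ k → ∫ y, f k y * (w i y : ℂ) ∂mu
      = ∫ y in A, f k y ∂mu - ∫ y in Aᶜ, f k y ∂mu := by
    intro k hk
    have hd : Dep k fun y => f k y * (w i y : ℂ) := fun x y hxy => by
      simp only [mart_dep hf k x y hxy, (dep_w n i (mem_range.1 hi)).mono hk x y hxy]
    rw [← integral_add_compl hA' hd.intg, sub_eq_add_neg, ← integral_neg]
    congr 1
    · exact setIntegral_congr_fun hA' fun y hy => by
        have : w i y = 1 := hy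
        simp [this]
    · refine setIntegral_congr_fun hA'.compl fun y hy => ?_
      have h1 : w i y ≠ 1 := hy
      have h2 : w i y = -1 := (abs_eq (zero_le_one' ℝ)).1 (abs_w i y) |>.resolve_left h1
      simp [h2]
  rw [key n le_rfl, key k hk, hf.setIntegral_eq hk hA, hf.setIntegral_eq hk hA.compl]

def sft (m : ℕ) (T : Finset ℕ) (x : G) : G :=
  fun k => if k < m ∧ m - 1 - k ∈ T then !(x k) else x k

theorem sft_insert (m s : ℕ) (T : Finset ℕ) (hs : s ∉ T) (x : G) :
    sft m (insert s T) x = if s < m then fl (m - 1 - s) (sft m T x) else sft m T x := by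
  funext k
  by_cases h : s < m
  · simp only [if_pos h, sft, fl, mem_insert]
    by_cases hk : k = m - 1 - s
    · have h1 : m - 1 - k = s := by omega
      have h2 : k < m := by omega
      simp [h1, h2, hs, ← hk]
    · by_cases h2 : k < m
      · have h1 : m - 1 - k ≠ s := by omega
        simp [hk, h1]
      · simp [hk, h2]
  · simp only [if_neg h, sft, mem_insert]
    by_cases h2 : k < m
    · have h1 : m - 1 - k ≠ s := by omega
      simp [h1]
    · simp [h2]

theorem mp_sft (m : ℕ) (T : Finset ℕ) : MeasurePreserving (sft m T) mu mu := by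
  induction T using Finset.induction_on with
  | empty => have : sft m ∅ = id := by funext x k; simp [sft]
             rw [this]; exact MeasurePreserving.id _
  | insert s T hs ih =>
    by_cases h : s < m
    · have : sft m (insert s T) = fl (m - 1 - s) ∘ sft m T := by
        funext x; rw [sft_insert m s T hs, if_pos h]; rfl
      rw [this]; exact (mp_fl _).comp ih
    · have : sft m (insert s T) = sft m T := by funext x; rw [sft_insert m s T hs, if_neg h]
      rw [this]; exact ih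

theorem w_sft (m i : ℕ) (T : Finset ℕ) (hT : T ⊆ range m) (x : G) :
    w i (sft m T x) = chi m T i * w i x := by
  induction T using Finset.induction_on with
  | empty => have : sft m ∅ x = x := by funext k; simp [sft]
             simp [this, chi]
  | insert s T hs ih =>
    rw [sft_insert m s T hs, if_pos (mem_range.1 (hT (mem_insert_self _ _))), w_fl,
      ih ((subset_insert _ _).trans hT), chi, chi, prod_insert hs, mul_assoc]

theorem chi_add (m j : ℕ) (T : Finset ℕ) (hT : T ⊆ range m) : chi m T (2 ^ m + j) = chi m T j :=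
  prod_congr rfl fun s hs => by
    rw [Nat.testBit_two_pow_add_gt (by have := mem_range.1 (hT hs); omega)]

theorem sum_blocks (g : ℕ → ℂ) (n : ℕ) : ∑ i ∈ range (2 ^ n), g i
    = g 0 + ∑ m ∈ range n, ∑ j ∈ range (2 ^ m), g (2 ^ m + j) := by
  induction n with
  | zero => simp
  | succ n ih => rw [pow_succ, mul_two, sum_range_add, ih, sum_range_succ, add_assoc]

theorem abel_bd (E : ℕ → ℝ) (hE : ∀ m, E (m + 1) ≤ E m) (P : ℕ → ℂ) (n : ℕ) (hn : 0 ≤ E n) (Y : ℝ)
    (hY : ∀ m ≤ n, ‖P m‖ ≤ Y) :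
    ‖E 0 * P 0 + ∑ m ∈ range n, E (m + 1) * (P (m + 1) - P m)‖ ≤ E 0 * Y := by
  have h1 : ∀ n, E 0 * P 0 + ∑ m ∈ range n, E (m + 1) * (P (m + 1) - P m)
      = E n * P n + ∑ m ∈ range n, ((E m - E (m + 1) : ℝ) : ℂ) * P m := by
    intro n
    induction n with
    | zero => simp
    | succ n ih => rw [sum_range_succ, sum_range_succ, ← add_assoc, ih]; push_cast; ring
  rw [h1]
  refine (norm_add_le _ _).trans ?_
  have h2 : ‖∑ m ∈ range n, ((E m - E (m + 1) : ℝ) : ℂ) * P m‖
      ≤ ∑ m ∈ range n, (E m - E (m + 1)) * Y := (norm_sum_le _ _).trans (sum_le_sum fun m hm => by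
    rw [norm_mul, Complex.norm_real, Real.norm_eq_abs, abs_of_nonneg (sub_nonneg.2 (hE m))]
    exact mul_le_mul_of_nonneg_left (hY m (mem_range.1 hm).le) (sub_nonneg.2 (hE m)))
  rw [← sum_mul, sum_range_sub'] at h2
  rw [norm_mul, Complex.norm_real, Real.norm_eq_abs, abs_of_nonneg hn]
  have := mul_le_mul_of_nonneg_left (hY n le_rfl) hn
  linarith

theorem hn_mono : Monotone hn := monotone_nat_of_le_succ fun n => by
  unfold hn; rw [sum_Icc_succ_top (by omega)]
  have : (0 : ℝ) ≤ 1 / ((n + 1 : ℕ) : ℝ) := by positivity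
  linarith

theorem hn_low (n : ℕ) : 1 + (n : ℝ) / 2 ≤ hn (2 ^ n) := by
  induction n with
  | zero => simp [hn]
  | succ n ih =>
    have h1 : ∀ j ≤ 2 ^ n, hn (2 ^ n) + j / (2 * 2 ^ n) ≤ hn (2 ^ n + j) := by
      intro j hj
      induction j with
      | zero => simp
      | succ j ihj =>
        have := ihj (by omega)
        rw [← add_assoc]
        conv_rhs => unfold hn
        rw [sum_Icc_succ_top (by omega)]
        have h2 : (1 : ℝ) / (2 * 2 ^ n) ≤ 1 / ((2 ^ n + j + 1 : ℕ) : ℝ) := by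
          refine one_div_le_one_div_of_le (by positivity) ?_
          have : ((j + 1 : ℕ) : ℝ) ≤ ((2 ^ n : ℕ) : ℝ) := by exact_mod_cast hj
          push_cast at this ⊢; linarith
        unfold hn at this ⊢
        push_cast at this h2 ⊢
        rw [add_div]; linarith
    have := h1 _ le_rfl
    rw [show 2 ^ n + 2 ^ n = 2 ^ (n + 1) by ring] at this
    push_cast at this ⊢
    rw [show (2 : ℝ) ^ n / (2 * 2 ^ n) = 1 / 2 by field_simp] at this
    linarith

theorem riesz_sum (c : ℕ → ℂ) (N : ℕ) : ∑ k ∈ Icc 1 N, (∑ j ∈ range k, c j) / k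
    = ∑ i ∈ range N, ((hn N - hn i : ℝ) : ℂ) * c i := by
  induction N with
  | zero => simp
  | succ N ih =>
    have : hn (N + 1) = hn N + 1 / ((N + 1 : ℕ) : ℝ) := by
      unfold hn; rw [sum_Icc_succ_top (by omega)]
    rw [sum_Icc_succ_top (by omega), ih, this, sum_div, sum_range_succ _ N, sum_range_succ _ N,
      ← add_assoc, ← sum_add_distrib]
    congr 1
    · exact sum_congr rfl fun i _ => by push_cast; ring
    · push_cast; ring

/-- pointwise bound -/
theorem point (b : ℕ → ℂ) (n : ℕ) (x : G) (Y : Finset ℕ → ℝ)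
    (hY : ∀ T, ∀ m ≤ n, ‖∑ i ∈ range (2 ^ m), b i * (w i x : ℂ)‖ ≤ Y T)
    (hY' : ∀ T, ∀ m < n, ‖∑ i ∈ range (2 ^ m), b i * (w i (sft m T x) : ℂ)‖ ≤ Y T ∧
      ‖∑ i ∈ range (2 ^ (m + 1)), b i * (w i (sft m T x) : ℂ)‖ ≤ Y T) :
    ‖∑ i ∈ range (2 ^ n), ((hn (2 ^ n) - hn i : ℝ) : ℂ) * (b i * (w i x : ℂ))‖
      ≤ hn (2 ^ n) * (9 * ∑ T ∈ (range n).powerset, (∏ s ∈ T, gam s) * Y T) := by
  choose c hc1 hc2 using coefs
  set P : ℕ → G → ℂ := fun m y => ∑ i ∈ range (2 ^ m), b i * (w i y : ℂ) with hP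
  have hd : ∀ m y, ∑ j ∈ range (2 ^ m), b (2 ^ m + j) * (w (2 ^ m + j) y : ℂ)
      = P (m + 1) y - P m y := fun m y => by
    simp only [hP]; rw [pow_succ, mul_two, sum_range_add]; ring
  set E : ℕ → ℝ := fun m => Nat.casesOn m (hn (2 ^ n)) fun m => hn (2 ^ n) - hn (2 ^ m) with hE
  have hblock : ∀ m, ∑ j ∈ range (2 ^ m), ((hn (2 ^ n) - hn (2 ^ m + j) : ℝ) : ℂ)
      * (b (2 ^ m + j) * (w (2 ^ m + j) x : ℂ)) = E (m + 1) * (P (m + 1) x - P m x)
      - ∑ T ∈ (range m).powerset, c m T * ((P (m + 1) x - P m x)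
        - (P (m + 1) (sft m T x) - P m (sft m T x))) := by
    intro m
    simp only [← hd, ← sum_sub_distrib, mul_sum]
    rw [sum_comm, ← sum_sub_distrib]
    refine sum_congr rfl fun j hj => ?_
    have h1 : hn (2 ^ n) - hn (2 ^ m + j)
        = E (m + 1) - ∑ T ∈ (range m).powerset, c m T * (1 - chi m T j) := by
      rw [← hc2 m j (mem_range.1 hj)]; simp only [hE]; ring
    rw [h1]; push_cast
    rw [sub_mul, sum_mul]
    congr 1
    refine sum_congr rfl fun T hT => ?_
    rw [w_sft m _ T (mem_powerset.1 hT), chi_add m j T (mem_powerset.1 hT)]; push_cast; ring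
  have hY0 : ∀ T, 0 ≤ Y T := fun T => (norm_nonneg _).trans (hY T 0 (Nat.zero_le _))
  have hG : ∀ T : Finset ℕ, 0 ≤ (∏ s ∈ T, gam s) * Y T := fun T =>
    mul_nonneg (prod_nonneg fun s _ => (gam_pos s).le) (hY0 T)
  set Z := ∑ T ∈ (range n).powerset, (∏ s ∈ T, gam s) * Y T with hZ
  have hl := hn_low n
  have hl0 : 0 ≤ hn (2 ^ n) := by have : (0 : ℝ) ≤ n / 2 := by positivity
                                  linarith
  rw [sum_blocks]
  simp only [hblock]
  have h0 : ((hn (2 ^ n) - hn 0 : ℝ) : ℂ) * (b 0 * (w 0 x : ℂ)) = E 0 * P 0 x := by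
    simp [hE, hP, hn]
  rw [h0, sum_sub_distrib, ← add_sub_assoc]
  have A := abel_bd E (fun m => by
      cases m with
      | zero => simp [hE, hn]
      | succ m =>
        have := hn_mono (Nat.pow_le_pow_right two_pos (Nat.le_succ m))
        simp only [hE]; linarith) (fun m => P m x) n (by
      cases n with
      | zero => exact hl0
      | succ n => exact sub_nonneg.2 (hn_mono (Nat.pow_le_pow_right two_pos (Nat.le_succ n))))
    (Y ∅) (hY ∅)
  have hYZ : Y ∅ ≤ Z := by
    have := single_le_sum (f := fun T => (∏ s ∈ T, gam s) * Y T) (fun T _ => hG T)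
      (empty_mem_powerset (range n))
    simpa using this
  have B : ‖∑ m ∈ range n, ∑ T ∈ (range m).powerset, c m T * ((P (m + 1) x - P m x)
        - (P (m + 1) (sft m T x) - P m (sft m T x)))‖ ≤ ∑ m ∈ range n, 4 * Z := by
    refine (norm_sum_le _ _).trans (sum_le_sum fun m hm => (norm_sum_le _ _).trans ?_)
    have hm' := mem_range.1 hm
    calc _ ≤ ∑ T ∈ (range m).powerset, 4 * ((∏ s ∈ T, gam s) * Y T) := by
          refine sum_le_sum fun T hT => ?_
          rw [norm_mul, Complex.norm_real, Real.norm_eq_abs, mul_left_comm]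
          refine mul_le_mul (hc1 m T (mem_powerset.1 hT)) ?_ (norm_nonneg _)
            (prod_nonneg fun s _ => (gam_pos s).le)
          have a1 := hY T (m + 1) hm'
          have a2 := hY T m hm'.le
          have a3 := hY' T m hm'
          have a4 := norm_sub_le (P (m + 1) x) (P m x)
          have a5 := norm_sub_le (P (m + 1) (sft m T x)) (P m (sft m T x))
          refine (norm_sub_le _ _).trans ?_
          linarith [a3.1, a3.2]
      _ ≤ 4 * Z := by
          rw [← mul_sum]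
          exact mul_le_mul_of_nonneg_left (sum_le_sum_of_subset_of_nonneg
            (powerset_mono.2 (range_mono hm'.le)) fun T _ _ => hG T) (by norm_num)
  rw [sum_const, card_range, nsmul_eq_mul] at B
  refine (norm_sub_le _ _).trans ?_
  have hZ0 : 0 ≤ Z := (hY0 _).trans hYZ
  have A' : E 0 * Y ∅ ≤ hn (2 ^ n) * Z := mul_le_mul_of_nonneg_left hYZ hl0
  nlinarith

noncomputable def Gm (f : ℕ → G → ℂ) : ℕ → G → ℝ
  | 0, x => ‖f 0 x‖
  | m + 1, x => max (Gm f m x) ‖f (m + 1) x‖

theorem Gm_mono (f : ℕ → G → ℂ) (x : G) : Monotone fun m => Gm f m x :=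
  monotone_nat_of_le_succ fun _ => le_max_left _ _

theorem Gm_ge (f : ℕ → G → ℂ) (m : ℕ) (x : G) : ‖f m x‖ ≤ Gm f m x := by
  cases m with
  | zero => exact le_rfl
  | succ m => exact le_max_right _ _

theorem Gm_nn (f : ℕ → G → ℂ) (m : ℕ) (x : G) : 0 ≤ Gm f m x := (norm_nonneg _).trans (Gm_ge f m x)

theorem Gm_dep {f : ℕ → G → ℂ} (hf : ∀ n, Dep n (f n)) : ∀ m, Dep m (Gm f m)
  | 0 => fun x y h => by simp only [Gm, hf 0 x y h]
  | m + 1 => fun x y h => by simp only [Gm, hf _ x y h, (Gm_dep hf m).mono (Nat.le_succ m) x y h]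

theorem Gm_le (f : ℕ → G → ℂ) (x : G) : ∀ m, ENNReal.ofReal (Gm f m x) ≤ ⨆ n, ‖f n x‖ₑ
  | 0 => le_iSup_of_le 0 (by simp [Gm])
  | m + 1 => by
    simp only [Gm, ENNReal.ofReal_max]
    exact max_le (Gm_le f x m) (le_iSup_of_le (m + 1) (by simp))

/-- shifted maximal function -/
theorem shifted (H : ℕ → G → ℝ) (hd : ∀ m, Dep m (H m)) (hm : ∀ x, Monotone fun m => H m x)
    (h0 : ∀ m x, 0 ≤ H m x) (n : ℕ) (T : Finset ℕ) :
    ∃ Z : G → ℝ, Integrable Z mu ∧ (∀ x, H n x ≤ Z x) ∧
      (∀ x, ∀ m < n, H (m + 1) (sft m T x) ≤ Z x) ∧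
      ∫ x, Z x ∂mu ≤ 3 * (∏ s ∈ T, ((s : ℝ) + 1)) * ∫ x, H n x ∂mu := by
  set L := ∏ s ∈ T, (s + 1) with hL
  have hL1 : ∀ s ∈ T, s + 1 ≤ L := fun s hs =>
    single_le_prod' (f := fun s => s + 1) (fun _ _ => by omega) hs
  have hL0 : 1 ≤ L := one_le_prod' fun _ _ => by omega
  set D : ℕ → G → ℝ := fun i y => H (i + 1) y - H i y with hD
  have hD0 : ∀ i y, 0 ≤ D i y := fun i y => sub_nonneg.2 (hm y (Nat.le_succ i))
  have hDi : ∀ i, Integrable (D i) mu := fun i => (hd _).intg.sub (hd _).intg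
  have hDs : ∀ i k, Integrable (fun x => D i (sft k T x)) mu := fun i k =>
    (mp_sft k T).integrable_comp_of_integrable (hDi i)
  have hDe : ∀ i k, ∫ x, D i (sft k T x) ∂mu = ∫ x, H (i + 1) x ∂mu - ∫ x, H i x ∂mu := by
    intro i k
    rw [← integral_sub (hd _).intg (hd _).intg,
      ← integral_map (mp_sft k T).measurable.aemeasurable
        (by rw [(mp_sft k T).map_eq]; exact (hDi i).aestronglyMeasurable), (mp_sft k T).map_eq]
  have hS : Integrable (fun x => ∑ i ∈ range n, ∑ r ∈ range (L + 1), D i (sft (i + r) T x)) mu :=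
    integrable_finsetSum _ fun i _ => integrable_finsetSum _ fun r _ => hDs _ _
  refine ⟨fun x => H n x + ∑ i ∈ range n, ∑ r ∈ range (L + 1), D i (sft (i + r) T x),
    (hd n).intg.add hS, fun x => le_add_of_nonneg_right
      (sum_nonneg fun i _ => sum_nonneg fun r _ => hD0 _ _), fun x m hmn => ?_, ?_⟩
  · have e1 : H (m + 1) (sft m T x)
        = H (m - L) (sft m T x) + ∑ i ∈ Ico (m - L) (m + 1), D i (sft m T x) := by
      rw [sum_Ico_sub (fun i => H i (sft m T x)) (by omega)]; ring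
    have e2 : H (m - L) (sft m T x) = H (m - L) x := hd _ _ _ fun j hj => by
      have : m - 1 - j ∉ T := fun h => by have := hL1 _ h; omega
      simp [sft, this]
    rw [e1, e2]
    refine add_le_add (hm x (by omega)) (le_trans (sum_le_sum fun i hi => ?_)
      (sum_le_sum_of_subset_of_nonneg (s := Ico (m - L) (m + 1))
        (fun i hi => by simp only [mem_Ico, mem_range] at hi ⊢; omega)
        fun i _ _ => sum_nonneg fun r _ => hD0 _ _))
    rw [mem_Ico] at hi
    have := single_le_sum (f := fun r => D i (sft (i + r) T x)) (fun r _ => hD0 _ _)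
      (show m - i ∈ range (L + 1) by rw [mem_range]; omega)
    simp only [show i + (m - i) = m by omega] at this
    exact this
  · rw [integral_add (hd n).intg hS, integral_finsetSum _ fun i _ =>
      integrable_finsetSum _ fun r _ => hDs _ _]
    simp only [integral_finsetSum _ fun r _ => hDs _ _, hDe, sum_const, card_range, nsmul_eq_mul]
    rw [← mul_sum, sum_range_sub fun i => ∫ x, H i x ∂mu]
    have a0 : 0 ≤ ∫ x, H 0 x ∂mu := integral_nonneg (h0 0)
    have a1 : 0 ≤ ∫ x, H n x ∂mu := integral_nonneg (h0 n)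
    have a2 : (∏ s ∈ T, ((s : ℝ) + 1)) = L := by rw [hL]; push_cast; rfl
    have a3 : (1 : ℝ) ≤ L := by exact_mod_cast hL0
    rw [a2]; push_cast
    nlinarith

theorem rpow_sum {p : ℝ} (hp : 0 < p) (hp1 : p ≤ 1) {ι : Type*} (s : Finset ι) (a : ι → ℝ)
    (ha : ∀ i, 0 ≤ a i) : (∑ i ∈ s, a i) ^ p ≤ ∑ i ∈ s, a i ^ p := by
  classical
  induction s using Finset.induction_on with
  | empty => simp [Real.zero_rpow hp.ne']
  | insert i s hi ih =>
    rw [sum_insert hi, sum_insert hi]
    exact (Real.rpow_add_le_add_rpow (ha i) (sum_nonneg fun j _ => ha j) hp.le hp1).trans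
      (by linarith)

theorem riesz {p : ℝ} (hp : 0 < p) (hp1 : p ≤ 1) : ∃ C : ℝ, ∀ f : ℕ → G → ℂ, Martingale f F mu →
    ∀ n, lpC p (fun x => (1 / (hn (2 ^ n) : ℂ)) * ∑ k ∈ Icc 1 (2 ^ n), SC k f x / k)
      ≤ ENNReal.ofReal C * hpC p f := by
  have hsum : Summable fun s : ℕ => gam s ^ p * ((s : ℝ) + 1) := by
    have hr : ‖((2 / 3 : ℝ) ^ p)‖ < 1 := by
      rw [Real.norm_eq_abs, abs_of_pos (by positivity)]
      exact Real.rpow_lt_one (by norm_num) (by norm_num) hp
    refine (((summable_pow_mul_geometric_of_norm_lt_one 1 hr).add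
      (summable_geometric_of_norm_lt_one hr)).mul_left (2 ^ p)).congr fun s => ?_
    unfold gam
    rw [Real.mul_rpow (by norm_num) (by positivity), ← Real.rpow_pow_comm (by norm_num)]; ring
  set K := 9 ^ p * (3 * Real.exp (∑' s : ℕ, gam s ^ p * ((s : ℝ) + 1))) with hK
  refine ⟨K ^ (1 / p), fun f hf n => ?_⟩
  have hdep := mart_dep hf
  have hH := fun T => shifted (fun m x => Gm f m x ^ p)
    (fun m x y h => by simp only [Gm_dep hdep m x y h])
    (fun x a b hab => Real.rpow_le_rpow (Gm_nn _ _ _) (Gm_mono f x hab) hp.le)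
    (fun m x => Real.rpow_nonneg (Gm_nn _ _ _) _) n T
  choose Z hZi hZ1 hZ2 hZ3 using hH
  have hZ0 : ∀ T x, 0 ≤ Z T x := fun T x => (Real.rpow_nonneg (Gm_nn _ _ _) _).trans (hZ1 T x)
  have hinv : ∀ a z : ℝ, 0 ≤ a → a ^ p ≤ z → a ≤ z ^ (1 / p) := fun a z ha h => by
    rw [one_div]; exact (Real.le_rpow_inv_iff_of_pos ha ((Real.rpow_nonneg ha _).trans h) hp).2 h
  have hG : ∀ T : Finset ℕ, 0 ≤ ∏ s ∈ T, gam s := fun T => prod_nonneg fun s _ => (gam_pos s).le
  have hl : 0 < hn (2 ^ n) := by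
    have := hn_low n
    have : (0 : ℝ) ≤ n / 2 := by positivity
    linarith
  have hpt : ∀ x, ‖(1 / (hn (2 ^ n) : ℂ)) * ∑ k ∈ Icc 1 (2 ^ n), SC k f x / k‖ ^ p
      ≤ 9 ^ p * ∑ T ∈ (range n).powerset, (∏ s ∈ T, gam s ^ p) * Z T x := by
    intro x
    have h1 := point (coefC f) n x (fun T => Z T x ^ (1 / p))
      (fun T m hm => by
        refine le_trans (le_of_eq (congrArg _ (mart_repr hf m x).symm)) ?_
        exact ((Gm_ge f m x).trans (Gm_mono f x hm)).trans (hinv _ _ (Gm_nn _ _ _) (hZ1 T x)))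
      (fun T m hm => by
        have h2 := hinv _ _ (Gm_nn _ _ _) (hZ2 T x m hm)
        refine ⟨le_trans (le_of_eq (congrArg _ (mart_repr hf m _).symm)) ?_,
          le_trans (le_of_eq (congrArg _ (mart_repr hf (m + 1) _).symm)) ?_⟩
        · exact ((Gm_ge f m _).trans (Gm_mono f _ (Nat.le_succ m))).trans h2
        · exact (Gm_ge f _ _).trans h2)
    rw [← riesz_sum] at h1
    have h2 : ‖(1 / (hn (2 ^ n) : ℂ)) * ∑ k ∈ Icc 1 (2 ^ n), SC k f x / k‖
        ≤ 9 * ∑ T ∈ (range n).powerset, (∏ s ∈ T, gam s) * Z T x ^ (1 / p) := by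
      rw [norm_mul, norm_div, norm_one, Complex.norm_real, Real.norm_eq_abs, abs_of_pos hl,
        one_div_mul_eq_div, div_le_iff₀' hl]
      exact h1
    have hn' : ∀ T, 0 ≤ (∏ s ∈ T, gam s) * Z T x ^ (1 / p) := fun T =>
      mul_nonneg (hG T) (Real.rpow_nonneg (hZ0 T x) _)
    refine (Real.rpow_le_rpow (norm_nonneg _) h2 hp.le).trans ?_
    rw [Real.mul_rpow (by norm_num) (sum_nonneg fun T _ => hn' T)]
    refine mul_le_mul_of_nonneg_left ((rpow_sum hp hp1 _ _ hn').trans (le_of_eq ?_)) (by positivity)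
    refine sum_congr rfl fun T _ => ?_
    rw [Real.mul_rpow (hG T) (Real.rpow_nonneg (hZ0 T x) _), ← Real.rpow_mul (hZ0 T x),
      one_div_mul_cancel hp.ne', Real.rpow_one, Real.finsetProd_rpow _ _ fun s _ => (gam_pos s).le]
  have hGp : ∀ T : Finset ℕ, 0 ≤ ∏ s ∈ T, gam s ^ p := fun T =>
    prod_nonneg fun s _ => Real.rpow_nonneg (gam_pos s).le _
  have hI : Integrable (fun x => 9 ^ p * ∑ T ∈ (range n).powerset,
      (∏ s ∈ T, gam s ^ p) * Z T x) mu :=
    (integrable_finsetSum _ fun T _ => (hZi T).const_mul _).const_mul _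
  have hJ : Integrable (fun x => Gm f n x ^ p) mu :=
    Dep.intg (K := n) fun x y h => by simp only [Gm_dep hdep n x y h]
  have hJ0 : 0 ≤ ∫ x, Gm f n x ^ p ∂mu := integral_nonneg fun x => Real.rpow_nonneg (Gm_nn _ _ _) _
  have hint : ∫ x, 9 ^ p * ∑ T ∈ (range n).powerset, (∏ s ∈ T, gam s ^ p) * Z T x ∂mu
      ≤ K * ∫ x, Gm f n x ^ p ∂mu := by
    rw [integral_const_mul, integral_finsetSum _ fun T _ => (hZi T).const_mul _, hK, mul_assoc]
    refine mul_le_mul_of_nonneg_left ?_ (by positivity)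
    simp only [integral_const_mul]
    calc _ ≤ ∑ T ∈ (range n).powerset, (∏ s ∈ T, gam s ^ p * ((s : ℝ) + 1))
          * (3 * ∫ x, Gm f n x ^ p ∂mu) := sum_le_sum fun T _ => by
          refine (mul_le_mul_of_nonneg_left (hZ3 T) (hGp T)).trans (le_of_eq ?_)
          rw [prod_mul_distrib]; ring
      _ ≤ Real.exp (∑' s : ℕ, gam s ^ p * ((s : ℝ) + 1)) * (3 * ∫ x, Gm f n x ^ p ∂mu) := by
          rw [← sum_mul, ← prod_one_add]
          have hq : ∀ s : ℕ, 0 ≤ gam s ^ p * ((s : ℝ) + 1) := fun s => by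
            have := gam_pos s; positivity
          refine mul_le_mul_of_nonneg_right ((Real.prod_one_add_le_exp_sum _ hq).trans
            (Real.exp_le_exp.2 (hsum.sum_le_tsum _ fun s _ => hq s))) (by positivity)
      _ = _ := by ring
  have hK0 : 0 ≤ K := by positivity
  unfold lpC hpC
  rw [← ENNReal.ofReal_rpow_of_nonneg hK0 (by positivity),
    ← ENNReal.mul_rpow_of_nonneg _ _ (by positivity)]
  refine ENNReal.rpow_le_rpow ?_ (by positivity)
  calc _ ≤ ∫⁻ x, ENNReal.ofReal (9 ^ p * ∑ T ∈ (range n).powerset,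
        (∏ s ∈ T, gam s ^ p) * Z T x) ∂mu := lintegral_mono fun x => by
        rw [← ofReal_norm, ENNReal.ofReal_rpow_of_nonneg (norm_nonneg _) hp.le]
        exact ENNReal.ofReal_le_ofReal (hpt x)
    _ ≤ ENNReal.ofReal (K * ∫ x, Gm f n x ^ p ∂mu) := by
        rw [← ofReal_integral_eq_lintegral_ofReal hI (ae_of_all _ fun x =>
          mul_nonneg (by positivity) (sum_nonneg fun T _ => mul_nonneg (hGp T) (hZ0 T x)))]
        exact ENNReal.ofReal_le_ofReal hint
    _ ≤ _ := by
        rw [ENNReal.ofReal_mul hK0, ofReal_integral_eq_lintegral_ofReal hJ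
          (ae_of_all _ fun x => Real.rpow_nonneg (Gm_nn _ _ _) _)]
        refine mul_le_mul_right (lintegral_mono fun x => ?_) _
        rw [← ENNReal.ofReal_rpow_of_nonneg (Gm_nn _ _ _) hp.le]
        exact ENNReal.rpow_le_rpow (Gm_le f x n) hp.le

end Pool.Agent.H46.Wal
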