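import Mathlib

/-! Dyadic group, Walsh functions, dyadic martingales and their Hardy quasi-norm. -/

namespace Pool.Agent.H46.Wal

open MeasureTheory ProbabilityTheory Filter Finset
open scoped ENNReal

/-- The dyadic group as a set: sequences of bits (`false = 0`, `true = 1`). -/
abbrev G : Type := ℕ → Bool

/-- The fair coin: mass `1/2` on each bit. -/
noncomputable def coin : Measure Bool := (2⁻¹ : ℝ≥0∞) • Measure.count

instance : IsProbabilityMeasure coin := ⟨by
  rw [coin, Measure.smul_apply, Measure.count_univ]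
  simp [ENNReal.inv_mul_cancel]⟩

/-- The product probability measure on `G`. -/
noncomputable def mu : Measure G := Measure.infinitePi (fun _ : ℕ => coin)

instance : IsProbabilityMeasure mu := by unfold mu; infer_instance

/-- The dyadic interval `I_n(x)`. -/
def I (n : ℕ) (x : G) : Set G := {y | ∀ j < n, y j = x j}

/-- The sigma-algebra generated by the intervals `I_n(x)`. -/
@[reducible] def Fn (n : ℕ) : MeasurableSpace G :=
  MeasurableSpace.generateFrom {s | ∃ x, s = I n x}

theorem meas_of_dep (n : ℕ) (s : Set G)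
    (h : ∀ x y : G, (∀ j < n, y j = x j) → x ∈ s → y ∈ s) : MeasurableSet[Fn n] s := by
  classical
  have : s = ⋃ z : {z : Fin n → Bool //
      (fun j => if hj : j < n then z ⟨j, hj⟩ else false) ∈ s},
      I n (fun j => if hj : j < n then z.1 ⟨j, hj⟩ else false) := by
    ext x
    simp only [Set.mem_iUnion]
    constructor
    · intro hx
      refine ⟨⟨fun j => x j, h x _ (fun j hj => by simp [hj]) hx⟩, fun j hj => by simp [hj]⟩
    · rintro ⟨z, hz⟩
      exact h _ _ hz z.2
  rw [this]
  exact MeasurableSet.iUnion fun z => MeasurableSpace.measurableSet_generateFrom ⟨_, rfl⟩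

/-- The dyadic filtration. -/
def F : Filtration ℕ (inferInstance : MeasurableSpace G) where
  seq := Fn
  mono' := by
    intro m n hmn
    refine MeasurableSpace.generateFrom_le ?_
    rintro s ⟨x, rfl⟩
    exact meas_of_dep n _ fun a b hab ha j hj => (hab j (lt_of_lt_of_le hj hmn)).trans (ha j hj)
  le' := by
    intro n
    refine MeasurableSpace.generateFrom_le ?_
    rintro s ⟨x, rfl⟩
    have : I n x = ⋂ j, ⋂ (_ : j < n), (fun y : G => y j) ⁻¹' {x j} := by
      ext y; simp [I]
    rw [this]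
    exact MeasurableSet.iInter fun j => MeasurableSet.iInter fun _ =>
      measurable_pi_apply j (measurableSet_singleton _)

/-- Rademacher functions `r_k(x) = (-1)^{x_k}`. -/
def r (k : ℕ) (x : G) : ℝ := (-1) ^ (x k).toNat

/-- Walsh functions `w_n = ∏ r_k^{n_k}` (all binary digits `n_k = 1` have `k < n`). -/
def w (n : ℕ) (x : G) : ℝ := ∏ k ∈ range n, r k x ^ (n.testBit k).toNat

/-- `‖g‖_p = (∫ |g|^p)^{1/p}`. -/
noncomputable def lp (p : ℝ) (g : G → ℝ) : ℝ≥0∞ := (∫⁻ x, ‖g x‖ₑ ^ p ∂mu) ^ (1 / p)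

/-- `‖f‖_{H_p} = ‖sup_n |f^{(n)}|‖_p`. -/
noncomputable def hp (p : ℝ) (f : ℕ → G → ℝ) : ℝ≥0∞ :=
  (∫⁻ x, (⨆ n, ‖f n x‖ₑ) ^ p ∂mu) ^ (1 / p)

/-- Walsh-Fourier coefficients of a martingale. -/
noncomputable def coef (f : ℕ → G → ℝ) (i : ℕ) : ℝ :=
  limUnder atTop fun k => ∫ x, f k x * w i x ∂mu

/-- The sums `S_k f = ∑_{j<k} coef f j * w_j`. -/
noncomputable def S (k : ℕ) (f : ℕ → G → ℝ) (x : G) : ℝ := ∑ j ∈ range k, coef f j * w j x

end Pool.Agent.H46.Wal
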