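import Mathlib

set_option autoImplicit false

namespace Pool.Agent.H46.Word

/-- `x` is a sum of exactly `k` elements of `A ∪ (-A)`, repetitions allowed. -/
def IsSum (A : Set ℕ) (k : ℕ) (x : ℤ) : Prop :=
  ∃ f : Fin k → ℤ, (∀ i, ∃ a ∈ A, f i = (a : ℤ) ∨ f i = -(a : ℤ)) ∧ ∑ i, f i = x

/-- The integers of word length exactly `r`. -/
def sph (A : Set ℕ) (r : ℕ) : Set ℤ := {x | IsSum A r x ∧ ∀ k < r, ¬ IsSum A k x}

/-- The family of generating sets of positive integers with sphere of radius `r` equal to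
`W ∪ (-W)`. -/
def family (r : ℕ) (W : Finset ℕ) : Set (Set ℕ) :=
  {A | (∀ a ∈ A, 0 < a) ∧ (∀ x : ℤ, ∃ k, IsSum A k x) ∧
    sph A r = {x : ℤ | ∃ w ∈ W, x = (w : ℤ) ∨ x = -(w : ℤ)}}

/-- The counting function. -/
noncomputable def cnt (A : Set ℕ) (t : ℝ) : ℕ := {a | a ∈ A ∧ (a : ℝ) ≤ t}.ncard

end Pool.Agent.H46.Word
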